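import Pool.Agent.Lib.MP_216314_pr.CV.GlB

/-!
# Leading coefficients of the solution of the open strip: the first variable, final statements

`gv_last`, `gv_first`: as a function of the last (first) variable `t`, `t ^ d * gv L` with `L = 2 * d + 1` is a
palindromic polynomial of degree at most `2 * d`, with leading coefficient `(-1) ^ d * gv (L - 1)`.
-/

set_option autoImplicit false

noncomputable section

namespace CV

open Finset MvPolynomial PX

theorem up0_sw (i : ℕ) (y : ℕ → ℂ) : CF.sh 1 (sw (i + 1) y) = sw i (CF.sh 1 y) := by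
  funext k
  show sw (i + 1) y (k + 1) = sw i (CF.sh 1 y) k
  unfold sw
  rcases eq_or_ne k i with h | h
  · rw [h, Equiv.swap_apply_left, Equiv.swap_apply_left]
    rfl
  · rcases eq_or_ne k (i + 1) with h1 | h1
    · rw [h1, Equiv.swap_apply_right, Equiv.swap_apply_right]
      rfl
    · rw [Equiv.swap_apply_of_ne_of_ne (by omega) (by omega), Equiv.swap_apply_of_ne_of_ne h h1]
      rfl

/-- shift by one site, the first spin is down -/
def Up (v : Vec) : Vec := fun s => if 0 ∈ s then 0 else v (s.image fun x => x - 1)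

theorem Up_smul (c : ℂ) (v : Vec) : Up (c • v) = c • Up v := by
  funext s
  show (if 0 ∈ s then 0 else c * v (s.image fun x => x - 1)) = c * (if 0 ∈ s then 0 else v (s.image fun x => x - 1))
  split_ifs
  · rw [mul_zero]
  · rfl

theorem mem_dn {s : Finset ℕ} (h0 : 0 ∉ s) {x : ℕ} : x ∈ s.image (fun x => x - 1) ↔ x + 1 ∈ s := by
  rw [Finset.mem_image]
  constructor
  · rintro ⟨a, ha, rfl⟩
    have h1 : a ≠ 0 := fun h => h0 (h ▸ ha)
    have h2 : a - 1 + 1 = a := by omega
    rw [h2]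
    exact ha
  · intro h
    exact ⟨x + 1, h, by omega⟩

theorem zero_mem_sg (i : ℕ) (s : Finset ℕ) : 0 ∈ sg (i + 1) s ↔ 0 ∈ s := by
  rw [mem_sg, Equiv.swap_apply_of_ne_of_ne (by omega) (by omega)]

theorem dn_sg (i : ℕ) {s : Finset ℕ} (h0 : 0 ∉ s) :
    (sg (i + 1) s).image (fun x => x - 1) = sg i (s.image fun x => x - 1) := by
  have h1 : 0 ∉ sg (i + 1) s := fun h => h0 ((zero_mem_sg i s).1 h)
  ext x
  rw [mem_dn h1, mem_sg, mem_sg, mem_dn h0]
  rcases eq_or_ne x i with h | h
  · rw [h, Equiv.swap_apply_left, Equiv.swap_apply_left]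
  · rcases eq_or_ne x (i + 1) with h2 | h2
    · rw [h2, Equiv.swap_apply_right, Equiv.swap_apply_right]
    · rw [Equiv.swap_apply_of_ne_of_ne (by omega) (by omega), Equiv.swap_apply_of_ne_of_ne h h2]

theorem Up_ee (i : ℕ) (v : Vec) : ee (i + 1) (Up v) = Up (ee i v) := by
  funext s
  rw [PairA_ee]
  by_cases h0 : 0 ∈ s
  · have h1 : 0 ∈ sg (i + 1) s := (zero_mem_sg i s).2 h0
    unfold Up
    rw [if_pos h0, if_pos h1, if_pos h0, mul_zero, mul_zero, add_zero]
  · have h1 : 0 ∉ sg (i + 1) s := fun h => h0 ((zero_mem_sg i s).1 h)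
    unfold Up
    rw [if_neg h0, if_neg h1, if_neg h0, PairA_ee, dn_sg i h0]
    simp only [mem_dn h0]

theorem zero_mem_rm (i : ℕ) (s : Finset ℕ) : 0 ∈ rm (i + 1) s ↔ 0 ∈ s := by
  rw [mem_rm]
  unfold up
  rw [if_pos (by omega)]

theorem dn_rm (i : ℕ) {s : Finset ℕ} (h0 : 0 ∉ s) :
    (rm (i + 1) s).image (fun x => x - 1) = rm i (s.image fun x => x - 1) := by
  have h1 : 0 ∉ rm (i + 1) s := fun h => h0 ((zero_mem_rm i s).1 h)
  ext x
  rw [mem_dn h1, mem_rm, mem_rm, mem_dn h0]
  have e : up (i + 1) (x + 1) = up i x + 1 := by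
    unfold up
    split_ifs <;> omega
  rw [e]

theorem Up_Ins (i : ℕ) (v : Vec) : Ins (i + 1) (Up v) = Up (Ins i v) := by
  funext s
  rw [Ins_apply]
  by_cases h0 : 0 ∈ s
  · have h1 : 0 ∈ rm (i + 1) s := (zero_mem_rm i s).2 h0
    unfold Up
    rw [if_pos h0, if_pos h1, mul_zero]
  · have h1 : 0 ∉ rm (i + 1) s := fun h => h0 ((zero_mem_rm i s).1 h)
    unfold Up
    rw [if_neg h0, if_neg h1, Ins_apply, dn_rm i h0]
    simp only [mem_dn h0]

theorem sh_ip (M : ℕ) (u : ℂ) (w : ℕ → ℂ) : CF.sh 1 (ip (M + 1) u w) = ip M u (CF.sh 1 w) := by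
  funext k
  show ip (M + 1) u w (k + 1) = ip M u (CF.sh 1 w) k
  unfold ip
  split_ifs with h1 h2 h3 h4 h5 h6
  any_goals omega
  · rfl
  · rfl
  · rfl
  · have e : k + 1 - 2 = k - 2 + 1 := by omega
    rw [e]
    rfl

/-- fusion for the leading coefficients in the first variable -/
theorem Lc_fus_first {M : ℕ} (hM : M % 2 = 1) {u : ℂ} (hu : u ≠ 0) {w : ℕ → ℂ} (hw : NZi 0 M w) :
    Lc 0 (M + 2) (ip M u w) = (-Kf (M - 1) u (CF.sh 1 w)) • Ins M (Lc 0 M w) := by
  have hip : NZi 0 (M + 2) (ip M u w) := by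
    intro k hk hk'
    unfold ip
    split_ifs with h1 h2 h3
    · exact hw k h1 hk'
    · exact hu
    · exact mul_ne_zero om_ne_zero hu
    · omega
  refine Lc_eq (by omega) hip ?_
  intro s
  have hb := ((Lc_spec (i := 0) (L := M) (by omega) hw).ins M) s
  have hc := ((HT_lin (XX (om ^ 2 * u)) (-1)).mul hb).cmul (Kf (M - 1) u (CF.sh 1 w))
  have e1 : 2 * ((M + 2 - 1) / 2) = 2 + 2 * ((M - 1) / 2) := by omega
  have e2 : Kf (M - 1) u (CF.sh 1 w) * (-1 * Ins M (Lc 0 M w) s) =
      ((-Kf (M - 1) u (CF.sh 1 w)) • Ins M (Lc 0 M w)) s := by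
    rw [Pi.smul_apply, smul_eq_mul]
    ring
  rw [e2] at hc
  rw [e1]
  refine hc.congr fun t ht => ?_
  beta_reduce
  have e3 : Function.update (ip M u w) 0 t = ip M u (Function.update w 0 t) := upd_ip_lt (by omega) _ _ _
  have e4 : Kf M u (Function.update w 0 t) = Kf (M - 1) u (CF.sh 1 w) * (XX (om ^ 2 * u) - XX t) := by
    have hj : range M = range (M - 1 + 1) := by
      congr 1
      omega
    unfold Kf
    rw [hj, Finset.prod_range_succ', Function.update_self]
    congr 1
  have e5 : (M + 2 - 1) / 2 = (M - 1) / 2 + 1 := by omega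
  rw [e3, fusion M M (le_refl _) hu (NZi.upd hw ht), Pi.smul_apply, smul_eq_mul, e4, e5, pow_succ,
    Ins_apply, Ins_apply]
  ring

/-- difference of the two sides, first variable -/
def EF (L : ℕ) (y : ℕ → ℂ) : Vec := Lc 0 L y - (-1 : ℂ) ^ ((L - 1) / 2) • Up (gv (L - 1) (CF.sh 1 y))

theorem Up_exch (L : ℕ) (S : Set (ℕ → ℂ)) : Exch S 1 L (fun y => Up (gv (L - 1) (CF.sh 1 y))) := by
  intro i h1 h2 y hy s
  obtain ⟨j, rfl⟩ : ∃ j, i = j + 1 := ⟨i - 1, by omega⟩
  have e := gv_exch (L - 1) Set.univ j (Nat.zero_le _) (by omega) (CF.sh 1 y) (Set.mem_univ _)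
  beta_reduce
  rw [up0_sw, Up_ee]
  unfold Up
  split_ifs with h0
  · ring
  · exact e _

theorem EF_exch {L : ℕ} (hL : 1 ≤ L) : Exch {y | NZ L y} 1 L (EF L) := by
  unfold EF
  refine Exch.sub (Lc_exch (le_refl _) (by omega) (Or.inl (by omega))) ?_
  exact Exch.smul (Up_exch L _) (fun _ => (-1 : ℂ) ^ ((L - 1) / 2)) (fun _ _ _ _ _ => rfl)

theorem sh_iv {L : ℕ} (hL : 2 ≤ L) (y : ℕ → ℂ) : CF.sh 1 (iv (L - 1) y) = iv (L - 1 - 1) (CF.sh 1 y) := by
  funext k
  show iv (L - 1) y (k + 1) = iv (L - 1 - 1) (CF.sh 1 y) k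
  unfold iv
  rcases eq_or_ne k (L - 1 - 1) with h | h
  · have e : k + 1 = L - 1 := by omega
    rw [e, h, Function.update_self, Function.update_self]
    show _ = (y (L - 1 - 1 + 1))⁻¹
    have e2 : L - 1 - 1 + 1 = L - 1 := by omega
    rw [e2]
  · rw [Function.update_of_ne (by omega), Function.update_of_ne h]
    rfl

theorem EF_iv {L : ℕ} (hL : 2 ≤ L) {y : ℕ → ℂ} (hy : NZ L y) : EF L (iv (L - 1) y) = EF L y := by
  have hz : NZ (L - 1) (CF.sh 1 y) := fun k hk => hy (k + 1) (by omega)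
  unfold EF
  rw [Lc_iv (by omega) (by omega) (by omega) (fun z hz => refl_right (by omega) hz) hy, sh_iv hL,
    refl_right (by omega) hz]

theorem EF_lau {L : ℕ} (hL : 1 ≤ L) (s : Finset ℕ) : Lau L (fun y => EF L y s) := by
  show Lau L (fun y => Lc 0 L y s - (-1 : ℂ) ^ ((L - 1) / 2) * Up (gv (L - 1) (CF.sh 1 y)) s)
  refine (Lc_lau _ _ (by omega) s).sub ((Lau.const _ _).mul ?_)
  unfold Up
  split_ifs with h0
  · exact Lau.const _ _
  · refine Lau.comp (gv_lau (L - 1) _) (fun k y => y (k + 1)) ?_ ?_ ?_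
    · intro k
      exact Lau.coord _ _
    · intro k hk
      exact Lau.coord_inv (by omega)
    · intro k hk y hy
      exact hy (k + 1) (by omega)

theorem EF_deg {L : ℕ} (hL : 3 ≤ L) (hodd : L % 2 = 1) (s : Finset ℕ) :
    Deg1 L (L - 1) ((L - 1) / 2) (2 * ((L - 1) / 2)) (fun y => EF L y s) := by
  intro y hy
  obtain ⟨p, hp, hpe⟩ := Lc_deg 0 (L - 1) L (by omega) (by omega) s y hy
  obtain ⟨q, hq, hqe⟩ := gv_deg (L - 1) (L - 1 - 1) (by omega) (s.image fun x => x - 1) (CF.sh 1 y)
    (fun k hk => hy (k + 1) (by omega))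
  have hsh : ∀ t : ℂ, CF.sh 1 (Function.update y (L - 1) t) = Function.update (CF.sh 1 y) (L - 1 - 1) t := by
    intro t
    funext k
    show Function.update y (L - 1) t (k + 1) = Function.update (CF.sh 1 y) (L - 1 - 1) t k
    rcases eq_or_ne k (L - 1 - 1) with h | h
    · have e : k + 1 = L - 1 := by omega
      rw [e, h, Function.update_self, Function.update_self]
    · rw [Function.update_of_ne (by omega), Function.update_of_ne h]
      rfl
  refine ⟨p - Polynomial.C ((-1 : ℂ) ^ ((L - 1) / 2)) * (if 0 ∈ s then 0 else Polynomial.X * q), ?_, fun t ht => ?_⟩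
  · refine (Polynomial.natDegree_sub_le _ _).trans (max_le hp ?_)
    refine (Polynomial.natDegree_C_mul_le _ _).trans ?_
    split_ifs
    · simp
    · refine Polynomial.natDegree_mul_le.trans ?_
      rw [Polynomial.natDegree_X]
      omega
  · have hqt := hqe t ht
    beta_reduce at hqt
    rw [Polynomial.eval_sub, Polynomial.eval_mul, Polynomial.eval_C, ← hpe t ht]
    show t ^ ((L - 1) / 2) * (Lc 0 L (Function.update y (L - 1) t) s -
      (-1 : ℂ) ^ ((L - 1) / 2) * Up (gv (L - 1) (CF.sh 1 (Function.update y (L - 1) t))) s) = _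
    rw [hsh t]
    unfold Up
    split_ifs with h0
    · rw [Polynomial.eval_zero]
      ring
    · rw [Polynomial.eval_mul, Polynomial.eval_X, ← hqt]
      have e5 : (L - 1) / 2 = (L - 1 - 1) / 2 + 1 := by omega
      have e6 : t ^ ((L - 1) / 2) = t ^ ((L - 1 - 1) / 2) * t := by rw [e5, pow_succ]
      linear_combination (-(-1 : ℂ) ^ ((L - 1) / 2) *
        gv (L - 1) (Function.update (CF.sh 1 y) (L - 1 - 1) t) (s.image fun x => x - 1)) * e6

theorem EF_zero {L : ℕ} (hL : 4 ≤ L) (hodd : L % 2 = 1) (ih : ∀ y, NZ (L - 2) y → EF (L - 2) y = 0)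
    (i : ℕ) (hi : 1 ≤ i) (hi' : i + 1 < L) {y : ℕ → ℂ} (hy : Gen L y) :
    EF L (Function.update y (L - 1) (om * y i)) = 0 := by
  have main : ∀ m i : ℕ, i + 2 + m = L → 1 ≤ i → ∀ y, Gen L y →
      EF L (Function.update y (L - 1) (om * y i)) = 0 := by
    intro m
    induction m with
    | zero =>
      intro i him hi y hy
      obtain ⟨N, rfl⟩ : ∃ N, L = N + 3 := ⟨L - 3, by omega⟩
      have hM : N + 3 - 2 = N + 1 := by omega
      have hiM : i = N + 1 := by omega
      subst hiM
      rw [hM] at ih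
      have e9 : N + 3 - 1 = N + 1 + 1 := by omega
      rw [e9]
      set y' := Function.update y (N + 1 + 1) (om * y (N + 1)) with hy'
      have hy1 : y (N + 1) ≠ 0 := hy.1 (N + 1) (by omega)
      have hu : om * y (N + 1) ≠ 0 := mul_ne_zero om_ne_zero hy1
      have hnz' : NZ (N + 1 + 2) y' := nz_upd hy.1 (N + 1 + 1) hu
      have e0 : y' (N + 1 + 1) = om * y (N + 1) := Function.update_self _ _ _
      have e1 : y' (N + 1) = y (N + 1) := Function.update_of_ne (by omega) _ _
      have h1 : y' (N + 1 + 1) = om * y' (N + 1) := by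
        rw [e0, e1]
      have h2 := ip_dl (N + 1) y' h1
      set w := dl (N + 1) y' with hw
      have hnw : NZ (N + 1) w := nz_dl hnz' (N + 1)
      have hu' : y' (N + 1) ≠ 0 := hnz' (N + 1) (by omega)
      have h3 : gv (N + 2) (CF.sh 1 y') = Kf N (y' (N + 1)) (CF.sh 1 w) • Ins N (gv N (CF.sh 1 w)) := by
        conv_lhs => rw [← h2]
        rw [sh_ip]
        exact fusion N N (le_refl _) hu' (fun k hk => hnw (k + 1) (by omega))
      have h4 : Lc 0 (N + 3) y' = (-Kf N (y' (N + 1)) (CF.sh 1 w)) • Ins (N + 1) (Lc 0 (N + 1) w) := by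
        conv_lhs => rw [← h2]
        exact Lc_fus_first (M := N + 1) (by omega) hu' (NZi.of hnw)
      have h5 : Lc 0 (N + 1) w = (-1 : ℂ) ^ (N / 2) • Up (gv N (CF.sh 1 w)) := by
        have h6 := ih w hnw
        unfold EF at h6
        exact sub_eq_zero.1 h6
      have e6 : (N + 3 - 1) / 2 = N / 2 + 1 := by omega
      show Lc 0 (N + 3) y' - (-1 : ℂ) ^ ((N + 3 - 1) / 2) • Up (gv (N + 2) (CF.sh 1 y')) = 0
      rw [h4, h3, h5, e6, map_smul, Up_smul, Up_Ins, smul_smul, smul_smul, ← sub_smul]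
      have e7 : -Kf N (y' (N + 1)) (CF.sh 1 w) * (-1 : ℂ) ^ (N / 2) -
          (-1 : ℂ) ^ (N / 2 + 1) * Kf N (y' (N + 1)) (CF.sh 1 w) = 0 := by
        ring
      rw [e7, zero_smul]
    | succ m ihm =>
      intro i him hi y hy
      have hz : Gen L (sw i y) := gen_sw hy (by omega)
      have h1 := ihm (i + 1) (by omega) (by omega) _ hz
      rw [sw_right] at h1
      set z' := Function.update (sw i y) (L - 1) (om * y i) with hz'
      have e1 : z' i = y (i + 1) := by
        rw [hz', Function.update_of_ne (by omega), sw_left]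
      have e2 : z' (i + 1) = y i := by
        rw [hz', Function.update_of_ne (by omega), sw_right]
      have hnz : NZ L z' := nz_upd hz.1 (L - 1) (mul_ne_zero om_ne_zero (hy.1 i (by omega)))
      have h2 := Exch.zero (EF_exch (by omega)) hi (by omega) hnz h1 (by
        rw [e1, e2]
        exact (Gen.ne_mul hy (by omega) (by omega) (by omega)).2.1)
      rw [hz', sw_upd (by omega) (by omega), sw_sw] at h2
      exact h2
  exact main (L - (i + 2)) i (by omega) hi y hy

theorem EF_step {L : ℕ} (hL : 4 ≤ L) (hodd : L % 2 = 1) (ih : ∀ y, NZ (L - 2) y → EF (L - 2) y = 0)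
    {y : ℕ → ℂ} (hy : Gen L y) : EF L y = 0 := by
  funext s
  obtain ⟨p, hp, he1⟩ := EF_deg (by omega) hodd s y hy.1
  have he : ∀ t : ℂ, t ≠ 0 → t ^ ((L - 1) / 2) * EF L (Function.update y (L - 1) t) s = p.eval t := he1
  have hp0 : p = 0 := by
    refine gl_count hL hy om om_cube p hp ?_ ?_
    · intro j hj hj'
      have hyj : om * y j ≠ 0 := mul_ne_zero om_ne_zero (hy.1 j (by omega))
      rw [← he _ hyj, EF_zero hL hodd ih j hj hj' hy, Pi.zero_apply, mul_zero]
    · intro j hj hj'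
      have hyj : om * y j ≠ 0 := mul_ne_zero om_ne_zero (hy.1 j (by omega))
      rw [← he _ (inv_ne_zero hyj), ← iv_upd, EF_iv (by omega) (nz_upd hy.1 (L - 1) hyj),
        EF_zero hL hodd ih j hj hj' hy, Pi.zero_apply, mul_zero]
  have hy0 : y (L - 1) ≠ 0 := hy.1 (L - 1) (by omega)
  have h4 := he (y (L - 1)) hy0
  rw [hp0, Polynomial.eval_zero, Function.update_eq_self] at h4
  exact (mul_eq_zero.mp h4).resolve_left (pow_ne_zero _ hy0)

theorem EF_one (y : ℕ → ℂ) : EF 1 y = 0 := by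
  have h : Lc 0 1 y = Up (gv 0 (CF.sh 1 y)) := by
    refine Lc_eq (by omega) (fun k hk hk' => absurd (by omega) hk') ?_
    intro s
    by_cases hs : s = ∅
    · subst hs
      have e1 : Up (gv 0 (CF.sh 1 y)) ∅ = 1 := by
        unfold Up
        rw [if_neg (by simp), Finset.image_empty, gv_zero]
      rw [e1]
      refine (HT.const 1).congr fun t _ => ?_
      beta_reduce
      rw [gv_one]
      norm_num
    · have h0 : Up (gv 0 (CF.sh 1 y)) s = 0 := by
        unfold Up
        split_ifs with h0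
        · rfl
        · refine gv_wt 0 _ _ ?_
          show _ ∉ cfn 0 0
          rw [cfn_zero, Finset.mem_singleton, Finset.image_eq_empty]
          exact hs
      rw [h0]
      refine (HT.zero 0).congr fun t _ => ?_
      have h1 : gv 1 (Function.update y 0 t) s = 0 := gv_wt 1 _ s (by
        show s ∉ cfn 1 0
        rw [cfn_one, Finset.mem_singleton]
        exact hs)
      beta_reduce
      rw [h1, mul_zero]
  show Lc 0 1 y - (-1 : ℂ) ^ 0 • Up (gv 0 (CF.sh 1 y)) = 0
  rw [h, pow_zero, one_smul, sub_self]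

theorem EF_three {y : ℕ → ℂ} (hy : NZ 3 y) : EF 3 y = 0 := by
  have h : Lc 0 3 y = (-1 : ℂ) • Up (gv 2 (CF.sh 1 y)) := by
    refine Lc_eq (by omega) (NZi.of hy) ?_
    intro s
    have hy2 : NZ 2 (CF.sh 1 y) := fun k hk => hy (k + 1) (by omega)
    rw [Pi.smul_apply, smul_eq_mul]
    by_cases hs : s ∈ cfn 3 1
    · rw [cfn_three, Finset.mem_insert, Finset.mem_insert, Finset.mem_singleton] at hs
      rcases hs with h | h | h
      · have h0 : Up (gv 2 (CF.sh 1 y)) s = 0 := by
          unfold Up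
          rw [if_pos (by rw [h]; decide)]
        rw [h0, h, mul_zero]
        have h1 := HT_lin (om * y 1 + om ^ 2 * (y 1)⁻¹ - XX (y 2)) 0
        refine h1.congr fun t ht => ?_
        have h2 := (gv_three (NZi.upd (NZi.of (i := 0) hy) ht)).1
        show t ^ 1 * gv 3 (Function.update y 0 t) {0} = _
        rw [h2, Function.update_of_ne (by omega), Function.update_of_ne (by omega)]
        ring
      · have h0 : Up (gv 2 (CF.sh 1 y)) s = 1 := by
          unfold Up
          rw [if_neg (by rw [h]; decide)]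
          have e : s.image (fun x => x - 1) = {0} := by
            rw [h]
            decide
          rw [e, (gv_two hy2).1]
        rw [h0, h, mul_one]
        have h1 := HT_lin (-om ^ 2 * (om * y 1 + om ^ 2 * (y 1)⁻¹ - XX (y 2)) +
          (om * (y 1)⁻¹ + om ^ 2 * y 1)) (-1)
        refine h1.congr fun t ht => ?_
        have h2 := (gv_three (NZi.upd (NZi.of (i := 0) hy) ht)).2.1
        show t ^ 1 * gv 3 (Function.update y 0 t) {1} = _
        rw [h2, Function.update_self, Function.update_of_ne (by omega), Function.update_of_ne (by omega)]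
        ring
      · have h0 : Up (gv 2 (CF.sh 1 y)) s = -om ^ 2 := by
          unfold Up
          rw [if_neg (by rw [h]; decide)]
          have e : s.image (fun x => x - 1) = {1} := by
            rw [h]
            decide
          rw [e, (gv_two hy2).2]
        rw [h0, h]
        have e1 : -1 * -om ^ 2 = om ^ 2 := by ring
        rw [e1]
        have h1 := HT_lin (-om ^ 2 * (om * (y 1)⁻¹ + om ^ 2 * y 1)) (om ^ 2)
        refine h1.congr fun t ht => ?_
        have h2 := (gv_three (NZi.upd (NZi.of (i := 0) hy) ht)).2.2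
        show t ^ 1 * gv 3 (Function.update y 0 t) {2} = _
        rw [h2, Function.update_self, Function.update_of_ne (by omega)]
        ring
    · have h0 : Up (gv 2 (CF.sh 1 y)) s = 0 := by
        unfold Up
        split_ifs with h0
        · rfl
        · refine gv_wt 2 _ _ ?_
          show _ ∉ cfn 2 1
          intro h1
          apply hs
          rw [mem_cfn] at h1 ⊢
          refine ⟨fun x hx => ?_, ?_⟩
          · have hx0 : x ≠ 0 := fun h => h0 (h ▸ hx)
            have hx1 : x - 1 ∈ s.image (fun x => x - 1) := Finset.mem_image_of_mem _ hx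
            have hx2 := Finset.mem_range.1 (h1.1 hx1)
            rw [Finset.mem_range]
            omega
          · rw [← h1.2]
            refine (Finset.card_image_of_injOn ?_).symm
            intro a ha b hb hab
            have ha0 : a ≠ 0 := fun h => h0 (h ▸ ha)
            have hb0 : b ≠ 0 := fun h => h0 (h ▸ hb)
            have hab' : a - 1 = b - 1 := hab
            omega
      rw [h0, mul_zero]
      refine (HT.zero _).congr fun t _ => ?_
      have h1 : gv 3 (Function.update y 0 t) s = 0 := gv_wt 3 _ s hs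
      beta_reduce
      rw [h1, mul_zero]
  show Lc 0 3 y - (-1 : ℂ) ^ 1 • Up (gv 2 (CF.sh 1 y)) = 0
  rw [h, pow_one, sub_self]

theorem EF_eq_zero {L : ℕ} (hodd : L % 2 = 1) {y : ℕ → ℂ} (hy : NZ L y) : EF L y = 0 := by
  revert y
  induction L using Nat.strong_induction_on with
  | _ L ih =>
    intro y hy
    rcases Nat.lt_or_ge 3 L with h | h
    · funext s
      exact Lau.ext_gen (EF_lau (by omega) s) (fun z hz => by
        have h3 := EF_step (by omega) hodd (fun w hw => ih (L - 2) (by omega) (by omega) hw) hz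
        exact congrFun h3 s) y hy
    · have h1 : L = 1 ∨ L = 3 := by omega
      rcases h1 with rfl | rfl
      · exact EF_one y
      · exact EF_three hy

/-- the leading coefficients in the first variable -/
theorem Lc_first {L : ℕ} (hodd : L % 2 = 1) {y : ℕ → ℂ} (hy : NZi 0 L y) :
    Lc 0 L y = (-1 : ℂ) ^ ((L - 1) / 2) • Up (gv (L - 1) (CF.sh 1 y)) := by
  have h1 := EF_eq_zero hodd (hy.upd (one_ne_zero))
  unfold EF at h1
  rw [Lc_upd] at h1
  have h2 : CF.sh 1 (Function.update y 0 1) = CF.sh 1 y := by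
    funext k
    show Function.update y 0 1 (k + 1) = y (k + 1)
    rw [Function.update_of_ne (by omega)]
  rw [h2] at h1
  exact sub_eq_zero.1 h1

/-- palindromic polynomials -/
theorem pal_coeff {D : ℕ} {p : Polynomial ℂ} (hp : p.natDegree ≤ 2 * D) {f : ℂ → ℂ}
    (h : ∀ t : ℂ, t ≠ 0 → t ^ D * f t = p.eval t) (hf : ∀ t : ℂ, t ≠ 0 → f t⁻¹ = f t) :
    p.coeff 0 = p.coeff (2 * D) := by
  have h1 : Polynomial.reflect (2 * D) p = p := by
    refine Polynomial.eq_of_infinite_eval_eq _ _ ?_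
    refine Set.Infinite.mono (s := {t : ℂ | t ≠ 0}) ?_ ?_
    · intro t ht
      have ht' : t ≠ 0 := ht
      show (Polynomial.reflect (2 * D) p).eval t = p.eval t
      let _ : Invertible t⁻¹ := invertibleOfNonzero (inv_ne_zero ht')
      have h2 := Polynomial.eval₂_reflect_mul_pow (RingHom.id ℂ) t⁻¹ (2 * D) p hp
      rw [invOf_eq_inv, inv_inv, Polynomial.eval₂_id, Polynomial.eval₂_id, ← h _ (inv_ne_zero ht'), hf t ht'] at h2
      rw [← h t ht']
      have h4 : t * t⁻¹ = 1 := mul_inv_cancel₀ ht'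
      have h5 : t ^ D * t⁻¹ ^ D = 1 := by rw [← mul_pow, h4, one_pow]
      have h6 : t ^ (2 * D) = t ^ D * t ^ D := by rw [two_mul, pow_add]
      have h7 : t⁻¹ ^ (2 * D) = t⁻¹ ^ D * t⁻¹ ^ D := by rw [two_mul, pow_add]
      rw [h7] at h2
      generalize t⁻¹ ^ D = a at *
      generalize t ^ D = b at *
      generalize Polynomial.eval t (Polynomial.reflect (2 * D) p) = e at *
      linear_combination (b ^ 2) * h2 - e * (a * b + 1) * h5 + f t * b * h5
    · have : {t : ℂ | t ≠ 0} = ({0} : Set ℂ)ᶜ := rfl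
      rw [this]
      exact (Set.finite_singleton (0 : ℂ)).infinite_compl
  have h3 := Polynomial.coeff_reflect (2 * D) p 0
  rw [h1, Polynomial.revAt_zero] at h3
  exact h3

/-- the last variable -/
theorem gv_last {L : ℕ} (hodd : L % 2 = 1) {y : ℕ → ℂ} (hy : NZ L y) (s : Finset ℕ) :
    ∃ p : Polynomial ℂ, p.natDegree ≤ 2 * ((L - 1) / 2) ∧
      (∀ t : ℂ, t ≠ 0 → t ^ ((L - 1) / 2) * gv L (Function.update y (L - 1) t) s = p.eval t) ∧
      p.coeff (2 * ((L - 1) / 2)) = (if L - 1 ∈ s then 0 else (-1 : ℂ) ^ ((L - 1) / 2) * gv (L - 1) y s) ∧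
      p.coeff 0 = (if L - 1 ∈ s then 0 else (-1 : ℂ) ^ ((L - 1) / 2) * gv (L - 1) y s) := by
  obtain ⟨p, hp, he, hc⟩ := Lc_spec (i := L - 1) (L := L) (by omega) (NZi.of hy) s
  rw [Lc_last hodd (NZi.of hy), Pi.smul_apply, smul_eq_mul] at hc
  have h1 : (-1 : ℂ) ^ ((L - 1) / 2) * gv (L - 1) y s =
      (if L - 1 ∈ s then 0 else (-1 : ℂ) ^ ((L - 1) / 2) * gv (L - 1) y s) := by
    split_ifs with h
    · have h2 : gv (L - 1) y s = 0 := gv_wt _ _ s (fun h3 => by
        have h4 := Finset.mem_range.1 ((mem_cfn.1 h3).1 h)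
        omega)
      rw [h2, mul_zero]
    · rfl
  rw [h1] at hc
  refine ⟨p, hp, he, hc, ?_⟩
  rw [← hc]
  refine pal_coeff hp (f := fun t => gv L (Function.update y (L - 1) t) s) he fun t ht => ?_
  rw [← iv_upd, refl_right (by omega) (nz_upd hy _ ht)]

/-- the first variable -/
theorem gv_first {L : ℕ} (hodd : L % 2 = 1) {y : ℕ → ℂ} (hy : NZ L y) (s : Finset ℕ) :
    ∃ p : Polynomial ℂ, p.natDegree ≤ 2 * ((L - 1) / 2) ∧
      (∀ t : ℂ, t ≠ 0 → t ^ ((L - 1) / 2) * gv L (Function.update y 0 t) s = p.eval t) ∧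
      p.coeff (2 * ((L - 1) / 2)) = (if 0 ∈ s then 0 else (-1 : ℂ) ^ ((L - 1) / 2) *
        gv (L - 1) (CF.sh 1 y) (s.image fun x => x - 1)) ∧
      p.coeff 0 = (if 0 ∈ s then 0 else (-1 : ℂ) ^ ((L - 1) / 2) *
        gv (L - 1) (CF.sh 1 y) (s.image fun x => x - 1)) := by
  obtain ⟨p, hp, he, hc⟩ := Lc_spec (i := 0) (L := L) (by omega) (NZi.of hy) s
  rw [Lc_first hodd (NZi.of hy), Pi.smul_apply, smul_eq_mul] at hc
  have h1 : (-1 : ℂ) ^ ((L - 1) / 2) * Up (gv (L - 1) (CF.sh 1 y)) s =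
      (if 0 ∈ s then 0 else (-1 : ℂ) ^ ((L - 1) / 2) *
        gv (L - 1) (CF.sh 1 y) (s.image fun x => x - 1)) := by
    unfold Up
    split_ifs with h
    · rw [mul_zero]
    · rfl
  rw [h1] at hc
  refine ⟨p, hp, he, hc, ?_⟩
  rw [← hc]
  refine pal_coeff hp (f := fun t => gv L (Function.update y 0 t) s) he fun t ht => ?_
  rw [← iv_upd, refl_left (by omega) (nz_upd hy _ ht)]

end CV
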