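import Pool.Agent.Lib.MP_216314_pr.CV.VF
import Pool.Agent.Lib.MP_216314_pr.CF.SpG

/-!
# Degrees and leading coefficients of the pairing

`Tq a b f κ`: `t^a f` is a polynomial of degree at most `b`, the coefficient of `t^b` is `κ`.
-/

set_option autoImplicit false

noncomputable section

namespace CV

open Finset PX CF

/-- `t^a f` is a polynomial of degree at most `b`, the coefficient number `b` is `κ` -/
def Tq (a b : ℕ) (f : ℂ → ℂ) (κ : ℂ) : Prop := ∃ p : Polynomial ℂ, p.natDegree ≤ b ∧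
  (∀ t : ℂ, t ≠ 0 → t ^ a * f t = p.eval t) ∧ p.coeff b = κ

theorem Tq.congr {a b : ℕ} {f g : ℂ → ℂ} {κ κ' : ℂ} (h : Tq a b f κ) (hfg : ∀ t, t ≠ 0 → f t = g t) (hk : κ = κ') :
    Tq a b g κ' := by
  obtain ⟨p, h1, h2, h3⟩ := h
  exact ⟨p, h1, fun t ht => by rw [← hfg t ht, h2 t ht], by rw [h3, hk]⟩

theorem Tq.sum {α : Type*} (A : Finset α) {a b : ℕ} {f : α → ℂ → ℂ} {κ : α → ℂ} (h : ∀ s ∈ A, Tq a b (f s) (κ s)) :
    Tq a b (fun t => ∑ s ∈ A, f s t) (∑ s ∈ A, κ s) := by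
  classical
  have h' : ∀ s, ∃ p : Polynomial ℂ, s ∈ A → (p.natDegree ≤ b ∧ (∀ t : ℂ, t ≠ 0 → t ^ a * f s t = p.eval t) ∧
      p.coeff b = κ s) := by
    intro s
    by_cases hs : s ∈ A
    · obtain ⟨p, hp⟩ := h s hs
      exact ⟨p, fun _ => hp⟩
    · exact ⟨0, fun h1 => absurd h1 hs⟩
  choose p hp using h'
  refine ⟨∑ s ∈ A, p s, ?_, ?_, ?_⟩
  · exact Polynomial.natDegree_sum_le_of_forall_le _ _ fun s hs => (hp s hs).1
  · intro t ht
    rw [Polynomial.eval_finsetSum, mul_sum]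
    exact sum_congr rfl fun s hs => (hp s hs).2.1 t ht
  · rw [Polynomial.finsetSum_coeff]
    exact sum_congr rfl fun s hs => (hp s hs).2.2

theorem Tq.mul {a b a' b' : ℕ} {f g : ℂ → ℂ} {κ κ' : ℂ} (h : Tq a b f κ) (h' : Tq a' b' g κ') :
    Tq (a + a') (b + b') (fun t => f t * g t) (κ * κ') := by
  obtain ⟨p, h1, h2, h3⟩ := h
  obtain ⟨q, h1', h2', h3'⟩ := h'
  refine ⟨p * q, Polynomial.natDegree_mul_le_of_le h1 h1', fun t ht => ?_, ?_⟩
  · rw [Polynomial.eval_mul, ← h2 t ht, ← h2' t ht]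
    ring
  · rw [Polynomial.coeff_mul_add_eq_of_natDegree_le h1 h1', h3, h3']

theorem Tq.const (c : ℂ) : Tq 0 0 (fun _ => c) c :=
  ⟨Polynomial.C c, (Polynomial.natDegree_C c).le, fun t _ => by rw [Polynomial.eval_C, pow_zero, one_mul],
    Polynomial.coeff_C_zero⟩

theorem Tq.mul_const {a b : ℕ} {f : ℂ → ℂ} {κ : ℂ} (h : Tq a b f κ) (c : ℂ) : Tq a b (fun t => f t * c) (κ * c) := by
  have h1 := h.mul (Tq.const c)
  rwa [add_zero, add_zero] at h1

/-- larger exponents -/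
theorem Tq.up {a b a' b' : ℕ} {f : ℂ → ℂ} {κ : ℂ} (h : Tq a b f κ) (h1 : a ≤ a') (h2 : b + (a' - a) < b') :
    Tq a' b' f 0 := by
  obtain ⟨p, hp, hp1, hp2⟩ := h
  have hd : (Polynomial.X ^ (a' - a) * p).natDegree ≤ a' - a + b :=
    Polynomial.natDegree_mul_le_of_le (Polynomial.natDegree_X_pow_le _) hp
  refine ⟨Polynomial.X ^ (a' - a) * p, by omega, fun t ht => ?_, ?_⟩
  · rw [Polynomial.eval_mul, Polynomial.eval_pow, Polynomial.eval_X, ← hp1 t ht, ← mul_assoc, ← pow_add,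
      Nat.sub_add_cancel h1]
  · exact Polynomial.coeff_eq_zero_of_natDegree_lt (by omega)

/-- the function of the inverse variable -/
theorem Tq.inv {a b : ℕ} {f : ℂ → ℂ} {p : Polynomial ℂ} (hb : a ≤ b) (h1 : p.natDegree ≤ b)
    (h2 : ∀ t : ℂ, t ≠ 0 → t ^ a * f t = p.eval t) : Tq (b - a) b (fun t => f t⁻¹) (p.coeff 0) := by
  refine ⟨∑ i ∈ range (b + 1), Polynomial.C (p.coeff i) * Polynomial.X ^ (b - i), ?_, ?_, ?_⟩
  · refine Polynomial.natDegree_sum_le_of_forall_le _ _ fun i _ => ?_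
    exact (Polynomial.natDegree_C_mul_X_pow_le _ _).trans (Nat.sub_le _ _)
  · intro t ht
    have h3 := h2 t⁻¹ (inv_ne_zero ht)
    rw [Polynomial.eval_eq_sum_range' (Nat.lt_succ_of_le h1)] at h3
    have h4 : t ^ (b - a) * f t⁻¹ = t ^ b * (t⁻¹ ^ a * f t⁻¹) := by
      have h5 : t ^ b = t ^ (b - a) * t ^ a := by rw [← pow_add, Nat.sub_add_cancel hb]
      rw [h5, inv_pow, mul_assoc, ← mul_assoc (t ^ a) (t ^ a)⁻¹, mul_inv_cancel₀ (pow_ne_zero _ ht), one_mul]
    rw [h4, h3, mul_sum, Polynomial.eval_finsetSum]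
    refine sum_congr rfl fun i hi => ?_
    have hib : i ≤ b := Nat.lt_succ_iff.1 (mem_range.1 hi)
    rw [Polynomial.eval_mul, Polynomial.eval_C, Polynomial.eval_pow, Polynomial.eval_X, inv_pow]
    have h5 : t ^ b = t ^ (b - i) * t ^ i := by rw [← pow_add, Nat.sub_add_cancel hib]
    rw [h5]
    field_simp
  · rw [Polynomial.finsetSum_coeff, sum_eq_single 0]
    · rw [Polynomial.coeff_C_mul, Polynomial.coeff_X_pow, Nat.sub_zero, if_pos rfl, mul_one]
    · intro i _ hi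
      rw [Polynomial.coeff_C_mul, Polynomial.coeff_X_pow, if_neg, mul_zero]
      by_cases hib : i ≤ b
      · omega
      · rename_i hh
        have := mem_range.1 hh
        omega
    · intro h
      exact absurd (mem_range.2 (Nat.succ_pos b)) h

/-! ### The leading coefficients of `gv` -/

/-- leading coefficients in the first variable -/
def G2 (L : ℕ) (y : ℕ → ℂ) : Prop := ∀ s : Finset ℕ, ∃ p : Polynomial ℂ, p.natDegree ≤ 2 * ((L - 1) / 2) ∧
  (∀ t : ℂ, t ≠ 0 → t ^ ((L - 1) / 2) * gv L (Function.update y 0 t) s = p.eval t) ∧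
  p.coeff (2 * ((L - 1) / 2)) =
    (if 0 ∈ s then 0 else (-1) ^ ((L - 1) / 2) * gv (L - 1) (sh 1 y) (s.image (fun x => x - 1))) ∧
  p.coeff 0 = (if 0 ∈ s then 0 else (-1) ^ ((L - 1) / 2) * gv (L - 1) (sh 1 y) (s.image (fun x => x - 1)))

/-- leading coefficients in the last variable -/
def G1 (L : ℕ) (y : ℕ → ℂ) : Prop := ∀ s : Finset ℕ, ∃ p : Polynomial ℂ, p.natDegree ≤ 2 * ((L - 1) / 2) ∧
  (∀ t : ℂ, t ≠ 0 → t ^ ((L - 1) / 2) * gv L (Function.update y (L - 1) t) s = p.eval t) ∧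
  p.coeff (2 * ((L - 1) / 2)) = (if L - 1 ∈ s then 0 else (-1) ^ ((L - 1) / 2) * gv (L - 1) y s) ∧
  (L - 1 ∈ s → p.coeff 0 = 0)

theorem ivs_upd (k : ℕ) (y : ℕ → ℂ) (t : ℂ) :
    ivs (Function.update y k t) = Function.update (ivs y) k t⁻¹ := by
  funext j
  unfold ivs
  rcases eq_or_ne j k with h | h
  · rw [h, Function.update_self, Function.update_self]
  · rw [Function.update_of_ne h, Function.update_of_ne h]

private theorem VD_dn (s : Finset ℕ) : (su 1 s).image (fun x => x - 1) = s := by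
  ext x
  rw [mem_image]
  constructor
  · rintro ⟨z, hz, rfl⟩
    exact (mem_su'.1 hz).2
  · intro hx
    exact ⟨x + 1, add_mem_su.2 hx, rfl⟩

private theorem VD_zero (s : Finset ℕ) : 0 ∉ su 1 s := fun h => absurd (mem_su'.1 h).1 (by omega)

private theorem VD_su (c : ℕ) (hc : 1 ≤ c) (s t : Finset ℕ) : su 1 s ∪ su c t = su 1 (s ∪ su (c - 1) t) := by
  ext x
  rw [mem_union, mem_su', mem_su', mem_su', mem_union, mem_su']
  constructor
  · rintro (⟨h, h'⟩ | ⟨h, h'⟩)
    · exact ⟨h, Or.inl h'⟩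
    · refine ⟨by omega, Or.inr ⟨by omega, ?_⟩⟩
      rw [show x - 1 - (c - 1) = x - c by omega]
      exact h'
  · rintro ⟨h, h' | ⟨h1, h2⟩⟩
    · exact Or.inl ⟨h, h'⟩
    · refine Or.inr ⟨by omega, ?_⟩
      rw [show x - c = x - 1 - (c - 1) by omega]
      exact h2

/-- degree and leading coefficient in the first variable -/
theorem V_degA {c n : ℕ} (hc : Odd c) {y : ℕ → ℂ} (hG : G2 (c + 2 * n) y) (hG' : G2 c (ivs y)) :
    Tq ((c + 2 * n - 1) / 2 + (c - 1) / 2) (2 * ((c + 2 * n - 1) / 2) + 2 * ((c - 1) / 2))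
      (fun t => V c n (Function.update y 0 t)) ((-1) ^ n * V (c - 1) n (sh 1 y)) := by
  obtain ⟨r, hr⟩ := hc
  have hc1 : 1 ≤ c := by omega
  have h0 : ∀ t, Ht n (ivs (sh c (Function.update y 0 t))) = Ht n (ivs (sh c y)) := fun t => Ht_congr n fun i _ => by
    unfold ivs sh
    rw [Function.update_of_ne (by omega)]
  have h1 : ∀ S : Finset ℕ, Tq ((c + 2 * n - 1) / 2) (2 * ((c + 2 * n - 1) / 2))
      (fun t => gv (c + 2 * n) (Function.update y 0 t) S)
      (if 0 ∈ S then 0 else (-1) ^ ((c + 2 * n - 1) / 2) * gv (c + 2 * n - 1) (sh 1 y) (S.image (fun x => x - 1))) := by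
    intro S
    obtain ⟨p, h1, h2, h3, _⟩ := hG S
    exact ⟨p, h1, h2, h3⟩
  have h2 : ∀ S : Finset ℕ, Tq ((c - 1) / 2) (2 * ((c - 1) / 2))
      (fun t => gv c (ivs (Function.update y 0 t)) S)
      (if 0 ∈ S then 0 else (-1) ^ ((c - 1) / 2) * gv (c - 1) (sh 1 (ivs y)) (S.image (fun x => x - 1))) := by
    intro S
    obtain ⟨p, h1, h2, _, h3⟩ := hG' S
    have h4 := Tq.inv (f := fun t => gv c (Function.update (ivs y) 0 t) S) (show (c - 1) / 2 ≤ 2 * ((c - 1) / 2) by omega) h1 h2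
    rw [show 2 * ((c - 1) / 2) - (c - 1) / 2 = (c - 1) / 2 by omega] at h4
    refine h4.congr (fun t _ => ?_) h3
    show gv c (Function.update (ivs y) 0 t⁻¹) S = _
    rw [ivs_upd]
  have h3 := Tq.sum (cfn c (c / 2)) fun s _ => Tq.sum (cfn (2 * n) n) fun t _ =>
    ((h1 (s ∪ su c t)).mul (h2 s)).mul_const (Ht n (ivs (sh c y)) t)
  refine h3.congr (fun t _ => ?_) ?_
  · unfold V
    simp only [h0]
  · have e1 : c = (c - 1) + 1 := by omega
    have e2 := sum_first0 (c - 1) (c / 2) (fun s => ∑ t ∈ cfn (2 * n) n,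
      ((if 0 ∈ s ∪ su c t then (0 : ℂ) else (-1) ^ ((c + 2 * n - 1) / 2) *
          gv (c + 2 * n - 1) (sh 1 y) ((s ∪ su c t).image (fun x => x - 1))) *
        (if 0 ∈ s then 0 else (-1) ^ ((c - 1) / 2) * gv (c - 1) (sh 1 (ivs y)) (s.image (fun x => x - 1)))) *
        Ht n (ivs (sh c y)) t) (fun s _ hs => by
          refine sum_eq_zero fun t _ => ?_
          rw [if_pos hs, mul_zero, zero_mul])
    rw [← e1] at e2
    rw [e2]
    unfold V
    rw [mul_sum, show (c - 1) / 2 = c / 2 by omega]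
    refine sum_congr rfl fun s _ => ?_
    rw [mul_sum]
    refine sum_congr rfl fun t _ => ?_
    have e3 : sh (c - 1) (sh 1 y) = sh c y := by
      funext i
      show y (i + (c - 1) + 1) = y (i + c)
      rw [show i + (c - 1) + 1 = i + c by omega]
    have e4 : 0 ∉ su 1 s ∪ su c t := by
      rw [VD_su c hc1]
      exact VD_zero _
    rw [if_neg e4, if_neg (VD_zero s), VD_dn, VD_su c hc1, VD_dn, e3, show c - 1 + 2 * n = c + 2 * n - 1 by omega]
    have e5 : ((-1 : ℂ)) ^ ((c + 2 * n - 1) / 2) * (-1) ^ (c / 2) = (-1) ^ n := by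
      rw [← pow_add, show (c + 2 * n - 1) / 2 + c / 2 = n + 2 * (c / 2) by omega, pow_add, pow_mul, neg_one_sq, one_pow,
        mul_one]
    have e6 : ivs (sh 1 y) = sh 1 (ivs y) := rfl
    rw [e6]
    linear_combination (gv (c + 2 * n - 1) (sh 1 y) (s ∪ su (c - 1) t) * gv (c - 1) (sh 1 (ivs y)) s *
      Ht n (ivs (sh c y)) t) * e5

/-! ### The last variable of the cylinder -/

private theorem VD_H {n : ℕ} (hn : 1 ≤ n) (z : ℕ → ℂ) (t : Finset ℕ) (ht : 2 * n - 1 ∉ t) :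
    Tq (n - 1) (n - 1) (fun x => Ht n (Function.update z (2 * n - 1) x⁻¹) t) (Ht n (Function.update z (2 * n - 1) 0) t) := by
  obtain ⟨q, hq, hq1⟩ := H_deg n (2 * n - 1) z (range (2 * n) \ t)
  have h1 : ∀ x, Ht n (Function.update z (2 * n - 1) x) t = (if t ∈ cfn (2 * n) n then ∏ i ∈ t, z i else 0) * q.eval x := by
    intro x
    unfold Ht
    by_cases h : t ∈ cfn (2 * n) n
    · rw [if_pos h, if_pos h, hq1 x]
      congr 1
      exact prod_congr rfl fun i hi => Function.update_of_ne (fun e : i = 2 * n - 1 => ht (e ▸ hi)) _ _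
    · rw [if_neg h, if_neg h, zero_mul]
  have h2 := Tq.inv (f := fun x => q.eval x) (a := 0) (b := n - 1) (Nat.zero_le _) hq
    (fun t _ => by rw [pow_zero, one_mul])
  rw [Nat.sub_zero] at h2
  have h3 := h2.mul_const (if t ∈ cfn (2 * n) n then ∏ i ∈ t, z i else 0)
  refine h3.congr (fun x _ => ?_) ?_
  · show q.eval x⁻¹ * _ = _
    rw [h1, mul_comm]
  · rw [h1, ← Polynomial.coeff_zero_eq_eval_zero, mul_comm]

private theorem VD_H' {n : ℕ} (hn : 1 ≤ n) (z : ℕ → ℂ) (t : Finset ℕ) (ht : 2 * n - 1 ∈ t) :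
    ∃ κ, Tq n (n - 1) (fun x => Ht n (Function.update z (2 * n - 1) x⁻¹) t) κ := by
  obtain ⟨q, hq, hq1⟩ := H_deg n (2 * n - 1) z (range (2 * n) \ t)
  have h1 : ∀ x, Ht n (Function.update z (2 * n - 1) x) t =
      (if t ∈ cfn (2 * n) n then ∏ i ∈ t.erase (2 * n - 1), z i else 0) * (x * q.eval x) := by
    intro x
    unfold Ht
    by_cases h : t ∈ cfn (2 * n) n
    · rw [if_pos h, if_pos h, hq1 x, ← mul_prod_erase t _ ht, Function.update_self]
      have h2 : ∏ i ∈ t.erase (2 * n - 1), Function.update z (2 * n - 1) x i = ∏ i ∈ t.erase (2 * n - 1), z i :=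
        prod_congr rfl fun i hi => Function.update_of_ne (ne_of_mem_erase hi) _ _
      rw [h2]
      ring
    · rw [if_neg h, if_neg h, zero_mul]
  have h2 := Tq.inv (f := fun x => q.eval x) (a := 0) (b := n - 1) (Nat.zero_le _) hq
    (fun t _ => by rw [pow_zero, one_mul])
  rw [Nat.sub_zero] at h2
  obtain ⟨p, hp1, hp2, hp3⟩ := h2
  refine ⟨_, p * Polynomial.C (if t ∈ cfn (2 * n) n then ∏ i ∈ t.erase (2 * n - 1), z i else 0), ?_, fun x hx => ?_, rfl⟩
  · exact (Polynomial.natDegree_mul_C_le _ _).trans hp1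
  · rw [Polynomial.eval_mul, Polynomial.eval_C, ← hp2 x hx]
    show x ^ n * Ht n (Function.update z (2 * n - 1) x⁻¹) t = x ^ (n - 1) * q.eval x⁻¹ * _
    obtain ⟨m, rfl⟩ : ∃ m, n = m + 1 := ⟨n - 1, by omega⟩
    rw [h1, Nat.add_sub_cancel, pow_succ]
    field_simp

/-- degree and leading coefficient in the last variable -/
theorem V_degB {c n : ℕ} (hc : Odd c) (hn : 1 ≤ n) {y : ℕ → ℂ} (hG : G1 (c + 2 * n) y) :
    Tq ((c + 2 * n - 1) / 2 + n - 1) (2 * ((c + 2 * n - 1) / 2) + n - 1)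
      (fun x => V c n (Function.update y (c + 2 * n - 1) x))
      ((-1) ^ ((c + 2 * n - 1) / 2) * ∑ s ∈ cfn c (c / 2), ∑ t ∈ cfn (2 * n - 1) n,
        gv (c + 2 * n - 1) y (s ∪ su c t) * gv c (ivs y) s *
          Ht n (fun k => if k < 2 * n - 1 then ivs (sh c y) k else 0) t) := by
  obtain ⟨r, hr⟩ := hc
  have h0 : ∀ x, gv c (ivs (Function.update y (c + 2 * n - 1) x)) = gv c (ivs y) := fun x => gv_congr fun i _ => by
    unfold ivs
    rw [Function.update_of_ne (by omega)]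
  have h1 : ∀ x, ivs (sh c (Function.update y (c + 2 * n - 1) x)) = Function.update (ivs (sh c y)) (2 * n - 1) x⁻¹ := by
    intro x
    funext i
    unfold ivs sh
    rcases eq_or_ne i (2 * n - 1) with h | h
    · rw [h, Function.update_self, show 2 * n - 1 + c = c + 2 * n - 1 by omega, Function.update_self]
    · rw [Function.update_of_ne h, Function.update_of_ne (by omega)]
  have hmem : ∀ s ∈ cfn c (c / 2), ∀ t : Finset ℕ, (c + 2 * n - 1 ∈ s ∪ su c t ↔ 2 * n - 1 ∈ t) := by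
    intro s hs t
    rw [mem_union, mem_su', show c + 2 * n - 1 - c = 2 * n - 1 by omega]
    refine ⟨fun h => h.elim (fun h' => ?_) fun h' => h'.2, fun h => Or.inr ⟨by omega, h⟩⟩
    have := mem_range.1 ((mem_cfn.1 hs).1 h')
    omega
  have h2 : ∀ s ∈ cfn c (c / 2), ∀ t ∈ cfn (2 * n) n, Tq ((c + 2 * n - 1) / 2 + n - 1) (2 * ((c + 2 * n - 1) / 2) + n - 1)
      (fun x => gv (c + 2 * n) (Function.update y (c + 2 * n - 1) x) (s ∪ su c t) *
        Ht n (Function.update (ivs (sh c y)) (2 * n - 1) x⁻¹) t)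
      ((if 2 * n - 1 ∈ t then 0 else (-1) ^ ((c + 2 * n - 1) / 2) * gv (c + 2 * n - 1) y (s ∪ su c t)) *
        Ht n (Function.update (ivs (sh c y)) (2 * n - 1) 0) t) := by
    intro s hs t _
    obtain ⟨p, hp1, hp2, hp3, hp4⟩ := hG (s ∪ su c t)
    by_cases ht : 2 * n - 1 ∈ t
    · rw [if_pos ht, zero_mul]
      have hm := (hmem s hs t).2 ht
      have h5 := hp4 hm
      rw [if_pos hm] at hp3
      -- both extreme coefficients vanish
      have hd : 1 ≤ (c + 2 * n - 1) / 2 := by omega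
      obtain ⟨p', rfl⟩ : ∃ p', p = Polynomial.X * p' := Polynomial.X_dvd_iff.2 h5
      have h6 : p'.natDegree ≤ 2 * ((c + 2 * n - 1) / 2) - 2 := by
        by_contra hcon
        have hne : p' ≠ 0 := by
          rintro rfl
          simp at hcon
        have h7 : (Polynomial.X * p').natDegree = p'.natDegree + 1 := by
          rw [mul_comm, Polynomial.natDegree_mul_X hne]
        have h8 : p'.natDegree = 2 * ((c + 2 * n - 1) / 2) - 1 := by omega
        have h9 : (Polynomial.X * p').coeff (2 * ((c + 2 * n - 1) / 2)) = p'.leadingCoeff := by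
          have e : 2 * ((c + 2 * n - 1) / 2) = p'.natDegree + 1 := by omega
          rw [e, Polynomial.coeff_X_mul]
          rfl
        rw [h9] at hp3
        exact hne (Polynomial.leadingCoeff_eq_zero.1 hp3)
      have h7 : Tq ((c + 2 * n - 1) / 2 - 1) (2 * ((c + 2 * n - 1) / 2) - 2)
          (fun x => gv (c + 2 * n) (Function.update y (c + 2 * n - 1) x) (s ∪ su c t))
          (p'.coeff (2 * ((c + 2 * n - 1) / 2) - 2)) := by
        refine ⟨p', h6, fun x hx => ?_, rfl⟩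
        have h8 := hp2 x hx
        rw [Polynomial.eval_mul, Polynomial.eval_X] at h8
        have h9 : x ^ ((c + 2 * n - 1) / 2) = x * x ^ ((c + 2 * n - 1) / 2 - 1) := by
          rw [← pow_succ', Nat.sub_add_cancel hd]
        rw [h9, mul_assoc] at h8
        exact mul_left_cancel₀ hx h8
      obtain ⟨κ, h8⟩ := VD_H' hn (ivs (sh c y)) t ht
      have h9 := h7.mul h8
      exact h9.up (by omega) (by omega)
    · rw [if_neg ht]
      have hm : c + 2 * n - 1 ∉ s ∪ su c t := fun h => ht ((hmem s hs t).1 h)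
      rw [if_neg hm] at hp3
      have h5 : Tq ((c + 2 * n - 1) / 2) (2 * ((c + 2 * n - 1) / 2))
          (fun x => gv (c + 2 * n) (Function.update y (c + 2 * n - 1) x) (s ∪ su c t))
          ((-1) ^ ((c + 2 * n - 1) / 2) * gv (c + 2 * n - 1) y (s ∪ su c t)) := ⟨p, hp1, hp2, hp3⟩
      have h6 := h5.mul (VD_H hn (ivs (sh c y)) t ht)
      rw [show (c + 2 * n - 1) / 2 + (n - 1) = (c + 2 * n - 1) / 2 + n - 1 by omega,
        show 2 * ((c + 2 * n - 1) / 2) + (n - 1) = 2 * ((c + 2 * n - 1) / 2) + n - 1 by omega] at h6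
      exact h6
  have h3 := Tq.sum (cfn c (c / 2)) fun s hs => (Tq.sum (cfn (2 * n) n) fun t ht => h2 s hs t ht).mul_const (gv c (ivs y) s)
  refine h3.congr (fun x _ => ?_) ?_
  · unfold V
    rw [h0, h1]
    refine sum_congr rfl fun s _ => ?_
    rw [sum_mul]
    refine sum_congr rfl fun t _ => ?_
    ring
  · rw [mul_sum]
    refine sum_congr rfl fun s _ => ?_
    have e1 : 2 * n = (2 * n - 1) + 1 := by omega
    have e2 := sum_last0 (2 * n - 1) n (fun t =>
      (if 2 * n - 1 ∈ t then 0 else (-1) ^ ((c + 2 * n - 1) / 2) * gv (c + 2 * n - 1) y (s ∪ su c t)) *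
        Ht n (Function.update (ivs (sh c y)) (2 * n - 1) 0) t) (fun t _ ht => by
          show (if 2 * n - 1 ∈ t then (0 : ℂ) else _) * _ = 0
          rw [if_pos ht, zero_mul])
    rw [← e1] at e2
    rw [e2, sum_mul, mul_sum]
    refine sum_congr rfl fun t ht => ?_
    have h4 : 2 * n - 1 ∉ t := fun h => by
      have := mem_range.1 ((mem_cfn.1 ht).1 h)
      omega
    have h5 : Ht n (Function.update (ivs (sh c y)) (2 * n - 1) 0) =
        Ht n (fun k => if k < 2 * n - 1 then ivs (sh c y) k else 0) := Ht_congr n fun k hk => by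
      rcases eq_or_ne k (2 * n - 1) with h | h
      · rw [h, Function.update_self, if_neg (lt_irrefl _)]
      · rw [Function.update_of_ne h, if_pos (by omega)]
    rw [if_neg h4, h5]
    ring

end CV
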