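import Pool.Agent.Lib.MP_216314_pr.CV.Mass
import Pool.Agent.Lib.MP_216314_pr.CV.VD
import Pool.Agent.Lib.MP_216314_pr.CV.GlC

/-!
# Degree and leading coefficient of the pairing in the first and in the last variable
-/

set_option autoImplicit false

noncomputable section

namespace CW

open Finset PX CF CZ CV

/-- the constant of the theorem -/
def ka (c n : ℕ) : ℂ := om ^ (2 * n) * (-om ^ 2) ^ ((c - 1) / 2) * kc n

theorem G1_of {L : ℕ} (hodd : L % 2 = 1) {y : ℕ → ℂ} (hy : NZ L y) : G1 L y := by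
  intro s
  obtain ⟨p, h1, h2, h3, h4⟩ := gv_last hodd hy s
  exact ⟨p, h1, h2, h3, fun h => by rw [h4, if_pos h]⟩

theorem G2_of {L : ℕ} (hodd : L % 2 = 1) {y : ℕ → ℂ} (hy : NZ L y) : G2 L y := gv_first hodd hy

/-- the first variable -/
theorem V_DA {S : Multiset ℂ → ℂ} (hS : SC S) {c n : ℕ} (hc : Odd c) {y : ℕ → ℂ} (hy : NZ (c + 2 * n) y)
    (hg : Gen (c - 1 + 2 * n) (sh 1 y)) :
    Tq ((c + 2 * n - 1) / 2 + (c - 1) / 2) (2 * ((c + 2 * n - 1) / 2) + 2 * ((c - 1) / 2))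
      (fun t => V c n (Function.update y 0 t))
      (ka c n * Sv S (c - 1 + 2 * n) (sh 1 y) * Sv S (c - 1) (sh 1 y) * Yv n (ivs (sh c y))) := by
  have hc2 := Nat.odd_iff.1 hc
  refine (V_degA hc (G2_of (by omega) hy) (G2_of hc2 (nz_inv fun k hk => hy k (by omega)))).congr
    (fun _ _ => rfl) ?_
  rw [V_mass hS (Nat.even_iff.2 (by omega)) hg]
  have e1 : sh (c - 1) (sh 1 y) = sh c y := by
    funext i
    show y (i + (c - 1) + 1) = y (i + c)
    rw [show i + (c - 1) + 1 = i + c by omega]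
  rw [e1, pow_add]
  unfold ka
  have e2 : (-1 : ℂ) ^ n * (-om ^ 2) ^ n = om ^ (2 * n) := by
    rw [← mul_pow, pow_mul]
    congr 1
    ring
  rw [← e2]
  ring

/-- the last variable -/
theorem V_DB {S : Multiset ℂ → ℂ} (hS : SC S) {c n : ℕ} (hc : Odd c) (hn : 1 ≤ n) {y : ℕ → ℂ}
    (hy : NZ (c + 2 * n) y) (hg : Gen (c + 2 * n - 1) y) :
    Tq ((c + 2 * n - 1) / 2 + n - 1) (2 * ((c + 2 * n - 1) / 2) + n - 1)
      (fun x => V c n (Function.update y (c + 2 * n - 1) x))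
      (-om ^ 2 * ka c n * Sv S (c + 2 * n - 1) y * Sv S c y *
        Yv n (fun k => if k < 2 * n - 1 then ivs (sh c y) k else 0)) := by
  have hc2 := Nat.odd_iff.1 hc
  refine (V_degB hc hn (G1_of (by omega) hy)).congr (fun _ _ => rfl) ?_
  rw [V_mass' hS hc hn hg, pow_add]
  unfold ka
  have e2 : (-1 : ℂ) ^ n * (-om ^ 2) ^ n = om ^ (2 * n) := by
    rw [← mul_pow, pow_mul]
    congr 1
    ring
  have e3 : sgn c = (-1) ^ ((c - 1) / 2) := by
    unfold sgn
    rw [hc2, mul_one]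
    congr 1
    omega
  have e4 : (-1 : ℂ) ^ ((c + 2 * n - 1) / 2) * (-1) ^ ((c - 1) / 2) = (-1) ^ n := by
    rw [← pow_add, show (c + 2 * n - 1) / 2 + (c - 1) / 2 = n + 2 * ((c - 1) / 2) by omega, pow_add, pow_mul,
      neg_one_sq, one_pow, mul_one]
  have e5 : c / 2 = (c - 1) / 2 := by omega
  rw [← e2, ← e4, e3, e5]
  ring

end CW
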