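import Pool.Agent.Lib.MP_216314_pr.CV.Lag

/-!
# The vector of the cylinder: definitions

`H n y`: solution of the exchange relations for `2 n` sites with the base component
`∏_{i<j<n} (ω y_i - y_j) ∏_{n≤i<j<2n} (ω y_i - y_j)`; `Ht n y s = (∏_{i∈s} y_i) H n y sᶜ` (spin flip).
-/

set_option autoImplicit false

noncomputable section

namespace CV

open Finset MvPolynomial PX

/-- factor of two equal spins -/
def PE (i j : ℕ) : MP := C om * X i - X j

/-- the base polynomial -/
def H0 (n : ℕ) : MP := (∏ j ∈ Ico 0 n, ∏ i ∈ Ico 0 j, PE i j) * ∏ j ∈ Ico n (2 * n), ∏ i ∈ Ico n j, PE i j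

theorem PE_eval (y : ℕ → ℂ) (i j : ℕ) : eval y (PE i j) = om * y i - y j := by
  unfold PE
  rw [map_sub, map_mul, eval_C, eval_X, eval_X]

theorem H0_eval (n : ℕ) (y : ℕ → ℂ) : eval y (H0 n) = AA 0 n y * AA n (2 * n) y := by
  unfold H0 AA
  rw [map_mul, map_prod, map_prod]
  congr 1
  · refine Finset.prod_congr rfl fun j _ => ?_
    rw [map_prod]
    exact Finset.prod_congr rfl fun i _ => PE_eval y i j
  · refine Finset.prod_congr rfl fun j _ => ?_
    rw [map_prod]
    exact Finset.prod_congr rfl fun i _ => PE_eval y i j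

/-! ### The base polynomial is an eigenvector -/

private theorem swap_if (i k : ℕ) :
    Equiv.swap i (i + 1) k = if k = i then i + 1 else if k = i + 1 then i else k := by
  rw [Equiv.swap_apply_def]

theorem sp_mul (i : ℕ) (f g : MP) : sp i (f * g) = sp i f * sp i g := by
  unfold sp
  rw [map_mul]

theorem sp_prod {ι : Type} (i : ℕ) (s : Finset ι) (f : ι → MP) :
    sp i (∏ k ∈ s, f k) = ∏ k ∈ s, sp i (f k) := by
  unfold sp
  rw [map_prod]

theorem sp_PE (i a b : ℕ) :
    sp i (PE a b) = PE (Equiv.swap i (i + 1) a) (Equiv.swap i (i + 1) b) := by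
  unfold sp PE
  simp only [map_mul, map_sub, rename_C, rename_X]

/-- the pair `i`, `i+1` lies in the interval -/
private theorem PE_in (i l m : ℕ) (hl : l ≤ i) (hm : i + 1 < m) :
    ∃ g : MP, sp i g = g ∧ ∏ b ∈ Ico l m, ∏ a ∈ Ico l b, PE a b = PE i (i + 1) * g := by
  rw [Finset.prod_sigma']
  have hmem : (⟨i + 1, i⟩ : Σ _ : ℕ, ℕ) ∈ (Ico l m).sigma fun b => Ico l b := by
    rw [Finset.mem_sigma, Finset.mem_Ico, Finset.mem_Ico]
    simp only
    omega
  refine ⟨∏ x ∈ ((Ico l m).sigma fun b => Ico l b).erase ⟨i + 1, i⟩, PE x.2 x.1, ?_, ?_⟩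
  · rw [sp_prod]
    refine Finset.prod_bij
      (fun x _ => (⟨Equiv.swap i (i + 1) x.1, Equiv.swap i (i + 1) x.2⟩ : Σ _ : ℕ, ℕ)) ?_ ?_ ?_ ?_
    · rintro ⟨b, a⟩ hx
      simp only [Finset.mem_erase, Finset.mem_sigma, Finset.mem_Ico, ne_eq, Sigma.mk.injEq,
        heq_eq_eq, not_and, swap_if] at hx ⊢
      split_ifs <;> omega
    · rintro ⟨b, a⟩ _ ⟨b', a'⟩ _ hab
      simp only [Sigma.mk.injEq, heq_eq_eq] at hab ⊢
      exact ⟨(Equiv.swap i (i + 1)).injective hab.1, (Equiv.swap i (i + 1)).injective hab.2⟩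
    · rintro ⟨b, a⟩ hx
      refine ⟨⟨Equiv.swap i (i + 1) b, Equiv.swap i (i + 1) a⟩, ?_, ?_⟩
      · simp only [Finset.mem_erase, Finset.mem_sigma, Finset.mem_Ico, ne_eq, Sigma.mk.injEq,
          heq_eq_eq, not_and, swap_if] at hx ⊢
        split_ifs <;> omega
      · simp only [Equiv.swap_apply_self]
    · rintro ⟨b, a⟩ _
      exact sp_PE i a b
  · rw [← Finset.mul_prod_erase _ _ hmem]

/-- the pair `i`, `i+1` lies outside the interval -/
private theorem PE_out (i l m : ℕ) (h : i + 1 < l ∨ m ≤ i) :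
    sp i (∏ b ∈ Ico l m, ∏ a ∈ Ico l b, PE a b) = ∏ b ∈ Ico l m, ∏ a ∈ Ico l b, PE a b := by
  rw [sp_prod]
  refine Finset.prod_congr rfl fun b hb => ?_
  rw [sp_prod]
  refine Finset.prod_congr rfl fun a ha => ?_
  rw [Finset.mem_Ico] at hb ha
  rw [sp_PE, Equiv.swap_apply_of_ne_of_ne (by omega) (by omega),
    Equiv.swap_apply_of_ne_of_ne (by omega) (by omega)]

/-- eigenvector property for two intervals `[0, n)`, `[n, L)` -/
theorem two_Ba (n L : ℕ) :
    Ba L n ((∏ j ∈ Ico 0 n, ∏ i ∈ Ico 0 j, PE i j) * ∏ j ∈ Ico n L, ∏ i ∈ Ico n j, PE i j) := by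
  intro i hi h
  rcases Nat.lt_or_ge (i + 1) n with h1 | h1
  · obtain ⟨g, hg, e⟩ := PE_in i 0 n (Nat.zero_le _) h1
    have h2 := PE_out i n L (Or.inl h1)
    rw [e, mul_assoc]
    refine Tp_eigen i _ ?_
    rw [sp_mul, hg, h2]
  · obtain ⟨g, hg, e⟩ := PE_in i n L (by omega) hi
    have h2 := PE_out i 0 n (Or.inr (by omega))
    rw [e, mul_left_comm]
    refine Tp_eigen i _ ?_
    rw [sp_mul, hg, h2]

theorem H0_Ba (n : ℕ) : Ba (2 * n) n (H0 n) := two_Ba n (2 * n)

/-! ### Degrees -/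

theorem PE_degree (i j k : ℕ) : degreeOf k (PE i j) ≤ (if k = i then 1 else 0) + (if k = j then 1 else 0) :=
  gpolC_lin i j k

theorem two_degree (n L k : ℕ) (hn : n ≤ L) :
    degreeOf k ((∏ j ∈ Ico 0 n, ∏ i ∈ Ico 0 j, PE i j) * ∏ j ∈ Ico n L, ∏ i ∈ Ico n j, PE i j) ≤
      (if k < n then n - 1 else 0) + (if n ≤ k ∧ k < L then L - n - 1 else 0) := by
  have a : ∀ l m : ℕ, l ≤ m → degreeOf k (∏ j ∈ Ico l m, ∏ i ∈ Ico l j, PE i j) ≤ if l ≤ k ∧ k < m then m - l - 1 else 0 := by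
    intro l m hlm
    refine (degreeOf_prod_le k _ _).trans ?_
    rw [← gpolC_sum l m k hlm]
    refine Finset.sum_le_sum (fun j _ => ?_)
    exact (degreeOf_prod_le k _ _).trans (Finset.sum_le_sum (fun i _ => PE_degree i j k))
  have a1 := a 0 n (Nat.zero_le _)
  have a2 := a n L hn
  simp only [Nat.zero_le, true_and, Nat.sub_zero] at a1
  exact (degreeOf_mul_le k _ _).trans (by omega)

theorem H0_degree (n k : ℕ) : degreeOf k (H0 n) ≤ n - 1 := by
  have h := two_degree n (2 * n) k (by omega)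
  unfold H0
  split_ifs at h <;> omega

theorem H0_degree_zero (n k : ℕ) (hk : 2 * n ≤ k) : degreeOf k (H0 n) = 0 := by
  have h := two_degree n (2 * n) k (by omega)
  unfold H0
  split_ifs at h <;> omega

/-! ### The two vectors -/

/-- the periodic solution -/
def H (n : ℕ) (y : ℕ → ℂ) : Vec := gb (H0 n) (2 * n) n y

/-- the flipped solution -/
def Ht (n : ℕ) (y : ℕ → ℂ) : Vec := fun s =>
  if s ∈ cfn (2 * n) n then (∏ i ∈ s, y i) * H n y (range (2 * n) \ s) else 0

theorem H_wt (n : ℕ) (y : ℕ → ℂ) : Wt (2 * n) n (H n y) := gb_wt _ _ _ _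

theorem Ht_wt (n : ℕ) (y : ℕ → ℂ) : Wt (2 * n) n (Ht n y) := fun _ hs => if_neg hs

theorem H_congr (n : ℕ) {y y' : ℕ → ℂ} (h : ∀ k, k < 2 * n → y k = y' k) : H n y = H n y' :=
  gb_congr (H0_degree_zero n) n h

theorem H_exch (n : ℕ) (S : Set (ℕ → ℂ)) : Exch S 0 (2 * n) (H n) := gb_exch (H0_Ba n) S

theorem H_lau (n : ℕ) (s : Finset ℕ) : Lau (2 * n) (fun y => H n y s) := gb_lau _ _ _ _

theorem H_range (n : ℕ) (y : ℕ → ℂ) : H n y (range n) = AA 0 n y * AA n (2 * n) y := by
  unfold H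
  rw [gb_range _ (by omega), H0_eval]

/-- in every variable, a polynomial of degree at most `n - 1` -/
theorem H_deg (n i : ℕ) (y : ℕ → ℂ) (s : Finset ℕ) :
    ∃ q : Polynomial ℂ, q.natDegree ≤ n - 1 ∧ ∀ t : ℂ, H n (Function.update y i t) s = q.eval t :=
  gb_deg (H0_degree n) (2 * n) n i y s

/-- complement in `range (2 n)` -/
theorem cpl_mem {n : ℕ} {s : Finset ℕ} (hs : s ∈ cfn (2 * n) n) : range (2 * n) \ s ∈ cfn (2 * n) n := by
  rw [mem_cfn] at hs ⊢
  refine ⟨Finset.sdiff_subset, ?_⟩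
  rw [Finset.card_sdiff_of_subset hs.1, Finset.card_range, hs.2]
  omega

theorem cpl_sg {N i : ℕ} (hi : i + 1 < N) (s : Finset ℕ) : range N \ sg i s = sg i (range N \ s) := by
  ext k
  rw [mem_sg, Finset.mem_sdiff, Finset.mem_sdiff, mem_sg, Finset.mem_range, Finset.mem_range]
  have : k < N ↔ Equiv.swap i (i + 1) k < N := by
    rw [Equiv.swap_apply_def]
    split_ifs <;> omega
  rw [this]

theorem Ht_congr (n : ℕ) {y y' : ℕ → ℂ} (h : ∀ k, k < 2 * n → y k = y' k) : Ht n y = Ht n y' := by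
  funext s
  unfold Ht
  by_cases hs : s ∈ cfn (2 * n) n
  · rw [if_pos hs, if_pos hs, H_congr n h]
    congr 1
    exact Finset.prod_congr rfl fun k hk => h k (Finset.mem_range.1 ((mem_cfn.1 hs).1 hk))
  · rw [if_neg hs, if_neg hs]

theorem Ht_lau (n : ℕ) (s : Finset ℕ) : Lau (2 * n) (fun y => Ht n y s) := by
  unfold Ht
  by_cases hs : s ∈ cfn (2 * n) n
  · simp only [if_pos hs]
    exact (Lau.prod s fun k _ => Lau.coord _ k).mul (H_lau n _)
  · simp only [if_neg hs]
    exact Lau.const _ 0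

/-- in every variable, a polynomial of degree at most `n` -/
theorem Ht_deg (n i : ℕ) (hi : i < 2 * n) (y : ℕ → ℂ) (s : Finset ℕ) :
    ∃ q : Polynomial ℂ, q.natDegree ≤ n ∧ ∀ t : ℂ, Ht n (Function.update y i t) s = q.eval t := by
  by_cases hs : s ∈ cfn (2 * n) n
  · obtain ⟨q, hq, he⟩ := H_deg n i y (range (2 * n) \ s)
    by_cases h : i ∈ s
    · refine ⟨Polynomial.C (∏ k ∈ s \ {i}, y k) * (Polynomial.X * q), ?_, fun t => ?_⟩
      · refine (Polynomial.natDegree_C_mul_le _ _).trans ?_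
        refine Polynomial.natDegree_mul_le.trans ?_
        rw [Polynomial.natDegree_X]
        omega
      · unfold Ht
        rw [if_pos hs, he t, Finset.prod_update_of_mem h]
        simp only [Polynomial.eval_mul, Polynomial.eval_C, Polynomial.eval_X]
        ring
    · refine ⟨Polynomial.C (∏ k ∈ s, y k) * q, ?_, fun t => ?_⟩
      · refine (Polynomial.natDegree_C_mul_le _ _).trans ?_
        omega
      · unfold Ht
        rw [if_pos hs, he t, Finset.prod_update_of_notMem h]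
        simp only [Polynomial.eval_mul, Polynomial.eval_C]
  · refine ⟨0, by simp, fun t => ?_⟩
    unfold Ht
    rw [if_neg hs, Polynomial.eval_zero]

/-- the component as a polynomial -/
def HtP (n : ℕ) (s : Finset ℕ) : MP :=
  if s ∈ cfn (2 * n) n then (∏ i ∈ s, X i) * GB (H0 n) (range (2 * n) \ s) else 0

theorem HtP_eval (n : ℕ) (y : ℕ → ℂ) (s : Finset ℕ) : eval y (HtP n s) = Ht n y s := by
  unfold HtP Ht H gb
  by_cases hs : s ∈ cfn (2 * n) n
  · rw [if_pos hs, if_pos hs, if_pos (cpl_mem hs), map_mul, map_prod]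
    simp only [eval_X]
  · rw [if_neg hs, if_neg hs, map_zero]

theorem HtP_degree (n k : ℕ) (s : Finset ℕ) : degreeOf k (HtP n s) ≤ n := by
  unfold HtP
  by_cases hs : s ∈ cfn (2 * n) n
  · rw [if_pos hs]
    refine (degreeOf_mul_le k _ _).trans ?_
    have h1 : degreeOf k (∏ i ∈ s, X i : MP) ≤ 1 := by
      refine (degreeOf_prod_le k s (fun i => (X i : MP))).trans ?_
      simp only [gpolC_X, Finset.sum_ite_eq]
      split_ifs <;> omega
    have h2 := GB_degree (H0_degree n) k (range (2 * n) \ s)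
    have h3 : n ≠ 0 ∨ s = ∅ := by
      by_cases h : n = 0
      · right
        rw [mem_cfn] at hs
        exact Finset.card_eq_zero.1 (hs.2.trans h)
      · exact Or.inl h
    rcases h3 with h3 | h3
    · omega
    · subst h3
      have h4 : degreeOf k (∏ i ∈ (∅ : Finset ℕ), X i : MP) = 0 := by
        rw [Finset.prod_empty]
        exact degreeOf_one k
      omega
  · rw [if_neg hs]
    simp

theorem HtP_degree_zero (n k : ℕ) (s : Finset ℕ) (hk : 2 * n ≤ k) : degreeOf k (HtP n s) = 0 := by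
  unfold HtP
  by_cases hs : s ∈ cfn (2 * n) n
  · rw [if_pos hs]
    have h1 : degreeOf k (∏ i ∈ s, X i : MP) = 0 := by
      have h := degreeOf_prod_le k s (fun i => (X i : MP))
      simp only [gpolC_X, Finset.sum_ite_eq] at h
      have h5 : k ∉ s := fun h6 => by
        have := Finset.mem_range.1 ((mem_cfn.1 hs).1 h6)
        omega
      rw [if_neg h5] at h
      omega
    have h2 := GB_degree_zero (L := 2 * n) (H0_degree_zero n) k (range (2 * n) \ s) Finset.sdiff_subset hk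
    have h3 := degreeOf_mul_le k (∏ i ∈ s, X i : MP) (GB (H0 n) (range (2 * n) \ s))
    omega
  · rw [if_neg hs]
    simp

private theorem prod_sw_both {i : ℕ} {s : Finset ℕ} (h : i ∈ s ↔ i + 1 ∈ s) (y : ℕ → ℂ) :
    ∏ k ∈ s, sw i y k = ∏ k ∈ s, y k := by
  refine Finset.prod_bij (fun k _ => Equiv.swap i (i + 1) k) ?_ ?_ ?_ ?_
  · intro k hk
    rw [swap_if]
    split_ifs with h1 h2
    · exact h.1 (h1 ▸ hk)
    · exact h.2 (h2 ▸ hk)
    · exact hk
  · intro a _ b _ hab
    exact (Equiv.swap i (i + 1)).injective hab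
  · intro k hk
    refine ⟨Equiv.swap i (i + 1) k, ?_, Equiv.swap_apply_self _ _ _⟩
    rw [swap_if]
    split_ifs with h1 h2
    · exact h.1 (h1 ▸ hk)
    · exact h.2 (h2 ▸ hk)
    · exact hk
  · intro k _
    rfl

private theorem prod_sg (i : ℕ) (s : Finset ℕ) (f : ℕ → ℂ) :
    ∏ k ∈ sg i s, f k = ∏ k ∈ s, f (Equiv.swap i (i + 1) k) := by
  unfold sg
  rw [Finset.prod_map]
  rfl

/-- exchange relations of the flipped vector -/
theorem Ht_exch (n : ℕ) (S : Set (ℕ → ℂ)) : Exch S 0 (2 * n) (Ht n) := by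
  intro i _ hi y _ s
  by_cases hs : s ∈ cfn (2 * n) n
  · have hsg : sg i s ∈ cfn (2 * n) n := (sg_mem_cfn hi).2 hs
    have hE := H_exch n Set.univ i (Nat.zero_le _) hi y (Set.mem_univ _) (range (2 * n) \ s)
    have hv : ∀ (y : ℕ → ℂ) t, t ∈ cfn (2 * n) n → Ht n y t = (∏ i ∈ t, y i) * H n y (range (2 * n) \ t) := by
      intro y t ht
      unfold Ht
      rw [if_pos ht]
    have m1 : i ∈ range (2 * n) \ s ↔ i ∉ s := by
      rw [Finset.mem_sdiff, Finset.mem_range]
      exact ⟨fun h => h.2, fun h => ⟨by omega, h⟩⟩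
    have m2 : i + 1 ∈ range (2 * n) \ s ↔ i + 1 ∉ s := by
      rw [Finset.mem_sdiff, Finset.mem_range]
      exact ⟨fun h => h.2, fun h => ⟨by omega, h⟩⟩
    rw [hv _ s hs, hv _ s hs]
    by_cases h1 : i ∈ s
    · by_cases h2 : i + 1 ∈ s
      · have h3 : i ∈ range (2 * n) \ s ↔ i + 1 ∈ range (2 * n) \ s := by rw [m1, m2]; tauto
        rw [ee_apply_eq i _ _ h3] at hE
        rw [ee_apply_eq i _ s (by tauto), prod_sw_both (by tauto)]
        linear_combination (∏ k ∈ s, y k) * hE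
      · rw [ee_apply_right i _ _ (by rw [m1]; tauto) (by rw [m2]; exact h2), ← cpl_sg hi] at hE
        rw [ee_apply_left i _ s h1 h2, hv _ s hs, hv _ _ hsg, prod_sg]
        have e1 : ∏ k ∈ s, y k = y i * ∏ k ∈ s.erase i, y k := (Finset.mul_prod_erase s _ h1).symm
        have e2 : ∏ k ∈ s, sw i y k = y (i + 1) * ∏ k ∈ s.erase i, y k := by
          rw [← Finset.mul_prod_erase s _ h1, sw_left]
          congr 1
          refine Finset.prod_congr rfl fun k hk => ?_
          rw [Finset.mem_erase] at hk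
          exact sw_of_ne i y hk.1 (fun h => h2 (h ▸ hk.2))
        have e3 : ∏ k ∈ s, y (Equiv.swap i (i + 1) k) = y (i + 1) * ∏ k ∈ s.erase i, y k := e2
        rw [e2, e3, e1]
        set E := ∏ k ∈ s.erase i, y k
        set a := H n y (range (2 * n) \ s)
        set b := H n y (range (2 * n) \ sg i s)
        linear_combination (y (i + 1) * E) * hE + (y (i + 1) - y i) * (E * a) * (y i) * om_cube -
          (y (i + 1) - y i) * (E * a) * (y (i + 1)) * om_cube * om
    · by_cases h2 : i + 1 ∈ s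
      · rw [ee_apply_left i _ _ (by rw [m1]; exact h1) (by rw [m2]; tauto), ← cpl_sg hi] at hE
        rw [ee_apply_right i _ s h1 h2, hv _ s hs, hv _ _ hsg, prod_sg]
        have e1 : ∏ k ∈ s, y k = y (i + 1) * ∏ k ∈ s.erase (i + 1), y k := (Finset.mul_prod_erase s _ h2).symm
        have e2 : ∏ k ∈ s, sw i y k = y i * ∏ k ∈ s.erase (i + 1), y k := by
          rw [← Finset.mul_prod_erase s _ h2, sw_right]
          congr 1
          refine Finset.prod_congr rfl fun k hk => ?_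
          rw [Finset.mem_erase] at hk
          exact sw_of_ne i y (fun h => h1 (h ▸ hk.2)) hk.1
        have e3 : ∏ k ∈ s, y (Equiv.swap i (i + 1) k) = y i * ∏ k ∈ s.erase (i + 1), y k := e2
        rw [e2, e3, e1]
        set E := ∏ k ∈ s.erase (i + 1), y k
        set a := H n y (range (2 * n) \ s)
        set b := H n y (range (2 * n) \ sg i s)
        linear_combination (y i * E) * hE + ((y i ^ 2 - y i * y (i + 1)) * E * a +
          om * (y (i + 1) ^ 2 - y i * y (i + 1)) * E * a) * om_cube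
      · have h3 : i ∈ range (2 * n) \ s ↔ i + 1 ∈ range (2 * n) \ s := by rw [m1, m2]; tauto
        rw [ee_apply_eq i _ _ h3] at hE
        rw [ee_apply_eq i _ s (by tauto), prod_sw_both (by tauto)]
        linear_combination (∏ k ∈ s, y k) * hE
  · have hsg : sg i s ∉ cfn (2 * n) n := fun h => hs ((sg_mem_cfn hi).1 h)
    have hz : ∀ (y : ℕ → ℂ) t, t ∉ cfn (2 * n) n → Ht n y t = 0 := fun y t ht => if_neg ht
    have hee : ee i (Ht n y) s = 0 := by
      by_cases h1 : i ∈ s
      · by_cases h2 : i + 1 ∈ s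
        · exact ee_apply_eq i _ s (by tauto)
        · rw [ee_apply_left i _ s h1 h2, hz _ _ hs, hz _ _ hsg]; ring
      · by_cases h2 : i + 1 ∈ s
        · rw [ee_apply_right i _ s h1 h2, hz _ _ hs, hz _ _ hsg]; ring
        · exact ee_apply_eq i _ s (by tauto)
    rw [hz _ _ hs, hz _ _ hs, hee]
    ring

end CV
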