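import Pool.Agent.Lib.MP_216314_pr.CV.GB
import Pool.Agent.Lib.MP_216314_pr.X.FusC

/-!
# Fusion for an arbitrary family with exchange relations
-/

set_option autoImplicit false

noncomputable section

namespace CV

open Finset PX

section

variable {h : (ℕ → ℂ) → Vec} {L : ℕ} (hE : Exch Set.univ 0 (L + 2) h)

include hE

theorem exG {i : ℕ} (hi : i + 1 < L + 2) (y : ℕ → ℂ) :
    (om * y i - y (i + 1)) • h (sw i y) =
      (om * y (i + 1) - y i) • h y + (om ^ 2 * (y (i + 1) - y i)) • ee i (h y) := by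
  funext s
  simp only [Pi.smul_apply, Pi.add_apply, smul_eq_mul]
  exact hE i (Nat.zero_le _) hi y (Set.mem_univ _) s

omit hE in
private theorem om_sq_ne : om ^ 2 - 1 ≠ 0 := by
  intro h
  have h1 : om = -2 := by linear_combination om_eq - h
  have h2 := om_eq
  rw [h1] at h2
  norm_num at h2

/-- the fused vector is a singlet at the pair -/
theorem cupG {i : ℕ} (hi : i ≤ L) {u : ℂ} (hu : u ≠ 0) (w : ℕ → ℂ) :
    ee i (h (ip i u w)) = h (ip i u w) := by
  have h1 := exG hE (i := i) (by omega) (ip i u w)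
  rw [ip_left, ip_right, sub_self, zero_smul] at h1
  have h3 : (u * (om ^ 2 - 1)) • (h (ip i u w) - ee i (h (ip i u w))) = 0 := by
    rw [h1, smul_sub]
    have e1 : om * (om * u) - u = u * (om ^ 2 - 1) := by ring
    have e2 : om ^ 2 * (om * u - u) = -(u * (om ^ 2 - 1)) := by
      linear_combination u * om_cube
    rw [e1, e2, neg_smul]
    abel
  have h4 := (smul_eq_zero.mp h3).resolve_left (mul_ne_zero hu om_sq_ne)
  exact (sub_eq_zero.mp h4).symm

/-- the reversed pair -/
theorem cupG' {i : ℕ} (hi : i ≤ L) {u : ℂ} (hu : u ≠ 0) (w : ℕ → ℂ) :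
    ee i (h (sw i (ip i u w))) = h (ip i u w) := by
  have h1 := exG hE (i := i) (by omega) (sw i (ip i u w))
  rw [sw_left, sw_right, sw_sw, ip_left, ip_right, sub_self, zero_smul, zero_add] at h1
  have e1 : om * (om * u) - u = u * (om ^ 2 - 1) := by ring
  have e2 : om ^ 2 * (u - om * u) = u * (om ^ 2 - 1) := by
    linear_combination (-u) * om_cube
  rw [e1, e2] at h1
  exact (smul_right_injective _ (mul_ne_zero hu om_sq_ne) h1).symm

omit hE in
/-- the contracted fused vector -/
def cI (h : (ℕ → ℂ) → Vec) (i : ℕ) (u : ℂ) (w : ℕ → ℂ) : Vec := Con i (h (ip i u w))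

theorem eq_Ins_cI {i : ℕ} (hi : i ≤ L) {u : ℂ} (hu : u ≠ 0) (w : ℕ → ℂ) :
    h (ip i u w) = Ins i (cI h i u w) := by
  have h1 := cupG hE hi hu w
  rw [ee_eq] at h1
  exact h1.symm

/-- the fused vector does not change when the pair moves past an argument -/
theorem cI_move {i : ℕ} (hi : i < L) {u : ℂ} (hu : u ≠ 0) (w : ℕ → ℂ) (h1 : w i ≠ om * u)
    (h2 : w i ≠ om ^ 2 * u) : cI h (i + 1) u w = cI h i u w := by
  have hg := eq_Ins_cI hE hi.le hu w
  set g := h (ip i u w) with hgdef
  set k := cI h i u w with hh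
  have A1 := exG hE (i := i + 1) (by omega) (ip i u w)
  have e0 : ip i u w (i + 1 + 1) = w i := ip_ge u w le_rfl
  rw [ip_right, e0, ← hgdef] at A1
  have A2 := exG hE (i := i) (by omega) (sw (i + 1) (ip i u w))
  rw [sw_sw_ip, sw_left, e0, sw_of_ne (i + 1) (ip i u w) (k := i) (by omega) (by omega),
    ip_left] at A2
  set g1 := h (sw (i + 1) (ip i u w)) with hg1
  have A3 : ((om * (om * u) - w i) * (om * u - w i)) • h (ip (i + 1) u w) =
      ((om * w i - u) * (om * w i - om * u)) • g +
      ((om * w i - u) * (om ^ 2 * (w i - om * u))) • ee (i + 1) g +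
      ((om ^ 2 * (w i - u)) * (om * w i - om * u)) • ee i g +
      ((om ^ 2 * (w i - u)) * (om ^ 2 * (w i - om * u))) • ee i (ee (i + 1) g) := by
    rw [mul_smul, A2, smul_add, smul_comm _ (om * w i - u), smul_comm _ (om ^ 2 * (w i - u)),
      ← map_smul, A1]
    simp only [map_add, map_smul, smul_add, smul_smul]
    abel
  have B1 : Con (i + 1) g = k := by
    rw [hg, Con_succ_Ins]
  have B2 : Con (i + 1) (ee (i + 1) g) = k := by
    rw [ee_eq, Con_Ins_self, B1]
  have B3 : Con (i + 1) (ee i g) = k := by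
    rw [ee_eq, Con_succ_Ins, hg, Con_Ins_self]
  have B4 : Con (i + 1) (ee i (ee (i + 1) g)) = k := by
    rw [ee_eq i, Con_succ_Ins, ee_eq, Con_Ins_succ, B1]
  have A4 := congrArg (Con (i + 1)) A3
  simp only [map_add, map_smul, B1, B2, B3, B4] at A4
  rw [← add_smul, ← add_smul, ← add_smul] at A4
  have e1 : (om * w i - u) * (om * w i - om * u) +
      (om * w i - u) * (om ^ 2 * (w i - om * u)) +
      om ^ 2 * (w i - u) * (om * w i - om * u) +
      om ^ 2 * (w i - u) * (om ^ 2 * (w i - om * u)) =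
      (om * (om * u) - w i) * (om * u - w i) := by
    have f1 : om * w i - om * u + om ^ 2 * (w i - om * u) = om * (om * u) - w i := by
      linear_combination (w i) * om_eq - u * om_cube - u * om_eq
    have f2 : om * w i - u + om ^ 2 * (w i - u) = om * u - w i := by
      linear_combination (w i) * om_eq - u * om_eq
    rw [← f1, ← f2]
    ring
  rw [e1] at A4
  have n1 : om * (om * u) - w i ≠ 0 := by
    intro h0
    apply h2
    linear_combination -h0
  have n2 : om * u - w i ≠ 0 := by
    intro h0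
    apply h1
    linear_combination -h0
  exact smul_right_injective _ (mul_ne_zero n1 n2) A4

theorem cI_exch_ge {i j : ℕ} (hj : i ≤ j) (hj' : j + 1 < L) (u : ℂ) (w : ℕ → ℂ) (s : Finset ℕ) :
    (om * w j - w (j + 1)) * cI h i u (sw j w) s =
      (om * w (j + 1) - w j) * cI h i u w s + om ^ 2 * (w (j + 1) - w j) * ee j (cI h i u w) s := by
  have A := exG hE (i := j + 2) (by omega) (ip i u w)
  have e0 : ip i u w (j + 2 + 1) = w (j + 1) := ip_ge u w (by omega : i ≤ j + 1)
  rw [ip_ge u w hj, e0, sw_ip_ge u w hj] at A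
  have A2 := congrArg (Con i) A
  simp only [map_add, map_smul] at A2
  rw [Con_ee_far hj] at A2
  have A3 := congrFun A2 s
  simp only [Pi.smul_apply, Pi.add_apply, smul_eq_mul] at A3
  exact A3

/-- all the positions of the pair give the same vector -/
theorem cI_eq {u : ℂ} (hu : u ≠ 0) {w : ℕ → ℂ} (hw : w ∈ FS L u) (i : ℕ) (hi : i ≤ L) :
    cI h i u w = cI h 0 u w := by
  induction i with
  | zero => rfl
  | succ i ih =>
    rw [cI_move hE (by omega) hu w (hw.2.1 i (by omega)).1 (hw.2.1 i (by omega)).2]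
    exact ih (by omega)

theorem cI_exch {u : ℂ} : Exch (FS L u) 0 L (cI h 0 u) := by
  intro i _ h2 y _ s
  exact cI_exch_ge hE (Nat.zero_le i) h2 u y s

/-- fusion at generic arguments -/
theorem fusG_gen {h' : (ℕ → ℂ) → Vec} (hE' : Exch Set.univ 0 L h') {n : ℕ} (hn : n ≤ L)
    (hw1 : ∀ y, Wt (L + 2) (n + 1) (h y)) (hw2 : ∀ y, Wt L n (h' y)) {K : (ℕ → ℂ) → ℂ}
    (hK : ∀ i, i + 1 < L → ∀ y, K (sw i y) = K y) {u : ℂ} (hu : u ≠ 0)
    (hb : ∀ w, w ∈ FS L u → cI h n u w (range n) = K w * h' w (range n)) {w : ℕ → ℂ} (hw : w ∈ FS L u) :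
    cI h 0 u w = K w • h' w := by
  funext s
  by_cases hs : s ∈ cfn L n
  · have hE2 : Exch (FS L u) 0 L (fun y => cI h 0 u y - (fun y => K y • h' y) y) :=
      Exch.sub (cI_exch hE) (Exch.smul (hE'.mono (Set.subset_univ _) (le_refl _) (le_refl _)) K
        (fun i _ h2 y _ => hK i h2 y))
    have h1 := det_zero (FS L u) L n 0 L (le_refl _) _ hE2
      (fun i _ h2 y hy => hy.2.2 i (i + 1) (by omega) h2 (by omega))
      (fun i _ h2 y hy => FS_sw h2 hy)
      (by
        intro y hy t ht hsort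
        have h5 : ∀ i, i + 1 ∈ t → i ∈ t := fun i hi =>
          hsort i (Nat.zero_le _) (Finset.mem_range.mp ((mem_cfn.mp ht).1 hi)) hi
        have h6 := eq_range_of_sorted h5
        rw [(mem_cfn.mp ht).2] at h6
        show cI h 0 u y t - (K y • h' y) t = 0
        rw [h6, ← cI_eq hE hu hy n hn, hb y hy, Pi.smul_apply, smul_eq_mul,
          sub_self]) w hw s hs
    exact sub_eq_zero.mp h1
  · have h1 : cI h 0 u w s = 0 := wt_Con (Nat.zero_le _) (hw1 (ip 0 u w)) s hs
    rw [h1, Pi.smul_apply, hw2 w s hs, smul_zero]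

end

private theorem ip_upd (i : ℕ) (y : ℕ → ℂ) :
    (fun k => Function.update y (i + 1) (om * y i) k) = ip i (y i) (dl i y) := by
  funext k
  unfold ip dl
  rcases eq_or_ne k (i + 1) with h | h
  · subst h
    rw [Function.update_self, if_neg (by omega), if_neg (by omega), if_pos rfl]
  · rw [Function.update_of_ne h]
    split_ifs with h2 h3 h4 h5
    · rfl
    · rw [h3]
    · omega
    · have h6 : k - 2 + 2 = k := by omega
      rw [h6]

/-- fusion -/
theorem fusG {h h' : (ℕ → ℂ) → Vec} {L : ℕ} (hE : Exch Set.univ 0 (L + 2) h) (hE' : Exch Set.univ 0 L h')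
    (hl : ∀ s, Lau (L + 2) (fun y => h y s)) (hl' : ∀ s, Lau L (fun y => h' y s)) {n : ℕ} (hn : n ≤ L)
    (hw1 : ∀ y, Wt (L + 2) (n + 1) (h y)) (hw2 : ∀ y, Wt L n (h' y)) {K : ℂ → (ℕ → ℂ) → ℂ}
    (hK : ∀ u i, i + 1 < L → ∀ y, K u (sw i y) = K u y)
    (hb : ∀ u w, u ≠ 0 → w ∈ FS L u → cI h n u w (range n) = K u w * h' w (range n))
    (i : ℕ) (hi : i ≤ L) (hKl : Lau (L + 2) (fun y => K (y i) (dl i y))) {u : ℂ} (hu : u ≠ 0) {w : ℕ → ℂ} (hw : NZ L w) :
    h (ip i u w) = K u w • Ins i (h' w) := by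
  funext s
  set f : (ℕ → ℂ) → ℂ := fun y => h (fun k => Function.update y (i + 1) (om * y i) k) s -
    K (y i) (dl i y) * (cc (i ∈ s) (i + 1 ∈ s) * h' (fun k => dl i y k) (rm i s)) with hf
  have hLdl : ∀ k, Lau (L + 2) (fun y => dl i y k) := by
    intro k
    unfold dl
    split_ifs
    · exact Lau.coord _ _
    · exact Lau.coord _ _
  have hLdlinv : ∀ k, k < L → Lau (L + 2) (fun y => (dl i y k)⁻¹) := by
    intro k hk
    unfold dl
    split_ifs
    · exact Lau.coord_inv (by omega)
    · exact Lau.coord_inv (by omega)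
  have hL1 : Lau (L + 2) (fun y => h (fun k => Function.update y (i + 1) (om * y i) k) s) := by
    refine Lau.comp (hl s) (fun k y => Function.update y (i + 1) (om * y i) k) ?_ ?_ ?_
    · intro k
      rcases eq_or_ne k (i + 1) with h | h
      · subst h
        simp only [Function.update_self]
        exact (Lau.const _ _).mul (Lau.coord _ _)
      · simp only [Function.update_of_ne h]
        exact Lau.coord _ _
    · intro k hk
      rcases eq_or_ne k (i + 1) with h | h
      · subst h
        simp only [Function.update_self, mul_inv]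
        exact (Lau.const _ _).mul (Lau.coord_inv (by omega))
      · simp only [Function.update_of_ne h]
        exact Lau.coord_inv hk
    · intro k hk y hy
      exact nz_upd hy (i + 1) (mul_ne_zero om_ne_zero (hy i (by omega))) k hk
  have hL2 : Lau (L + 2) (fun y => h' (fun k => dl i y k) (rm i s)) := by
    refine Lau.comp (hl' (rm i s)) (fun k y => dl i y k) hLdl hLdlinv ?_
    intro k hk y hy
    exact nz_dl hy i k hk
  have hLf : Lau (L + 2) f := hL1.sub (hKl.mul ((Lau.const _ _).mul hL2))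
  have hfv : ∀ y, f y = h (ip i (y i) (dl i y)) s - K (y i) (dl i y) * Ins i (h' (dl i y)) s := by
    intro y
    rw [hf]
    show h (fun k => Function.update y (i + 1) (om * y i) k) s - _ = _
    rw [ip_upd]
    rfl
  have hgen : ∀ y, Gen (L + 2) y → f y = 0 := by
    intro y hy
    have hu' : y i ≠ 0 := hy.1 i (by omega)
    have hFS : dl i y ∈ FS L (y i) := by
      have hlt : ∀ k, k < L → ∃ k', k' < L + 2 ∧ k' ≠ i ∧ dl i y k = y k' ∧
          (k' = if k < i then k else k + 2) := by
        intro k hk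
        by_cases h : k < i
        · exact ⟨k, by omega, by omega, by unfold dl; rw [if_pos h], by rw [if_pos h]⟩
        · exact ⟨k + 2, by omega, by omega, by unfold dl; rw [if_neg h], by rw [if_neg h]⟩
      refine ⟨nz_dl hy.1 i, ?_, ?_⟩
      · intro k hk
        obtain ⟨k', h1, h2, h3, _⟩ := hlt k hk
        rw [h3]
        have h4 := Gen.ne_mul hy (show i < L + 2 by omega) h1 h2.symm
        exact ⟨h4.2.1.symm, h4.2.2.1.symm⟩
      · intro j k hj hk hjk
        obtain ⟨j', h1, h2, h3, h4⟩ := hlt j hj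
        obtain ⟨k', h1', h2', h3', h4'⟩ := hlt k hk
        rw [h3, h3']
        have h5 : j' ≠ k' := by
          rw [h4, h4']
          split_ifs <;> omega
        exact (Gen.ne_mul hy h1 h1' h5).1
    rw [hfv, eq_Ins_cI hE hi hu' (dl i y), cI_eq hE hu' hFS i hi,
      fusG_gen hE hE' hn hw1 hw2 (hK (y i)) hu' (fun w hw => hb (y i) w hu' hw) hFS, map_smul,
      Pi.smul_apply, smul_eq_mul, sub_self]
  have h1 := Lau.ext_gen hLf hgen (ip i u w) (nz_ip hi hu hw)
  rw [hfv, ip_left] at h1
  have hdl : dl i (ip i u w) = w := by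
    funext k
    unfold dl
    split_ifs with h1
    · exact ip_lt u w h1
    · exact ip_ge u w (by omega)
  rw [hdl] at h1
  rw [Pi.smul_apply, smul_eq_mul]
  exact sub_eq_zero.mp h1

end CV
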