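import Pool.Agent.Lib.MP_216314_pr.CV.Def
import Pool.Agent.Lib.MP_216314_pr.CV.FusG

/-!
# Fusion of the vectors of the cylinder
-/

set_option autoImplicit false

noncomputable section

namespace CV

open Finset PX

/-- the factor of the fusion -/
def KH (n : ℕ) (u : ℂ) (w : ℕ → ℂ) : ℂ := (-om) ^ n * ∏ k ∈ range (2 * n), (om ^ 2 * u - w k)

theorem KH_sw {n j : ℕ} (hj : j + 1 < 2 * n) (u : ℂ) (w : ℕ → ℂ) : KH n u (sw j w) = KH n u w := by
  unfold KH
  congr 1
  have h := prod_sw hj (fun k => om ^ 2 * u - w k)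
  rw [← h]
  refine Finset.prod_congr rfl fun k _ => ?_
  by_cases h1 : k = j
  · rw [h1, sw_left, sw_left]
  · by_cases h2 : k = j + 1
    · rw [h2, sw_right, sw_right]
    · rw [sw_of_ne j _ h1 h2, sw_of_ne j _ h1 h2]

/-- the base component of the fused vector -/
theorem H_ip_base (n : ℕ) (u : ℂ) (w : ℕ → ℂ) :
    H (n + 1) (ip n u w) (range (n + 1)) = KH n u w * H n w (range n) := by
  rw [H_range, H_range]
  have e1 : AA 0 (n + 1) (ip n u w) = AA 0 n w * ((-om) ^ n * ∏ k ∈ range n, (om ^ 2 * u - w k)) := by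
    rw [AA_top (Nat.zero_le n)]
    have a1 : AA 0 n (ip n u w) = AA 0 n w := AA_congr fun k _ h2 => ip_lt u w h2
    have a2 : (-om) ^ n = ∏ _k ∈ range n, (-om) := by
      rw [Finset.prod_const, Finset.card_range]
    rw [a1, a2, ← Finset.prod_mul_distrib, Nat.Ico_zero_eq_range]
    congr 1
    refine Finset.prod_congr rfl fun k hk => ?_
    rw [Finset.mem_range] at hk
    rw [ip_lt u w hk, ip_left]
    linear_combination u * om_cube
  have e2 : AA (n + 1) (2 * (n + 1)) (ip n u w) = (∏ k ∈ Ico n (2 * n), (om ^ 2 * u - w k)) * AA n (2 * n) w := by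
    rw [AA_bot (by omega : n + 1 < 2 * (n + 1))]
    have c : 2 * (n + 1) = 2 * n + 2 := by ring
    rw [c, ← Finset.prod_Ico_add' _ n (2 * n) 2]
    congr 1
    · refine Finset.prod_congr rfl fun k hk => ?_
      rw [Finset.mem_Ico] at hk
      rw [ip_right, ip_ge u w hk.1]
      ring
    · unfold AA
      rw [← Finset.prod_Ico_add' _ n (2 * n) 2]
      refine Finset.prod_congr rfl fun j hj => ?_
      rw [Finset.mem_Ico] at hj
      rw [← Finset.prod_Ico_add' _ n j 2]
      refine Finset.prod_congr rfl fun i hi => ?_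
      rw [Finset.mem_Ico] at hi
      rw [ip_ge u w hj.1, ip_ge u w hi.1]
  rw [e1, e2]
  unfold KH
  rw [← Finset.prod_range_mul_prod_Ico _ (by omega : n ≤ 2 * n)]
  ring

theorem H_cI_base (n : ℕ) {u : ℂ} (hu : u ≠ 0) (w : ℕ → ℂ) :
    cI (H (n + 1)) n u w (range n) = KH n u w * H n w (range n) := by
  have hE : Exch Set.univ 0 (2 * n + 2) (H (n + 1)) := H_exch (n + 1) Set.univ
  have a1 := congrFun (eq_Ins_cI hE (i := n) (by omega) hu w) (range (n + 1))
  rw [Ins_apply] at a1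
  have a2 : rm n (range (n + 1)) = range n := by
    ext k
    rw [mem_rm, Finset.mem_range, Finset.mem_range]
    unfold up
    split_ifs <;> omega
  have a3 : n ∈ range (n + 1) := Finset.mem_range.mpr (by omega)
  have a4 : n + 1 ∉ range (n + 1) := by
    rw [Finset.mem_range]
    omega
  rw [a2] at a1
  simp only [cc, a3, a4, if_true, if_false, one_mul] at a1
  rw [← a1, H_ip_base]

private theorem KH_lau (n i : ℕ) : Lau (2 * n + 2) (fun y => KH n (y i) (dl i y)) := by
  unfold KH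
  refine (Lau.const _ _).mul (Lau.prod _ fun k _ => ?_)
  refine ((Lau.const _ _).mul (Lau.coord _ _)).sub ?_
  unfold dl
  split_ifs
  · exact Lau.coord _ _
  · exact Lau.coord _ _

/-- fusion of `H` -/
theorem H_fus (n i : ℕ) (hi : i ≤ 2 * n) {u : ℂ} (hu : u ≠ 0) {w : ℕ → ℂ} (hw : NZ (2 * n) w) :
    H (n + 1) (ip i u w) = KH n u w • Ins i (H n w) := by
  have hE : Exch Set.univ 0 (2 * n + 2) (H (n + 1)) := H_exch (n + 1) Set.univ
  refine fusG (h := H (n + 1)) (h' := H n) (L := 2 * n) (n := n) (K := KH n) hE (H_exch n Set.univ) (fun s => H_lau (n + 1) s)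
    (fun s => H_lau n s) (by omega) (fun y => H_wt (n + 1) y) (fun y => H_wt n y) (fun u i hi y => KH_sw hi u y)
    (fun u w hu _ => H_cI_base n hu w) i hi (KH_lau n i) hu hw

/-- the configurations without the pair -/
theorem rm_cpl {n i : ℕ} (hi : i ≤ 2 * n) (s : Finset ℕ) : rm i (range (2 * (n + 1)) \ s) = range (2 * n) \ rm i s := by
  ext k
  rw [mem_rm, Finset.mem_sdiff, Finset.mem_sdiff, mem_rm, Finset.mem_range, Finset.mem_range]
  have h : up i k < 2 * (n + 1) ↔ k < 2 * n := by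
    unfold up
    split_ifs <;> omega
  rw [h]

theorem prod_ip_mk (i : ℕ) (u : ℂ) (w : ℕ → ℂ) (t : Finset ℕ) : ∏ k ∈ PX.mk i t, ip i u w k = ∏ k ∈ t, w k := by
  unfold PX.mk
  rw [Finset.prod_map]
  refine Finset.prod_congr rfl fun k _ => ?_
  show ip i u w (up i k) = w k
  unfold up
  split_ifs with h
  · exact ip_lt u w h
  · exact ip_ge u w (by omega)

private theorem eq_ins {i : ℕ} {s : Finset ℕ} (h1 : i ∈ s) (h2 : i + 1 ∉ s) : s = insert i (mk i (rm i s)) := by
  ext k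
  simp only [mem_rm, Finset.mem_insert, PX.mem_mk, up]
  grind

private theorem eq_ins' {i : ℕ} {s : Finset ℕ} (h1 : i ∉ s) (h2 : i + 1 ∈ s) : s = insert (i + 1) (mk i (rm i s)) := by
  ext k
  simp only [mem_rm, Finset.mem_insert, PX.mem_mk, up]
  grind

theorem prod_ip_left {i : ℕ} {s : Finset ℕ} (h1 : i ∈ s) (h2 : i + 1 ∉ s) (u : ℂ) (w : ℕ → ℂ) :
    ∏ k ∈ s, ip i u w k = u * ∏ k ∈ rm i s, w k := by
  conv_lhs => rw [eq_ins h1 h2]
  rw [Finset.prod_insert left_notMem_mk, ip_left, prod_ip_mk]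

theorem prod_ip_right {i : ℕ} {s : Finset ℕ} (h1 : i ∉ s) (h2 : i + 1 ∈ s) (u : ℂ) (w : ℕ → ℂ) :
    ∏ k ∈ s, ip i u w k = om * u * ∏ k ∈ rm i s, w k := by
  conv_lhs => rw [eq_ins' h1 h2]
  rw [Finset.prod_insert right_notMem_mk, ip_right, prod_ip_mk]

/-- fusion of `Ht` -/
theorem Ht_fus (n i : ℕ) (hi : i ≤ 2 * n) {u : ℂ} (hu : u ≠ 0) {w : ℕ → ℂ} (hw : NZ (2 * n) w) :
    Ht (n + 1) (ip i u w) = (-om ^ 2 * u * KH n u w) • Ins i (Ht n w) := by
  have h := H_fus n i hi hu hw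
  have hr : ∀ k, k = i ∨ k = i + 1 → k ∈ range (2 * (n + 1)) := by
    intro k hk
    rw [Finset.mem_range]
    omega
  funext s
  rw [Pi.smul_apply, Ins_apply, smul_eq_mul]
  by_cases hc : i ∈ s ↔ i + 1 ∈ s
  · have h1 : cc (i ∈ s) (i + 1 ∈ s) = 0 := by
      unfold cc
      by_cases h2 : i ∈ s
      · rw [if_pos h2, if_pos (hc.1 h2)]
      · rw [if_neg h2, if_neg (fun h3 => h2 (hc.2 h3))]
    rw [h1, zero_mul, mul_zero]
    unfold Ht
    by_cases hs : s ∈ cfn (2 * (n + 1)) (n + 1)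
    · rw [if_pos hs, h, Pi.smul_apply, Ins_apply]
      have h3 : cc (i ∈ range (2 * (n + 1)) \ s) (i + 1 ∈ range (2 * (n + 1)) \ s) = 0 := by
        unfold cc
        simp only [Finset.mem_sdiff, hr i (Or.inl rfl), hr (i + 1) (Or.inr rfl), true_and]
        by_cases h2 : i ∈ s
        · rw [if_neg (not_not.2 h2), if_neg (not_not.2 (hc.1 h2))]
        · rw [if_pos h2, if_pos (fun h3 => h2 (hc.2 h3))]
      rw [h3, zero_mul, smul_zero, mul_zero]
    · rw [if_neg hs]
  · have hm : rm i s ∈ cfn (2 * n) n ↔ s ∈ cfn (2 * (n + 1)) (n + 1) := rm_mem_cfn hi hc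
    unfold Ht
    by_cases hs : s ∈ cfn (2 * (n + 1)) (n + 1)
    · rw [if_pos hs, if_pos (hm.2 hs), h, Pi.smul_apply, Ins_apply, rm_cpl hi, smul_eq_mul]
      by_cases h1 : i ∈ s
      · have h2 : i + 1 ∉ s := fun h3 => hc ⟨fun _ => h3, fun _ => h1⟩
        have h3 : cc (i ∈ range (2 * (n + 1)) \ s) (i + 1 ∈ range (2 * (n + 1)) \ s) = -om ^ 2 := by
          unfold cc
          simp only [Finset.mem_sdiff, hr i (Or.inl rfl), hr (i + 1) (Or.inr rfl), true_and]
          rw [if_neg (not_not.2 h1), if_pos h2]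
        have h4 : cc (i ∈ s) (i + 1 ∈ s) = 1 := by
          unfold cc
          rw [if_pos h1, if_neg h2]
        rw [h3, h4, prod_ip_left h1 h2]
        ring
      · have h2 : i + 1 ∈ s := by
          by_contra h3
          exact hc ⟨fun h4 => absurd h4 h1, fun h4 => absurd h4 h3⟩
        have h3 : cc (i ∈ range (2 * (n + 1)) \ s) (i + 1 ∈ range (2 * (n + 1)) \ s) = 1 := by
          unfold cc
          simp only [Finset.mem_sdiff, hr i (Or.inl rfl), hr (i + 1) (Or.inr rfl), true_and]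
          rw [if_pos h1, if_neg (not_not.2 h2)]
        have h4 : cc (i ∈ s) (i + 1 ∈ s) = -om ^ 2 := by
          unfold cc
          rw [if_neg h1, if_pos h2]
        rw [h3, h4, prod_ip_right h1 h2]
        linear_combination (-(om * u * (∏ k ∈ rm i s, w k) * KH n u w * H n w (range (2 * n) \ rm i s))) * om_cube
    · rw [if_neg hs, if_neg (fun h1 => hs (hm.1 h1))]
      ring

end CV
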