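import Pool.Agent.Lib.MP_216314_pr.X.GPolB
import Pool.Agent.Lib.MP_216314_pr.X.GPolC
import Pool.Agent.Lib.MP_216314_pr.X.ExchA
import Pool.Agent.Lib.MP_216314_pr.X.GenC
import Pool.Agent.Lib.MP_216314_pr.X.GVec

/-!
# Vectors obtained from a base polynomial by the exchange operators

`GB B a` is the polynomial of the configuration `a` (set of up spins) if `B` is the polynomial of the sorted configuration;
`Ba L n B` says that `B` is an eigenvector of all exchange operators for neighbouring equal spins of the sorted configuration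
with `n` up spins; `gb B L n y` is the vector at the point `y`.
-/

set_option autoImplicit false

noncomputable section

namespace CV

open Finset MvPolynomial PX

open Classical in
/-- the polynomial of the configuration `a`; the up spins are moved to the left -/
def GB (B : MP) (a : Finset ℕ) : MP :=
  if h : ∃ i, i ∉ a ∧ i + 1 ∈ a then Tp (Nat.find h) (GB B (sg (Nat.find h) a)) else B
termination_by a.sum id
decreasing_by
  have h1 := Nat.find_spec h
  have h2 := sum_sg h1.1 h1.2
  omega

theorem GB_sorted (B : MP) (a : Finset ℕ) (h : ∀ i, ¬ (i ∉ a ∧ i + 1 ∈ a)) : GB B a = B := by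
  rw [GB]
  rw [dif_neg]
  rintro ⟨i, hi⟩
  exact h i hi

theorem GB_range (B : MP) (n : ℕ) : GB B (range n) = B := by
  apply GB_sorted
  rintro i ⟨h1, h2⟩
  rw [mem_range] at h1 h2
  omega

theorem GB_find (B : MP) (a : Finset ℕ) (h : ∃ i, i ∉ a ∧ i + 1 ∈ a) :
    ∃ i0, (i0 ∉ a ∧ i0 + 1 ∈ a) ∧ (∀ j, j ∉ a ∧ j + 1 ∈ a → i0 ≤ j) ∧
      GB B a = Tp i0 (GB B (sg i0 a)) := by
  classical
  refine ⟨Nat.find h, Nat.find_spec h, fun j hj => Nat.find_min' h hj, ?_⟩
  conv_lhs => rw [GB]
  rw [dif_pos h]

/-- (E1) every ascent may be used -/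
theorem GB_asc (B : MP) (i : ℕ) (a : Finset ℕ) (h : i ∉ a) (h' : i + 1 ∈ a) : GB B a = Tp i (GB B (sg i a)) := by
  induction hn : a.sum id using Nat.strong_induction_on generalizing a i with
  | _ n ih =>
    obtain ⟨i0, ⟨h1, h2⟩, hmin, hGB⟩ := GB_find B a ⟨i, h, h'⟩
    have hle := hmin i ⟨h, h'⟩
    rcases Nat.eq_or_lt_of_le hle with heq | hlt
    · rw [← heq]
      exact hGB
    · have hne : i0 + 1 ≠ i := by
        rintro rfl
        exact h h2
      have h3 : i0 + 2 ≤ i := by omega
      have hs1 := sum_sg h1 h2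
      have hs2 := sum_sg h h'
      have hi1 : i ∉ sg i0 a := by
        rw [mem_sg, Equiv.swap_apply_of_ne_of_ne (by omega) (by omega)]
        exact h
      have hi2 : i + 1 ∈ sg i0 a := by
        rw [mem_sg, Equiv.swap_apply_of_ne_of_ne (by omega) (by omega)]
        exact h'
      have hj1 : i0 ∉ sg i a := by
        rw [mem_sg, Equiv.swap_apply_of_ne_of_ne (by omega) (by omega)]
        exact h1
      have hj2 : i0 + 1 ∈ sg i a := by
        rw [mem_sg, Equiv.swap_apply_of_ne_of_ne (by omega) (by omega)]
        exact h2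
      have e1 := ih _ (by omega) i (sg i0 a) hi1 hi2 rfl
      have e2 := ih _ (by omega) i0 (sg i a) hj1 hj2 rfl
      rw [hGB, e1, e2, Tp_comm h3, gpolA_sg_comm h3]

/-- (E1') descent -/
theorem GB_desc (B : MP) (i : ℕ) (a : Finset ℕ) (h : i ∈ a) (h' : i + 1 ∉ a) :
    Tp i (GB B a) = GB B (sg i a) := by
  have h1 : i ∉ sg i a := by rw [mem_sg, Equiv.swap_apply_left]; exact h'
  have h2 : i + 1 ∈ sg i a := by rw [mem_sg, Equiv.swap_apply_right]; exact h
  rw [GB_asc B i (sg i a) h1 h2, sg_sg]

/-- (E1'') ascent -/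
theorem GB_asc' (B : MP) (i : ℕ) (a : Finset ℕ) (h : i ∉ a) (h' : i + 1 ∈ a) :
    Tp i (GB B a) = C (om - om ^ 2) * GB B a + GB B (sg i a) := by
  rw [GB_asc B i a h h', Tp_sq]

/-- the polynomial of the sorted configuration with `n` up spins in a row of `L` sites -/
def Ba (L n : ℕ) (B : MP) : Prop := ∀ i, i + 1 < L → i + 1 ≠ n → Tp i B = C om * B

private theorem swap_if (i k : ℕ) :
    Equiv.swap i (i + 1) k = if k = i then i + 1 else if k = i + 1 then i else k := by
  rw [Equiv.swap_apply_def]

/-- (E2) neighbouring equal spins -/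
theorem GB_eq {L n : ℕ} {B : MP} (hB : Ba L n B) (i : ℕ) (a : Finset ℕ) (ha : a ∈ cfn L n) (hi : i + 1 < L)
    (h : i ∈ a ↔ i + 1 ∈ a) : Tp i (GB B a) = C om * GB B a := by
  have main : ∀ N : ℕ, ∀ (i : ℕ) (a : Finset ℕ), a.sum id = N → a ∈ cfn L n → i + 1 < L →
      (i ∈ a ↔ i + 1 ∈ a) → Tp i (GB B a) = C om * GB B a := by
    intro N
    induction N using Nat.strong_induction_on with
    | _ N ih =>
      intro i a haN ha hi h
      by_cases hasc : ∃ j, j ∉ a ∧ j + 1 ∈ a
      · obtain ⟨j, hj, hj'⟩ := hasc
        have hjL : j + 1 < L := Finset.mem_range.mp ((mem_cfn.mp ha).1 hj')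
        have hji : j ≠ i := by
          rintro rfl
          exact hj (h.mpr hj')
        have hGa : GB B a = Tp j (GB B (sg j a)) := GB_asc B j a hj hj'
        have hbs : (sg j a).sum id + 1 = a.sum id := sum_sg hj hj'
        have hbc : sg j a ∈ cfn L n := (sg_mem_cfn hjL).mpr ha
        have hmb : ∀ k, k ∈ sg j a ↔
            (if k = j then j + 1 else if k = j + 1 then j else k) ∈ a := by
          intro k
          rw [mem_sg, swap_if]
        rcases Nat.lt_trichotomy (i + 1) j with h1 | h1 | h1
        · have hb : i ∈ sg j a ↔ i + 1 ∈ sg j a := by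
            rw [hmb, hmb, if_neg (by omega), if_neg (by omega), if_neg (by omega),
              if_neg (by omega)]
            exact h
          have h2 := ih _ (by omega) i (sg j a) rfl hbc hi hb
          rw [hGa, Tp_comm (by omega : i + 2 ≤ j), h2, Tp_C_mul]
        · subst h1
          have hia : i ∉ a := fun h3 => hj (h.mp h3)
          have b1 : i ∉ sg (i + 1) a := by
            rw [hmb, if_neg (by omega), if_neg (by omega)]
            exact hia
          have b2 : i + 1 ∈ sg (i + 1) a := by
            rw [hmb, if_pos rfl]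
            exact hj'
          have b3 : i + 2 ∉ sg (i + 1) a := by
            rw [hmb, if_neg (by omega), if_pos rfl]
            exact hj
          have hGb : GB B (sg (i + 1) a) = Tp i (GB B (sg i (sg (i + 1) a))) :=
            GB_asc B i _ b1 b2
          have hcs := sum_sg b1 b2
          have hcc : sg i (sg (i + 1) a) ∈ cfn L n := (sg_mem_cfn hi).mpr hbc
          have hmc : ∀ k, k ∈ sg i (sg (i + 1) a) ↔
              (if k = i then i + 1 else if k = i + 1 then i else k) ∈ sg (i + 1) a := by
            intro k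
            rw [mem_sg, swap_if]
          have hc : i + 1 ∈ sg i (sg (i + 1) a) ↔ i + 1 + 1 ∈ sg i (sg (i + 1) a) := by
            rw [hmc, hmc, if_neg (by omega), if_pos rfl, if_neg (by omega), if_neg (by omega)]
            exact ⟨fun h3 => absurd h3 b1, fun h3 => absurd h3 b3⟩
          have h2 := ih _ (by omega) (i + 1) (sg i (sg (i + 1) a)) rfl hcc (by omega) hc
          rw [hGa, hGb, Tp_braid, h2, Tp_C_mul, Tp_C_mul]
        · rcases Nat.lt_or_ge (j + 1) i with h5 | h5
          · have hb : i ∈ sg j a ↔ i + 1 ∈ sg j a := by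
              rw [hmb, hmb, if_neg (by omega), if_neg (by omega), if_neg (by omega),
                if_neg (by omega)]
              exact h
            have h2 := ih _ (by omega) i (sg j a) rfl hbc hi hb
            rw [hGa, ← Tp_comm (by omega : j + 2 ≤ i), h2, Tp_C_mul]
          · have h6 : i = j + 1 := by omega
            subst h6
            have hia : j + 1 + 1 ∈ a := h.mp hj'
            have b1 : j ∈ sg j a := by
              rw [hmb, if_pos rfl]
              exact hj'
            have b2 : j + 1 ∉ sg j a := by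
              rw [hmb, if_neg (by omega), if_pos rfl]
              exact hj
            have b3 : j + 1 + 1 ∈ sg j a := by
              rw [hmb, if_neg (by omega), if_neg (by omega)]
              exact hia
            have hGb : GB B (sg j a) = Tp (j + 1) (GB B (sg (j + 1) (sg j a))) :=
              GB_asc B (j + 1) _ b2 b3
            have hcs := sum_sg b2 b3
            have hcc : sg (j + 1) (sg j a) ∈ cfn L n := (sg_mem_cfn hi).mpr hbc
            have hmc : ∀ k, k ∈ sg (j + 1) (sg j a) ↔
                (if k = j + 1 then j + 1 + 1 else if k = j + 1 + 1 then j + 1 else k) ∈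
                  sg j a := by
              intro k
              rw [mem_sg, swap_if]
            have hc : j ∈ sg (j + 1) (sg j a) ↔ j + 1 ∈ sg (j + 1) (sg j a) := by
              rw [hmc, hmc, if_neg (by omega), if_neg (by omega), if_pos rfl]
              exact ⟨fun _ => b3, fun _ => b1⟩
            have h2 := ih _ (by omega) j (sg (j + 1) (sg j a)) rfl hcc hjL hc
            rw [hGa, hGb, ← Tp_braid, h2, Tp_C_mul, Tp_C_mul]
      · push Not at hasc
        have hs : ∀ j, j + 1 ∈ a → j ∈ a := by
          intro j hj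
          by_contra h1
          exact hasc j h1 hj
        have hr := eq_range_of_sorted hs
        rw [(mem_cfn.mp ha).2] at hr
        have hne : i + 1 ≠ n := by
          intro h1
          rw [hr, Finset.mem_range, Finset.mem_range] at h
          omega
        rw [hr, GB_range]
        exact hB i hi hne
  exact main _ i a rfl ha hi h

theorem GB_degree {B : MP} {D : ℕ} (hB : ∀ k, degreeOf k B ≤ D) (k : ℕ) (a : Finset ℕ) :
    degreeOf k (GB B a) ≤ D := by
  induction hn : a.sum id using Nat.strong_induction_on generalizing a k with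
  | _ n ih =>
    by_cases h : ∃ i, i ∉ a ∧ i + 1 ∈ a
    · obtain ⟨i, ⟨h1, h2⟩, _, h3⟩ := GB_find B a h
      have hs := sum_sg h1 h2
      rw [h3]
      exact Tp_degree i _ _ (fun k' => ih _ (by omega) k' _ rfl) k
    · rw [GB_sorted B a (by simpa using h)]
      exact hB k

theorem GB_degree_zero {L : ℕ} {B : MP} (hB : ∀ k, L ≤ k → degreeOf k B = 0) (k : ℕ) (a : Finset ℕ)
    (ha : a ⊆ range L) (hk : L ≤ k) : degreeOf k (GB B a) = 0 := by
  induction hn : a.sum id using Nat.strong_induction_on generalizing a k with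
  | _ n ih =>
    by_cases h : ∃ i, i ∉ a ∧ i + 1 ∈ a
    · obtain ⟨i, ⟨h1, h2⟩, _, h3⟩ := GB_find B a h
      have hs := sum_sg h1 h2
      have hi : i + 1 < L := mem_range.1 (ha h2)
      have hsub : sg i a ⊆ range L := by
        intro j hj
        rw [mem_sg] at hj
        have := mem_range.1 (ha hj)
        rw [mem_range]
        rw [Equiv.swap_apply_def] at this
        split_ifs at this <;> omega
      rw [h3]
      exact Tp_degree_zero i L hi _ (fun k' hk' => ih _ (by omega) k' _ hsub hk' rfl) k hk
    · rw [GB_sorted B a (by simpa using h)]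
      exact hB k hk

/-- the vector with base polynomial `B` at the point `y` (`L` sites, `n` up spins) -/
def gb (B : MP) (L n : ℕ) (y : ℕ → ℂ) : Vec := fun s => if s ∈ cfn L n then eval y (GB B s) else 0

theorem gb_wt (B : MP) (L n : ℕ) (y : ℕ → ℂ) : Wt L n (gb B L n y) := by
  intro s hs
  exact if_neg hs

theorem gb_congr {B : MP} {L : ℕ} (hB : ∀ k, L ≤ k → degreeOf k B = 0) (n : ℕ) {y y' : ℕ → ℂ}
    (h : ∀ k, k < L → y k = y' k) : gb B L n y = gb B L n y' := by
  funext s
  unfold gb
  by_cases hs : s ∈ cfn L n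
  · rw [if_pos hs, if_pos hs]
    exact eval_congr_of_degree (fun k hk => GB_degree_zero hB k s (mem_cfn.1 hs).1 hk) h
  · rw [if_neg hs, if_neg hs]

theorem gb_lau (B : MP) (L n : ℕ) (s : Finset ℕ) : Lau L (fun y => gb B L n y s) := by
  unfold gb
  by_cases hs : s ∈ cfn L n
  · simp only [if_pos hs]
    exact Lau.of_eval L (GB B s)
  · simp only [if_neg hs]
    exact Lau.const L 0

theorem gb_range (B : MP) {L n : ℕ} (hn : n ≤ L) (y : ℕ → ℂ) : gb B L n y (range n) = eval y B := by
  have h1 : range n ∈ cfn L n := by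
    rw [mem_cfn]
    refine ⟨?_, Finset.card_range _⟩
    intro k hk
    rw [Finset.mem_range] at hk ⊢
    omega
  unfold gb
  rw [if_pos h1, GB_range]

/-- exchange relations -/
theorem gb_exch {L n : ℕ} {B : MP} (hB : Ba L n B) (S : Set (ℕ → ℂ)) : Exch S 0 L (gb B L n) := by
  intro i _ hi y _ s
  by_cases hs : s ∈ cfn L n
  · have hsg : sg i s ∈ cfn L n := (sg_mem_cfn hi).2 hs
    have hy : ∀ (y : ℕ → ℂ) t, t ∈ cfn L n → gb B L n y t = eval y (GB B t) := by
      intro y t ht
      unfold gb
      rw [if_pos ht]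
    have hT := Tp_eval_mul i (GB B s) y
    by_cases h1 : i ∈ s
    · by_cases h2 : i + 1 ∈ s
      · have hE := GB_eq hB i s hs hi (by tauto)
        rw [hE, map_mul, eval_C] at hT
        rw [hy _ s hs, hy _ s hs, ee_apply_eq i _ s (by tauto)]
        linear_combination om ^ 2 * hT - ((om * y i - y (i + 1)) * eval (sw i y) (GB B s) +
            (y i - om * y (i + 1)) * eval y (GB B s)) * om_cube
      · have hD := GB_desc B i s h1 h2
        rw [hD] at hT
        rw [hy _ s hs, ee_apply_left i _ s h1 h2, hy _ s hs, hy _ _ hsg]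
        linear_combination om ^ 2 * hT - ((om * y i - y (i + 1)) * eval (sw i y) (GB B s) +
            (y i - om * y (i + 1)) * eval y (GB B s)) * om_cube
    · by_cases h2 : i + 1 ∈ s
      · have hD := GB_asc' B i s h1 h2
        rw [hD, map_add, map_mul, eval_C] at hT
        rw [hy _ s hs, ee_apply_right i _ s h1 h2, hy _ s hs, hy _ _ hsg]
        linear_combination om ^ 2 * hT - ((om * y i - y (i + 1)) * eval (sw i y) (GB B s) +
            (y i - om * y (i + 1)) * eval y (GB B s)) * om_cube
      · have hE := GB_eq hB i s hs hi (by tauto)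
        rw [hE, map_mul, eval_C] at hT
        rw [hy _ s hs, hy _ s hs, ee_apply_eq i _ s (by tauto)]
        linear_combination om ^ 2 * hT - ((om * y i - y (i + 1)) * eval (sw i y) (GB B s) +
            (y i - om * y (i + 1)) * eval y (GB B s)) * om_cube
  · have hsg : sg i s ∉ cfn L n := fun h => hs ((sg_mem_cfn hi).1 h)
    have hz : ∀ (y : ℕ → ℂ) t, t ∉ cfn L n → gb B L n y t = 0 := by
      intro y t ht
      unfold gb
      rw [if_neg ht]
    have hee : ee i (gb B L n y) s = 0 := by
      by_cases h1 : i ∈ s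
      · by_cases h2 : i + 1 ∈ s
        · exact ee_apply_eq i _ s (by tauto)
        · rw [ee_apply_left i _ s h1 h2, hz _ _ hs, hz _ _ hsg]; ring
      · by_cases h2 : i + 1 ∈ s
        · rw [ee_apply_right i _ s h1 h2, hz _ _ hs, hz _ _ hsg]; ring
        · exact ee_apply_eq i _ s (by tauto)
    rw [hz _ _ hs, hz _ _ hs, hee]
    ring

/-- in one variable, `gb` is a polynomial of degree at most `D` -/
theorem gb_deg {B : MP} {D : ℕ} (hB : ∀ k, degreeOf k B ≤ D) (L n i : ℕ) (y : ℕ → ℂ) (s : Finset ℕ) :
    ∃ q : Polynomial ℂ, q.natDegree ≤ D ∧ ∀ t : ℂ, gb B L n (Function.update y i t) s = q.eval t := by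
  by_cases hs : s ∈ cfn L n
  · obtain ⟨q, hq, hqe⟩ := exists_poly_of_degree i (GB B s) (GB_degree hB i s) y
    refine ⟨q, hq, fun t => ?_⟩
    unfold gb
    rw [if_pos hs, hqe t]
  · refine ⟨0, by simp, fun t => ?_⟩
    unfold gb
    rw [if_neg hs, Polynomial.eval_zero]

end CV
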