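import Pool.Agent.Lib.MP_216314_pr.X.RefE
import Pool.Agent.Lib.MP_216314_pr.X.PairA

/-!
# Leading coefficients of the solution of the open strip in one variable: tools

`HT D f c`: `f` is a polynomial of degree at most `D` (away from `0`) with coefficient `c` in degree `D`. `HV`: the same for spin vectors.
`ld i D f`: the coefficient of `X_i ^ D` in `f`. `Lc i L y`: the leading coefficients of `gv L` in the variable number `i`.
-/

set_option autoImplicit false

noncomputable section

namespace CV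

open Finset MvPolynomial PX

/-- polynomial of degree at most `D` with coefficient `c` in degree `D` -/
def HT (D : ℕ) (f : ℂ → ℂ) (c : ℂ) : Prop :=
  ∃ p : Polynomial ℂ, p.natDegree ≤ D ∧ (∀ t : ℂ, t ≠ 0 → f t = p.eval t) ∧ p.coeff D = c

theorem HT.unique {D : ℕ} {f : ℂ → ℂ} {c c' : ℂ} (h : HT D f c) (h' : HT D f c') : c = c' := by
  obtain ⟨p, -, hp, rfl⟩ := h
  obtain ⟨q, -, hq, rfl⟩ := h'
  have h1 : p = q := by
    refine Polynomial.eq_of_infinite_eval_eq p q ?_
    refine Set.Infinite.mono (s := {t : ℂ | t ≠ 0}) ?_ ?_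
    · intro t ht
      show p.eval t = q.eval t
      rw [← hp t ht, ← hq t ht]
    · have : {t : ℂ | t ≠ 0} = ({0} : Set ℂ)ᶜ := rfl
      rw [this]
      exact (Set.finite_singleton (0 : ℂ)).infinite_compl
  rw [h1]

theorem HT.congr {D : ℕ} {f g : ℂ → ℂ} {c : ℂ} (h : HT D f c) (hfg : ∀ t, t ≠ 0 → g t = f t) : HT D g c := by
  obtain ⟨p, h1, h2, h3⟩ := h
  exact ⟨p, h1, fun t ht => (hfg t ht).trans (h2 t ht), h3⟩

theorem HT.zero (D : ℕ) : HT D (fun _ => 0) 0 :=
  ⟨0, by simp, fun t _ => by simp, by simp⟩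

theorem HT.const (c : ℂ) : HT 0 (fun _ => c) c :=
  ⟨Polynomial.C c, by simp, fun t _ => by simp, by simp⟩

theorem HT.add {D : ℕ} {f g : ℂ → ℂ} {c e : ℂ} (h : HT D f c) (h' : HT D g e) : HT D (fun t => f t + g t) (c + e) := by
  obtain ⟨p, h1, h2, h3⟩ := h
  obtain ⟨q, h4, h5, h6⟩ := h'
  refine ⟨p + q, (Polynomial.natDegree_add_le _ _).trans (max_le h1 h4), fun t ht => ?_, ?_⟩
  · show f t + g t = _
    rw [Polynomial.eval_add, h2 t ht, h5 t ht]
  · rw [Polynomial.coeff_add, h3, h6]

theorem HT.cmul {D : ℕ} {f : ℂ → ℂ} {c : ℂ} (a : ℂ) (h : HT D f c) : HT D (fun t => a * f t) (a * c) := by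
  obtain ⟨p, h1, h2, h3⟩ := h
  refine ⟨Polynomial.C a * p, (Polynomial.natDegree_C_mul_le _ _).trans h1, fun t ht => ?_, ?_⟩
  · show a * f t = _
    rw [Polynomial.eval_mul, Polynomial.eval_C, h2 t ht]
  · rw [Polynomial.coeff_C_mul, h3]

theorem HT.sub {D : ℕ} {f g : ℂ → ℂ} {c e : ℂ} (h : HT D f c) (h' : HT D g e) : HT D (fun t => f t - g t) (c - e) := by
  have h1 := h.add (h'.cmul (-1))
  have e1 : c + -1 * e = c - e := by ring
  rw [e1] at h1
  exact h1.congr fun t _ => by ring

theorem HT.mul {D E : ℕ} {f g : ℂ → ℂ} {c e : ℂ} (h : HT D f c) (h' : HT E g e) :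
    HT (D + E) (fun t => f t * g t) (c * e) := by
  obtain ⟨p, h1, h2, h3⟩ := h
  obtain ⟨q, h4, h5, h6⟩ := h'
  refine ⟨p * q, Polynomial.natDegree_mul_le_of_le h1 h4, fun t ht => ?_, ?_⟩
  · show f t * g t = _
    rw [Polynomial.eval_mul, h2 t ht, h5 t ht]
  · rw [Polynomial.coeff_mul_add_eq_of_natDegree_le h1 h4, h3, h6]

theorem HT.prod {ι : Type*} (s : Finset ι) (D : ι → ℕ) (f : ι → ℂ → ℂ) (c : ι → ℂ)
    (h : ∀ i ∈ s, HT (D i) (f i) (c i)) :
    HT (∑ i ∈ s, D i) (fun t => ∏ i ∈ s, f i t) (∏ i ∈ s, c i) := by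
  classical
  induction s using Finset.induction_on with
  | empty =>
    simp only [Finset.sum_empty, Finset.prod_empty]
    exact HT.const 1
  | insert a s ha ih =>
    rw [Finset.sum_insert ha, Finset.prod_insert ha]
    have h1 := (h a (mem_insert_self a s)).mul (ih fun i hi => h i (mem_insert_of_mem hi))
    exact h1.congr fun t _ => by rw [Finset.prod_insert ha]

/-- polynomial spin vector -/
def HV (D : ℕ) (V : ℂ → Vec) (c : Vec) : Prop := ∀ s, HT D (fun t => V t s) (c s)

theorem HV.unique {D : ℕ} {V : ℂ → Vec} {c c' : Vec} (h : HV D V c) (h' : HV D V c') : c = c' :=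
  funext fun s => (h s).unique (h' s)

theorem HV.congr {D : ℕ} {V W : ℂ → Vec} {c : Vec} (h : HV D V c) (hfg : ∀ t, t ≠ 0 → W t = V t) : HV D W c :=
  fun s => (h s).congr fun t ht => by rw [hfg t ht]

theorem HV.ee {D : ℕ} {V : ℂ → Vec} {c : Vec} (h : HV D V c) (i : ℕ) :
    HV D (fun t => ee i (V t)) (ee i c) := by
  intro s
  rw [PairA_ee i c s]
  exact (((h s).cmul _).add ((h (sg i s)).cmul _)).congr fun t _ => PairA_ee i (V t) s

theorem HV.ins {D : ℕ} {V : ℂ → Vec} {c : Vec} (h : HV D V c) (i : ℕ) :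
    HV D (fun t => Ins i (V t)) (Ins i c) := by
  intro s
  exact ((h (rm i s)).cmul _).congr fun t _ => rfl

/-- the coefficient of `X_i ^ D` -/
def ld (i D : ℕ) (f : MP) : MP :=
  ∑ m ∈ f.support.filter (fun m => m i = D), monomial (m.erase i) (coeff m f)

theorem ld_degree (i D k : ℕ) (f : MP) : degreeOf k (ld i D f) ≤ degreeOf k f := by
  unfold ld
  refine (degreeOf_sum_le _ _ _).trans ?_
  refine Finset.sup_le fun m hm => ?_
  rw [Finset.mem_filter] at hm
  have hc : coeff m f ≠ 0 := mem_support_iff.1 hm.1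
  rw [degreeOf_monomial_eq _ _ hc]
  refine le_trans ?_ (monomial_le_degreeOf k hm.1)
  rcases eq_or_ne k i with h | h
  · rw [h, Finsupp.erase_same]
    exact Nat.zero_le _
  · rw [Finsupp.erase_ne h]

theorem ld_self (i D : ℕ) (f : MP) : degreeOf i (ld i D f) = 0 := by
  refine Nat.eq_zero_of_le_zero ?_
  unfold ld
  refine (degreeOf_sum_le _ _ _).trans ?_
  refine Finset.sup_le fun m hm => ?_
  rw [Finset.mem_filter] at hm
  have hc : coeff m f ≠ 0 := mem_support_iff.1 hm.1
  rw [degreeOf_monomial_eq _ _ hc, Finsupp.erase_same]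

theorem ld_spec {i D : ℕ} {f : MP} (h : degreeOf i f ≤ D) (y : ℕ → ℂ) :
    ∃ p : Polynomial ℂ, p.natDegree ≤ D ∧ (∀ t : ℂ, eval (Function.update y i t) f = p.eval t) ∧
      p.coeff D = eval y (ld i D f) := by
  refine ⟨∑ m ∈ f.support, Polynomial.C (coeff m f * ∏ k ∈ m.support.erase i, y k ^ m k) *
    Polynomial.X ^ m i, ?_, ?_, ?_⟩
  · refine Polynomial.natDegree_sum_le_of_forall_le _ _ fun m hm => ?_
    refine le_trans (Polynomial.natDegree_C_mul_X_pow_le _ _) ?_
    exact le_trans (monomial_le_degreeOf i hm) h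
  · intro t
    rw [eval_eq, Polynomial.eval_finsetSum]
    refine Finset.sum_congr rfl fun m _ => ?_
    rw [PolC_prod]
    simp only [Polynomial.eval_mul, Polynomial.eval_C, Polynomial.eval_pow, Polynomial.eval_X]
    ring
  · rw [Polynomial.finsetSum_coeff]
    unfold ld
    rw [map_sum, Finset.sum_filter]
    refine Finset.sum_congr rfl fun m _ => ?_
    rw [Polynomial.coeff_C_mul_X_pow]
    by_cases hm : m i = D
    · rw [if_pos hm, if_pos hm.symm, eval_monomial]
      congr 1
      rw [Finsupp.prod, Finsupp.support_erase]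
      refine Finset.prod_congr rfl fun k hk => ?_
      rw [Finsupp.erase_ne (Finset.ne_of_mem_erase hk)]
    · rw [if_neg hm, if_neg (fun h => hm h.symm)]

/-- the leading coefficients of `gv L` in the variable number `i` -/
def Lc (i L : ℕ) (y : ℕ → ℂ) : Vec := fun s =>
  if s ∈ cfn L (L / 2) then
    eval y (ld i (2 * ((L - 1) / 2)) (GP L s)) / (∏ k ∈ (range L).erase i, y k) ^ ((L - 1) / 2)
  else 0

/-- the entries different from the one with number `i` are nonzero -/
def NZi (i L : ℕ) (y : ℕ → ℂ) : Prop := ∀ k, k < L → k ≠ i → y k ≠ 0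

theorem NZi.of {i L : ℕ} {y : ℕ → ℂ} (h : NZ L y) : NZi i L y := fun k hk _ => h k hk

theorem NZi.upd {i L : ℕ} {y : ℕ → ℂ} (h : NZi i L y) {t : ℂ} (ht : t ≠ 0) : NZ L (Function.update y i t) := by
  intro k hk
  rcases eq_or_ne k i with h1 | h1
  · rw [h1, Function.update_self]
    exact ht
  · rw [Function.update_of_ne h1]
    exact h k hk h1

theorem Lc_spec {i L : ℕ} (hi : i < L) {y : ℕ → ℂ} (hy : NZi i L y) :
    HV (2 * ((L - 1) / 2)) (fun t => fun s => t ^ ((L - 1) / 2) * gv L (Function.update y i t) s) (Lc i L y) := by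
  intro s
  by_cases hs : s ∈ cfn L (L / 2)
  · obtain ⟨p, h1, h2, h3⟩ := ld_spec (GP_degree L i s) y
    have hne : ∏ k ∈ (range L).erase i, y k ≠ 0 := prod_ne_zero_iff.2 fun k hk => by
      rw [Finset.mem_erase, Finset.mem_range] at hk
      exact hy k hk.2 hk.1
    refine ⟨Polynomial.C ((∏ k ∈ (range L).erase i, y k) ^ ((L - 1) / 2))⁻¹ * p,
      (Polynomial.natDegree_C_mul_le _ _).trans h1, fun t ht => ?_, ?_⟩
    · show t ^ ((L - 1) / 2) * gv L (Function.update y i t) s = _
      unfold gv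
      rw [if_pos hs, h2, Polynomial.eval_mul, Polynomial.eval_C]
      have h4 : ∏ k ∈ range L, Function.update y i t k = t * ∏ k ∈ (range L).erase i, y k := by
        rw [← Finset.mul_prod_erase _ _ (mem_range.2 hi), Function.update_self]
        congr 1
        refine Finset.prod_congr rfl fun k hk => ?_
        rw [Function.update_of_ne (Finset.ne_of_mem_erase hk)]
      rw [h4, mul_pow]
      have h5 := pow_ne_zero ((L - 1) / 2) hne
      have h6 := pow_ne_zero ((L - 1) / 2) ht
      field_simp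
    · rw [Polynomial.coeff_C_mul, h3]
      unfold Lc
      rw [if_pos hs, div_eq_inv_mul]
  · refine ⟨0, by simp, fun t _ => ?_, ?_⟩
    · show t ^ ((L - 1) / 2) * gv L (Function.update y i t) s = _
      unfold gv
      rw [if_neg hs, mul_zero, Polynomial.eval_zero]
    · unfold Lc
      rw [if_neg hs, Polynomial.coeff_zero]

/-- characterisation of the leading coefficients -/
theorem Lc_eq {i L : ℕ} (hi : i < L) {y : ℕ → ℂ} (hy : NZi i L y) {c : Vec}
    (h : HV (2 * ((L - 1) / 2)) (fun t => fun s => t ^ ((L - 1) / 2) * gv L (Function.update y i t) s) c) :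
    Lc i L y = c := (Lc_spec hi hy).unique h

theorem Lc_upd (i L : ℕ) (y : ℕ → ℂ) (t : ℂ) : Lc i L (Function.update y i t) = Lc i L y := by
  funext s
  unfold Lc
  have h1 : ∏ k ∈ (range L).erase i, Function.update y i t k = ∏ k ∈ (range L).erase i, y k :=
    Finset.prod_congr rfl fun k hk => by rw [Function.update_of_ne (Finset.ne_of_mem_erase hk)]
  have h2 : eval (Function.update y i t) (ld i (2 * ((L - 1) / 2)) (GP L s)) =
      eval y (ld i (2 * ((L - 1) / 2)) (GP L s)) := by
    obtain ⟨p, hp, he⟩ := exists_poly_of_degree (D := 0) i (ld i (2 * ((L - 1) / 2)) (GP L s))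
      (le_of_eq (ld_self _ _ _)) y
    rw [he t]
    have h3 := he (y i)
    rw [Function.update_eq_self] at h3
    rw [h3, Polynomial.eq_C_of_natDegree_le_zero hp, Polynomial.eval_C, Polynomial.eval_C]
  rw [h1, h2]

theorem Lc_lau (i L : ℕ) (hi : i < L) (s : Finset ℕ) : Lau L (fun y => Lc i L y s) := by
  unfold Lc
  by_cases hs : s ∈ cfn L (L / 2)
  · refine ⟨X i ^ ((L - 1) / 2) * ld i (2 * ((L - 1) / 2)) (GP L s), (L - 1) / 2, fun y hy => ?_⟩
    beta_reduce
    rw [if_pos hs]
    have hne : ∏ k ∈ (range L).erase i, y k ≠ 0 := prod_ne_zero_iff.2 fun k hk => by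
      rw [Finset.mem_erase, Finset.mem_range] at hk
      exact hy k hk.2
    rw [← Finset.mul_prod_erase _ _ (mem_range.2 hi), mul_pow, map_mul, map_pow, eval_X]
    have h5 := pow_ne_zero ((L - 1) / 2) hne
    field_simp
  · refine ⟨0, 0, fun y _ => ?_⟩
    beta_reduce
    rw [if_neg hs, mul_zero, map_zero]

theorem sw_upd {i j : ℕ} (h1 : j ≠ i) (h2 : j ≠ i + 1) (y : ℕ → ℂ) (t : ℂ) :
    sw i (Function.update y j t) = Function.update (sw i y) j t := by
  funext k
  have e : Equiv.swap i (i + 1) j = j := Equiv.swap_apply_of_ne_of_ne h1 h2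
  show Function.update y j t (Equiv.swap i (i + 1) k) = Function.update (sw i y) j t k
  rcases eq_or_ne k j with h | h
  · rw [h, e, Function.update_self, Function.update_self]
  · have h3 : Equiv.swap i (i + 1) k ≠ j := by
      intro h4
      apply h
      rw [← e] at h4
      exact (Equiv.swap i (i + 1)).injective h4
    rw [Function.update_of_ne h3, Function.update_of_ne h]
    rfl

/-- exchange relation for the leading coefficients -/
theorem Lc_exch {i L lo hi : ℕ} (hi' : hi ≤ L) (hL : i < L) (hc : i < lo ∨ hi ≤ i) :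
    Exch {y | NZ L y} lo hi (Lc i L) := by
  intro j h1 h2 y hy s
  have hy' : NZ L y := hy
  have hz : NZ L (sw j y) := nz_sw hy' (by omega)
  have a1 := Lc_spec hL (NZi.of (i := i) hy')
  have a2 := Lc_spec hL (NZi.of (i := i) hz)
  have b1 := ((a2 s).cmul (om * y j - y (j + 1)))
  have b2 := ((a1 s).cmul (om * y (j + 1) - y j)).add (((a1.ee j) s).cmul (om ^ 2 * (y (j + 1) - y j)))
  refine b1.unique (b2.congr fun t ht => ?_)
  have e1 := gv_exch L Set.univ j (Nat.zero_le _) (by omega) (Function.update y i t) (Set.mem_univ _) s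
  have e2 : Function.update y i t j = y j := Function.update_of_ne (by omega) _ _
  have e3 : Function.update y i t (j + 1) = y (j + 1) := Function.update_of_ne (by omega) _ _
  rw [e2, e3, sw_upd (by omega) (by omega)] at e1
  have e4 : ee j (fun s => t ^ ((L - 1) / 2) * gv L (Function.update y i t) s) s =
      t ^ ((L - 1) / 2) * ee j (gv L (Function.update y i t)) s := by
    rw [PairA_ee, PairA_ee]
    ring
  beta_reduce
  rw [e4]
  linear_combination t ^ ((L - 1) / 2) * e1

end CV
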