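import Pool.Agent.Lib.MP_216314_pr.CV.GlA
import Pool.Agent.Lib.MP_216314_pr.CF.Def

/-!
# Leading coefficients of the solution of the open strip: the last variable

`Lc_last`: for an odd number of sites the leading coefficients of `gv L` in the last variable are, up to the sign, the
components of `gv (L - 1)`.
-/

set_option autoImplicit false

noncomputable section

namespace CV

open Finset MvPolynomial PX

theorem iv_upd_ne {i j : ℕ} (h : i ≠ j) (y : ℕ → ℂ) (t : ℂ) :
    iv j (Function.update y i t) = Function.update (iv j y) i t := by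
  unfold iv
  rw [Function.update_of_ne h.symm, Function.update_comm h]

theorem iv_upd (i : ℕ) (y : ℕ → ℂ) (t : ℂ) :
    iv i (Function.update y i t) = Function.update y i t⁻¹ := by
  unfold iv
  rw [Function.update_self, Function.update_idem]

/-- zero counting -/
theorem gl_count {L : ℕ} (hL : 4 ≤ L) {y : ℕ → ℂ} (hy : Gen L y) (c : ℂ) (hc : c ^ 3 = 1)
    (p : Polynomial ℂ) (hp : p.natDegree ≤ 2 * ((L - 1) / 2))
    (h1 : ∀ j, 1 ≤ j → j + 1 < L → p.eval (c * y j) = 0)
    (h2 : ∀ j, 1 ≤ j → j + 1 < L → p.eval (c * y j)⁻¹ = 0) : p = 0 := by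
  have hc0 : c ≠ 0 := by
    intro h
    rw [h] at hc
    norm_num at hc
  have hcube : ∀ j, (c * y j) ^ 3 = y j ^ 3 := by
    intro j
    rw [mul_pow, hc, one_mul]
  have hinj1 : Set.InjOn (fun j => c * y j) ((Ico 1 (L - 1) : Finset ℕ) : Set ℕ) := by
    intro a ha b hb hab
    rw [Finset.mem_coe, Finset.mem_Ico] at ha hb
    by_contra hne
    have h3 : c * y a = c * y b := hab
    have h4 := (hy.2.2 a b (by omega) (by omega) hne).1
    apply h4
    rw [← hcube a, ← hcube b, h3]
  have hinj2 : Set.InjOn (fun j => (c * y j)⁻¹) ((Ico 1 (L - 1) : Finset ℕ) : Set ℕ) := by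
    intro a ha b hb hab
    exact hinj1 ha hb (inv_injective hab)
  have hdisj : Disjoint ((Ico 1 (L - 1)).image fun j => c * y j)
      ((Ico 1 (L - 1)).image fun j => (c * y j)⁻¹) := by
    rw [Finset.disjoint_left]
    intro x hx hx'
    rw [Finset.mem_image] at hx hx'
    obtain ⟨a, ha, rfl⟩ := hx
    obtain ⟨b, hb, hab⟩ := hx'
    rw [Finset.mem_Ico] at ha hb
    have hya : c * y a ≠ 0 := mul_ne_zero hc0 (hy.1 a (by omega))
    have hyb : c * y b ≠ 0 := mul_ne_zero hc0 (hy.1 b (by omega))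
    have h3 : (c * y a) * (c * y b) = 1 := by
      rw [← hab, inv_mul_cancel₀ hyb]
    have h4 : y a ^ 3 * y b ^ 3 = 1 := by
      rw [← hcube a, ← hcube b, ← mul_pow, h3, one_pow]
    rcases eq_or_ne a b with h5 | h5
    · subst h5
      apply hy.2.1 a (by omega)
      rw [← h4]
      ring
    · exact (hy.2.2 a b (by omega) (by omega) h5).2 h4
  refine zero_of_card hp (((Ico 1 (L - 1)).image fun j => c * y j) ∪
      ((Ico 1 (L - 1)).image fun j => (c * y j)⁻¹)) ?_ ?_
  · intro x hx
    rw [Finset.mem_union, Finset.mem_image, Finset.mem_image] at hx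
    rcases hx with ⟨j, hj, rfl⟩ | ⟨j, hj, rfl⟩
    · rw [Finset.mem_Ico] at hj
      exact h1 j hj.1 (by omega)
    · rw [Finset.mem_Ico] at hj
      exact h2 j hj.1 (by omega)
  · rw [Finset.card_union_of_disjoint hdisj, Finset.card_image_of_injOn hinj1,
      Finset.card_image_of_injOn hinj2, Nat.card_Ico]
    omega

theorem upd_ip_ge {i j : ℕ} (h : i ≤ j) (u : ℂ) (w : ℕ → ℂ) (t : ℂ) :
    Function.update (ip i u w) (j + 2) t = ip i u (Function.update w j t) := by
  funext k
  rcases eq_or_ne k (j + 2) with hk | hk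
  · rw [hk, Function.update_self, ip_ge u _ h, Function.update_self]
  · rw [Function.update_of_ne hk]
    unfold ip
    split_ifs with h1 h2 h3
    · rw [Function.update_of_ne (by omega)]
    · rfl
    · rfl
    · rw [Function.update_of_ne (by omega)]

theorem upd_ip_lt {i j : ℕ} (h : j < i) (u : ℂ) (w : ℕ → ℂ) (t : ℂ) :
    Function.update (ip i u w) j t = ip i u (Function.update w j t) := by
  funext k
  rcases eq_or_ne k j with hk | hk
  · rw [hk, Function.update_self, ip_lt u _ h, Function.update_self]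
  · rw [Function.update_of_ne hk]
    unfold ip
    split_ifs with h1 h2 h3
    · rw [Function.update_of_ne hk]
    · rfl
    · rfl
    · rw [Function.update_of_ne (by omega)]

theorem HT_lin (a b : ℂ) : HT 2 (fun t => t * (a + b * XX t)) b := by
  refine ⟨Polynomial.C b * Polynomial.X ^ 2 + Polynomial.C a * Polynomial.X + Polynomial.C b, ?_, ?_, ?_⟩
  · compute_degree
  · intro t ht
    simp only [Polynomial.eval_add, Polynomial.eval_mul, Polynomial.eval_C, Polynomial.eval_pow, Polynomial.eval_X]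
    unfold XX
    field_simp
    ring
  · simp

/-- in the other variables the leading coefficients have the same degrees as the vector -/
theorem Lc_deg (i j L : ℕ) (hj : j < L) (hij : j ≠ i) (s : Finset ℕ) :
    Deg1 L j ((L - 1) / 2) (2 * ((L - 1) / 2)) (fun y => Lc i L y s) := by
  intro y hy
  by_cases hs : s ∈ cfn L (L / 2)
  · obtain ⟨q, hq, hqe⟩ := exists_poly_of_degree j (ld i (2 * ((L - 1) / 2)) (GP L s))
      ((ld_degree _ _ _ _).trans (GP_degree L j s)) y
    have hne : ∏ k ∈ ((range L).erase i).erase j, y k ≠ 0 := prod_ne_zero_iff.2 fun k hk => by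
      rw [Finset.mem_erase, Finset.mem_erase, Finset.mem_range] at hk
      exact hy k hk.2.2
    refine ⟨Polynomial.C ((∏ k ∈ ((range L).erase i).erase j, y k) ^ ((L - 1) / 2))⁻¹ * q,
      (Polynomial.natDegree_C_mul_le _ _).trans hq, fun t ht => ?_⟩
    show t ^ ((L - 1) / 2) * Lc i L (Function.update y j t) s = _
    unfold Lc
    have h4 : ∏ k ∈ (range L).erase i, Function.update y j t k =
        t * ∏ k ∈ ((range L).erase i).erase j, y k := by
      rw [← Finset.mul_prod_erase _ _ (Finset.mem_erase.2 ⟨hij, mem_range.2 hj⟩), Function.update_self]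
      congr 1
      refine Finset.prod_congr rfl fun k hk => ?_
      rw [Function.update_of_ne (Finset.ne_of_mem_erase hk)]
    rw [if_pos hs, h4, hqe t, Polynomial.eval_mul, Polynomial.eval_C, mul_pow]
    have h1 := pow_ne_zero ((L - 1) / 2) hne
    have h2 := pow_ne_zero ((L - 1) / 2) ht
    field_simp
  · refine ⟨0, by simp, fun t _ => ?_⟩
    show t ^ ((L - 1) / 2) * Lc i L (Function.update y j t) s = _
    unfold Lc
    rw [if_neg hs, mul_zero, Polynomial.eval_zero]

/-- the leading coefficients inherit the invariances of the vector in the other variables -/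
theorem Lc_iv {i j L : ℕ} (hi : i < L) (hij : i ≠ j) (hj : j < L)
    (hr : ∀ y, NZ L y → gv L (iv j y) = gv L y) {y : ℕ → ℂ} (hy : NZ L y) : Lc i L (iv j y) = Lc i L y := by
  refine Lc_eq hi (NZi.of (nz_iv hy hj)) ?_
  refine (Lc_spec hi (NZi.of hy)).congr fun t ht => ?_
  funext s
  rw [← iv_upd_ne hij, hr _ (NZi.upd (NZi.of hy) ht)]

/-- fusion for the leading coefficients in the last variable -/
theorem Lc_fus_last {M : ℕ} (hM : M % 2 = 1) {u : ℂ} (hu : u ≠ 0) {w : ℕ → ℂ} (hw : NZi (M - 1) M w) :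
    Lc (M + 1) (M + 2) (ip 0 u w) = (-Kf (M - 1) u w) • Ins 0 (Lc (M - 1) M w) := by
  have hip : NZi (M + 1) (M + 2) (ip 0 u w) := by
    intro k hk hk'
    unfold ip
    split_ifs with h1 h2 h3
    · omega
    · exact hu
    · exact mul_ne_zero om_ne_zero hu
    · exact hw (k - 2) (by omega) (by omega)
  refine Lc_eq (by omega) hip ?_
  intro s
  have hb := ((Lc_spec (i := M - 1) (L := M) (by omega) hw).ins 0) s
  have hc := ((HT_lin (XX (om ^ 2 * u)) (-1)).mul hb).cmul (Kf (M - 1) u w)
  have e1 : 2 * ((M + 2 - 1) / 2) = 2 + 2 * ((M - 1) / 2) := by omega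
  have e2 : Kf (M - 1) u w * (-1 * Ins 0 (Lc (M - 1) M w) s) =
      ((-Kf (M - 1) u w) • Ins 0 (Lc (M - 1) M w)) s := by
    rw [Pi.smul_apply, smul_eq_mul]
    ring
  rw [e2] at hc
  rw [e1]
  refine hc.congr fun t ht => ?_
  beta_reduce
  have e3 : Function.update (ip 0 u w) (M + 1) t = ip 0 u (Function.update w (M - 1) t) := by
    have hj : M + 1 = (M - 1) + 2 := by omega
    rw [hj, upd_ip_ge (Nat.zero_le _)]
  have e4 : Kf M u (Function.update w (M - 1) t) = Kf (M - 1) u w * (XX (om ^ 2 * u) - XX t) := by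
    have hj : range M = range (M - 1 + 1) := by
      congr 1
      omega
    unfold Kf
    rw [hj, Finset.prod_range_succ, Function.update_self]
    congr 1
    refine Finset.prod_congr rfl fun k hk => ?_
    rw [Function.update_of_ne (by rw [Finset.mem_range] at hk; omega)]
  have e5 : (M + 2 - 1) / 2 = (M - 1) / 2 + 1 := by omega
  rw [e3, fusion M 0 (Nat.zero_le _) hu (NZi.upd hw ht), Pi.smul_apply, smul_eq_mul, e4, e5, pow_succ,
    Ins_apply, Ins_apply]
  ring

/-- difference of the two sides, last variable -/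
def EL (L : ℕ) (y : ℕ → ℂ) : Vec := Lc (L - 1) L y - (-1 : ℂ) ^ ((L - 1) / 2) • gv (L - 1) y

theorem EL_exch {L : ℕ} (hL : 1 ≤ L) : Exch {y | NZ L y} 0 (L - 1) (EL L) := by
  unfold EL
  refine Exch.sub (Lc_exch (by omega) (by omega) (Or.inr (le_refl _))) ?_
  exact Exch.smul (gv_exch (L - 1) _) (fun _ => (-1 : ℂ) ^ ((L - 1) / 2)) (fun _ _ _ _ _ => rfl)

theorem EL_iv {L : ℕ} (hL : 2 ≤ L) {y : ℕ → ℂ} (hy : NZ L y) : EL L (iv 0 y) = EL L y := by
  unfold EL
  rw [Lc_iv (by omega) (by omega) (by omega) (fun z hz => refl_left (by omega) hz) hy,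
    refl_left (by omega) (fun k hk => hy k (by omega))]

theorem EL_lau {L : ℕ} (hL : 1 ≤ L) (s : Finset ℕ) : Lau L (fun y => EL L y s) := by
  show Lau L (fun y => Lc (L - 1) L y s - (-1 : ℂ) ^ ((L - 1) / 2) * gv (L - 1) y s)
  exact (Lc_lau _ _ (by omega) s).sub ((Lau.const _ _).mul ((gv_lau (L - 1) s).mono (by omega)))

theorem EL_deg {L : ℕ} (hL : 3 ≤ L) (hodd : L % 2 = 1) (s : Finset ℕ) :
    Deg1 L 0 ((L - 1) / 2) (2 * ((L - 1) / 2)) (fun y => EL L y s) := by
  intro y hy
  obtain ⟨p, hp, hpe⟩ := Lc_deg (L - 1) 0 L (by omega) (by omega) s y hy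
  obtain ⟨q, hq, hqe⟩ := gv_deg (L - 1) 0 (by omega) s y (fun k hk => hy k (by omega))
  refine ⟨p - Polynomial.C ((-1 : ℂ) ^ ((L - 1) / 2)) * (Polynomial.X * q), ?_, fun t ht => ?_⟩
  · refine (Polynomial.natDegree_sub_le _ _).trans (max_le hp ?_)
    refine (Polynomial.natDegree_C_mul_le _ _).trans ?_
    refine Polynomial.natDegree_mul_le.trans ?_
    rw [Polynomial.natDegree_X]
    omega
  · rw [Polynomial.eval_sub, Polynomial.eval_mul, Polynomial.eval_C, Polynomial.eval_mul, Polynomial.eval_X,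
      ← hpe t ht, ← hqe t ht]
    show t ^ ((L - 1) / 2) * (Lc (L - 1) L (Function.update y 0 t) s -
      (-1 : ℂ) ^ ((L - 1) / 2) * gv (L - 1) (Function.update y 0 t) s) = _
    have e5 : (L - 1) / 2 = (L - 1 - 1) / 2 + 1 := by omega
    have e6 : t ^ ((L - 1) / 2) = t ^ ((L - 1 - 1) / 2) * t := by rw [e5, pow_succ]
    linear_combination (-(-1 : ℂ) ^ ((L - 1) / 2) * gv (L - 1) (Function.update y 0 t) s) * e6

theorem EL_zero {L : ℕ} (hL : 4 ≤ L) (hodd : L % 2 = 1) (ih : ∀ y, NZ (L - 2) y → EL (L - 2) y = 0)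
    (j : ℕ) (hj : 1 ≤ j) (hj' : j + 1 < L) {y : ℕ → ℂ} (hy : Gen L y) :
    EL L (Function.update y 0 (om ^ 2 * y j)) = 0 := by
  revert y
  induction j, hj using Nat.le_induction with
  | base =>
    intro y hy
    obtain ⟨N, rfl⟩ : ∃ N, L = N + 3 := ⟨L - 3, by omega⟩
    have hM : N + 3 - 2 = N + 1 := by omega
    rw [hM] at ih
    set y' := Function.update y 0 (om ^ 2 * y 1) with hy'
    have hy1 : y 1 ≠ 0 := hy.1 1 (by omega)
    have hu : om ^ 2 * y 1 ≠ 0 := mul_ne_zero (pow_ne_zero 2 om_ne_zero) hy1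
    have hnz' : NZ (N + 1 + 2) y' := nz_upd hy.1 0 hu
    have e0 : y' 0 = om ^ 2 * y 1 := Function.update_self _ _ _
    have e1 : y' 1 = y 1 := Function.update_of_ne (by omega) _ _
    have h1 : y' (0 + 1) = om * y' 0 := by
      rw [e0]
      show y' 1 = _
      rw [e1]
      linear_combination (-(y 1)) * om_cube
    have h2 := ip_dl 0 y' h1
    set w := dl 0 y' with hw
    have hnw : NZ (N + 1) w := nz_dl hnz' 0
    have hu' : y' 0 ≠ 0 := hnz' 0 (by omega)
    have h3 : gv (N + 2) y' = Kf N (y' 0) w • Ins 0 (gv N w) := by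
      conv_lhs => rw [← h2]
      exact fusion N 0 (by omega) hu' (fun k hk => hnw k (by omega))
    have h4 : Lc (N + 2) (N + 3) y' = (-Kf N (y' 0) w) • Ins 0 (Lc N (N + 1) w) := by
      conv_lhs => rw [← h2]
      exact Lc_fus_last (M := N + 1) (by omega) hu' (NZi.of hnw)
    have h5 : Lc N (N + 1) w = (-1 : ℂ) ^ (N / 2) • gv N w := by
      have h6 := ih w hnw
      unfold EL at h6
      exact sub_eq_zero.1 h6
    have e6 : (N + 3 - 1) / 2 = N / 2 + 1 := by omega
    show Lc (N + 2) (N + 3) y' - (-1 : ℂ) ^ ((N + 3 - 1) / 2) • gv (N + 2) y' = 0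
    rw [h4, h3, h5, e6, map_smul, smul_smul, smul_smul, ← sub_smul]
    have e7 : -Kf N (y' 0) w * (-1 : ℂ) ^ (N / 2) - (-1 : ℂ) ^ (N / 2 + 1) * Kf N (y' 0) w = 0 := by
      ring
    rw [e7, zero_smul]
  | succ j hj ihj =>
    intro y hy
    have hz : Gen L (sw j y) := gen_sw hy (by omega)
    have h1 := ihj (by omega) hz
    rw [sw_left] at h1
    set z' := Function.update (sw j y) 0 (om ^ 2 * y (j + 1)) with hz'
    have e1 : z' j = y (j + 1) := by
      rw [hz', Function.update_of_ne (by omega), sw_left]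
    have e2 : z' (j + 1) = y j := by
      rw [hz', Function.update_of_ne (by omega), sw_right]
    have hnz : NZ L z' := nz_upd hz.1 0 (mul_ne_zero (pow_ne_zero 2 om_ne_zero) (hy.1 (j + 1) (by omega)))
    have h2 := Exch.zero (EL_exch (by omega)) (Nat.zero_le j) (by omega) hnz h1 (by
      rw [e1, e2]
      exact (Gen.ne_mul hy (by omega) (by omega) (by omega)).2.1)
    rw [hz', sw_upd (by omega) (by omega), sw_sw] at h2
    exact h2

theorem EL_step {L : ℕ} (hL : 4 ≤ L) (hodd : L % 2 = 1) (ih : ∀ y, NZ (L - 2) y → EL (L - 2) y = 0)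
    {y : ℕ → ℂ} (hy : Gen L y) : EL L y = 0 := by
  funext s
  obtain ⟨p, hp, he1⟩ := EL_deg (by omega) hodd s y hy.1
  have he : ∀ t : ℂ, t ≠ 0 → t ^ ((L - 1) / 2) * EL L (Function.update y 0 t) s = p.eval t := he1
  have hc0 : om ^ 2 ≠ 0 := pow_ne_zero 2 om_ne_zero
  have hp0 : p = 0 := by
    refine gl_count hL hy (om ^ 2) ?_ p hp ?_ ?_
    · linear_combination (om ^ 3 + 1) * om_cube
    · intro j hj hj'
      have hyj : om ^ 2 * y j ≠ 0 := mul_ne_zero hc0 (hy.1 j (by omega))
      rw [← he _ hyj, EL_zero hL hodd ih j hj hj' hy, Pi.zero_apply, mul_zero]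
    · intro j hj hj'
      have hyj : om ^ 2 * y j ≠ 0 := mul_ne_zero hc0 (hy.1 j (by omega))
      rw [← he _ (inv_ne_zero hyj), ← iv_upd, EL_iv (by omega) (nz_upd hy.1 0 hyj),
        EL_zero hL hodd ih j hj hj' hy, Pi.zero_apply, mul_zero]
  have hy0 : y 0 ≠ 0 := hy.1 0 (by omega)
  have h4 := he (y 0) hy0
  rw [hp0, Polynomial.eval_zero, Function.update_eq_self] at h4
  exact (mul_eq_zero.mp h4).resolve_left (pow_ne_zero _ hy0)

theorem EL_one (y : ℕ → ℂ) : EL 1 y = 0 := by
  have h : Lc 0 1 y = gv 0 y := by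
    refine Lc_eq (by omega) (fun k hk hk' => absurd (by omega) hk') ?_
    intro s
    by_cases hs : s = ∅
    · subst hs
      rw [gv_zero]
      refine (HT.const 1).congr fun t _ => ?_
      beta_reduce
      rw [gv_one]
      norm_num
    · have h0 : gv 0 y s = 0 := gv_wt 0 y s (by
        show s ∉ cfn 0 0
        rw [cfn_zero, Finset.mem_singleton]
        exact hs)
      rw [h0]
      refine (HT.zero 0).congr fun t _ => ?_
      have h1 : gv 1 (Function.update y 0 t) s = 0 := gv_wt 1 _ s (by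
        show s ∉ cfn 1 0
        rw [cfn_one, Finset.mem_singleton]
        exact hs)
      beta_reduce
      rw [h1, mul_zero]
  show Lc 0 1 y - (-1 : ℂ) ^ 0 • gv 0 y = 0
  rw [h, pow_zero, one_smul, sub_self]

theorem EL_three {y : ℕ → ℂ} (hy : NZ 3 y) : EL 3 y = 0 := by
  have h : Lc 2 3 y = (-1 : ℂ) • gv 2 y := by
    refine Lc_eq (by omega) (NZi.of hy) ?_
    intro s
    have hy2 : NZ 2 y := fun k hk => hy k (by omega)
    rw [Pi.smul_apply, smul_eq_mul]
    by_cases hs : s ∈ cfn 3 1
    · rw [cfn_three, Finset.mem_insert, Finset.mem_insert, Finset.mem_singleton] at hs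
      rcases hs with h | h | h
      · rw [h, (gv_two hy2).1]
        have h1 := HT_lin (om * y 1 + om ^ 2 * (y 1)⁻¹) (-1)
        rw [mul_one]
        refine h1.congr fun t ht => ?_
        have h2 := (gv_three (NZi.upd (NZi.of (i := 2) hy) ht)).1
        show t ^ 1 * gv 3 (Function.update y 2 t) {0} = _
        rw [h2, Function.update_self, Function.update_of_ne (by omega)]
        ring
      · rw [h, (gv_two hy2).2]
        have h1 := HT_lin (-om ^ 2 * (om * y 1 + om ^ 2 * (y 1)⁻¹) +
          (om * (y 1)⁻¹ + om ^ 2 * y 1 - XX (y 0))) (om ^ 2)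
        have e1 : -1 * -om ^ 2 = om ^ 2 := by ring
        rw [e1]
        refine h1.congr fun t ht => ?_
        have h2 := (gv_three (NZi.upd (NZi.of (i := 2) hy) ht)).2.1
        show t ^ 1 * gv 3 (Function.update y 2 t) {1} = _
        rw [h2, Function.update_self, Function.update_of_ne (by omega), Function.update_of_ne (by omega)]
        ring
      · have h0 : gv 2 y s = 0 := gv_wt 2 y s (by
          show s ∉ cfn 2 1
          rw [cfn_two, h]
          decide)
        rw [h0, h, mul_zero]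
        have h1 := HT_lin (-om ^ 2 * (om * (y 1)⁻¹ + om ^ 2 * y 1 - XX (y 0))) 0
        refine h1.congr fun t ht => ?_
        have h2 := (gv_three (NZi.upd (NZi.of (i := 2) hy) ht)).2.2
        show t ^ 1 * gv 3 (Function.update y 2 t) {2} = _
        rw [h2, Function.update_of_ne (by omega), Function.update_of_ne (by omega)]
        ring
    · have h0 : gv 2 y s = 0 := gv_wt 2 y s (by
        show s ∉ cfn 2 1
        intro h1
        apply hs
        rw [mem_cfn] at h1 ⊢
        exact ⟨h1.1.trans (Finset.range_subset_range.2 (by omega)), h1.2⟩)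
      rw [h0, mul_zero]
      refine (HT.zero _).congr fun t _ => ?_
      have h1 : gv 3 (Function.update y 2 t) s = 0 := gv_wt 3 _ s hs
      beta_reduce
      rw [h1, mul_zero]
  show Lc 2 3 y - (-1 : ℂ) ^ 1 • gv 2 y = 0
  rw [h, pow_one, sub_self]

theorem EL_eq_zero {L : ℕ} (hodd : L % 2 = 1) {y : ℕ → ℂ} (hy : NZ L y) : EL L y = 0 := by
  revert y
  induction L using Nat.strong_induction_on with
  | _ L ih =>
    intro y hy
    rcases Nat.lt_or_ge 3 L with h | h
    · funext s
      exact Lau.ext_gen (EL_lau (by omega) s) (fun z hz => by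
        have h3 := EL_step (by omega) hodd (fun w hw => ih (L - 2) (by omega) (by omega) hw) hz
        exact congrFun h3 s) y hy
    · have h1 : L = 1 ∨ L = 3 := by omega
      rcases h1 with rfl | rfl
      · exact EL_one y
      · exact EL_three hy

/-- the leading coefficients in the last variable -/
theorem Lc_last {L : ℕ} (hodd : L % 2 = 1) {y : ℕ → ℂ} (hy : NZi (L - 1) L y) :
    Lc (L - 1) L y = (-1 : ℂ) ^ ((L - 1) / 2) • gv (L - 1) y := by
  have h1 := EL_eq_zero hodd (hy.upd (one_ne_zero))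
  unfold EL at h1
  rw [Lc_upd] at h1
  have h2 : gv (L - 1) (Function.update y (L - 1) 1) = gv (L - 1) y := gv_congr fun k hk => by
    rw [Function.update_of_ne (by omega)]
  rw [h2] at h1
  exact sub_eq_zero.1 h1

end CV
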