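import Pool.Agent.Lib.MP_216314_pr.CV.Def

/-!
# Rotation of the vectors of the cylinder

`cyc N y = (y_1, ..., y_{N-1}, y_0)`, `cys N s` is the rotated configuration.
-/

set_option autoImplicit false

noncomputable section

namespace CV

open Finset MvPolynomial PX

/-- cyclic shift of the first `N` entries -/
def cyc (N : ℕ) (y : ℕ → ℂ) : ℕ → ℂ := fun k => if k + 1 < N then y (k + 1) else if k + 1 = N then y 0 else y k

/-- the rotated configuration -/
def cys (N : ℕ) (s : Finset ℕ) : Finset ℕ := (range N).filter fun k => (if k + 1 < N then k + 1 else 0) ∈ s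

theorem cyc_lt {N k : ℕ} (h : k + 1 < N) (y : ℕ → ℂ) : cyc N y k = y (k + 1) := by
  unfold cyc
  rw [if_pos h]

theorem cyc_last {N k : ℕ} (h : k + 1 = N) (y : ℕ → ℂ) : cyc N y k = y 0 := by
  unfold cyc
  rw [if_neg (by omega), if_pos h]

theorem mem_cys {N k : ℕ} (s : Finset ℕ) : k ∈ cys N s ↔ k < N ∧ (if k + 1 < N then k + 1 else 0) ∈ s := by
  unfold cys
  rw [Finset.mem_filter, Finset.mem_range]

theorem mem_cys_lt {N k : ℕ} (h : k + 1 < N) (s : Finset ℕ) : k ∈ cys N s ↔ k + 1 ∈ s := by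
  rw [mem_cys, if_pos h]
  exact ⟨fun h1 => h1.2, fun h1 => ⟨by omega, h1⟩⟩

theorem mem_cys_last {N k : ℕ} (h : k + 1 = N) (s : Finset ℕ) : k ∈ cys N s ↔ 0 ∈ s := by
  rw [mem_cys, if_neg (by omega)]
  exact ⟨fun h1 => h1.2, fun h1 => ⟨by omega, h1⟩⟩

theorem nz_cyc {N : ℕ} {y : ℕ → ℂ} (h : NZ N y) : NZ N (cyc N y) := by
  intro k hk
  rcases Nat.lt_or_ge (k + 1) N with h1 | h1
  · rw [cyc_lt h1]
    exact h _ h1
  · rw [cyc_last (by omega)]
    exact h 0 (by omega)

theorem ds_cyc {N : ℕ} {y : ℕ → ℂ} (h : Ds 0 N y) : Ds 0 N (cyc N y) := by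
  intro i j _ hi _ hj hij
  have e : ∀ k, k < N → ∃ k', k' < N ∧ cyc N y k = y k' ∧ (k' = if k + 1 < N then k + 1 else 0) := by
    intro k hk
    rcases Nat.lt_or_ge (k + 1) N with h1 | h1
    · exact ⟨k + 1, h1, cyc_lt h1 y, by rw [if_pos h1]⟩
    · exact ⟨0, by omega, cyc_last (by omega) y, by rw [if_neg (by omega)]⟩
  obtain ⟨i', h1, h2, h3⟩ := e i hi
  obtain ⟨j', h4, h5, h6⟩ := e j hj
  rw [h2, h5]
  refine h i' j' (Nat.zero_le _) h1 (Nat.zero_le _) h4 ?_
  rw [h3, h6]
  split_ifs <;> omega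

theorem card_cys {N : ℕ} {s : Finset ℕ} (hs : s ⊆ range N) : (cys N s).card = s.card := by
  refine Finset.card_bij (fun k _ => if k + 1 < N then k + 1 else 0) ?_ ?_ ?_
  · intro k hk
    exact ((mem_cys s).1 hk).2
  · intro a ha b hb hab
    have h1 := ((mem_cys s).1 ha).1
    have h2 := ((mem_cys s).1 hb).1
    split_ifs at hab <;> omega
  · intro b hb
    have hbN := Finset.mem_range.1 (hs hb)
    rcases Nat.eq_zero_or_pos b with h | h
    · refine ⟨N - 1, ?_, ?_⟩
      · rw [mem_cys_last (by omega), ← h]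
        exact hb
      · rw [if_neg (by omega), h]
    · refine ⟨b - 1, ?_, ?_⟩
      · rw [mem_cys_lt (by omega)]
        have : b - 1 + 1 = b := by omega
        rw [this]
        exact hb
      · rw [if_pos (by omega)]
        omega

theorem cys_cfn {N n : ℕ} {s : Finset ℕ} (hs : s ∈ cfn N n) : cys N s ∈ cfn N n := by
  rw [mem_cfn] at hs ⊢
  refine ⟨Finset.filter_subset _ _, ?_⟩
  rw [card_cys hs.1, hs.2]

theorem cyc_sw {N i : ℕ} (h1 : 1 ≤ i) (h2 : i + 1 < N) (y : ℕ → ℂ) : cyc N (sw i y) = sw (i - 1) (cyc N y) := by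
  obtain ⟨j, rfl⟩ : ∃ j, i = j + 1 := ⟨i - 1, by omega⟩
  rw [Nat.add_sub_cancel]
  funext k
  by_cases e1 : k = j
  · rw [e1, sw_left, cyc_lt (by omega), cyc_lt (by omega), sw_left]
  · by_cases e2 : k = j + 1
    · rw [e2, sw_right, cyc_lt (by omega), cyc_lt (by omega), sw_right]
    · rw [sw_of_ne j _ e1 e2]
      unfold cyc
      split_ifs with h3 h4
      · exact sw_of_ne _ y (by omega) (by omega)
      · exact sw_of_ne _ y (by omega) (by omega)
      · exact sw_of_ne _ y (by omega) (by omega)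

theorem cys_sg {N i : ℕ} (h1 : 1 ≤ i) (h2 : i + 1 < N) (s : Finset ℕ) : cys N (sg i s) = sg (i - 1) (cys N s) := by
  obtain ⟨j, rfl⟩ : ∃ j, i = j + 1 := ⟨i - 1, by omega⟩
  rw [Nat.add_sub_cancel]
  ext k
  rw [mem_sg, mem_cys, mem_cys, mem_sg]
  by_cases e1 : k = j
  · rw [e1, Equiv.swap_apply_left, if_pos (by omega), if_pos (by omega), Equiv.swap_apply_left]
    exact ⟨fun h => ⟨by omega, h.2⟩, fun h => ⟨by omega, h.2⟩⟩
  · by_cases e2 : k = j + 1
    · rw [e2, Equiv.swap_apply_right, if_pos (by omega), if_pos (by omega), Equiv.swap_apply_right]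
      exact ⟨fun h => ⟨by omega, h.2⟩, fun h => ⟨by omega, h.2⟩⟩
    · rw [Equiv.swap_apply_of_ne_of_ne e1 e2]
      split_ifs with h3
      · rw [Equiv.swap_apply_of_ne_of_ne (by omega) (by omega)]
      · rw [Equiv.swap_apply_of_ne_of_ne (by omega) (by omega)]

/-- multiplication of the components with an invariant factor -/
theorem Exch.mulc {S : Set (ℕ → ℂ)} {lo hi : ℕ} {h : (ℕ → ℂ) → Vec} (hE : Exch S lo hi h) (c : Finset ℕ → ℂ)
    (hc : ∀ i, lo ≤ i → i + 1 < hi → ∀ s, c (sg i s) = c s) : Exch S lo hi (fun y s => c s * h y s) := by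
  intro i h1 h2 y hy s
  have e := hE i h1 h2 y hy s
  have hee : ee i (fun s => c s * h y s) s = c s * ee i (h y) s := by
    by_cases h3 : i ∈ s
    · by_cases h4 : i + 1 ∈ s
      · rw [ee_apply_eq i _ s ⟨fun _ => h4, fun _ => h3⟩, ee_apply_eq i _ s ⟨fun _ => h4, fun _ => h3⟩, mul_zero]
      · rw [ee_apply_left i _ s h3 h4, ee_apply_left i _ s h3 h4, hc i h1 h2]
        ring
    · by_cases h4 : i + 1 ∈ s
      · rw [ee_apply_right i _ s h3 h4, ee_apply_right i _ s h3 h4, hc i h1 h2]
        ring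
      · rw [ee_apply_eq i _ s ⟨fun h => absurd h h3, fun h => absurd h h4⟩,
          ee_apply_eq i _ s ⟨fun h => absurd h h3, fun h => absurd h h4⟩, mul_zero]
  simp only [hee]
  linear_combination (c s) * e

/-- exchange relations of the rotated vector -/
theorem Exch.cyc {N : ℕ} {h : (ℕ → ℂ) → Vec} (hE : Exch Set.univ 0 N h) (S : Set (ℕ → ℂ)) :
    Exch S 1 N (fun y s => h (CV.cyc N y) (cys N s)) := by
  intro i h1 h2 y _ s
  have e := hE (i - 1) (Nat.zero_le _) (by omega) (CV.cyc N y) (Set.mem_univ _) (cys N s)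
  have a1 : i - 1 + 1 = i := by omega
  have a2 : CV.cyc N y (i - 1) = y i := by
    rw [cyc_lt (by omega), a1]
  have a3 : CV.cyc N y (i - 1 + 1) = y (i + 1) := by
    rw [a1, cyc_lt h2]
  rw [a2, a3, ← cyc_sw h1 h2] at e
  have m1 : i - 1 ∈ cys N s ↔ i ∈ s := by
    rw [mem_cys_lt (by omega), a1]
  have m2 : i - 1 + 1 ∈ cys N s ↔ i + 1 ∈ s := by
    rw [a1, mem_cys_lt h2]
  have hee : ee i (fun s => h (CV.cyc N y) (cys N s)) s = ee (i - 1) (h (CV.cyc N y)) (cys N s) := by
    by_cases h3 : i ∈ s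
    · by_cases h4 : i + 1 ∈ s
      · rw [ee_apply_eq i _ s ⟨fun _ => h4, fun _ => h3⟩, ee_apply_eq (i - 1) _ _ (by rw [m1, m2]; tauto)]
      · rw [ee_apply_left i _ s h3 h4, ee_apply_left (i - 1) _ _ (m1.2 h3) (fun h5 => h4 (m2.1 h5)), cys_sg h1 h2]
    · by_cases h4 : i + 1 ∈ s
      · rw [ee_apply_right i _ s h3 h4, ee_apply_right (i - 1) _ _ (fun h5 => h3 (m1.1 h5)) (m2.2 h4), cys_sg h1 h2]
      · rw [ee_apply_eq i _ s ⟨fun h => absurd h h3, fun h => absurd h h4⟩,
          ee_apply_eq (i - 1) _ _ (by rw [m1, m2]; tauto)]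
  simp only [hee]
  exact e

/-! ### The base components -/

theorem AA_cyc {N a b : ℕ} (hb : b < N) (y : ℕ → ℂ) : AA a b (cyc N y) = AA (a + 1) (b + 1) y := by
  unfold AA
  rw [← Finset.prod_Ico_add' _ a b 1]
  refine Finset.prod_congr rfl fun j hj => ?_
  rw [Finset.mem_Ico] at hj
  rw [← Finset.prod_Ico_add' _ a j 1]
  refine Finset.prod_congr rfl fun i hi => ?_
  rw [Finset.mem_Ico] at hi
  rw [cyc_lt (by omega), cyc_lt (by omega)]

theorem sg_ins {m l : ℕ} (h : l ≤ m) : sg m (insert m (range l)) = insert (m + 1) (range l) := by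
  ext k
  rw [mem_sg, Finset.mem_insert, Finset.mem_insert, Finset.mem_range, Finset.mem_range, Equiv.swap_apply_def]
  split_ifs <;> omega

/-- the first base component -/
theorem H_rot_up {n : ℕ} (hn : 1 ≤ n) {y : ℕ → ℂ} (hy : Ds 0 (2 * n) y) :
    H n (cyc (2 * n) y) (cys (2 * n) (range n)) = -om ^ 2 * H n y (range n) := by
  set z := cyc (2 * n) y with hz
  have hzd : Ds 0 (2 * n) z := ds_cyc hy
  have hset : cys (2 * n) (range n) = insert (2 * n - 1) (range (n - 1)) := by
    ext k
    rw [mem_cys, Finset.mem_insert, Finset.mem_range, Finset.mem_range]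
    split_ifs <;> omega
  have hcf : cys (2 * n) (range n) ∈ cfn (2 * n) n := by
    refine cys_cfn ?_
    rw [mem_cfn, Finset.card_range]
    refine ⟨?_, rfl⟩
    intro k hk
    rw [Finset.mem_range] at hk ⊢
    omega
  have e1 : H n z (cys (2 * n) (range n)) = eval z (GB (H0 n) (insert (2 * n - 1) (range (n - 1)))) := by
    unfold H gb
    rw [if_pos hcf, hset]
  set Q : (ℕ → ℂ) → Polynomial ℂ := fun y => Polynomial.C (AA 0 (n - 1) y) *
    ∏ i ∈ Ico 0 (n - 1), (Polynomial.C (om * y i) - Polynomial.X) with hQ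
  have hn1 : n - 1 + 1 = n := by omega
  have h := up_a_end (l := n - 1) (N := 2 * n) (by omega) (fun m => GB (H0 n) (insert m (range (n - 1)))) Q
    (by
      intro i h1 h2 y
      rw [hQ]
      simp only
      rw [AA_sw (Or.inr h1)]
      congr 1
      refine Finset.prod_congr rfl fun k hk => ?_
      rw [Finset.mem_Ico] at hk
      rw [sw_of_ne i y (by omega) (by omega)])
    (by
      intro y
      have e2 : insert (n - 1) (range (n - 1)) = range n := by
        rw [← Finset.range_add_one, hn1]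
      rw [e2, GB_range, H0_eval, hn1, hQ]
      simp only
      rw [Polynomial.eval_mul, Polynomial.eval_C, Polynomial.eval_prod]
      have e3 : AA 0 n y = AA 0 (n - 1) y * ∏ i ∈ Ico 0 (n - 1), (om * y i - y (n - 1)) := by
        have := AA_top (Nat.zero_le (n - 1)) y
        rw [hn1] at this
        exact this
      rw [e3]
      congr 2
      refine Finset.prod_congr rfl fun i _ => ?_
      rw [Polynomial.eval_sub, Polynomial.eval_C, Polynomial.eval_X])
    (by
      intro m hm
      rw [← sg_ins hm]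
      refine (GB_desc (H0 n) m _ (Finset.mem_insert_self _ _) ?_).symm
      rw [Finset.mem_insert, Finset.mem_range]
      omega)
    z (fun i j _ h2 _ h4 h5 => hzd i j (Nat.zero_le _) h2 (Nat.zero_le _) h4 h5)
    (by
      have d1 : (Q z).natDegree ≤ n - 1 := by
        rw [hQ]
        simp only
        refine (Polynomial.natDegree_C_mul_le _ _).trans ?_
        refine (Polynomial.natDegree_prod_le _ _).trans ?_
        refine (Finset.sum_le_card_nsmul _ _ 1 ?_).trans ?_
        · intro i _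
          refine (Polynomial.natDegree_sub_le _ _).trans ?_
          rw [Polynomial.natDegree_C, Polynomial.natDegree_X]
          exact le_refl _
        · rw [Nat.card_Ico, smul_eq_mul]
          omega
      omega)
  rw [e1]
  rw [h]
  have e2 : 2 * n - 1 - (n - 1) = n := by omega
  have e3 : AA (n - 1) (2 * n - 1) z = AA n (2 * n) y := by
    rw [hz, AA_cyc (by omega), hn1]
    congr 1
    omega
  have e4 : (Q z).eval (om ^ 2 * z (2 * n - 1)) = (-om) ^ (n - 1) * AA 0 n y := by
    rw [hQ]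
    simp only
    rw [Polynomial.eval_mul, Polynomial.eval_C, Polynomial.eval_prod, hz, AA_cyc (by omega), hn1,
      cyc_last (by omega), AA_bot (by omega : 0 < n)]
    have e5 : (-om) ^ (n - 1) = ∏ _i ∈ Ico 1 n, (-om) := by
      rw [Finset.prod_const, Nat.card_Ico]
    have e6 : ∏ i ∈ Ico 0 (n - 1), (Polynomial.C (om * cyc (2 * n) y i) - Polynomial.X).eval (om ^ 2 * y 0) =
        ∏ i ∈ Ico 1 n, (-om * (om * y 0 - y i)) := by
      have e7 : Ico 1 n = Ico (0 + 1) (n - 1 + 1) := by rw [hn1]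
      rw [e7, ← Finset.prod_Ico_add' _ 0 (n - 1) 1]
      refine Finset.prod_congr rfl fun i hi => ?_
      rw [Finset.mem_Ico] at hi
      rw [Polynomial.eval_sub, Polynomial.eval_C, Polynomial.eval_X, cyc_lt (by omega)]
      ring
    rw [e6, Finset.prod_mul_distrib, ← e5]
    ring
  rw [e2, e3, e4, H_range]
  have e5 : (-om ^ 2) ^ n * (-om) ^ (n - 1) = -om ^ 2 := by
    have e6 : (-om ^ 2) ^ n = (-om ^ 2) ^ (n - 1) * (-om ^ 2) := by
      conv_lhs => rw [← hn1]
      rw [pow_succ]
    have e7 : (-om ^ 2) ^ (n - 1) * (-om) ^ (n - 1) = 1 := by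
      rw [← mul_pow]
      have : -om ^ 2 * -om = 1 := by linear_combination om_cube
      rw [this, one_pow]
    rw [e6]
    linear_combination (-om ^ 2) * e7
  linear_combination (AA n (2 * n) y * AA 0 n y) * e5

theorem sg_er {m n : ℕ} (h : m < n) : sg m ((range (n + 1)).erase m) = (range (n + 1)).erase (m + 1) := by
  ext k
  rw [mem_sg, Finset.mem_erase, Finset.mem_erase, Finset.mem_range, Finset.mem_range, Equiv.swap_apply_def]
  split_ifs <;> omega

/-- the second base component -/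
theorem H_rot_dn {n : ℕ} (hn : 1 ≤ n) {y : ℕ → ℂ} (hz : NZ (2 * n) y) (hy : Ds 0 (2 * n) y) :
    H n (cyc (2 * n) y) (cys (2 * n) (Ico 1 (n + 1))) = -om * H n y (Ico 1 (n + 1)) := by
  have hset : cys (2 * n) (Ico 1 (n + 1)) = range n := by
    ext k
    rw [mem_cys, Finset.mem_Ico, Finset.mem_range]
    split_ifs <;> omega
  have hcf : Ico 1 (n + 1) ∈ cfn (2 * n) n := by
    rw [mem_cfn, Nat.card_Ico]
    refine ⟨?_, by omega⟩
    intro k hk
    rw [Finset.mem_Ico] at hk
    rw [Finset.mem_range]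
    omega
  have e1 : H n y (Ico 1 (n + 1)) = eval y (GB (H0 n) ((range (n + 1)).erase 0)) := by
    unfold H gb
    rw [if_pos hcf]
    congr 2
    ext k
    rw [Finset.mem_erase, Finset.mem_range, Finset.mem_Ico]
    omega
  set Q : (ℕ → ℂ) → Polynomial ℂ := fun y => Polynomial.C (AA (n + 1) (2 * n) y) *
    ∏ j ∈ Ico (n + 1) (2 * n), (Polynomial.C om * Polynomial.X - Polynomial.C (y j)) with hQ
  have h := dn_b_end (n := n) (N := 2 * n) (by omega) (fun m => GB (H0 n) ((range (n + 1)).erase m)) Q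
    (by
      intro i h1 y
      rw [hQ]
      simp only
      rw [AA_sw (Or.inl (by omega))]
      congr 1
      refine Finset.prod_congr rfl fun k hk => ?_
      rw [Finset.mem_Ico] at hk
      rw [sw_of_ne i y (by omega) (by omega)])
    (by
      intro y
      have e2 : (range (n + 1)).erase n = range n := by
        ext k
        rw [Finset.mem_erase, Finset.mem_range, Finset.mem_range]
        omega
      rw [e2, GB_range, H0_eval, AA_bot (by omega : n < 2 * n), hQ]
      simp only
      rw [Polynomial.eval_mul, Polynomial.eval_C, Polynomial.eval_prod]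
      have e3 : ∏ j ∈ Ico (n + 1) (2 * n), (Polynomial.C om * Polynomial.X - Polynomial.C (y j)).eval (y n) =
          ∏ j ∈ Ico (n + 1) (2 * n), (om * y n - y j) := by
        refine Finset.prod_congr rfl fun i _ => ?_
        rw [Polynomial.eval_sub, Polynomial.eval_mul, Polynomial.eval_C, Polynomial.eval_C, Polynomial.eval_X]
      rw [e3]
      ring)
    (by
      intro m hm
      have e2 := sg_er hm
      rw [← e2]
      refine GB_asc (H0 n) m _ (Finset.notMem_erase _ _) ?_
      rw [Finset.mem_erase, Finset.mem_range]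
      omega)
    y hz hy
    (by
      have d1 : (Q y).natDegree ≤ n - 1 := by
        rw [hQ]
        simp only
        refine (Polynomial.natDegree_C_mul_le _ _).trans ?_
        refine (Polynomial.natDegree_prod_le _ _).trans ?_
        refine (Finset.sum_le_card_nsmul _ _ 1 ?_).trans ?_
        · intro i _
          refine (Polynomial.natDegree_sub_le _ _).trans ?_
          rw [Polynomial.natDegree_C]
          exact max_le ((Polynomial.natDegree_C_mul_le _ _).trans (le_of_eq Polynomial.natDegree_X)) (Nat.zero_le _)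
        · rw [Nat.card_Ico, smul_eq_mul]
          omega
      omega)
  rw [hset, H_range, e1, h, AA_cyc (by omega)]
  have e2 : AA n (2 * n) (cyc (2 * n) y) = AA (n + 1) (2 * n) y * ∏ j ∈ Ico (n + 1) (2 * n), (om * y j - y 0) := by
    have e3 : 2 * n = (2 * n - 1) + 1 := by omega
    have e4 : AA n (2 * n - 1 + 1) (cyc (2 * n) y) = AA n (2 * n - 1) (cyc (2 * n) y) *
        ∏ i ∈ Ico n (2 * n - 1), (om * cyc (2 * n) y i - cyc (2 * n) y (2 * n - 1)) := AA_top (by omega) _
    have e4' : AA n (2 * n - 1) (cyc (2 * n) y) = AA (n + 1) (2 * n) y := by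
      rw [AA_cyc (by omega), ← e3]
    rw [← e3, e4', cyc_last (by omega)] at e4
    rw [e4]
    congr 1
    have e5 : Ico (n + 1) (2 * n) = Ico (n + 1) (2 * n - 1 + 1) := by rw [← e3]
    rw [e5, ← Finset.prod_Ico_add' _ n (2 * n - 1) 1]
    refine Finset.prod_congr rfl fun i hi => ?_
    rw [Finset.mem_Ico] at hi
    rw [cyc_lt (by omega)]
  have e3 : (Q y).eval (om * y 0) = (-om ^ 2) ^ (n - 1) * (AA (n + 1) (2 * n) y * ∏ j ∈ Ico (n + 1) (2 * n), (om * y j - y 0)) := by
    rw [hQ]
    simp only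
    rw [Polynomial.eval_mul, Polynomial.eval_C, Polynomial.eval_prod]
    have e5 : (-om ^ 2) ^ (n - 1) = ∏ _i ∈ Ico (n + 1) (2 * n), (-om ^ 2) := by
      rw [Finset.prod_const, Nat.card_Ico]
      congr 1
      omega
    have e6 : ∏ j ∈ Ico (n + 1) (2 * n), (Polynomial.C om * Polynomial.X - Polynomial.C (y j)).eval (om * y 0) =
        ∏ j ∈ Ico (n + 1) (2 * n), (-om ^ 2 * (om * y j - y 0)) := by
      refine Finset.prod_congr rfl fun j _ => ?_
      rw [Polynomial.eval_sub, Polynomial.eval_mul, Polynomial.eval_C, Polynomial.eval_C, Polynomial.eval_X]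
      linear_combination (y j) * om_cube
    rw [e6, Finset.prod_mul_distrib, ← e5]
    ring
  rw [e2, e3, Nat.zero_add]
  have e5 : -om * ((-om) ^ n * om * (-om ^ 2) ^ (n - 1)) = 1 := by
    obtain ⟨m, rfl⟩ : ∃ m, n = m + 1 := ⟨n - 1, by omega⟩
    rw [Nat.add_sub_cancel, pow_succ]
    have e7 : (-om) ^ m * (-om ^ 2) ^ m = 1 := by
      rw [← mul_pow]
      have : -om * -om ^ 2 = 1 := by linear_combination om_cube
      rw [this, one_pow]
    linear_combination (om ^ 3) * e7 + om_cube
  linear_combination (-(AA 1 (n + 1) y * (AA (n + 1) (2 * n) y * ∏ j ∈ Ico (n + 1) (2 * n), (om * y j - y 0)))) * e5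

/-- the factor of the rotation -/
def rc (s : Finset ℕ) : ℂ := if 0 ∈ s then -om ^ 2 else -om

theorem rc_sg {i : ℕ} (h : 1 ≤ i) (s : Finset ℕ) : rc (sg i s) = rc s := by
  unfold rc
  have e : 0 ∈ sg i s ↔ 0 ∈ s := by rw [mem_sg, Equiv.swap_apply_of_ne_of_ne (by omega) (by omega)]
  simp only [e]

theorem Gen.ds {N : ℕ} {y : ℕ → ℂ} (h : Gen N y) : Ds 0 N y := fun _ _ _ hi _ hj hij => (Gen.ne_mul h hi hj hij).1

theorem H_rot_gen {n : ℕ} (hn : 1 ≤ n) {y : ℕ → ℂ} (hy : Gen (2 * n) y) {s : Finset ℕ} (hs : s ∈ cfn (2 * n) n) :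
    H n (cyc (2 * n) y) (cys (2 * n) s) = rc s * H n y s := by
  have hE : Exch {z | Gen (2 * n) z} 1 (2 * n) (fun y => (fun y s => H n (cyc (2 * n) y) (cys (2 * n) s)) y -
      (fun y s => rc s * H n y s) y) :=
    Exch.sub (Exch.cyc (H_exch n Set.univ) _) (Exch.mulc ((H_exch n _).mono (Set.Subset.refl _) (by omega) (le_refl _)) rc
      fun i h1 _ s => rc_sg h1 s)
  have h := det_zero {z | Gen (2 * n) z} (2 * n) n 1 (2 * n) (le_refl _) _ hE
    (fun i _ h2 z hz => (Gen.ne_mul hz (by omega) (by omega) (by omega)).1)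
    (fun i _ h2 z hz => gen_sw hz h2)
    (by
      intro z hz t ht hsort
      show H n (cyc (2 * n) z) (cys (2 * n) t) - rc t * H n z t = 0
      have hcard := (mem_cfn.1 ht).2
      have hsub := (mem_cfn.1 ht).1
      by_cases h0 : 0 ∈ t
      · have h5 : ∀ i, i + 1 ∈ t → i ∈ t := by
          intro i hi
          rcases Nat.eq_zero_or_pos i with h7 | h7
          · rw [h7]
            exact h0
          · exact hsort i h7 (Finset.mem_range.1 (hsub hi)) hi
        have h6 := eq_range_of_sorted h5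
        rw [hcard] at h6
        rw [h6, H_rot_up hn (Gen.ds hz)]
        unfold rc
        rw [if_pos (Finset.mem_range.2 (by omega)), sub_self]
      · have h5 : ∀ i, i + 1 ∈ insert 0 t → i ∈ insert 0 t := by
          intro i hi
          rcases Nat.eq_zero_or_pos i with h7 | h7
          · rw [h7]
            exact Finset.mem_insert_self _ _
          · have hi' : i + 1 ∈ t := (Finset.mem_insert.1 hi).resolve_left (by omega)
            exact Finset.mem_insert_of_mem (hsort i h7 (Finset.mem_range.1 (hsub hi')) hi')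
        have h6 := eq_range_of_sorted h5
        rw [Finset.card_insert_of_notMem h0, hcard] at h6
        have h7 : t = Ico 1 (n + 1) := by
          have h8 : t = (range (n + 1)).erase 0 := by
            rw [← h6, Finset.erase_insert h0]
          rw [h8]
          ext k
          rw [Finset.mem_erase, Finset.mem_range, Finset.mem_Ico]
          omega
        have h9 : rc t = -om := by
          unfold rc
          rw [if_neg h0]
        rw [h9, h7, H_rot_dn hn hz.1 (Gen.ds hz), sub_self]) y hy s hs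
  exact sub_eq_zero.1 h

/-- **rotation of `H`** -/
theorem H_rot {n : ℕ} (hn : 1 ≤ n) {y : ℕ → ℂ} (hy : NZ (2 * n) y) {s : Finset ℕ} (hs : s ∈ cfn (2 * n) n) :
    H n (cyc (2 * n) y) (cys (2 * n) s) = rc s * H n y s := by
  have hL : Lau (2 * n) (fun y => H n (fun k => cyc (2 * n) y k) (cys (2 * n) s) - rc s * H n y s) := by
    refine Lau.sub (Lau.comp (H_lau n (cys (2 * n) s)) (fun k y => cyc (2 * n) y k) ?_ ?_ ?_)
      ((Lau.const _ _).mul (H_lau n s))
    · intro k
      unfold cyc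
      split_ifs
      · exact Lau.coord _ _
      · exact Lau.coord _ _
      · exact Lau.coord _ _
    · intro k hk
      unfold cyc
      split_ifs with h1 h2
      · exact Lau.coord_inv h1
      · exact Lau.coord_inv (by omega)
      · omega
    · intro k hk y hy
      exact nz_cyc hy k hk
  have h := Lau.ext_gen hL (fun z hz => sub_eq_zero.2 (H_rot_gen hn hz hs)) y hy
  exact sub_eq_zero.1 h

theorem cys_cpl {N : ℕ} (s : Finset ℕ) : range N \ cys N s = cys N (range N \ s) := by
  ext k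
  rw [Finset.mem_sdiff, mem_cys, mem_cys, Finset.mem_sdiff, Finset.mem_range, Finset.mem_range]
  constructor
  · rintro ⟨h1, h2⟩
    refine ⟨h1, ?_, fun h3 => h2 ⟨h1, h3⟩⟩
    split_ifs <;> omega
  · rintro ⟨h1, _, h3⟩
    exact ⟨h1, fun h4 => h3 h4.2⟩

theorem prod_cys {N : ℕ} {s : Finset ℕ} (hs : s ⊆ range N) (y : ℕ → ℂ) : ∏ k ∈ cys N s, cyc N y k = ∏ k ∈ s, y k := by
  refine Finset.prod_bij (fun k _ => if k + 1 < N then k + 1 else 0) ?_ ?_ ?_ ?_
  · intro k hk
    exact ((mem_cys s).1 hk).2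
  · intro a ha b hb hab
    have h1 := ((mem_cys s).1 ha).1
    have h2 := ((mem_cys s).1 hb).1
    split_ifs at hab <;> omega
  · intro b hb
    have hbN := Finset.mem_range.1 (hs hb)
    rcases Nat.eq_zero_or_pos b with h | h
    · refine ⟨N - 1, ?_, ?_⟩
      · rw [mem_cys_last (by omega), ← h]
        exact hb
      · rw [if_neg (by omega), h]
    · refine ⟨b - 1, ?_, ?_⟩
      · rw [mem_cys_lt (by omega)]
        have : b - 1 + 1 = b := by omega
        rw [this]
        exact hb
      · rw [if_pos (by omega)]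
        omega
  · intro k hk
    have h1 := ((mem_cys s).1 hk).1
    rcases Nat.lt_or_ge (k + 1) N with h2 | h2
    · rw [cyc_lt h2, if_pos h2]
    · rw [cyc_last (by omega), if_neg (by omega)]

/-- the factor of the rotation of `Ht` -/
def rt (s : Finset ℕ) : ℂ := if 0 ∈ s then -om else -om ^ 2

/-- **rotation of `Ht`** -/
theorem Ht_rot {n : ℕ} (hn : 1 ≤ n) {y : ℕ → ℂ} (hy : NZ (2 * n) y) {s : Finset ℕ} (hs : s ∈ cfn (2 * n) n) :
    Ht n (cyc (2 * n) y) (cys (2 * n) s) = rt s * Ht n y s := by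
  unfold Ht
  rw [if_pos (cys_cfn hs), if_pos hs, cys_cpl, prod_cys (mem_cfn.1 hs).1, H_rot hn hy (cpl_mem hs)]
  have h : rc (range (2 * n) \ s) = rt s := by
    unfold rc rt
    have e : 0 ∈ range (2 * n) \ s ↔ 0 ∉ s := by
      rw [Finset.mem_sdiff, Finset.mem_range]
      exact ⟨fun h => h.2, fun h => ⟨by omega, h⟩⟩
    simp only [e]
    by_cases h0 : 0 ∈ s
    · rw [if_pos h0, if_neg (not_not.2 h0)]
    · rw [if_neg h0, if_pos h0]
  rw [h]
  ring

end CV
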