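import Pool.Agent.Lib.MP_216314_pr.CV.Fus
import Pool.Agent.Lib.MP_216314_pr.CV.Rot
import Pool.Agent.Lib.MP_216314_pr.Z.Conv

/-!
# The vector `Ht` lies in the span of the pattern vectors

`SP S`: properties of a family `S` of spin vectors indexed by the periodic patterns.
`Ht_mem`: `Ht n z` is a combination of the vectors of the patterns of period `2 n`.
-/

set_option autoImplicit false

noncomputable section

namespace CV

open Finset PX MvPolynomial

/-- rotation of a spin vector on `N` sites: the site `i` goes to `i + 1`, the last site goes to `0` -/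
def ro (N : ℕ) (v : Vec) : Vec := fun s => if s ⊆ range N then rc s * v (cys N s) else 0

/-- properties of the pattern vectors -/
structure SP (S : ∀ L : ℕ, CY.Pat L → Vec) : Prop where
  wt : ∀ (L : ℕ) (α : CY.Pat L), Wt L (L / 2) (S L α)
  ins : ∀ (L : ℕ) (α : CY.Pat L) (i : ℕ), i ≤ L → S (L + 2) (CY.Pat.ins (i : ℤ) α) = Ins i (S L α)
  e : ∀ (L : ℕ) (α : CY.Pat L) (i : ℕ), i + 1 < L → S L (CY.Pat.e (i : ℤ) α) = ee i (S L α)
  rot : ∀ (L : ℕ) (α : CY.Pat L), S L (CY.Pat.rotInv α) = ro L (S L α)
  two : ∀ v : Vec, Wt 2 1 v → v ∈ Submodule.span ℂ (Set.range (S 2))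
  one : ∀ α : CY.Pat 2, Con 0 (S 2 α) ∅ = 1

section

variable {S : ∀ L : ℕ, CY.Pat L → Vec} (hS : SP S)

/-- the span of the pattern vectors -/
def spn (S : ∀ L : ℕ, CY.Pat L → Vec) (L : ℕ) : Submodule ℂ Vec := Submodule.span ℂ (Set.range (S L))

include hS

theorem spn_ee {L i : ℕ} (hi : i + 1 < L) {v : Vec} (hv : v ∈ spn S L) : ee i v ∈ spn S L := by
  have h1 : spn S L ≤ (spn S L).comap (ee i) := by
    unfold spn
    rw [Submodule.span_le]
    rintro _ ⟨α, rfl⟩
    rw [SetLike.mem_coe, Submodule.mem_comap, ← hS.e L α i hi]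
    exact Submodule.subset_span ⟨_, rfl⟩
  exact h1 hv

theorem spn_Ins {L i : ℕ} (hi : i ≤ L) {v : Vec} (hv : v ∈ spn S L) : Ins i v ∈ spn S (L + 2) := by
  have h1 : spn S L ≤ (spn S (L + 2)).comap (Ins i) := by
    unfold spn
    rw [Submodule.span_le]
    rintro _ ⟨α, rfl⟩
    rw [SetLike.mem_coe, Submodule.mem_comap, ← hS.ins L α i hi]
    exact Submodule.subset_span ⟨_, rfl⟩
  exact h1 hv

/-- the nodes -/
theorem node {n : ℕ} (ih : ∀ z, NZ (2 * n) z → Ht n z ∈ spn S (2 * n)) (j : ℕ) (hj : 1 ≤ j) :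
    j < 2 * n + 2 → ∀ z : ℕ → ℂ, NZ (2 * n + 2) z → z j = om * z 0 → (∀ i, 1 ≤ i → i < j → om * z j ≠ z i) →
      ∀ f : Vec →ₗ[ℂ] ℂ, spn S (2 * n + 2) ≤ LinearMap.ker f → f (Ht (n + 1) z) = 0 := by
  induction j, hj using Nat.le_induction with
  | base =>
    intro _ z hz h1 _ f hf
    have h2 : ip 0 (z 0) (dl 0 z) = z := ip_dl 0 z h1
    have h3 := Ht_fus n 0 (Nat.zero_le _) (hz 0 (by omega)) (nz_dl hz 0)
    rw [h2] at h3
    have h4 : Ht (n + 1) z ∈ spn S (2 * n + 2) := by
      rw [h3]
      exact Submodule.smul_mem _ _ (spn_Ins hS (Nat.zero_le _) (ih _ (nz_dl hz 0)))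
    exact hf h4
  | succ j hj IH =>
    intro hj2 z hz h1 h2 f hf
    have hz' : NZ (2 * n + 2) (sw j z) := nz_sw hz hj2
    have e0 : sw j z 0 = z 0 := sw_of_ne _ _ (by omega) (by omega)
    have e1 : sw j z j = z (j + 1) := sw_left _ _
    have e2 : sw j z (j + 1) = z j := sw_right _ _
    have c1 : sw j z j = om * sw j z 0 := by rw [e0, e1, h1]
    have c2 : ∀ i, 1 ≤ i → i < j → om * sw j z j ≠ sw j z i := by
      intro i hi1 hi2
      rw [e1, sw_of_ne _ _ (by omega) (by omega)]
      exact h2 i hi1 (by omega)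
    have h3 := exG (Ht_exch (n + 1) Set.univ) (L := 2 * n) hj2 (sw j z)
    rw [sw_sw, e1, e2] at h3
    have h4 := congrArg f h3
    rw [map_smul, map_add, map_smul, map_smul, IH (by omega) (sw j z) hz' c1 c2 f hf] at h4
    have h5 : f (ee j (Ht (n + 1) (sw j z))) = 0 := by
      refine IH (by omega) (sw j z) hz' c1 c2 (f.comp (ee j)) ?_
      intro v hv
      rw [LinearMap.mem_ker, LinearMap.comp_apply]
      exact hf (spn_ee hS hj2 hv)
    rw [h5, smul_zero, smul_zero, add_zero, smul_eq_mul] at h4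
    rcases mul_eq_zero.1 h4 with h6 | h6
    · exact absurd (sub_eq_zero.1 h6) (h2 j hj (by omega))
    · exact h6

omit hS in
/-- a linear functional of a vector of given weight -/
theorem fun_sum {L m : ℕ} (f : Vec →ₗ[ℂ] ℂ) {v : Vec} (hv : Wt L m v) :
    f v = ∑ s ∈ cfn L m, v s * f (Pi.single s 1) := by
  have h1 : v = ∑ s ∈ cfn L m, v s • (Pi.single s 1 : Vec) := by
    funext t
    rw [Finset.sum_apply]
    simp only [Pi.smul_apply, smul_eq_mul]
    by_cases ht : t ∈ cfn L m
    · rw [sum_eq_single t]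
      · rw [Pi.single_eq_same, mul_one]
      · intro s _ hs
        rw [Pi.single_eq_of_ne (Ne.symm hs), mul_zero]
      · intro h
        exact absurd ht h
    · rw [hv t ht]
      symm
      refine sum_eq_zero fun s hs => ?_
      rw [Pi.single_eq_of_ne, mul_zero]
      rintro rfl
      exact ht hs
  conv_lhs => rw [h1]
  rw [map_sum]
  exact sum_congr rfl fun s _ => by rw [map_smul, smul_eq_mul]

/-- `Ht n z` is a combination of the pattern vectors -/
theorem Ht_mem {n : ℕ} (hn : 1 ≤ n) : ∀ z, NZ (2 * n) z → Ht n z ∈ spn S (2 * n) := by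
  induction n, hn using Nat.le_induction with
  | base =>
    intro z _
    exact hS.two _ (Ht_wt 1 z)
  | succ n hn ih =>
    -- generic points
    have hgen : ∀ f : Vec →ₗ[ℂ] ℂ, spn S (2 * n + 2) ≤ LinearMap.ker f → ∀ z, Gen (2 * n + 2) z → f (Ht (n + 1) z) = 0 := by
      intro f hf z hz
      have hd : ∀ s, ∃ q : Polynomial ℂ, q.natDegree ≤ n + 1 ∧
          ∀ t : ℂ, Ht (n + 1) (Function.update z 0 t) s = q.eval t := fun s => Ht_deg (n + 1) 0 (by omega) z s
      choose q hq hq1 using hd
      set p : Polynomial ℂ := ∑ s ∈ cfn (2 * n + 2) (n + 1), Polynomial.C (f (Pi.single s 1)) * q s with hp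
      have hpd : p.natDegree ≤ n + 1 := by
        refine Polynomial.natDegree_sum_le_of_forall_le _ _ fun s _ => ?_
        exact (Polynomial.natDegree_C_mul_le _ _).trans (hq s)
      have hpe : ∀ t, f (Ht (n + 1) (Function.update z 0 t)) = p.eval t := by
        intro t
        have hw : Wt (2 * n + 2) (n + 1) (Ht (n + 1) (Function.update z 0 t)) := Ht_wt (n + 1) _
        rw [fun_sum f hw, hp, Polynomial.eval_finsetSum]
        refine sum_congr rfl fun s _ => ?_
        rw [Polynomial.eval_mul, Polynomial.eval_C, hq1, mul_comm]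
      have hz0 : p = 0 := by
        refine zero_of_card hpd ((Icc 1 (2 * n + 1)).image fun j => om ^ 2 * z j) ?_ ?_
        · intro x hx
          obtain ⟨j, hj, rfl⟩ := mem_image.1 hx
          rw [mem_Icc] at hj
          rw [← hpe]
          have hzj : z j ≠ 0 := hz.1 j (by omega)
          have hne : om ^ 2 * z j ≠ 0 := mul_ne_zero (pow_ne_zero 2 om_ne_zero) hzj
          refine node hS ih j hj.1 (by omega) _ (nz_upd hz.1 0 hne) ?_ ?_ f hf
          · rw [Function.update_self, Function.update_of_ne (by omega)]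
            linear_combination (-z j) * om_cube
          · intro i hi1 hi2
            rw [Function.update_of_ne (by omega), Function.update_of_ne (by omega)]
            exact (Gen.ne_mul hz (show j < 2 * n + 2 by omega) (show i < 2 * n + 2 by omega) (by omega)).2.1
        · rw [card_image_of_injOn]
          · rw [Nat.card_Icc]
            omega
          · intro i hi j hj hij
            rw [coe_Icc, Set.mem_Icc] at hi hj
            by_contra hne
            have h1 : om ^ 2 * z i = om ^ 2 * z j := hij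
            have h2 := mul_left_cancel₀ (pow_ne_zero 2 om_ne_zero) h1
            exact (Gen.ne_mul hz (show i < 2 * n + 2 by omega) (show j < 2 * n + 2 by omega) hne).1 h2
      have h1 := hpe (z 0)
      rw [Function.update_eq_self, hz0, Polynomial.eval_zero] at h1
      exact h1
    intro z hz
    by_contra hcon
    obtain ⟨f, hf1, hf2⟩ := Submodule.exists_le_ker_of_notMem hcon
    apply hf1
    have hl : Lau (2 * n + 2) (fun z => f (Ht (n + 1) z)) := by
      have e : (fun z => f (Ht (n + 1) z)) = fun z => ∑ s ∈ cfn (2 * n + 2) (n + 1), Ht (n + 1) z s * f (Pi.single s 1) := by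
        funext z
        exact fun_sum f (Ht_wt (n + 1) z)
      rw [e]
      exact Lau.sum _ fun s _ => (Ht_lau (n + 1) s).mul (Lau.const _ _)
    exact Lau.ext_gen hl (fun z hz => hgen f hf2 z hz) z hz

end

end CV
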