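import Pool.Agent.Lib.MP_216314_pr.CV.Im

/-!
# The stationary distribution of the cylinder in the spin language

`S2`: linear extension of the pattern vectors; `S2_TT`: the row operator fixes `Ht n 1`; `S2_inv`: the image of the stationary distribution is
`Ht n 1` divided by its word value.
-/

set_option autoImplicit false

noncomputable section

namespace CV

open Finset PX MvPolynomial Filter Topology

/-- linear extension of the pattern vectors -/
def S2 (S : ∀ L : ℕ, CY.Pat L → Vec) {L : ℕ} (v : CY.V L) : Vec := ∑ α, v α • S L α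

/-- the word of the small arcs -/
def fc : ℕ → Vec → ℂ
  | 0 => fun v => v ∅
  | n + 1 => fun v => fc n (Con 0 v)

theorem fc_succ (n : ℕ) (v : Vec) : fc (n + 1) v = fc n (Con 0 v) := rfl

theorem fc_add (n : ℕ) (v w : Vec) : fc n (v + w) = fc n v + fc n w := by
  induction n generalizing v w with
  | zero => rfl
  | succ n ih => rw [fc_succ, fc_succ, fc_succ, map_add, ih]

theorem fc_smul (n : ℕ) (c : ℂ) (v : Vec) : fc n (c • v) = c * fc n v := by
  induction n generalizing v with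
  | zero => rfl
  | succ n ih => rw [fc_succ, fc_succ, map_smul, ih]

theorem fc_sum {ι : Type*} (n : ℕ) (A : Finset ι) (v : ι → Vec) : fc n (∑ i ∈ A, v i) = ∑ i ∈ A, fc n (v i) := by
  classical
  induction A using Finset.induction_on with
  | empty =>
    rw [sum_empty, sum_empty]
    have h := fc_smul n 0 0
    rw [zero_smul, zero_mul] at h
    exact h
  | insert a A ha ih => rw [sum_insert ha, sum_insert ha, fc_add, ih]

/-- the row operator without the end -/
def Tw (h : Vec) : ℕ → Vec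
  | 0 => Ins 0 h
  | N + 1 => Tw h N + ee (N + 1) (Tw h N)

theorem Tw_succ (h : Vec) (N : ℕ) : Tw h (N + 1) = Tw h N + ee (N + 1) (Tw h N) := rfl

theorem ro_smul (N : ℕ) (c : ℂ) (v : Vec) : ro N (c • v) = c • ro N v := by
  funext s
  unfold ro
  simp only [Pi.smul_apply, smul_eq_mul]
  split_ifs
  · ring
  · ring

theorem ro_sum {ι : Type*} (N : ℕ) (A : Finset ι) (v : ι → Vec) : ro N (∑ i ∈ A, v i) = ∑ i ∈ A, ro N (v i) := by
  funext s
  rw [Finset.sum_apply]
  unfold ro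
  split_ifs with h
  · rw [Finset.sum_apply, mul_sum]
  · rw [sum_const_zero]

section

variable {S : ∀ L : ℕ, CY.Pat L → Vec}

theorem S2_add {L : ℕ} (v w : CY.V L) : S2 S (v + w) = S2 S v + S2 S w := by
  unfold S2
  rw [← sum_add_distrib]
  exact sum_congr rfl fun α _ => by rw [Pi.add_apply, add_smul]

theorem S2_smul {L : ℕ} (c : ℂ) (v : CY.V L) : S2 S (c • v) = c • S2 S v := by
  unfold S2
  rw [smul_sum]
  exact sum_congr rfl fun α _ => by rw [Pi.smul_apply, smul_eq_mul, mul_smul]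

theorem S2_sum {ι : Type*} {L : ℕ} (A : Finset ι) (v : ι → CY.V L) : S2 S (∑ i ∈ A, v i) = ∑ i ∈ A, S2 S (v i) := by
  classical
  induction A using Finset.induction_on with
  | empty =>
    rw [sum_empty, sum_empty]
    have h := S2_smul (S := S) 0 (0 : CY.V L)
    rw [zero_smul, zero_smul] at h
    exact h
  | insert a A ha ih => rw [sum_insert ha, sum_insert ha, S2_add, ih]

/-- push forward -/
theorem S2_lin {L M : ℕ} (f : CY.Pat L → CY.Pat M) (v : CY.V L) : S2 S (CY.lin f v) = ∑ α, v α • S M (f α) := by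
  classical
  unfold S2
  have h1 : ∀ β, CY.lin f v β • S M β = ∑ α, if f α = β then v α • S M β else 0 := by
    intro β
    rw [CY.lin_apply, sum_smul]
    refine sum_congr rfl fun α _ => ?_
    split_ifs
    · rfl
    · rw [zero_smul]
  rw [sum_congr rfl fun β _ => h1 β, sum_comm]
  refine sum_congr rfl fun α _ => ?_
  rw [sum_ite_eq univ (f α) (fun β => v α • S M β), if_pos (mem_univ _)]

variable (hS : SP S)

include hS

theorem S2_E {L i : ℕ} (hi : i + 1 < L) (v : CY.V L) : S2 S (CY.E (i : ℤ) v) = ee i (S2 S v) := by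
  unfold CY.E
  rw [S2_lin]
  unfold S2
  rw [map_sum]
  exact sum_congr rfl fun α _ => by rw [map_smul, hS.e L α i hi]

theorem S2_I {L i : ℕ} (hi : i ≤ L) (v : CY.V L) : S2 S (CY.I (i : ℤ) v) = Ins i (S2 S v) := by
  unfold CY.I
  rw [S2_lin]
  unfold S2
  rw [map_sum]
  exact sum_congr rfl fun α _ => by rw [map_smul, hS.ins L α i hi]

theorem S2_RI {L : ℕ} (v : CY.V L) : S2 S (CY.RI v) = ro L (S2 S v) := by
  unfold CY.RI
  rw [S2_lin]
  unfold S2
  rw [ro_sum]
  exact sum_congr rfl fun α _ => by rw [ro_smul, hS.rot L α]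

theorem S2_Til {L : ℕ} (v : CY.V L) (N : ℕ) (hN : N ≤ L) : S2 S (CY.Til_S v N) = Tw (S2 S v) N := by
  induction N with
  | zero =>
    rw [CY.Til_S_zero]
    exact S2_I hS (Nat.zero_le L) v
  | succ N ih =>
    rw [CY.Til_S_succ, S2_add, ih (by omega), Tw_succ]
    congr 1
    have h := S2_E hS (show N + 1 + 1 < L + 2 by omega) (CY.Til_S v N)
    rw [ih (by omega)] at h
    rw [← h]
    push_cast
    rfl

/-- the transfer matrix in the spin language -/
theorem S2_TT {L : ℕ} (hL : 0 < L) (v : CY.V L) :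
    Ins 0 (S2 S (CY.TT v)) = ((2 : ℂ) ^ L)⁻¹ • ee 0 (ro (L + 2) (Tw (S2 S v) L)) := by
  have h9 : CY.E 0 (CY.RI (CY.Til_S v L)) = ∑ t : Fin L → Bool, CY.I 0 (CY.lin (CY.row (CY.ext t)) v) := by
    unfold CY.Til_S
    rw [map_sum, map_sum]
    refine Finset.sum_congr rfl fun t _ => ?_
    unfold CY.E CY.RI CY.I
    rw [CY.lin_lin, CY.lin_lin, CY.lin_lin]
    exact CY.lin_congr (fun α => (CY.ins_row (CY.ext t) α).symm) v
  have h10 : CY.I 0 (CY.TT v) = ((2 : ℂ) ^ L)⁻¹ • CY.E 0 (CY.RI (CY.Til_S v L)) := by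
    rw [h9]
    unfold CY.TT
    rw [LinearMap.smul_apply, LinearMap.sum_apply, LinearMap.map_smul, map_sum]
  have h1 := S2_I hS (Nat.zero_le L) (CY.TT v)
  rw [Nat.cast_zero] at h1
  rw [← h1, h10, S2_smul]
  congr 1
  have h2 := S2_E hS (show 0 + 1 < L + 2 by omega) (CY.RI (CY.Til_S v L))
  rw [Nat.cast_zero] at h2
  rw [h2, S2_RI hS, S2_Til hS v L le_rfl]

omit hS in
/-- the point with `-ω` at the place `0` and `-ω²` at the place `N + 1` -/
def pt2 (N : ℕ) : ℕ → ℂ := fun k => if k = 0 then -om else if k = N + 1 then -om ^ 2 else 1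

omit hS in
theorem pt2_sw (N : ℕ) : sw (N + 1) (pt2 N) = pt2 (N + 1) := by
  funext k
  rcases eq_or_ne k (N + 1) with h1 | h1
  · subst h1
    rw [sw_left]
    unfold pt2
    rw [if_neg (by omega), if_neg (by omega), if_neg (by omega), if_neg (by omega)]
  rcases eq_or_ne k (N + 1 + 1) with h2 | h2
  · subst h2
    rw [sw_right]
    unfold pt2
    rw [if_neg (by omega), if_pos rfl, if_neg (by omega), if_pos rfl]
  · rw [sw_of_ne _ _ h1 h2]
    unfold pt2
    rw [if_neg h1, if_neg h2]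

omit hS in
theorem pt2_zero : pt2 0 = ip 0 (-om) (fun _ => 1) := by
  funext k
  unfold pt2 ip
  rw [if_neg (Nat.not_lt_zero k)]
  by_cases h0 : k = 0
  · rw [if_pos h0, if_pos h0]
  · rw [if_neg h0, if_neg h0]
    by_cases h1 : k = 0 + 1
    · rw [if_pos h1, if_pos h1]
      ring
    · rw [if_neg h1, if_neg h1]

omit hS in
theorem pt2_nz (N : ℕ) (M : ℕ) : NZ M (pt2 N) := by
  intro k _
  unfold pt2
  split_ifs
  · exact neg_ne_zero.2 om_ne_zero
  · exact neg_ne_zero.2 (pow_ne_zero 2 om_ne_zero)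
  · exact one_ne_zero

omit hS in
/-- the constant -/
def K2 (n : ℕ) : ℂ := -om ^ 2 * -om * KH n (-om) (fun _ => 1)

omit hS in
theorem K2_ne (n : ℕ) : K2 n ≠ 0 := by
  unfold K2 KH
  refine mul_ne_zero (mul_ne_zero (neg_ne_zero.2 (pow_ne_zero 2 om_ne_zero)) (neg_ne_zero.2 om_ne_zero))
    (mul_ne_zero (pow_ne_zero _ (neg_ne_zero.2 om_ne_zero)) (Finset.prod_ne_zero_iff.2 fun k _ => ?_))
  have h1 : om ^ 2 * -om - 1 = -2 := by linear_combination -om_cube
  rw [h1]
  norm_num

omit hS in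
theorem Ht_step (n N : ℕ) (hN : N ≤ 2 * n) :
    Ht (n + 1) (pt2 N) = ((2 : ℂ) ^ N)⁻¹ • K2 n • Tw (Ht n (fun _ => 1)) N := by
  induction N with
  | zero =>
    rw [pow_zero, inv_one, one_smul, pt2_zero]
    exact Ht_fus n 0 (Nat.zero_le _) (neg_ne_zero.2 om_ne_zero) (fun _ _ => one_ne_zero)
  | succ N ih =>
    have h1 := exG (Ht_exch (n + 1) Set.univ) (L := 2 * n) (show N + 1 + 1 < 2 * n + 2 by omega) (pt2 N)
    rw [pt2_sw] at h1
    have e1 : pt2 N (N + 1 + 1) = 1 := by
      unfold pt2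
      rw [if_neg (by omega), if_neg (by omega)]
    have e2 : pt2 N (N + 1) = -om ^ 2 := by
      unfold pt2
      rw [if_neg (by omega), if_pos rfl]
    rw [e1, e2] at h1
    have e3 : om * -om ^ 2 - 1 = -2 := by linear_combination -om_cube
    have e4 : om * 1 - -om ^ 2 = -1 := by linear_combination om_eq
    have e5 : om ^ 2 * (1 - -om ^ 2) = -1 := by linear_combination om_eq + om * om_cube
    rw [e3, e4, e5] at h1
    have h2 : Ht (n + 1) (pt2 (N + 1)) = (2 : ℂ)⁻¹ • (Ht (n + 1) (pt2 N) + ee (N + 1) (Ht (n + 1) (pt2 N))) := by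
      have h3 : (2 : ℂ) • Ht (n + 1) (pt2 (N + 1)) = Ht (n + 1) (pt2 N) + ee (N + 1) (Ht (n + 1) (pt2 N)) := by
        rw [neg_smul, neg_smul, neg_smul, one_smul, one_smul, ← neg_add] at h1
        exact neg_injective h1
      rw [← h3, smul_smul, inv_mul_cancel₀ two_ne_zero, one_smul]
    rw [h2, ih (by omega), map_smul, map_smul, ← smul_add, ← smul_add, ← Tw_succ, smul_smul, pow_succ, mul_inv, mul_comm]

omit hS in
/-- rotation of `Ht` as an operator -/
theorem ro_Ht {n : ℕ} (hn : 1 ≤ n) {y : ℕ → ℂ} (hy : NZ (2 * n) y) : ro (2 * n) (Ht n (cyc (2 * n) y)) = Ht n y := by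
  funext s
  unfold ro
  by_cases hs : s ∈ cfn (2 * n) n
  · rw [if_pos (mem_cfn.1 hs).1, Ht_rot hn hy hs]
    have h1 : rc s * rt s = 1 := by
      unfold rc rt
      split_ifs
      · linear_combination om_cube
      · linear_combination om_cube
    rw [← mul_assoc, h1, one_mul]
  · rw [Ht_wt n y s hs]
    split_ifs with h
    · have h2 : cys (2 * n) s ∉ cfn (2 * n) n := by
        intro h3
        rw [mem_cfn, card_cys h] at h3
        exact hs (mem_cfn.2 ⟨h, h3.2⟩)
      rw [Ht_wt n _ _ h2, mul_zero]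
    · rfl

omit hS in
theorem Ht_turn (n : ℕ) : ee 0 (ro (2 * n + 2) (Ht (n + 1) (pt2 (2 * n)))) = K2 n • Ins 0 (Ht n (fun _ => 1)) := by
  have hb : (-om : ℂ) ≠ 0 := neg_ne_zero.2 om_ne_zero
  have hn : 1 ≤ n + 1 := Nat.le_add_left 1 n
  have h0 : NZ (2 * (n + 1)) (sw 0 (ip 0 (-om) (fun _ => (1 : ℂ)))) :=
    nz_sw (L := 2 * (n + 1)) (nz_ip (L := 2 * n) (Nat.zero_le _) hb (fun _ _ => one_ne_zero)) (by omega)
  have h1 := ro_Ht hn h0
  have h2 : Ht (n + 1) (cyc (2 * (n + 1)) (sw 0 (ip 0 (-om) (fun _ => (1 : ℂ))))) = Ht (n + 1) (pt2 (2 * n)) := by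
    refine Ht_congr (n + 1) fun k hk => ?_
    by_cases h3 : k + 1 < 2 * (n + 1)
    · rw [cyc_lt h3]
      rcases eq_or_ne k 0 with h4 | h4
      · subst h4
        rw [sw_right, ip_left]
        unfold pt2
        rw [if_pos rfl]
      · rw [sw_of_ne _ _ (by omega) (by omega)]
        unfold ip pt2
        rw [if_neg (by omega), if_neg (by omega), if_neg (by omega), if_neg h4, if_neg (by omega)]
    · rw [cyc_last (by omega), sw_left, ip_right]
      unfold pt2
      rw [if_neg (by omega), if_pos (by omega)]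
      ring
  rw [h2] at h1
  have h3 : ro (2 * n + 2) (Ht (n + 1) (pt2 (2 * n))) = Ht (n + 1) (sw 0 (ip 0 (-om) (fun _ => 1))) := h1
  rw [h3, cupG' (Ht_exch (n + 1) Set.univ) (L := 2 * n) (Nat.zero_le _) hb]
  exact Ht_fus n 0 (Nat.zero_le _) hb (fun _ _ => one_ne_zero)

omit hS in
theorem Ins_inj {i : ℕ} {v w : Vec} (h : Ins i v = Ins i w) : v = w := by
  have h1 := congrArg (Con i) h
  rwa [Con_Ins_self, Con_Ins_self] at h1

/-- the row operator fixes `Ht n 1` -/
theorem S2_fix {n : ℕ} (hn : 1 ≤ n) {v : CY.V (2 * n)} (h : S2 S v = Ht n (fun _ => 1)) :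
    S2 S (CY.TT v) = Ht n (fun _ => 1) := by
  apply Ins_inj (i := 0)
  rw [S2_TT hS (by omega), h]
  have h1 := Ht_step n (2 * n) le_rfl
  have h2 := Ht_turn n
  rw [h1, ro_smul, ro_smul, map_smul, map_smul, smul_comm] at h2
  exact smul_right_injective _ (K2_ne n) h2

theorem Con_S {L : ℕ} (hL : 0 < L) (α : CY.Pat (L + 2)) : Con 0 (S (L + 2) α) = S L (CY.Pat.cap hL 0 α) := by
  apply Ins_inj (i := 0)
  have h1 := hS.ins L (CY.Pat.cap hL 0 α) 0 (Nat.zero_le _)
  have h2 := hS.e (L + 2) α 0 (by omega)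
  rw [Nat.cast_zero] at h1 h2
  rw [CY.Pat.ins_cap] at h1
  rw [← h1, h2, ee_eq]

/-- the word value of a pattern vector -/
theorem fc_S {n : ℕ} (hn : 1 ≤ n) : ∀ α : CY.Pat (2 * n), fc n (S (2 * n) α) = 1 := by
  induction n, hn using Nat.le_induction with
  | base =>
    intro α
    exact hS.one α
  | succ n hn ih =>
    intro α
    rw [fc_succ]
    have h1 : Con 0 (S (2 * (n + 1)) α) = S (2 * n) (CY.Pat.cap (show 0 < 2 * n by omega) 0 α) := Con_S hS (L := 2 * n) (by omega) α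
    rw [h1]
    exact ih _

theorem fc_S2 {n : ℕ} (hn : 1 ≤ n) (v : CY.V (2 * n)) : fc n (S2 S v) = ∑ α, v α := by
  unfold S2
  rw [fc_sum]
  exact sum_congr rfl fun α _ => by rw [fc_smul, fc_S hS hn, mul_one]

omit hS in
theorem S2_tendsto {L : ℕ} {v : ℕ → CY.V L} {v0 : CY.V L} (h : Tendsto v atTop (𝓝 v0)) :
    Tendsto (fun m => S2 S (v m)) atTop (𝓝 (S2 S v0)) := by
  unfold S2
  refine tendsto_finsetSum _ fun α _ => ?_
  exact ((tendsto_pi_nhds.1 h) α).smul_const _

omit hS in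
theorem Ht_one_ne (n : ℕ) : Ht n (fun _ => 1) ≠ 0 := by
  intro h
  have h1 := congrFun h (range (2 * n) \ range n)
  have hr : range n ∈ cfn (2 * n) n := mem_cfn.2 ⟨range_subset_range.2 (by omega), card_range n⟩
  have h2 : range (2 * n) \ (range (2 * n) \ range n) = range n := by
    rw [Finset.sdiff_sdiff_eq_self (range_subset_range.2 (by omega))]
  unfold Ht at h1
  rw [if_pos (cpl_mem hr), prod_const_one, one_mul, h2, H_range] at h1
  have h3 : ∀ a b : ℕ, AA a b (fun _ => (1 : ℂ)) ≠ 0 := by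
    intro a b
    unfold AA
    refine Finset.prod_ne_zero_iff.2 fun j _ => Finset.prod_ne_zero_iff.2 fun i _ => ?_
    rw [mul_one]
    exact sub_ne_zero.2 om_ne_one
  exact (mul_ne_zero (h3 _ _) (h3 _ _)) h1

/-- the image of the stationary distribution -/
theorem S2_inv {n : ℕ} (hn : 1 ≤ n) {q : ℂ} (hq : q ^ 2 + q + 1 = 0) {P : CY.Pat (2 * n) → MvPolynomial ℕ ℂ}
    (hP : CY.IsPsi q (2 * n) P) : fc n (Ht n (fun _ => 1)) ≠ 0 ∧
      S2 S ((∑ α, CY.ev P (fun _ => 1) α)⁻¹ • CY.ev P (fun _ => 1)) = (fc n (Ht n (fun _ => 1)))⁻¹ • Ht n (fun _ => 1) := by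
  have hmem := Ht_mem hS hn (fun _ => 1) (fun _ _ => one_ne_zero)
  unfold spn at hmem
  rw [Submodule.mem_span_range_iff_exists_fun] at hmem
  obtain ⟨v, hv⟩ := hmem
  have hv2 : S2 S (v : CY.V (2 * n)) = Ht n (fun _ => 1) := hv
  have hit : ∀ m, S2 S ((CY.TT^[m]) v) = Ht n (fun _ => 1) := by
    intro m
    induction m with
    | zero => exact hv2
    | succ m ih =>
      rw [Function.iterate_succ_apply']
      exact S2_fix hS hn ih
  have hsum : fc n (Ht n (fun _ => 1)) = ∑ α, v α := by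
    rw [← hv2]
    exact fc_S2 hS hn v
  have hne : ∑ α, v α ≠ 0 := by
    intro h0
    have h1 := S2_tendsto (S := S) (CY.TT_tendsto_zero v h0)
    simp only [hit] at h1
    have h2 : S2 S (0 : CY.V (2 * n)) = 0 := by
      have h := S2_smul (S := S) 0 (0 : CY.V (2 * n))
      rwa [zero_smul, zero_smul] at h
    rw [h2] at h1
    exact Ht_one_ne n (tendsto_nhds_unique tendsto_const_nhds h1)
  refine ⟨by rw [hsum]; exact hne, ?_⟩
  have h1 : ∑ α, ((∑ α, v α)⁻¹ • v) α = 1 := by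
    simp only [Pi.smul_apply, smul_eq_mul]
    rw [← mul_sum, inv_mul_cancel₀ hne]
  have h2 := CY.TT_conv hq (show 0 < 2 * n by omega) (even_two_mul n) hP ((∑ α, v α)⁻¹ • v) h1
  have h3 := S2_tendsto (S := S) h2
  have h4 : ∀ m, S2 S ((CY.TT^[m]) ((∑ α, v α)⁻¹ • v)) = (∑ α, v α)⁻¹ • Ht n (fun _ => 1) := by
    intro m
    have h5 : (CY.TT^[m]) ((∑ α, v α)⁻¹ • v) = (∑ α, v α)⁻¹ • (CY.TT^[m]) v := by
      induction m with
      | zero => rfl
      | succ m ih => rw [Function.iterate_succ_apply', Function.iterate_succ_apply', ih, map_smul]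
    rw [h5, S2_smul, hit]
  simp only [h4] at h3
  rw [hsum]
  exact tendsto_nhds_unique h3 tendsto_const_nhds

end

end CV
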