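import Pool.Agent.Lib.MP_216314_pr.CV.V
import Pool.Agent.Lib.MP_216314_pr.CV.Fus

/-!
# Fusion relations of the pairing

`V_fusA`: fusion of the first two arguments (left group); `V_fusB`: fusion of the first two arguments of the cylinder.
-/

set_option autoImplicit false

noncomputable section

namespace CV

open Finset PX CF

private theorem VF_rmA (c : ℕ) (s t : Finset ℕ) : rm 0 (s ∪ su (c + 2) t) = rm 0 s ∪ su c t := by
  ext x
  rw [mem_rm, mem_union, mem_union, mem_rm, mem_su', mem_su']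
  have e : up 0 x = x + 2 := by
    unfold up
    rw [if_neg (by omega)]
  rw [e]
  constructor
  · rintro (h | ⟨h, h'⟩)
    · exact Or.inl h
    · right
      refine ⟨by omega, ?_⟩
      rw [show x - c = x + 2 - (c + 2) by omega]
      exact h'
  · rintro (h | ⟨h, h'⟩)
    · exact Or.inl h
    · right
      refine ⟨by omega, ?_⟩
      rw [show x + 2 - (c + 2) = x - c by omega]
      exact h'

private theorem VF_InsA (c : ℕ) (g : Vec) (s t : Finset ℕ) :
    Ins 0 g (s ∪ su (c + 2) t) = Ins 0 (fun s => g (s ∪ su c t)) s := by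
  rw [Ins_apply, Ins_apply, VF_rmA]
  have h0 : (0 ∈ s ∪ su (c + 2) t) ↔ 0 ∈ s := by
    rw [mem_union, mem_su']
    exact ⟨fun h => h.elim id fun h' => absurd h'.1 (by omega), Or.inl⟩
  have h1 : (0 + 1 ∈ s ∪ su (c + 2) t) ↔ 0 + 1 ∈ s := by
    rw [mem_union, mem_su']
    exact ⟨fun h => h.elim id fun h' => absurd h'.1 (by omega), Or.inl⟩
  simp only [h0, h1]

private theorem VF_sh (c : ℕ) (u : ℂ) (w : ℕ → ℂ) : sh (c + 2) (ip 0 u w) = sh c w := by
  funext i
  show ip 0 u w (i + (c + 2)) = w (i + c)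
  rw [show i + (c + 2) = i + c + 2 by omega]
  exact ip_ge u w (Nat.zero_le _)

private theorem VF_half (c : ℕ) : (c + 2) / 2 = c / 2 + 1 := Nat.add_div_right c (by norm_num)

/-- fusion in the left group -/
theorem V_fusA {c n : ℕ} {u : ℂ} (hu : u ≠ 0) {w : ℕ → ℂ} (hw : NZ (c + 2 * n) w) :
    V (c + 2) n (ip 0 u w) = -om ^ 2 * Kf (c + 2 * n) u w * Kf c u w * V c n w := by
  have h1 : gv (c + 2 + 2 * n) (ip 0 u w) = Kf (c + 2 * n) u w • Ins 0 (gv (c + 2 * n) w) := by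
    rw [show c + 2 + 2 * n = c + 2 * n + 2 by ring]
    exact fusion (c + 2 * n) 0 (Nat.zero_le _) hu hw
  have hwi : NZ c (ivs w) := fun k hk => inv_ne_zero (hw k (by omega))
  have h2 : Con 0 (gv (c + 2) (ivs (ip 0 u w))) = Kf c u w • gv c (ivs w) := by
    rw [ivs_ip 0 hu w, Con_rev (Nat.zero_le c) (mul_ne_zero (pow_ne_zero 2 om_ne_zero) (inv_ne_zero hu)) hwi,
      Kf_ivs]
  rw [V_PG, V_PG, SpA_PG_left, SpA_PG_left, VF_sh, VF_half, h1, mul_sum]
  refine sum_congr rfl fun t _ => ?_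
  have h3 : (fun s => (Kf (c + 2 * n) u w • Ins 0 (gv (c + 2 * n) w)) (s ∪ (∅ ∪ su (c + 2) t))) =
      Kf (c + 2 * n) u w • Ins 0 (fun s => gv (c + 2 * n) w (s ∪ (∅ ∪ su c t))) := by
    funext s
    show Kf (c + 2 * n) u w * Ins 0 (gv (c + 2 * n) w) (s ∪ (∅ ∪ su (c + 2) t)) = Kf (c + 2 * n) u w * _
    simp only [empty_union]
    rw [VF_InsA]
  rw [h3, BF_smul_right, BF_Ins (Nat.zero_le c) (fun _ => 1) (fun _ => 1) (fun _ => rfl) (fun _ => rfl), h2,
    BF_smul_left]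
  ring

private theorem VF_rmB {c : ℕ} {s : Finset ℕ} (hs : s ⊆ range c) (t : Finset ℕ) :
    rm c (s ∪ su c t) = s ∪ su c (rm 0 t) := by
  have e : ∀ x, up 0 x = x + 2 := fun x => by
    unfold up
    rw [if_neg (by omega)]
  ext x
  rw [mem_rm, mem_union, mem_union, mem_su', mem_su', mem_rm, e]
  unfold up
  by_cases h : x < c
  · rw [if_pos h]
    constructor
    · rintro (h1 | ⟨h1, _⟩)
      · exact Or.inl h1
      · omega
    · rintro (h1 | ⟨h1, _⟩)
      · exact Or.inl h1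
      · omega
  · rw [if_neg h]
    constructor
    · rintro (h1 | ⟨h1, h2⟩)
      · have := mem_range.1 (hs h1)
        omega
      · right
        refine ⟨by omega, ?_⟩
        rw [show x - c + 2 = x + 2 - c by omega]
        exact h2
    · rintro (h1 | ⟨h1, h2⟩)
      · have := mem_range.1 (hs h1)
        omega
      · right
        refine ⟨by omega, ?_⟩
        rw [show x + 2 - c = x - c + 2 by omega]
        exact h2

private theorem VF_InsB {c : ℕ} (g : Vec) {s : Finset ℕ} (hs : s ⊆ range c) (t : Finset ℕ) :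
    Ins c g (s ∪ su c t) = Ins 0 (fun t => g (s ∪ su c t)) t := by
  rw [Ins_apply, Ins_apply, VF_rmB hs]
  have h0 : (c ∈ s ∪ su c t) ↔ 0 ∈ t := by
    rw [mem_union, mem_su', Nat.sub_self]
    refine ⟨fun h => h.elim (fun h' => ?_) fun h' => h'.2, fun h => Or.inr ⟨le_rfl, h⟩⟩
    have := mem_range.1 (hs h')
    omega
  have h1 : (c + 1 ∈ s ∪ su c t) ↔ 0 + 1 ∈ t := by
    rw [mem_union, mem_su', show c + 1 - c = 0 + 1 by omega]
    refine ⟨fun h => h.elim (fun h' => ?_) fun h' => h'.2, fun h => Or.inr ⟨by omega, h⟩⟩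
    have := mem_range.1 (hs h')
    omega
  simp only [h0, h1]

private theorem VF_sh' (c : ℕ) (u : ℂ) (w : ℕ → ℂ) : sh c (ip c u w) = ip 0 u (sh c w) := by
  funext i
  show ip c u w (i + c) = ip 0 u (sh c w) i
  unfold ip sh
  by_cases h0 : i = 0
  · rw [if_neg (by omega), if_pos (by omega), if_neg (by omega), if_pos h0]
  · by_cases h1 : i = 1
    · rw [if_neg (by omega), if_neg (by omega), if_pos (by omega), if_neg (by omega), if_neg (by omega), if_pos (by omega)]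
    · rw [if_neg (by omega), if_neg (by omega), if_neg (by omega), if_neg (by omega), if_neg (by omega), if_neg (by omega)]
      rw [show i + c - 2 = i - 2 + c by omega]

/-- the reversed pair of arguments -/
theorem Ht_rev {n : ℕ} {b : ℂ} (hb : b ≠ 0) (z : ℕ → ℂ) :
    ee 0 (Ht (n + 1) (sw 0 (ip 0 b z))) = Ht (n + 1) (ip 0 b z) := by
  funext s
  have h := Ht_exch (n + 1) Set.univ 0 (Nat.zero_le _) (by omega) (sw 0 (ip 0 b z)) (Set.mem_univ _) s
  rw [sw_sw, sw_left, sw_right, ip_left, ip_right] at h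
  have h1 : b * (om ^ 2 - 1) * (Ht (n + 1) (ip 0 b z) s - ee 0 (Ht (n + 1) (sw 0 (ip 0 b z))) s) = 0 := by
    linear_combination h - (ee 0 (Ht (n + 1) (sw 0 (ip 0 b z))) s * b) * om_cube
  have h2 : b * (om ^ 2 - 1) ≠ 0 := by
    refine mul_ne_zero hb fun h3 => om_ne_one ?_
    have h4 : om ^ 2 = 1 := by linear_combination h3
    calc om = om ^ 2 * om := by rw [h4, one_mul]
      _ = om ^ 3 := by ring
      _ = 1 := om_cube
  rcases mul_eq_zero.1 h1 with h3 | h3
  · exact absurd h3 h2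
  · linear_combination -h3

/-- fusion in the cylinder -/
theorem V_fusB {c n : ℕ} {u : ℂ} (hu : u ≠ 0) {w : ℕ → ℂ} (hw : NZ (c + 2 * n) w) :
    V c (n + 1) (ip c u w) = (-om) ^ n * u⁻¹ * Kf (c + 2 * n) u w *
      (∏ k ∈ range (2 * n), ((w (k + c))⁻¹ - om * u⁻¹)) * V c n w := by
  have h1 : gv (c + 2 * (n + 1)) (ip c u w) = Kf (c + 2 * n) u w • Ins c (gv (c + 2 * n) w) := by
    rw [show c + 2 * (n + 1) = c + 2 * n + 2 by ring]
    exact fusion (c + 2 * n) c (by omega) hu hw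
  have hb : om ^ 2 * u⁻¹ ≠ 0 := mul_ne_zero (pow_ne_zero 2 om_ne_zero) (inv_ne_zero hu)
  have h2 : Con 0 (Ht (n + 1) (ivs (sh c (ip c u w)))) =
      (-om ^ 2 * (om ^ 2 * u⁻¹) * ((-om) ^ n * ∏ k ∈ range (2 * n), (om ^ 2 * (om ^ 2 * u⁻¹) - ivs (sh c w) k))) •
        Ht n (ivs (sh c w)) := by
    rw [VF_sh', ivs_ip 0 hu]
    have h3 := Ht_rev (n := n) hb (ivs (sh c w))
    have hz : NZ (2 * n) (ivs (sh c w)) := fun k hk => inv_ne_zero (hw (k + c) (by omega))
    rw [Ht_fus n 0 (Nat.zero_le _) hb hz, ee_eq] at h3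
    have h4 := congrArg (Con 0) h3
    rw [Con_Ins_self, map_smul, Con_Ins_self] at h4
    exact h4
  have h5 : gv c (ivs (ip c u w)) = gv c (ivs w) := gv_congr fun k hk => by
    unfold ivs
    rw [ip_lt u w hk]
  have h6 : ∏ k ∈ range (2 * n), (om ^ 2 * (om ^ 2 * u⁻¹) - ivs (sh c w) k) =
      ∏ k ∈ range (2 * n), ((w (k + c))⁻¹ - om * u⁻¹) := by
    have h7 : ∀ k ∈ range (2 * n), om ^ 2 * (om ^ 2 * u⁻¹) - ivs (sh c w) k = -1 * ((w (k + c))⁻¹ - om * u⁻¹) := by
      intro k _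
      have e : ivs (sh c w) k = (w (k + c))⁻¹ := rfl
      rw [e]
      linear_combination (om * u⁻¹) * om_cube
    rw [prod_congr rfl h7, prod_mul_distrib, prod_const, card_range, pow_mul, neg_one_sq, one_pow, one_mul]
  rw [h6] at h2
  rw [V_PG, V_PG, SpA_PG_right, SpA_PG_right, h1, h5, mul_sum]
  refine sum_congr rfl fun s hs => ?_
  have hsc : s ⊆ range c := (mem_cfn.1 hs).1
  have h3 : (fun t => (Kf (c + 2 * n) u w • Ins c (gv (c + 2 * n) w)) (s ∪ ∅ ∪ su c t)) =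
      Kf (c + 2 * n) u w • Ins 0 (fun t => gv (c + 2 * n) w (s ∪ ∅ ∪ su c t)) := by
    funext t
    show Kf (c + 2 * n) u w * Ins c (gv (c + 2 * n) w) (s ∪ ∅ ∪ su c t) = Kf (c + 2 * n) u w * _
    simp only [union_empty]
    rw [VF_InsB _ hsc]
  rw [h3, BF_smul_right, show 2 * (n + 1) = 2 * n + 2 by ring,
    BF_Ins (Nat.zero_le _) (fun _ => 1) (fun _ => 1) (fun _ => rfl) (fun _ => rfl), h2, BF_smul_left]
  linear_combination (gv c (ivs w) s * (Kf (c + 2 * n) u w * ((-om) ^ n * u⁻¹ * (∏ k ∈ range (2 * n), ((w (k + c))⁻¹ - om * u⁻¹)) *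
    BF (2 * n) n (fun _ => 1) (Ht n (ivs (sh c w))) (fun t => gv (c + 2 * n) w (s ∪ ∅ ∪ su c t))))) * (om ^ 3 + 1) * om_cube

end CV
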