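import Pool.Agent.Lib.MP_216314_pr.CV.DAB
import Pool.Agent.Lib.MP_216314_pr.CV.VF
import Pool.Agent.Lib.MP_216314_pr.CZ.Fl
import Pool.Agent.Lib.MP_216314_pr.CZ.Inst

/-!
# The pairing satisfies the hypotheses of the uniqueness theorem
-/

set_option autoImplicit false

noncomputable section

namespace CW

open Finset PX CF CZ CV

theorem vfacts : VFacts V where
  loc c n y y' h := V_loc c n h
  lau c n := V_lau c n
  sw c n i y _ hy h := V_sw hy h
  iv c n i y _ hy hi := V_iv hy hi
  zero y := V_zero y
  fusA c n u w _ hu hw := V_fusA hu hw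
  fusB c n u w _ hu hw := V_fusB hu hw
  polA k n y hg := by
    have hg' : Gen (2 * k + 1 - 1 + 2 * n) (CF.sh 1 (Function.update y 0 1)) := by
      have e : CF.sh 1 (Function.update y 0 1) = CF.sh 1 y := by
        funext i
        unfold CF.sh
        rw [Function.update_of_ne (by omega)]
      rw [e, Nat.add_sub_cancel]
      exact hg
    have hz : NZ (2 * k + 1 + 2 * n) (Function.update y 0 1) := by
      intro i hi
      rcases i with _ | i
      · rw [Function.update_self]
        exact one_ne_zero
      · rw [Function.update_of_ne (by omega)]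
        exact hg.1 i (by omega)
    obtain ⟨p, h1, h2, h3⟩ := V_DA SS_SC (c := 2 * k + 1) (n := n) ⟨k, rfl⟩ hz hg'
    have e1 : (2 * k + 1 + 2 * n - 1) / 2 + (2 * k + 1 - 1) / 2 = 2 * k + n := by omega
    have e2 : 2 * ((2 * k + 1 + 2 * n - 1) / 2) + 2 * ((2 * k + 1 - 1) / 2) = 2 * (2 * k + n) := by omega
    rw [e1] at h2
    rw [e2] at h1 h3
    refine ⟨p, h1, ?_, fun t ht => ?_⟩
    · rw [h3]
      have e3 : CF.sh 1 (Function.update y 0 1) = CF.sh 1 y := by
        funext i
        unfold CF.sh
        rw [Function.update_of_ne (by omega)]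
      have e4 : CF.sh (2 * k + 1) (Function.update y 0 1) = CF.sh (2 * k + 1) y := by
        funext i
        unfold CF.sh
        rw [Function.update_of_ne (by omega)]
      rw [e3, e4]
      have e5 : Yv n (ivs (CF.sh (2 * k + 1) y)) = MS yb' ((ZB (2 * k) n (CF.sh 1 y)).map (fun b => b⁻¹)) := by
        unfold Yv ZB
        rw [Multiset.map_map]
        rfl
      have e6 : Sv SS (2 * k + 1 - 1 + 2 * n) (CF.sh 1 y) = SS (XA (2 * k + 2 * n) (CF.sh 1 y)) := rfl
      have e7 : Sv SS (2 * k + 1 - 1) (CF.sh 1 y) = SS (XA (2 * k) (CF.sh 1 y)) := rfl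
      rw [e5, e6, e7]
      have e8 : ka (2 * k + 1) n = CZ.ka (2 * k + 1) n := rfl
      rw [e8]
      ring
    · have h4 : t ^ (2 * k + n) * V (2 * k + 1) n (Function.update (Function.update y 0 1) 0 t) = p.eval t := h2 t ht
      rw [Function.update_idem] at h4
      exact h4
  polB k n y hg := by
    have hz : NZ (2 * k + 1 + 2 * (n + 1)) (Function.update y (2 * k + 2 * n + 2) 1) := by
      intro i hi
      rcases eq_or_ne i (2 * k + 2 * n + 2) with h | h
      · rw [h, Function.update_self]
        exact one_ne_zero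
      · rw [Function.update_of_ne h]
        exact hg.1 i (by omega)
    have e0 : 2 * k + 1 + 2 * (n + 1) - 1 = 2 * k + 2 * n + 2 := by omega
    have hg' : Gen (2 * k + 1 + 2 * (n + 1) - 1) (Function.update y (2 * k + 2 * n + 2) 1) := by
      rw [e0]
      exact gen_congr hg fun j hj => (Function.update_of_ne (by omega) _ _).symm
    obtain ⟨p, h1, h2, h3⟩ := V_DB SS_SC (c := 2 * k + 1) (n := n + 1) ⟨k, rfl⟩ (by omega) hz hg'
    rw [e0] at h1 h2 h3
    have e1 : (2 * k + 2 * n + 2) / 2 + (n + 1) - 1 = k + 2 * n + 1 := by omega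
    have e2 : 2 * ((2 * k + 2 * n + 2) / 2) + (n + 1) - 1 = 2 * k + 3 * n + 2 := by omega
    rw [e1] at h2
    rw [e2] at h1 h3
    refine ⟨p, h1, ?_, fun t ht => ?_⟩
    · rw [h3]
      have e4 : Sv SS (2 * k + 2 * n + 2) (Function.update y (2 * k + 2 * n + 2) 1) = SS (XA (2 * k + 2 * n + 2) y) := by
        unfold Sv XA
        congr 1
        refine Multiset.map_congr rfl fun j hj => ?_
        have : j < 2 * k + 2 * n + 2 := Multiset.mem_range.1 hj
        rw [Function.update_of_ne (by omega)]
      have e5 : Sv SS (2 * k + 1) (Function.update y (2 * k + 2 * n + 2) 1) = SS (XA (2 * k + 1) y) := by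
        unfold Sv XA
        congr 1
        refine Multiset.map_congr rfl fun j hj => ?_
        have : j < 2 * k + 1 := Multiset.mem_range.1 hj
        rw [Function.update_of_ne (by omega)]
      have e6 : Yv (n + 1) (fun j => if j < 2 * (n + 1) - 1 then
          ivs (CF.sh (2 * k + 1) (Function.update y (2 * k + 2 * n + 2) 1)) j else 0) =
          MS yb' (0 ::ₘ (Multiset.range (2 * n + 1)).map (fun i => (y (i + (2 * k + 1)))⁻¹)) := by
        rw [Yv_last, if_neg (by omega)]
        congr 2
        refine Multiset.map_congr rfl fun j hj => ?_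
        have hj' : j < 2 * n + 1 := Multiset.mem_range.1 hj
        rw [if_pos (by omega)]
        show (Function.update y (2 * k + 2 * n + 2) 1 (j + (2 * k + 1)))⁻¹ = _
        rw [Function.update_of_ne (by omega)]
      rw [e4, e5, e6]
      rfl
    · have h4 : t ^ (k + 2 * n + 1) * V (2 * k + 1) (n + 1)
          (Function.update (Function.update y (2 * k + 2 * n + 2) 1) (2 * k + 2 * n + 2) t) = p.eval t := h2 t ht
      rw [Function.update_idem] at h4
      exact h4

end CW
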