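import Pool.Agent.Lib.MP_216314_pr.CV.GB

/-!
# One up spin moving through down spins, and one down spin moving through up spins
-/

set_option autoImplicit false

noncomputable section

namespace CV

open Finset MvPolynomial PX

/-- product over the pairs of the interval -/
def AA (a b : ℕ) (y : ℕ → ℂ) : ℂ := ∏ j ∈ Ico a b, ∏ i ∈ Ico a j, (om * y i - y j)

theorem AA_top {a b : ℕ} (h : a ≤ b) (y : ℕ → ℂ) :
    AA a (b + 1) y = AA a b y * ∏ i ∈ Ico a b, (om * y i - y b) := by
  unfold AA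
  rw [Finset.prod_Ico_succ_top h]

theorem AA_self (a : ℕ) (y : ℕ → ℂ) : AA a a y = 1 := by
  unfold AA
  rw [Finset.Ico_self, Finset.prod_empty]

theorem AA_bot {a b : ℕ} (h : a < b) (y : ℕ → ℂ) :
    AA a b y = (∏ j ∈ Ico (a + 1) b, (om * y a - y j)) * AA (a + 1) b y := by
  unfold AA
  rw [Finset.prod_eq_prod_Ico_succ_bot h, Finset.Ico_self, Finset.prod_empty, one_mul, ← Finset.prod_mul_distrib]
  refine Finset.prod_congr rfl fun j hj => ?_
  rw [Finset.mem_Ico] at hj
  rw [Finset.prod_eq_prod_Ico_succ_bot (by omega : a < j)]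

theorem AA_congr {a b : ℕ} {y y' : ℕ → ℂ} (h : ∀ k, a ≤ k → k < b → y k = y' k) : AA a b y = AA a b y' := by
  unfold AA
  refine Finset.prod_congr rfl fun j hj => Finset.prod_congr rfl fun i hi => ?_
  rw [Finset.mem_Ico] at hj hi
  rw [h j hj.1 hj.2, h i hi.1 (by omega)]

theorem AA_sw {a b i : ℕ} (h : i + 1 < a ∨ b ≤ i) (y : ℕ → ℂ) : AA a b (sw i y) = AA a b y :=
  AA_congr fun k h1 h2 => sw_of_ne i y (by omega) (by omega)

/-- distinct entries with numbers in `[a, b)` -/
def Ds (a b : ℕ) (y : ℕ → ℂ) : Prop := ∀ i j, a ≤ i → i < b → a ≤ j → j < b → i ≠ j → y i ≠ y j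

theorem Ds.sw {a b : ℕ} {y : ℕ → ℂ} (h : Ds a b y) {i : ℕ} (h1 : a ≤ i) (h2 : i + 1 < b) : Ds a b (PX.sw i y) := by
  intro j k hj hj' hk hk' hjk
  have e : ∀ j, a ≤ j → j < b → a ≤ Equiv.swap i (i + 1) j ∧ Equiv.swap i (i + 1) j < b := by
    intro j h3 h4
    rw [Equiv.swap_apply_def]
    split_ifs <;> omega
  exact h _ _ (e j hj hj').1 (e j hj hj').2 (e k hk hk').1 (e k hk hk').2
    (fun h5 => hjk ((Equiv.swap i (i + 1)).injective h5))

/-- Lagrange interpolation -/
theorem lag {s : Finset ℕ} {v : ℕ → ℂ} (hv : Set.InjOn v s) (p : Polynomial ℂ) (hp : p.natDegree < s.card) (τ : ℂ) :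
    p.eval τ = ∑ i ∈ s, p.eval (v i) * ∏ j ∈ s.erase i, ((τ - v j) / (v i - v j)) := by
  have h1 : p.degree < s.card := lt_of_le_of_lt Polynomial.degree_le_natDegree (by exact_mod_cast hp)
  have h2 := Lagrange.eq_interpolate hv h1
  conv_lhs => rw [h2]
  rw [Lagrange.interpolate_apply, Polynomial.eval_finsetSum]
  refine Finset.sum_congr rfl fun i _ => ?_
  rw [Polynomial.eval_mul, Polynomial.eval_C]
  congr 1
  unfold Lagrange.basis
  rw [Polynomial.eval_prod]
  refine Finset.prod_congr rfl fun j _ => ?_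
  unfold Lagrange.basisDivisor
  rw [Polynomial.eval_mul, Polynomial.eval_C, Polynomial.eval_sub, Polynomial.eval_X, Polynomial.eval_C]
  ring

/-- evaluation of the exchange operator -/
theorem Tp_ev (i : ℕ) (f : MP) (y : ℕ → ℂ) : (y i - y (i + 1)) * eval y (Tp i f) =
    -om * (om * y i - y (i + 1)) * eval (sw i y) f + (om ^ 2 - om) * y (i + 1) * eval y f := by
  have h := Tp_eval_mul i f y
  linear_combination h

/-! ### An up spin moving to the right -/

/-- the factor of a down spin to the right -/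
def Rr (m N : ℕ) (y : ℕ → ℂ) (t : ℂ) : ℂ := ∏ i ∈ Ico m N, (om * t - y i)

theorem Rr_bot {m N : ℕ} (h : m < N) (y : ℕ → ℂ) (t : ℂ) : Rr m N y t = (om * t - y m) * Rr (m + 1) N y t := by
  unfold Rr
  rw [Finset.prod_eq_prod_Ico_succ_bot h]

theorem Rr_sw {m N i : ℕ} (h : i + 1 < m) (y : ℕ → ℂ) (t : ℂ) : Rr m N (sw i y) t = Rr m N y t := by
  unfold Rr
  refine Finset.prod_congr rfl fun k hk => ?_
  rw [Finset.mem_Ico] at hk
  rw [sw_of_ne i y (by omega) (by omega)]

/-- term of the sum -/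
def Ta (l m N : ℕ) (q : ℂ → ℂ) (y : ℕ → ℂ) (k : ℕ) : ℂ :=
  q (y k) * ∏ j ∈ (Icc l m).erase k, ((om * y j - y m) / (y j - y k) * Rr (m + 1) N y (y j))

def Sa (l m N : ℕ) (q : ℂ → ℂ) (y : ℕ → ℂ) : ℂ := ∑ k ∈ Icc l m, Ta l m N q y k

private theorem Icc_eq {l m : ℕ} (h : l ≤ m) : Icc l m = insert m (Ico l m) := by
  ext k
  rw [Finset.mem_insert, Finset.mem_Icc, Finset.mem_Ico]
  omega

private theorem notMem_Ico (l m : ℕ) : m ∉ Ico l m := by
  rw [Finset.mem_Ico]
  omega

private theorem alg_a (x z v : ℂ) (h1 : x - v ≠ 0) (h2 : z - v ≠ 0) :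
    (x - z) * (-om) * (om * v - x) * ((om * x - z) / (x - v)) * ((om * z - z) / (z - v)) =
      -om * (om * x - z) * ((om * z - z) / (z - v) * (om * z - x)) +
        (om ^ 2 - om) * z * ((om * x - x) / (x - v) * (om * x - z)) := by
  field_simp
  ring

private theorem sum_step {S : Finset ℕ} {f f1 f2 : ℕ → ℂ} {P g g' h h' a b : ℂ}
    (hk : ∀ k ∈ S, P * f k = a * f1 k + b * f2 k) (hg : P * g = a * g') (hh : P * h = b * h') :
    P * (g + (h + ∑ k ∈ S, f k)) = a * (g' + ∑ k ∈ S, f1 k) + b * (h' + ∑ k ∈ S, f2 k) := by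
  have e : P * ∑ k ∈ S, f k = a * ∑ k ∈ S, f1 k + b * ∑ k ∈ S, f2 k := by
    rw [Finset.mul_sum, Finset.mul_sum, Finset.mul_sum, ← Finset.sum_add_distrib]
    exact Finset.sum_congr rfl hk
  linear_combination e + hg + hh

theorem step_a {l m N : ℕ} (hl : l ≤ m) (hm : m + 1 < N) (q : ℂ → ℂ) {y : ℕ → ℂ} (hy : Ds l N y) :
    ((y m - y (m + 1)) * (-om) * ∏ j ∈ Ico l m, (om * y j - y m)) * Sa l (m + 1) N q y =
      (-om * (om * y m - y (m + 1)) * Rr (m + 2) N y (y m)) * Sa l m N q (sw m y) +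
        ((om ^ 2 - om) * y (m + 1) * Rr (m + 2) N y (y (m + 1))) * Sa l m N q y := by
  have hne : ∀ i j, l ≤ i → i < N → l ≤ j → j < N → i ≠ j → y i - y j ≠ 0 := fun i j a b c d e =>
    sub_ne_zero.2 (hy i j a b c d e)
  have hxz := hne m (m + 1) hl (by omega) (by omega) hm (by omega)
  have hsw : ∀ j ∈ Ico l m, sw m y j = y j := by
    intro j hj
    rw [Finset.mem_Ico] at hj
    exact sw_of_ne m y (by omega) (by omega)
  have m1 : m + 1 ∉ insert m (Ico l m) := by
    rw [Finset.mem_insert, Finset.mem_Ico]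
    omega
  have m2 := notMem_Ico l m
  have e1 : Icc l (m + 1) = insert (m + 1) (insert m (Ico l m)) := by
    ext k
    simp only [Finset.mem_insert, Finset.mem_Icc, Finset.mem_Ico]
    omega
  unfold Sa
  rw [e1, Finset.sum_insert m1, Finset.sum_insert m2, Icc_eq hl, Finset.sum_insert m2, Finset.sum_insert m2]
  -- the products
  have pr1 : ∀ t : ℂ, ∀ S : Finset ℕ, S ⊆ Ico l m → ∏ j ∈ S, ((om * y j - y m) / (y j - t) * Rr (m + 1) N y (y j)) =
      ∏ j ∈ S, ((om * y j - y m) * (om * y j - y (m + 1)) / (y j - t) * Rr (m + 2) N y (y j)) := by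
    intro t S _
    refine Finset.prod_congr rfl fun j _ => ?_
    rw [Rr_bot (by omega : m + 1 < N)]
    ring
  have pr2 : ∀ t : ℂ, ∀ S : Finset ℕ, S ⊆ Ico l m →
      ∏ j ∈ S, ((om * sw m y j - sw m y m) / (sw m y j - t) * Rr (m + 1) N (sw m y) (sw m y j)) =
      ∏ j ∈ S, ((om * y j - y m) * (om * y j - y (m + 1)) / (y j - t) * Rr (m + 2) N y (y j)) := by
    intro t S hS
    refine Finset.prod_congr rfl fun j hj => ?_
    rw [hsw j (hS hj), sw_left, Rr_bot (by omega : m + 1 < N), sw_right, Rr_sw (by omega)]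
    ring
  have pr3 : ∀ t : ℂ, ∀ S : Finset ℕ,
      (∏ j ∈ S, ((om * y j - y (m + 1)) / (y j - t) * Rr (m + 2) N y (y j))) * ∏ j ∈ S, (om * y j - y m) =
      ∏ j ∈ S, ((om * y j - y m) * (om * y j - y (m + 1)) / (y j - t) * Rr (m + 2) N y (y j)) := by
    intro t S
    rw [← Finset.prod_mul_distrib]
    refine Finset.prod_congr rfl fun j _ => ?_
    ring
  refine sum_step ?_ ?_ ?_
  · intro k hk
    have hk' := Finset.mem_Ico.1 hk
    have hsub : (Ico l m).erase k ⊆ Ico l m := Finset.erase_subset _ _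
    have h1 := hne m k hl (by omega) hk'.1 (by omega) (by omega)
    have h2 := hne (m + 1) k (by omega) hm hk'.1 (by omega) (by omega)
    have c1 : (insert (m + 1) (insert m (Ico l m))).erase k = insert (m + 1) (insert m ((Ico l m).erase k)) := by
      ext j
      simp only [Finset.mem_insert, Finset.mem_erase, Finset.mem_Ico]
      omega
    have c2 : (insert m (Ico l m)).erase k = insert m ((Ico l m).erase k) := by
      ext j
      simp only [Finset.mem_insert, Finset.mem_erase, Finset.mem_Ico]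
      omega
    have c3 : m ∉ (Ico l m).erase k := fun h => m2 (hsub h)
    have c4 : m + 1 ∉ insert m ((Ico l m).erase k) := by
      rw [Finset.mem_insert]
      rintro (h | h)
      · omega
      · exact m1 (Finset.mem_insert_of_mem (hsub h))
    unfold Ta
    rw [e1, Icc_eq hl, c1, c2, Finset.prod_insert c4, Finset.prod_insert c3, Finset.prod_insert c3,
      Finset.prod_insert c3, hsw k hk]
    have a1 := pr1 (y k) _ hsub
    have a2 := pr2 (y k) _ hsub
    have a3 := pr3 (y k) ((Ico l m).erase k)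
    rw [a1, a2]
    have a4 : ∏ j ∈ Ico l m, (om * y j - y m) = (∏ j ∈ (Ico l m).erase k, (om * y j - y m)) * (om * y k - y m) :=
      (Finset.prod_erase_mul _ _ hk).symm
    rw [a4, sw_left, Rr_bot (by omega : m + 1 < N), Rr_bot (by omega : m + 1 < N), sw_right, Rr_sw (by omega),
      ← a3]
    have a5 := alg_a (y m) (y (m + 1)) (y k) h1 h2
    set E := ∏ j ∈ (Ico l m).erase k, ((om * y j - y (m + 1)) / (y j - y k) * Rr (m + 2) N y (y j)) with hE
    set F := ∏ j ∈ (Ico l m).erase k, (om * y j - y m) with hF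
    set R1 := Rr (m + 2) N y (y m) with hR1
    set R2 := Rr (m + 2) N y (y (m + 1)) with hR2
    have e9 : (y m - y (m + 1)) * -om * (F * (om * y k - y m)) * (q (y k) * ((om * y (m + 1) - y (m + 1)) / (y (m + 1) - y k) * R2 *
        ((om * y m - y (m + 1)) / (y m - y k) * R1 * E))) = ((y m - y (m + 1)) * -om * (om * y k - y m) *
        ((om * y m - y (m + 1)) / (y m - y k)) * ((om * y (m + 1) - y (m + 1)) / (y (m + 1) - y k))) *
        (q (y k) * F * E * R1 * R2) := by ring
    rw [e9, a5]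
    ring
  · unfold Ta
    have c1 : (Icc l (m + 1)).erase (m + 1) = insert m (Ico l m) := by
      ext j
      simp only [Finset.mem_insert, Finset.mem_erase, Finset.mem_Ico, Finset.mem_Icc]
      omega
    have c2 : (Icc l m).erase m = Ico l m := by
      ext j
      simp only [Finset.mem_erase, Finset.mem_Ico, Finset.mem_Icc]
      omega
    rw [c1, c2, Finset.prod_insert m2, pr2 _ _ (Finset.Subset.refl _), sw_left, ← pr3 (y (m + 1)) (Ico l m)]
    field_simp
  · unfold Ta
    have c1 : (Icc l (m + 1)).erase m = insert (m + 1) (Ico l m) := by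
      ext j
      simp only [Finset.mem_insert, Finset.mem_erase, Finset.mem_Ico, Finset.mem_Icc]
      omega
    have c2 : (Icc l m).erase m = Ico l m := by
      ext j
      simp only [Finset.mem_erase, Finset.mem_Ico, Finset.mem_Icc]
      omega
    have c3 : m + 1 ∉ Ico l m := by
      rw [Finset.mem_Ico]
      omega
    have h3 : y (m + 1) - y m ≠ 0 := fun h => hxz (by linear_combination -h)
    rw [c1, c2, Finset.prod_insert c3, pr1 _ _ (Finset.Subset.refl _), ← pr3 (y m) (Ico l m)]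
    field_simp
    ring

theorem up_a {l N : ℕ} (U : ℕ → MP) (Q : (ℕ → ℂ) → ℂ → ℂ) (hQ : ∀ i, l ≤ i → i + 1 < N → ∀ y, Q (sw i y) = Q y)
    (hU0 : ∀ y, eval y (U l) = Q y (y l) * AA (l + 1) N y) (hU : ∀ m, l ≤ m → U (m + 1) = Tp m (U m)) (m : ℕ) (hlm : l ≤ m) :
    m < N → ∀ y, Ds l N y → eval y (U m) = (-om) ^ (m - l) * AA l m y * AA (m + 1) N y * Sa l m N (Q y) y := by
  induction m, hlm using Nat.le_induction with
  | base =>
    intro hm y _
    rw [hU0, Nat.sub_self, pow_zero, AA_self]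
    unfold Sa Ta
    rw [Finset.Icc_self, Finset.sum_singleton, Finset.erase_singleton, Finset.prod_empty]
    ring
  | succ m hm ih =>
    intro hmN y hy
    have h1 := ih (by omega) y hy
    have h2 := ih (by omega) (sw m y) (hy.sw hm hmN)
    have h3 := Tp_ev m (U m) y
    have hxz : y m - y (m + 1) ≠ 0 := sub_ne_zero.2 (hy m (m + 1) hm (by omega) (by omega) hmN (by omega))
    rw [hU m hm]
    refine mul_left_cancel₀ hxz ?_
    rw [h3, h1, h2, hQ m hm hmN, AA_sw (Or.inr (le_refl m))]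
    have h4 : AA (m + 1) N y = Rr (m + 2) N y (y (m + 1)) * AA (m + 2) N y := AA_bot hmN y
    have h5 : AA (m + 1) N (sw m y) = Rr (m + 2) N y (y m) * AA (m + 2) N y := by
      rw [AA_bot hmN, sw_right, AA_sw (Or.inl (by omega))]
      congr 1
      exact Rr_sw (by omega : m + 1 < m + 2) y (y m)
    have h6 := step_a hm hmN (Q y) hy
    rw [h4, h5, AA_top hm]
    have h7 : m + 1 - l = m - l + 1 := by omega
    rw [h7, pow_succ]
    linear_combination (-((-om) ^ (m - l) * AA l m y * AA (m + 2) N y)) * h6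

/-- the up spin at the right end -/
theorem up_a_end {l N : ℕ} (hl : l < N) (U : ℕ → MP) (Q : (ℕ → ℂ) → Polynomial ℂ)
    (hQ : ∀ i, l ≤ i → i + 1 < N → ∀ y, Q (sw i y) = Q y)
    (hU0 : ∀ y, eval y (U l) = (Q y).eval (y l) * AA (l + 1) N y) (hU : ∀ m, l ≤ m → U (m + 1) = Tp m (U m))
    (y : ℕ → ℂ) (hy : Ds l N y) (hd : (Q y).natDegree < N - l) :
    eval y (U (N - 1)) = (-om ^ 2) ^ (N - 1 - l) * AA l (N - 1) y * (Q y).eval (om ^ 2 * y (N - 1)) := by
  have h1 := up_a U (fun y t => (Q y).eval t) (fun i h1 h2 y => by rw [hQ i h1 h2]) hU0 hU (N - 1) (by omega) (by omega) y hy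
  have e1 : N - 1 + 1 = N := by omega
  rw [h1, e1, AA_self]
  have h2 : Set.InjOn y (Icc l (N - 1) : Finset ℕ) := by
    intro i hi j hj hij
    rw [Finset.coe_Icc, Set.mem_Icc] at hi hj
    by_contra h
    exact hy i j hi.1 (by omega) hj.1 (by omega) h hij
  have h3 : (Q y).natDegree < (Icc l (N - 1)).card := by
    rw [Nat.card_Icc]
    omega
  have h4 := lag h2 (Q y) h3 (om ^ 2 * y (N - 1))
  rw [h4]
  unfold Sa Ta
  rw [e1]
  have h5 : ∀ k ∈ Icc l (N - 1), (Q y).eval (y k) * ∏ j ∈ (Icc l (N - 1)).erase k,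
      ((om * y j - y (N - 1)) / (y j - y k) * Rr N N y (y j)) =
      om ^ (N - 1 - l) * ((Q y).eval (y k) * ∏ j ∈ (Icc l (N - 1)).erase k, ((om ^ 2 * y (N - 1) - y j) / (y k - y j))) := by
    intro k hk
    have h6 : ((Icc l (N - 1)).erase k).card = N - 1 - l := by
      rw [Finset.card_erase_of_mem hk, Nat.card_Icc]
      omega
    have h7 : om ^ (N - 1 - l) = ∏ j ∈ (Icc l (N - 1)).erase k, om := by
      rw [Finset.prod_const, h6]
    rw [h7, mul_left_comm, ← Finset.prod_mul_distrib]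
    congr 1
    refine Finset.prod_congr rfl fun j hj => ?_
    rw [Finset.mem_erase, Finset.mem_Icc] at hj
    rw [Finset.mem_Icc] at hk
    have h8 : y j - y k ≠ 0 := sub_ne_zero.2 (hy j k hj.2.1 (by omega) hk.1 (by omega) hj.1)
    have h9 : y k - y j ≠ 0 := fun h => h8 (by linear_combination -h)
    unfold Rr
    rw [Finset.Ico_self, Finset.prod_empty, mul_one, mul_div_assoc', div_eq_div_iff h8 h9]
    linear_combination (y k - y j) * y (N - 1) * om_cube
  rw [Finset.sum_congr rfl h5, ← Finset.mul_sum]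
  have h6 : (-om ^ 2) ^ (N - 1 - l) = (-om) ^ (N - 1 - l) * om ^ (N - 1 - l) := by
    rw [← mul_pow]
    congr 1
    ring
  rw [h6]
  ring

/-! ### A down spin moving to the left -/

/-- the factor of the up spins to the left -/
def Pl (m : ℕ) (y : ℕ → ℂ) (t : ℂ) : ℂ := ∏ i ∈ Ico 0 m, (om * y i - t)

theorem Pl_top (m : ℕ) (y : ℕ → ℂ) (t : ℂ) : Pl (m + 1) y t = Pl m y t * (om * y m - t) := by
  unfold Pl
  rw [Finset.prod_Ico_succ_top (Nat.zero_le m)]

theorem Pl_sw {m i : ℕ} (h : m ≤ i) (y : ℕ → ℂ) (t : ℂ) : Pl m (sw i y) t = Pl m y t := by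
  unfold Pl
  refine Finset.prod_congr rfl fun k hk => ?_
  rw [Finset.mem_Ico] at hk
  rw [sw_of_ne i y (by omega) (by omega)]

/-- term of the sum -/
def Tb (m n : ℕ) (q : ℂ → ℂ) (y : ℕ → ℂ) (k : ℕ) : ℂ :=
  q (y k) * ∏ j ∈ (Icc m n).erase k, ((om * y m - y j) / (y k - y j) * Pl m y (y j))

def Sb (m n : ℕ) (q : ℂ → ℂ) (y : ℕ → ℂ) : ℂ := ∑ k ∈ Icc m n, Tb m n q y k

private theorem alg_b (x z v : ℂ) (h1 : v - x ≠ 0) (h2 : v - z ≠ 0) :
    (x - z) * (-om) * (om * z - v) * ((om * x - x) / (v - x)) * ((om * x - z) / (v - z)) =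
      -om * (om * x - z) * ((om * x - x) / (v - x) * (om * z - x)) +
        (om ^ 2 - om) * x * ((om * z - z) / (v - z) * (om * x - z)) := by
  field_simp
  ring

theorem step_b {m n N : ℕ} (hm : m + 1 ≤ n) (hn : n < N) (q : ℂ → ℂ) {y : ℕ → ℂ} (hy : Ds 0 N y) :
    ((y m - y (m + 1)) * (-om) * ∏ j ∈ Icc (m + 2) n, (om * y (m + 1) - y j)) * Sb m n q y =
      (-om * (om * y m - y (m + 1)) * Pl m y (y (m + 1))) * Sb (m + 1) n q (sw m y) +
        ((om ^ 2 - om) * y m * Pl m y (y m)) * Sb (m + 1) n q y := by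
  have hne : ∀ i j, i < N → j < N → i ≠ j → y i - y j ≠ 0 := fun i j b d e =>
    sub_ne_zero.2 (hy i j (Nat.zero_le _) b (Nat.zero_le _) d e)
  have hxz := hne m (m + 1) (by omega) (by omega) (by omega)
  have hsw : ∀ j ∈ Icc (m + 2) n, sw m y j = y j := by
    intro j hj
    rw [Finset.mem_Icc] at hj
    exact sw_of_ne m y (by omega) (by omega)
  have m1 : m ∉ insert (m + 1) (Icc (m + 2) n) := by
    rw [Finset.mem_insert, Finset.mem_Icc]
    omega
  have m2 : m + 1 ∉ Icc (m + 2) n := by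
    rw [Finset.mem_Icc]
    omega
  have e1 : Icc m n = insert m (insert (m + 1) (Icc (m + 2) n)) := by
    ext k
    simp only [Finset.mem_insert, Finset.mem_Icc]
    omega
  have e2 : Icc (m + 1) n = insert (m + 1) (Icc (m + 2) n) := by
    ext k
    simp only [Finset.mem_insert, Finset.mem_Icc]
    omega
  unfold Sb
  rw [e1, Finset.sum_insert m1, Finset.sum_insert m2, e2, Finset.sum_insert m2, Finset.sum_insert m2]
  have pr1 : ∀ t : ℂ, ∀ S : Finset ℕ, ∏ j ∈ S, ((om * y (m + 1) - y j) / (t - y j) * Pl (m + 1) y (y j)) =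
      ∏ j ∈ S, ((om * y m - y j) * (om * y (m + 1) - y j) / (t - y j) * Pl m y (y j)) := by
    intro t S
    refine Finset.prod_congr rfl fun j _ => ?_
    rw [Pl_top]
    ring
  have pr2 : ∀ t : ℂ, ∀ S : Finset ℕ, S ⊆ Icc (m + 2) n →
      ∏ j ∈ S, ((om * sw m y (m + 1) - sw m y j) / (t - sw m y j) * Pl (m + 1) (sw m y) (sw m y j)) =
      ∏ j ∈ S, ((om * y m - y j) * (om * y (m + 1) - y j) / (t - y j) * Pl m y (y j)) := by
    intro t S hS
    refine Finset.prod_congr rfl fun j hj => ?_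
    rw [hsw j (hS hj), sw_right, Pl_top, sw_left, Pl_sw (le_refl m)]
    ring
  have pr3 : ∀ t : ℂ, ∀ S : Finset ℕ,
      (∏ j ∈ S, ((om * y m - y j) / (t - y j) * Pl m y (y j))) * ∏ j ∈ S, (om * y (m + 1) - y j) =
      ∏ j ∈ S, ((om * y m - y j) * (om * y (m + 1) - y j) / (t - y j) * Pl m y (y j)) := by
    intro t S
    rw [← Finset.prod_mul_distrib]
    refine Finset.prod_congr rfl fun j _ => ?_
    ring
  refine sum_step ?_ ?_ ?_
  · intro k hk
    have hk' := Finset.mem_Icc.1 hk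
    have hsub : (Icc (m + 2) n).erase k ⊆ Icc (m + 2) n := Finset.erase_subset _ _
    have h1 := hne k m (by omega) (by omega) (by omega)
    have h2 := hne k (m + 1) (by omega) (by omega) (by omega)
    have c1 : (insert m (insert (m + 1) (Icc (m + 2) n))).erase k = insert m (insert (m + 1) ((Icc (m + 2) n).erase k)) := by
      ext j
      simp only [Finset.mem_insert, Finset.mem_erase, Finset.mem_Icc]
      omega
    have c2 : (insert (m + 1) (Icc (m + 2) n)).erase k = insert (m + 1) ((Icc (m + 2) n).erase k) := by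
      ext j
      simp only [Finset.mem_insert, Finset.mem_erase, Finset.mem_Icc]
      omega
    have c3 : m + 1 ∉ (Icc (m + 2) n).erase k := fun h => m2 (hsub h)
    have c4 : m ∉ insert (m + 1) ((Icc (m + 2) n).erase k) := by
      rw [Finset.mem_insert]
      rintro (h | h)
      · omega
      · exact m1 (Finset.mem_insert_of_mem (hsub h))
    unfold Tb
    rw [e1, e2, c1, c2, Finset.prod_insert c4, Finset.prod_insert c3, Finset.prod_insert c3,
      Finset.prod_insert c3, hsw k hk]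
    have a1 := pr1 (y k) ((Icc (m + 2) n).erase k)
    have a2 := pr2 (y k) _ hsub
    have a3 := pr3 (y k) ((Icc (m + 2) n).erase k)
    rw [a1, a2]
    have a4 : ∏ j ∈ Icc (m + 2) n, (om * y (m + 1) - y j) =
        (∏ j ∈ (Icc (m + 2) n).erase k, (om * y (m + 1) - y j)) * (om * y (m + 1) - y k) :=
      (Finset.prod_erase_mul _ _ hk).symm
    rw [a4, sw_right, Pl_top, Pl_top, sw_left, Pl_sw (le_refl m), ← a3]
    have a5 := alg_b (y m) (y (m + 1)) (y k) h1 h2
    set E := ∏ j ∈ (Icc (m + 2) n).erase k, ((om * y m - y j) / (y k - y j) * Pl m y (y j)) with hE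
    set F := ∏ j ∈ (Icc (m + 2) n).erase k, (om * y (m + 1) - y j) with hF
    set R1 := Pl m y (y m) with hR1
    set R2 := Pl m y (y (m + 1)) with hR2
    have e9 : (y m - y (m + 1)) * -om * (F * (om * y (m + 1) - y k)) * (q (y k) * ((om * y m - y m) / (y k - y m) * R1 *
        ((om * y m - y (m + 1)) / (y k - y (m + 1)) * R2 * E))) = ((y m - y (m + 1)) * -om * (om * y (m + 1) - y k) *
        ((om * y m - y m) / (y k - y m)) * ((om * y m - y (m + 1)) / (y k - y (m + 1)))) *
        (q (y k) * F * E * R1 * R2) := by ring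
    rw [e9, a5]
    ring
  · unfold Tb
    have c1 : (Icc m n).erase m = insert (m + 1) (Icc (m + 2) n) := by
      ext j
      simp only [Finset.mem_insert, Finset.mem_erase, Finset.mem_Icc]
      omega
    have c2 : (Icc (m + 1) n).erase (m + 1) = Icc (m + 2) n := by
      ext j
      simp only [Finset.mem_erase, Finset.mem_Icc]
      omega
    rw [c1, c2, Finset.prod_insert m2, pr2 _ _ (Finset.Subset.refl _), sw_right, ← pr3 (y m) (Icc (m + 2) n)]
    field_simp
  · unfold Tb
    have c1 : (Icc m n).erase (m + 1) = insert m (Icc (m + 2) n) := by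
      ext j
      simp only [Finset.mem_insert, Finset.mem_erase, Finset.mem_Icc]
      omega
    have c2 : (Icc (m + 1) n).erase (m + 1) = Icc (m + 2) n := by
      ext j
      simp only [Finset.mem_erase, Finset.mem_Icc]
      omega
    have c3 : m ∉ Icc (m + 2) n := by
      rw [Finset.mem_Icc]
      omega
    have h3 : y (m + 1) - y m ≠ 0 := fun h => hxz (by linear_combination -h)
    rw [c1, c2, Finset.prod_insert c3, pr1 _ _, ← pr3 (y (m + 1)) (Icc (m + 2) n)]
    field_simp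
    ring

theorem dn_b {n N : ℕ} (hn : n < N) (D : ℕ → MP) (Q : (ℕ → ℂ) → ℂ → ℂ) (hQ : ∀ i, i < n → ∀ y, Q (sw i y) = Q y)
    (hD0 : ∀ y, eval y (D n) = Q y (y n) * AA 0 n y) (hD : ∀ m, m < n → D m = Tp m (D (m + 1))) (j : ℕ) (hj : j ≤ n) :
    ∀ y, NZ N y → Ds 0 N y → y (n - j) * eval y (D (n - j)) =
      (-om) ^ j * AA 0 (n - j) y * AA (n - j + 1) (n + 1) y * Sb (n - j) n (fun t => t * Q y t) y := by
  induction j with
  | zero =>
    intro y _ _
    rw [Nat.sub_zero, hD0, pow_zero, AA_self]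
    unfold Sb Tb
    rw [Finset.Icc_self, Finset.sum_singleton, Finset.erase_singleton, Finset.prod_empty]
    ring
  | succ j ih =>
    intro y hz hy
    obtain ⟨m, hm⟩ : ∃ m, n - (j + 1) = m := ⟨_, rfl⟩
    have hm1 : n - j = m + 1 := by omega
    have hnz' : NZ N (sw m y) := nz_sw hz (by omega)
    have h1 := ih (by omega) y hz hy
    have h2 := ih (by omega) (sw m y) hnz' (hy.sw (Nat.zero_le m) (by omega))
    rw [hm1] at h1 h2
    rw [hm]
    have h3 := Tp_ev m (D (m + 1)) y
    have hxz : y m - y (m + 1) ≠ 0 := sub_ne_zero.2 (hy m (m + 1) (by omega) (by omega) (by omega) (by omega) (by omega))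
    rw [hD m (by omega)]
    rw [hQ m (by omega), AA_sw (a := m + 1 + 1) (b := n + 1) (i := m) (Or.inl (by omega)), sw_right] at h2
    have h4 : AA 0 (m + 1) y = AA 0 m y * Pl m y (y m) := AA_top (Nat.zero_le m) y
    have h5 : AA 0 (m + 1) (sw m y) = AA 0 m y * Pl m y (y (m + 1)) := by
      rw [AA_top (Nat.zero_le m), sw_left, AA_sw (Or.inr (le_refl m))]
      congr 1
      exact Pl_sw (le_refl m) y (y (m + 1))
    have h6 := step_b (by omega : m + 1 ≤ n) hn (fun t => t * Q y t) hy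
    have h7 : AA (m + 1) (n + 1) y = (∏ j ∈ Icc (m + 2) n, (om * y (m + 1) - y j)) * AA (m + 2) (n + 1) y := by
      rw [AA_bot (by omega : m + 1 < n + 1)]
      congr 1
    rw [h4] at h1
    rw [h5] at h2
    rw [h7, pow_succ]
    have hz1 := hz (m + 1) (by omega)
    refine mul_left_cancel₀ hxz ?_
    linear_combination (y m) * h3 - om * (om * y m - y (m + 1)) * h2 + (om ^ 2 - om) * (y m) * h1 +
      (-((-om) ^ j * AA 0 m y * AA (m + 2) (n + 1) y)) * h6

/-- the down spin at the left end -/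
theorem dn_b_end {n N : ℕ} (hn : n < N) (D : ℕ → MP) (Q : (ℕ → ℂ) → Polynomial ℂ)
    (hQ : ∀ i, i < n → ∀ y, Q (sw i y) = Q y)
    (hD0 : ∀ y, eval y (D n) = (Q y).eval (y n) * AA 0 n y) (hD : ∀ m, m < n → D m = Tp m (D (m + 1)))
    (y : ℕ → ℂ) (hz : NZ N y) (hy : Ds 0 N y) (hd : (Q y).natDegree < n) :
    eval y (D 0) = (-om) ^ n * om * AA 1 (n + 1) y * (Q y).eval (om * y 0) := by
  have h1 := dn_b hn D (fun y t => (Q y).eval t) (fun i h1 y => by rw [hQ i h1]) hD0 hD n (le_refl n) y hz hy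
  rw [Nat.sub_self, AA_self, Nat.zero_add] at h1
  have h2 : Set.InjOn y (Icc 0 n : Finset ℕ) := by
    intro i hi j hj hij
    rw [Finset.coe_Icc, Set.mem_Icc] at hi hj
    by_contra h
    exact hy i j hi.1 (by omega) hj.1 (by omega) h hij
  have h3 : (Polynomial.X * Q y).natDegree < (Icc 0 n).card := by
    rw [Nat.card_Icc]
    have := Polynomial.natDegree_mul_le (p := Polynomial.X) (q := Q y)
    rw [Polynomial.natDegree_X] at this
    omega
  have h4 := lag h2 (Polynomial.X * Q y) h3 (om * y 0)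
  rw [Polynomial.eval_mul, Polynomial.eval_X] at h4
  have h5 : Sb 0 n (fun t => t * (Q y).eval t) y = om * y 0 * (Q y).eval (om * y 0) := by
    rw [h4]
    unfold Sb Tb
    refine Finset.sum_congr rfl fun k _ => ?_
    rw [Polynomial.eval_mul, Polynomial.eval_X]
    congr 1
    refine Finset.prod_congr rfl fun j _ => ?_
    unfold Pl
    rw [Finset.Ico_self, Finset.prod_empty, mul_one]
  rw [h5] at h1
  refine mul_left_cancel₀ (hz 0 (by omega)) ?_
  rw [h1]
  ring

end CV
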