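import Pool.Agent.Lib.MP_216314_pr.CV.Sys
import Pool.Agent.Lib.MP_216314_pr.X.PairA

/-!
# Total mass: the pairing with a vector all of whose full contractions are equal
-/

set_option autoImplicit false

noncomputable section

namespace CW

open Finset PX CF

/-- the pairing with `U` as a functional -/
def BFl (N n : ℕ) (U : Vec) : Vec →ₗ[ℂ] ℂ where
  toFun v := BF N n (fun _ => 1) v U
  map_add' v w := BF_add_left N n _ v w U
  map_smul' c v := by rw [BF_smul_left]; rfl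

theorem BFl_apply (N n : ℕ) (U v : Vec) : BFl N n U v = ∑ a ∈ cfn N n, v a * U a := by
  show BF N n (fun _ => 1) v U = _
  unfold BF
  exact Finset.sum_congr rfl fun a _ => by rw [one_mul]

theorem BF_symm (N n : ℕ) (v w : Vec) : BF N n (fun _ => 1) v w = BF N n (fun _ => 1) w v := by
  unfold BF
  exact Finset.sum_congr rfl fun a _ => by ring

theorem BFl_Ins {N n i : ℕ} (hi : i ≤ N) (U v : Vec) :
    BFl (N + 2) (n + 1) U (Ins i v) = -om ^ 2 * BFl N n (Con i U) v := by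
  show BF (N + 2) (n + 1) (fun _ => 1) (Ins i v) U = -om ^ 2 * BF N n (fun _ => 1) v (Con i U)
  rw [BF_symm, BF_Ins hi (fun _ => 1) (fun _ => 1) (fun _ => rfl) (fun _ => rfl), BF_symm]

theorem BFl_ee {N n i : ℕ} (hi : i + 1 < N) (U v : Vec) : BFl N n U (ee i v) = BFl N n (ee i U) v := by
  show BF N n (fun _ => 1) (ee i v) U = BF N n (fun _ => 1) v (ee i U)
  exact BF_ee hi (fun _ => 1) (fun _ => rfl) v U

theorem BFl_fs (N n : ℕ) (U : Vec) : Fs (BFl N n U) :=
  ⟨cfn N n, U, fun v => by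
    rw [BFl_apply]
    exact Finset.sum_congr rfl fun a _ => mul_comm _ _⟩

/-- the system of the normalised pairings with vectors of mass `x` -/
def Pp (x : ℂ) (N : ℕ) (G : Vec →ₗ[ℂ] ℂ) : Prop :=
  ∃ (m : ℕ) (U : Vec), N = 2 * m ∧ Ms ∅ (2 * m) x U ∧ G = (-om) ^ m • BFl (2 * m) m U

theorem Pp.cl (x : ℂ) : Cl (Pp x) := by
  constructor
  · rintro N _ ⟨m, U, hm, hU, rfl⟩ i hi
    obtain ⟨m, rfl⟩ : ∃ k, m = k + 1 := ⟨m - 1, by omega⟩
    obtain rfl : N = 2 * m := by omega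
    refine ⟨m, Con i U, rfl, ?_, ?_⟩
    · exact Ms.con (N := 2 * m) hU hi
    · ext v
      rw [LinearMap.comp_apply, LinearMap.smul_apply, LinearMap.smul_apply, smul_eq_mul, smul_eq_mul]
      show (-om) ^ (m + 1) * BFl (2 * m + 2) (m + 1) U (Ins i v) = _
      rw [BFl_Ins hi, pow_succ]
      linear_combination ((-om) ^ m * BFl (2 * m) m (Con i U) v) * om_cube
  · rintro N _ ⟨m, U, rfl, hU, rfl⟩ i hi
    refine ⟨m, ee i U, rfl, hU.ee hi, ?_⟩
    ext v
    rw [LinearMap.comp_apply, LinearMap.smul_apply, LinearMap.smul_apply, BFl_ee hi]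
  · rintro N _ ⟨m, U, rfl, hU, rfl⟩
    exact (BFl_fs _ _ _).smul _

/-- total mass -/
theorem TM {S : Multiset ℂ → ℂ} (hS : SC S) (m : ℕ) {y : ℕ → ℂ} (hy : Gen (2 * m) y) {x : ℂ} {U : Vec}
    (hU : Ms ∅ (2 * m) x U) :
    ∑ a ∈ cfn (2 * m) m, gv (2 * m) y a * U a = (-om ^ 2) ^ m * (Sv S (2 * m) y * x) := by
  have h := gv_cl hS (Pp.cl x) x (fun z f hf => by
    obtain ⟨k, V, hk, hV, rfl⟩ := hf
    obtain rfl : k = 0 := by omega
    rw [LinearMap.smul_apply, BFl_apply]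
    have h1 : cfn (2 * 0) 0 = {∅} := by
      ext s
      rw [mem_cfn, Finset.mem_singleton]
      constructor
      · rintro ⟨-, h2⟩
        exact Finset.card_eq_zero.1 h2
      · rintro rfl
        exact ⟨Finset.empty_subset _, rfl⟩
    rw [h1, Finset.sum_singleton, gv_zero]
    have h2 := hV _ Wd.zero
    rw [ev_apply] at h2
    rw [h2, pow_zero, one_mul, smul_eq_mul, one_mul])
    (fun z f hf => by
      obtain ⟨k, V, hk, hV, rfl⟩ := hf
      omega) (2 * m) y hy _ ⟨m, U, rfl, hU, rfl⟩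
  have h1 : sgn (2 * m) = 1 := by
    unfold sgn
    have : 2 * m % 2 = 0 := by omega
    rw [this, mul_zero, pow_zero]
  rw [LinearMap.smul_apply, BFl_apply, h1, one_mul, smul_eq_mul] at h
  rw [← h, ← mul_assoc, ← mul_pow]
  have h2 : -om ^ 2 * -om = 1 := by linear_combination om_cube
  rw [h2, one_pow, one_mul]

end CW
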