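import Pool.Agent.Lib.MP_216314_pr.CV.Tn
import Pool.Agent.Lib.MP_216314_pr.CV.Tm

/-!
# Double sums, and full contractions of a vector without up spin at the last site
-/

set_option autoImplicit false

noncomputable section

namespace CW

open Finset PX CF

theorem inter_union_su {k : ℕ} {s t : Finset ℕ} (hs : s ⊆ range k) : (s ∪ su k t) ∩ range k = s := by
  ext x
  rw [Finset.mem_inter, Finset.mem_union, mem_su', Finset.mem_range]
  constructor
  · rintro ⟨h | h, h2⟩
    · exact h
    · omega
  · intro h
    exact ⟨Or.inl h, Finset.mem_range.1 (hs h)⟩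

theorem dn_union_su {k : ℕ} {s t : Finset ℕ} (hs : s ⊆ range k) : dn k (s ∪ su k t) = t := by
  ext x
  rw [mem_dn, Finset.mem_union, add_mem_su]
  constructor
  · rintro (h | h)
    · have := Finset.mem_range.1 (hs h)
      omega
    · exact h
  · exact fun h => Or.inr h

theorem union_inter_dn (k : ℕ) (a : Finset ℕ) : (a ∩ range k) ∪ su k (dn k a) = a := by
  ext x
  rw [Finset.mem_union, Finset.mem_inter, mem_su', mem_dn, Finset.mem_range]
  constructor
  · rintro (h | ⟨h1, h2⟩)
    · exact h.1
    · rw [Nat.sub_add_cancel h1] at h2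
      exact h2
  · intro h
    rcases Nat.lt_or_ge x k with h1 | h1
    · exact Or.inl ⟨h, h1⟩
    · refine Or.inr ⟨h1, ?_⟩
      rw [Nat.sub_add_cancel h1]
      exact h

theorem card_split (k : ℕ) (a : Finset ℕ) : a.card = (a ∩ range k).card + (dn k a).card := by
  conv_lhs => rw [← union_inter_dn k a]
  rw [Finset.card_union_of_disjoint, card_su]
  rw [Finset.disjoint_left]
  intro x hx hx'
  rw [Finset.mem_inter, Finset.mem_range] at hx
  rw [mem_su'] at hx'
  omega

/-- the double sum as a pairing with a tensor product -/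
theorem tn_sum {k m p q : ℕ} (V w : Vec) {u : Vec} (hu : Wt k p u) :
    ∑ a ∈ cfn (k + m) (p + q), V a * tn k w u a =
      ∑ s ∈ cfn k p, ∑ t ∈ cfn m q, V (s ∪ su k t) * u s * w t := by
  rw [← Finset.sum_product']
  have h1 : ∑ a ∈ cfn (k + m) (p + q), V a * tn k w u a =
      ∑ a ∈ (cfn (k + m) (p + q)).filter (fun a => a ∩ range k ∈ cfn k p), V a * tn k w u a := by
    rw [Finset.sum_filter]
    refine Finset.sum_congr rfl fun a _ => ?_
    by_cases h : a ∩ range k ∈ cfn k p
    · rw [if_pos h]
    · rw [if_neg h, tn_apply, hu _ h, zero_mul, mul_zero]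
  rw [h1]
  refine Finset.sum_nbij' (fun a => (a ∩ range k, dn k a)) (fun st => st.1 ∪ su k st.2) ?_ ?_ ?_ ?_ ?_
  · intro a ha
    rw [Finset.mem_filter] at ha
    rw [Finset.mem_product]
    refine ⟨ha.2, ?_⟩
    have h2 := mem_cfn.1 ha.1
    have h3 := (mem_cfn.1 ha.2).2
    rw [mem_cfn]
    constructor
    · intro x hx
      rw [mem_dn] at hx
      have := Finset.mem_range.1 (h2.1 hx)
      rw [Finset.mem_range]
      omega
    · have h4 := card_split k a
      show (dn k a).card = q
      omega
  · rintro ⟨s, t⟩ hst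
    rw [Finset.mem_product] at hst
    have h2 := mem_cfn.1 hst.1
    have h3 := mem_cfn.1 hst.2
    rw [Finset.mem_filter]
    have e := inter_union_su (t := t) h2.1
    constructor
    · rw [mem_cfn]
      constructor
      · intro x hx
        rw [Finset.mem_union, mem_su'] at hx
        rw [Finset.mem_range]
        rcases hx with hx | hx
        · have := Finset.mem_range.1 (h2.1 hx)
          omega
        · have := Finset.mem_range.1 (h3.1 hx.2)
          omega
      · rw [card_split k, e, dn_union_su h2.1]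
        show s.card + t.card = p + q
        rw [h2.2, h3.2]
    · rw [e]
      exact hst.1
  · intro a _
    exact union_inter_dn k a
  · rintro ⟨s, t⟩ hst
    rw [Finset.mem_product] at hst
    have h2 := mem_cfn.1 hst.1
    show ((s ∪ su k t) ∩ range k, dn k (s ∪ su k t)) = (s, t)
    rw [inter_union_su h2.1, dn_union_su h2.1]
  · intro a _
    rw [tn_apply]
    show V a * (u (a ∩ range k) * w (dn k a)) = V ((a ∩ range k) ∪ su k (dn k a)) * u (a ∩ range k) * w (dn k a)
    rw [union_inter_dn]
    ring

/-- a down spin on the right is contracted with an up spin -/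
theorem rD_Wd {N : ℕ} {f : Vec →ₗ[ℂ] ℂ} (hf : Wd {0} N f) (hN : Odd N) :
    ∃ g, Wd ∅ (N + 1) g ∧ ∀ v : Vec, (∀ s, N ∈ s → v s = 0) → g v = -om * f v := by
  induction hf with
  | zero => exact absurd hN (by decide)
  | one =>
    refine ⟨_, Wd.step 0 (Nat.le_refl 0) Wd.zero, fun v hv => ?_⟩
    rw [LinearMap.comp_apply, ev_apply, ev_apply, Con_apply, hv _ (Finset.mem_insert_self _ _)]
    have h1 : insert 0 (mk 0 (∅ : Finset ℕ)) = {0} := by
      ext x
      rw [Finset.mem_insert, PX.mem_mk, Finset.mem_singleton]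
      constructor
      · rintro (h | h | h)
        · exact h
        · omega
        · exact absurd h.2 (Finset.notMem_empty _)
      · exact fun h => Or.inl h
    rw [h1]
    ring
  | step i hi hf ih =>
    rename_i M f'
    have hM : Odd M := by
      rw [Nat.odd_iff] at hN ⊢
      omega
    obtain ⟨g, hg, h⟩ := ih hM
    refine ⟨g.comp (Con i), Wd.step i (by omega) hg, fun v hv => ?_⟩
    rw [LinearMap.comp_apply, LinearMap.comp_apply]
    apply h
    intro s hs
    rw [Con_apply]
    have h1 : M + 2 ∈ mk i s := by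
      rw [PX.mem_mk]
      exact Or.inr ⟨by omega, hs⟩
    rw [hv _ (Finset.mem_insert_of_mem h1), hv _ (Finset.mem_insert_of_mem h1)]
    ring

/-- mass of a vector without up spin at the last site -/
theorem Ms.last {N : ℕ} (hN : Odd N) {μ : ℂ} {v : Vec} (h : Ms ∅ (N + 1) μ v) (hv : ∀ s, N ∈ s → v s = 0) :
    Ms {0} N (-om ^ 2 * μ) v := by
  intro f hf
  obtain ⟨g, hg, hgv⟩ := rD_Wd hf hN
  rw [← h g hg, hgv v hv]
  linear_combination (-(f v)) * om_cube

end CW
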