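import Pool.Agent.Lib.MP_216314_pr.CV.Def
import Pool.Agent.Lib.MP_216314_pr.CF.SpC
import Pool.Agent.Lib.MP_216314_pr.X.PairR

/-!
# The pairing of the upper strip with the lower left strip and the cylinder

`V c n y`: `c` arguments of the left strip, `2 n` arguments of the cylinder. Dependence on the arguments, Laurent polynomial,
continuity, symmetries.
-/

set_option autoImplicit false

noncomputable section

namespace CV

open Finset PX CF Filter Topology

/-- the pairing of the vector of the upper strip with the vectors of the lower left strip and of the cylinder -/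
def V (c n : ℕ) (y : ℕ → ℂ) : ℂ := ∑ s ∈ cfn c (c / 2), ∑ t ∈ cfn (2 * n) n,
  gv (c + 2 * n) y (s ∪ su c t) * gv c (ivs y) s * Ht n (ivs (sh c y)) t

theorem V_PG (c n : ℕ) (y : ℕ → ℂ) : V c n y =
    PG c (2 * n) (c / 2) n c ∅ (gv (c + 2 * n) y) (gv c (ivs y)) (Ht n (ivs (sh c y))) := by
  unfold V PG
  refine Finset.sum_congr rfl fun s _ => Finset.sum_congr rfl fun t _ => ?_
  rw [Finset.empty_union]

theorem V_loc (c n : ℕ) {y y' : ℕ → ℂ} (h : ∀ i, i < c + 2 * n → y i = y' i) : V c n y = V c n y' := by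
  unfold V
  have h1 : gv (c + 2 * n) y = gv (c + 2 * n) y' := gv_congr h
  have h2 : gv c (ivs y) = gv c (ivs y') := gv_congr fun i hi => by
    unfold ivs
    rw [h i (by omega)]
  have h3 : Ht n (ivs (sh c y)) = Ht n (ivs (sh c y')) := Ht_congr n fun i hi => by
    unfold ivs sh
    rw [h (i + c) (by omega)]
  rw [h1, h2, h3]

private theorem V_laui {M N : ℕ} {f : (ℕ → ℂ) → ℂ} (hf : Lau N f)
    (hloc : ∀ y y' : ℕ → ℂ, (∀ k, k < N → y k = y' k) → f y = f y') (φ : ℕ → ℕ) (hφ : ∀ i, i < N → φ i < M) :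
    Lau M (fun y => f (fun i => (y (φ i))⁻¹)) := by
  have h1 : Lau M (fun y => f (fun i => if i < N then (y (φ i))⁻¹ else y i)) := by
    refine Lau.comp hf (fun i y => if i < N then (y (φ i))⁻¹ else y i) ?_ ?_ ?_
    · intro i
      by_cases hi : i < N
      · simp only [if_pos hi]
        exact Lau.coord_inv (hφ i hi)
      · simp only [if_neg hi]
        exact Lau.coord _ _
    · intro i hi
      simp only [if_pos hi, inv_inv]
      exact Lau.coord _ _
    · intro i hi y hy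
      simp only [if_pos hi]
      exact inv_ne_zero (hy _ (hφ i hi))
  refine h1.congr fun y _ => ?_
  exact hloc _ _ fun i hi => if_pos hi

theorem V_lau (c n : ℕ) : Lau (c + 2 * n) (V c n) := by
  unfold V
  refine Lau.sum _ fun s _ => Lau.sum _ fun t _ => ((gv_lau (c + 2 * n) _).mul ?_).mul ?_
  · refine V_laui (f := fun y => gv c y s) (gv_lau c s) (fun y y' h => ?_) (fun i => i)
      (fun i hi => by show i < c + 2 * n; omega)
    show gv c y s = gv c y' s
    rw [gv_congr h]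
  · refine V_laui (f := fun y => Ht n y t) (Ht_lau n t) (fun y y' h => ?_) (fun i => i + c)
      (fun i hi => by show i + c < c + 2 * n; omega)
    show Ht n y t = Ht n y' t
    rw [Ht_congr n h]

theorem H_tendsto {ι : Type*} {l : Filter ι} (n : ℕ) (s : Finset ℕ) {y : ι → ℕ → ℂ} {y0 : ℕ → ℂ}
    (h : ∀ j, Tendsto (fun i => y i j) l (𝓝 (y0 j))) :
    Tendsto (fun i => H n (y i) s) l (𝓝 (H n y0 s)) := by
  unfold H gb
  by_cases hs : s ∈ cfn (2 * n) n
  · simp only [if_pos hs]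
    have h1 : Continuous fun z : ℕ → ℂ => MvPolynomial.eval z (GB (H0 n) s) := MvPolynomial.continuous_eval _
    exact (h1.tendsto y0).comp (tendsto_pi_nhds.2 h)
  · simp only [if_neg hs]
    exact tendsto_const_nhds

theorem Ht_tendsto {ι : Type*} {l : Filter ι} (n : ℕ) (s : Finset ℕ) {y : ι → ℕ → ℂ} {y0 : ℕ → ℂ}
    (h : ∀ j, Tendsto (fun i => y i j) l (𝓝 (y0 j))) :
    Tendsto (fun i => Ht n (y i) s) l (𝓝 (Ht n y0 s)) := by
  unfold Ht
  by_cases hs : s ∈ cfn (2 * n) n
  · simp only [if_pos hs]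
    exact (tendsto_finsetProd s (fun j _ => h j)).mul (H_tendsto n _ h)
  · simp only [if_neg hs]
    exact tendsto_const_nhds

theorem V_tendsto {ι : Type*} {l : Filter ι} (c n : ℕ) {y : ι → ℕ → ℂ} {y0 : ℕ → ℂ}
    (h : ∀ j, Tendsto (fun i => y i j) l (𝓝 (y0 j))) (h0 : ∀ j, y0 j ≠ 0) :
    Tendsto (fun i => V c n (y i)) l (𝓝 (V c n y0)) := by
  unfold V
  refine tendsto_finsetSum _ (fun s _ => tendsto_finsetSum _ (fun t _ => ?_))
  refine Tendsto.mul (Tendsto.mul ?_ ?_) ?_
  · exact gv_tendsto _ _ h (fun j _ => h0 j)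
  · exact gv_tendsto _ _ (fun j => (h j).inv₀ (h0 j)) (fun j _ => inv_ne_zero (h0 j))
  · exact Ht_tendsto n t (fun j => (h (j + c)).inv₀ (h0 (j + c)))

/-- exchange relations of `Ht` at the inverse arguments -/
theorem Ht_ex_inv {n i : ℕ} (hi : i + 1 < 2 * n) {z : ℕ → ℂ} {x y : ℂ} (hx : z i = x) (hy : z (i + 1) = y)
    (h0 : x ≠ 0) (h1 : y ≠ 0) (s : Finset ℕ) : (om * y - x) * Ht n (ivs (sw i z)) s =
      (om * x - y) * Ht n (ivs z) s + om ^ 2 * (x - y) * ee i (Ht n (ivs z)) s := by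
  subst hx hy
  have h3 := Ht_exch n Set.univ i (Nat.zero_le _) hi (ivs z) (Set.mem_univ _) s
  have e1 : ivs z i = (z i)⁻¹ := rfl
  have e2 : ivs z (i + 1) = (z (i + 1))⁻¹ := rfl
  have e3 : ivs (sw i z) = sw i (ivs z) := rfl
  rw [e1, e2] at h3
  rw [e3]
  have h4 : z i * z (i + 1) * ((om * (z i)⁻¹ - (z (i + 1))⁻¹) * Ht n (sw i (ivs z)) s) =
      z i * z (i + 1) * ((om * (z (i + 1))⁻¹ - (z i)⁻¹) * Ht n (ivs z) s +
        om ^ 2 * ((z (i + 1))⁻¹ - (z i)⁻¹) * ee i (Ht n (ivs z)) s) := by rw [h3]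
  field_simp at h4
  linear_combination h4

/-- symmetry inside the two groups -/
theorem V_sw {c n i : ℕ} {y : ℕ → ℂ} (hy : NZ (c + 2 * n) y) (h : i + 1 < c ∨ (c ≤ i ∧ i + 1 < c + 2 * n)) :
    V c n (sw i y) = V c n y := by
  have hi1 : i + 1 < c + 2 * n := by omega
  refine SpB_ext hi1 (V_lau c n) (fun z hz => ?_) hy
  have hi0 : i < c + 2 * n := by omega
  have n0 : z i ≠ 0 := hz.1 i hi0
  have n1 : z (i + 1) ≠ 0 := hz.1 (i + 1) hi1
  obtain ⟨-, g2, -⟩ := Gen.ne_mul hz hi0 hi1 (by omega)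
  obtain ⟨-, g4, -⟩ := Gen.ne_mul hz hi1 hi0 (by omega)
  rw [V_PG, V_PG]
  rcases h with h | ⟨h, h'⟩
  · rw [SpB_sh_congr h]
    exact exL h le_rfl (fun x hx => absurd hx (Finset.notMem_empty x)) (z i) (z (i + 1)) g2 g4 _ _ _ _ _
      (SpB_ex hi1 rfl rfl) (SpB_ex_inv h rfl rfl n0 n1)
  · obtain ⟨j, rfl⟩ : ∃ j, i = j + c := ⟨i - c, by omega⟩
    rw [SpB_ivs_congr (show c ≤ j + c by omega), sh_sw]
    refine exR (show j + 1 < 2 * n by omega) le_rfl (fun x hx => absurd hx (Finset.notMem_empty x))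
      (z (j + c)) (z (j + c + 1)) g2 g4 _ _ _ _ _ (SpB_ex hi1 rfl rfl) (Ht_ex_inv (by omega) rfl ?_ n0 n1)
    show z (j + 1 + c) = z (j + c + 1)
    rw [show j + 1 + c = j + c + 1 by omega]

/-- invariance under the inversion of the arguments of the left group -/
theorem V_iv {c n i : ℕ} {y : ℕ → ℂ} (hy : NZ (c + 2 * n) y) (hi : i < c) : V c n (iv i y) = V c n y := by
  refine inv_of_sw (f := V c n) (L := c + 2 * n) (lo := 0) (hi := c) (p0 := 0) (by omega) ?_ le_rfl (by omega) ?_ hy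
    (Nat.zero_le _) hi
  · intro i y _ h2 hy
    exact V_sw hy (Or.inl h2)
  · intro y hy
    have h1 : NZ c y := fun k hk => hy k (by omega)
    have h2 : ivs (iv 0 y) = iv 0 (ivs y) := by
      funext k
      unfold ivs
      rcases eq_or_ne k 0 with h | h
      · rw [h, iv_self, iv_self]
      · rw [iv_of_ne h, iv_of_ne h]
    have h3 : sh c (iv 0 y) = sh c y := by
      funext k
      unfold sh
      rw [iv_of_ne (by omega)]
    have h4 : NZ c (ivs y) := nz_inv h1
    unfold V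
    rw [refl_left (by omega) hy, h2, refl_left (by omega) h4, h3]

theorem V_zero (y : ℕ → ℂ) : V 1 0 y = 1 := by
  have h1 : cfn 1 (1 / 2) = {∅} := by
    unfold cfn
    rw [show (1 : ℕ) / 2 = 0 by norm_num, powersetCard_zero]
  have h2 : cfn (2 * 0) 0 = {∅} := by
    unfold cfn
    rw [powersetCard_zero]
  have h3 := DD_one y
  unfold DD BF at h3
  rw [h1, sum_singleton] at h3
  unfold V
  rw [h1, h2, sum_singleton, sum_singleton, su_empty, union_empty]
  have h4 : Ht 0 (ivs (sh 1 y)) ∅ = 1 := by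
    unfold Ht
    rw [h2, if_pos (mem_singleton_self _), prod_empty, one_mul]
    have h5 : range (2 * 0) \ ∅ = range 0 := by simp
    rw [h5, H_range]
    unfold AA
    simp
  rw [h4, mul_one]
  have e : gv (1 + 2 * 0) y ∅ = gv 1 y ∅ := rfl
  rw [e]
  linear_combination h3

end CV
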