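import Pool.Agent.Lib.MP_216314_pr.CV.SumC
import Pool.Agent.Lib.MP_216314_pr.CV.Tw
import Pool.Agent.Lib.MP_216314_pr.CV.V

/-!
# The total masses: values of the leading coefficients of the pairing
-/

set_option autoImplicit false

noncomputable section

namespace CW

open Finset PX CF CZ CV

theorem gen_ivs {L : ℕ} {y : ℕ → ℂ} (h : Gen L y) : Gen L (ivs y) := by
  refine ⟨fun k hk => inv_ne_zero (h.1 k hk), fun i hi => ?_, fun i j hi hj hij => ⟨?_, ?_⟩⟩
  · show (y i)⁻¹ ^ 6 ≠ 1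
    rw [inv_pow]
    intro e
    exact h.2.1 i hi (inv_eq_one.1 e)
  · show (y i)⁻¹ ^ 3 ≠ (y j)⁻¹ ^ 3
    rw [inv_pow, inv_pow]
    intro e
    exact (h.2.2 i j hi hj hij).1 (inv_injective e)
  · show (y i)⁻¹ ^ 3 * (y j)⁻¹ ^ 3 ≠ 1
    rw [inv_pow, inv_pow, ← mul_inv]
    intro e
    exact (h.2.2 i j hi hj hij).2 (inv_eq_one.1 e)

theorem gen_mono {L M : ℕ} {y : ℕ → ℂ} (h : Gen L y) (hM : M ≤ L) : Gen M y :=
  ⟨fun k hk => h.1 k (by omega), fun i hi => h.2.1 i (by omega),
    fun i j hi hj hij => h.2.2 i j (by omega) (by omega) hij⟩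

theorem gen_sh {a M : ℕ} {y : ℕ → ℂ} (h : Gen (a + M) y) : Gen M (sh a y) :=
  ⟨fun k hk => h.1 (k + a) (by omega), fun i hi => h.2.1 (i + a) (by omega),
    fun i j hi hj hij => h.2.2 (i + a) (j + a) (by omega) (by omega) (by omega)⟩

theorem gen_congr {L : ℕ} {y z : ℕ → ℂ} (h : Gen L y) (hyz : ∀ k, k < L → y k = z k) : Gen L z := by
  refine ⟨fun k hk => ?_, fun i hi => ?_, fun i j hi hj hij => ?_⟩
  · rw [← hyz k hk]
    exact h.1 k hk
  · rw [← hyz i hi]
    exact h.2.1 i hi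
  · rw [← hyz i hi, ← hyz j hj]
    exact h.2.2 i j hi hj hij

theorem Sv_ivs (S : Multiset ℂ → ℂ) (N : ℕ) (y : ℕ → ℂ) : Sv S N (ivs y) = Sv S N y := by
  unfold Sv
  congr 1
  refine Multiset.map_congr rfl fun k _ => ?_
  show XX (y k)⁻¹ = XX (y k)
  exact XX_inv _

theorem map_range_last {α : Type*} (N : ℕ) (g : ℕ → α) :
    (range (N + 1)).val.map g = g N ::ₘ (range N).val.map g := by
  show Multiset.map g (Multiset.range (N + 1)) = _
  rw [Multiset.range_succ, Multiset.map_cons]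
  rfl

theorem Yv_last (n : ℕ) (y : ℕ → ℂ) :
    Yv (n + 1) y = MS yb' (y (2 * n + 1) ::ₘ (range (2 * n + 1)).val.map y) := by
  unfold Yv
  show MS yb' ((range (2 * n + 1 + 1)).val.map y) = _
  rw [map_range_last]

theorem Yv_upd_last (n : ℕ) (y : ℕ → ℂ) (t : ℂ) :
    Yv (n + 1) (Function.update y (2 * n + 1) t) = MS yb' (t ::ₘ (range (2 * n + 1)).val.map y) := by
  rw [Yv_last, Function.update_self]
  congr 2
  refine Multiset.map_congr rfl fun k hk => ?_
  have : k < 2 * n + 1 := Multiset.mem_range.1 hk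
  rw [Function.update_of_ne (by omega)]

/-- the values of the last variable which are not generic -/
def bad (N : ℕ) (y : ℕ → ℂ) : Polynomial ℂ :=
  Polynomial.X * (Polynomial.X ^ 6 - Polynomial.C 1) * ∏ j ∈ range N,
    ((Polynomial.X ^ 3 - Polynomial.C (y j ^ 3)) * (Polynomial.X ^ 3 * Polynomial.C (y j ^ 3) - Polynomial.C 1))

theorem bad_ne (N : ℕ) (y : ℕ → ℂ) : bad N y ≠ 0 := by
  unfold bad
  refine mul_ne_zero (mul_ne_zero Polynomial.X_ne_zero (Polynomial.X_pow_sub_C_ne_zero (by norm_num) 1)) ?_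
  rw [Finset.prod_ne_zero_iff]
  intro j _
  refine mul_ne_zero (Polynomial.X_pow_sub_C_ne_zero (by norm_num) _) ?_
  intro h
  have h1 := congrArg (Polynomial.eval 0) h
  rw [Polynomial.eval_sub, Polynomial.eval_mul, Polynomial.eval_pow, Polynomial.eval_X, Polynomial.eval_C,
    Polynomial.eval_C, Polynomial.eval_zero] at h1
  norm_num at h1

theorem gen_of_bad {N : ℕ} {y : ℕ → ℂ} (hy : Gen N y) {t : ℂ} (ht : (bad N y).eval t ≠ 0) :
    Gen (N + 1) (Function.update y N t) := by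
  unfold bad at ht
  rw [Polynomial.eval_mul, Polynomial.eval_mul, Polynomial.eval_X, Polynomial.eval_sub, Polynomial.eval_pow,
    Polynomial.eval_X, Polynomial.eval_C, Polynomial.eval_prod] at ht
  have h1 : t ≠ 0 := left_ne_zero_of_mul (left_ne_zero_of_mul ht)
  have h2 : t ^ 6 ≠ 1 := sub_ne_zero.1 (right_ne_zero_of_mul (left_ne_zero_of_mul ht))
  have h3 : ∀ j, j < N → t ^ 3 ≠ y j ^ 3 ∧ t ^ 3 * y j ^ 3 ≠ 1 := by
    intro j hj
    have h4 := (Finset.prod_ne_zero_iff.1 (right_ne_zero_of_mul ht)) j (Finset.mem_range.2 hj)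
    rw [Polynomial.eval_mul, Polynomial.eval_sub, Polynomial.eval_sub, Polynomial.eval_mul, Polynomial.eval_pow,
      Polynomial.eval_X, Polynomial.eval_C, Polynomial.eval_C] at h4
    exact ⟨sub_ne_zero.1 (left_ne_zero_of_mul h4), sub_ne_zero.1 (right_ne_zero_of_mul h4)⟩
  refine ⟨fun k hk => ?_, fun i hi => ?_, fun i j hi hj hij => ?_⟩
  · rcases eq_or_ne k N with h | h
    · rw [h, Function.update_self]
      exact h1
    · rw [Function.update_of_ne h]
      exact hy.1 k (by omega)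
  · rcases eq_or_ne i N with h | h
    · rw [h, Function.update_self]
      exact h2
    · rw [Function.update_of_ne h]
      exact hy.2.1 i (by omega)
  · rcases eq_or_ne i N with h | h
    · rw [h, Function.update_self, Function.update_of_ne (by omega)]
      exact h3 j (by omega)
    · rcases eq_or_ne j N with h' | h'
      · rw [h', Function.update_self, Function.update_of_ne (by omega)]
        have h4 := h3 i (by omega)
        exact ⟨Ne.symm h4.1, by rw [mul_comm]; exact h4.2⟩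
      · rw [Function.update_of_ne h, Function.update_of_ne h']
        exact hy.2.2 i j (by omega) (by omega) hij

/-- the sum rule for an arbitrary last variable -/
theorem Ht_Ms_last (n : ℕ) {y : ℕ → ℂ} (hy : Gen (2 * n + 1) y) (x : ℂ) :
    Ms ∅ (2 * (n + 1)) (kc (n + 1) * Yv (n + 1) (Function.update y (2 * n + 1) x))
      (Ht (n + 1) (Function.update y (2 * n + 1) x)) := by
  intro f hf
  obtain ⟨A, c, hAc⟩ := hf.fs
  have h1 := fun s => Ht_deg (n + 1) (2 * n + 1) (by omega) y s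
  choose q hq hqe using h1
  obtain ⟨p, hp, hpe⟩ := yb'_pol (n + 1) ((range (2 * n + 1)).val.map y) (by
    rw [Multiset.card_map]
    have : Multiset.card (range (2 * n + 1)).val = 2 * n + 1 := Finset.card_range _
    omega)
  let D : Polynomial ℂ := (∑ s ∈ A, Polynomial.C (c s) * q s) - Polynomial.C (kc (n + 1)) * p
  have hD : ∀ t, D.eval t = f (Ht (n + 1) (Function.update y (2 * n + 1) t)) -
      kc (n + 1) * Yv (n + 1) (Function.update y (2 * n + 1) t) := by
    intro t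
    show ((∑ s ∈ A, Polynomial.C (c s) * q s) - Polynomial.C (kc (n + 1)) * p).eval t = _
    rw [Polynomial.eval_sub, Polynomial.eval_finsetSum, Polynomial.eval_mul, Polynomial.eval_C, hAc, Yv_upd_last, hpe]
    congr 1
    refine Finset.sum_congr rfl fun s _ => ?_
    rw [Polynomial.eval_mul, Polynomial.eval_C, hqe]
  have h0 : D * bad (2 * n + 1) y = 0 := by
    apply Polynomial.funext
    intro t
    rw [Polynomial.eval_mul, Polynomial.eval_zero]
    by_cases ht : (bad (2 * n + 1) y).eval t = 0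
    · rw [ht, mul_zero]
    · have h2 := gen_of_bad hy ht
      have h3 : f (Ht (n + 1) (Function.update y (2 * n + 1) t)) = _ := Ht_Ms (n + 1) _ h2 f hf
      rw [hD, h3, sub_self, zero_mul]
  have h4 : D = 0 := (mul_eq_zero.1 h0).resolve_right (bad_ne _ _)
  have h5 := hD x
  rw [h4, Polynomial.eval_zero] at h5
  exact (sub_eq_zero.1 h5.symm)

/-- the total mass with an even strip -/
theorem V_mass {S : Multiset ℂ → ℂ} (hS : SC S) {k n : ℕ} (hk : Even k) {y : ℕ → ℂ} (hy : Gen (k + 2 * n) y) :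
    V k n y = (-om ^ 2) ^ (k / 2 + n) *
      (Sv S (k + 2 * n) y * (Sv S k y * (kc n * Yv n (ivs (sh k y))))) := by
  obtain ⟨m, hm⟩ := hk
  have hkm : k = 2 * m := by omega
  subst hkm
  have e0 : 2 * m / 2 = m := by omega
  have e1 : 2 * m + 2 * n = 2 * (m + n) := by ring
  have hU := tn_even hS (k := 2 * m) (m := 2 * n) ⟨m, by ring⟩ (Ht_Ms n _ (gen_ivs (gen_sh hy)))
    (gen_ivs (gen_mono hy (by omega : 2 * m ≤ 2 * m + 2 * n)))
  rw [Sv_ivs] at hU
  unfold V
  have h1 := tn_sum (k := 2 * m) (m := 2 * n) (p := 2 * m / 2) (q := n) (gv (2 * m + 2 * n) y)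
    (Ht n (ivs (sh (2 * m) y))) (u := gv (2 * m) (ivs y)) (gv_wt (2 * m) (ivs y))
  rw [← h1, e0]
  rw [e1] at hU hy ⊢
  exact TM hS (m + n) hy hU

/-- the total mass with an odd strip and a cylinder without its last variable -/
theorem V_mass' {S : Multiset ℂ → ℂ} (hS : SC S) {c n : ℕ} (hc : Odd c) (hn : 1 ≤ n) {y : ℕ → ℂ}
    (hy : Gen (c + 2 * n - 1) y) :
    ∑ s ∈ cfn c (c / 2), ∑ t ∈ cfn (2 * n - 1) n, gv (c + 2 * n - 1) y (s ∪ su c t) * gv c (ivs y) s *
        Ht n (fun k => if k < 2 * n - 1 then ivs (sh c y) k else 0) t =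
      (-om ^ 2) ^ (c / 2 + n) * (Sv S (c + 2 * n - 1) y * (sgn c * Sv S c y *
        (-om ^ 2 * (kc n * Yv n (fun k => if k < 2 * n - 1 then ivs (sh c y) k else 0))))) := by
  obtain ⟨r, rfl⟩ := hc
  obtain ⟨m, rfl⟩ : ∃ m, n = m + 1 := ⟨n - 1, by omega⟩
  have e0 : (2 * r + 1) / 2 = r := by omega
  have e1 : 2 * r + 1 + 2 * (m + 1) - 1 = 2 * (r + (m + 1)) := by omega
  have e2 : 2 * (m + 1) - 1 = 2 * m + 1 := by omega
  have e3 : 2 * r + 1 + (2 * m + 1) = 2 * (r + (m + 1)) := by omega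
  rw [e0, e2, e1]
  rw [e1] at hy
  set z0 : ℕ → ℂ := fun k => if k < 2 * m + 1 then ivs (sh (2 * r + 1) y) k else 0 with hz0
  have hz : Function.update z0 (2 * m + 1) 0 = z0 := by
    funext k
    rcases eq_or_ne k (2 * m + 1) with h | h
    · rw [h, Function.update_self, hz0]
      show (0 : ℂ) = if 2 * m + 1 < 2 * m + 1 then _ else 0
      rw [if_neg (lt_irrefl _)]
    · rw [Function.update_of_ne h]
  have hg : Gen (2 * m + 1) z0 := by
    refine gen_congr (gen_ivs (gen_sh (a := 2 * r + 1) (M := 2 * m + 1) (by rw [e3]; exact hy))) fun k hk => ?_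
    rw [hz0]
    show _ = if k < 2 * m + 1 then _ else (0 : ℂ)
    rw [if_pos hk]
  have h1 := Ht_Ms_last m hg 0
  rw [hz] at h1
  have h2 : ∀ s, 2 * m + 1 ∈ s → Ht (m + 1) z0 s = 0 := by
    intro s hs
    unfold Ht
    by_cases h : s ∈ cfn (2 * (m + 1)) (m + 1)
    · rw [if_pos h, Finset.prod_eq_zero hs, zero_mul]
      rw [hz0]
      show (if 2 * m + 1 < 2 * m + 1 then _ else (0 : ℂ)) = 0
      rw [if_neg (lt_irrefl _)]
    · rw [if_neg h]
  have h3 := Ms.last (N := 2 * m + 1) ⟨m, rfl⟩ h1 h2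
  have hU := tn_odd hS (k := 2 * r + 1) (m := 2 * m + 1) ⟨r, rfl⟩ ⟨m, rfl⟩ h3
    (gen_ivs (gen_mono hy (by omega : 2 * r + 1 ≤ 2 * (r + (m + 1)))))
  rw [Sv_ivs] at hU
  have h5 := tn_sum (k := 2 * r + 1) (m := 2 * m + 1) (p := r) (q := m + 1) (gv (2 * (r + (m + 1))) y)
    (Ht (m + 1) z0) (u := gv (2 * r + 1) (ivs y)) (by
      have h6 := gv_wt (2 * r + 1) (ivs y)
      rw [e0] at h6
      exact h6)
  rw [← h5]
  rw [e3] at hU ⊢
  exact TM hS (r + (m + 1)) hy hU

end CW
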