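import Pool.Agent.Lib.MP_216314_pr.CV.Mass
import Pool.Agent.Lib.MP_216314_pr.CF.Cont
import Pool.Agent.Lib.MP_216314_pr.CF.Gsq

/-!
# Continuity, and the sum rule at the point `1`
-/

set_option autoImplicit false

noncomputable section

namespace CW

open Finset PX CF CZ CV Filter Topology

theorem Fs.tendsto {f : Vec →ₗ[ℂ] ℂ} (hf : Fs f) {ι : Type*} {l : Filter ι} {F : ι → Vec} {F0 : Vec}
    (h : ∀ s, Tendsto (fun i => F i s) l (𝓝 (F0 s))) : Tendsto (fun i => f (F i)) l (𝓝 (f F0)) := by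
  obtain ⟨A, c, hA⟩ := hf
  have h1 : (fun i => f (F i)) = fun i => ∑ s ∈ A, c s * F i s := funext fun i => hA _
  rw [h1, hA]
  exact tendsto_finsetSum _ fun s _ => (h s).const_mul (c s)

theorem Yv_tendsto {ι : Type*} {l : Filter ι} (n : ℕ) {y : ι → ℕ → ℂ} {y0 : ℕ → ℂ}
    (h : ∀ j, Tendsto (fun i => y i j) l (𝓝 (y0 j))) : Tendsto (fun i => Yv n (y i)) l (𝓝 (Yv n y0)) := by
  have h1 : ∀ z : ℕ → ℂ, Yv n z = Q4.PhF (2 * n) yb' z := by
    intro z
    rw [PhF_MS]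
    rfl
  simp only [h1]
  exact PhF_tendsto h (2 * n) yb'

theorem Yv_one (n : ℕ) : Yv n (fun _ => 1) = MS yb' (Multiset.replicate (2 * n) 1) := by
  unfold Yv
  rw [Multiset.map_const']
  congr 2
  exact Finset.card_range _

/-- the sum rule at the point `1` -/
theorem Ht_Ms_one (n : ℕ) : Ms ∅ (2 * n) (kc n * MS yb' (Multiset.replicate (2 * n) 1)) (Ht n (fun _ => 1)) := by
  intro f hf
  have h1 : Tendsto (fun N => f (Ht n (gsq N))) atTop (𝓝 (f (Ht n (fun _ => 1)))) :=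
    hf.fs.tendsto fun s => Ht_tendsto n s gsq_tendsto
  have h2 : Tendsto (fun N => kc n * Yv n (gsq N)) atTop (𝓝 (kc n * Yv n (fun _ => 1))) :=
    (Yv_tendsto n gsq_tendsto).const_mul _
  have h3 : (fun N => f (Ht n (gsq N))) = fun N => kc n * Yv n (gsq N) :=
    funext fun N => Ht_Ms n _ (gsq_gen _ N) f hf
  rw [h3] at h1
  rw [← Yv_one]
  exact tendsto_nhds_unique h1 h2

end CW
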