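import Pool.Agent.Lib.MP_216314_pr.CV.Pl

/-!
# Nodes: the first argument fused with any other one
-/

set_option autoImplicit false

noncomputable section

namespace CW

open Finset PX CF

theorem om_sq_cube : (om ^ 2) ^ 3 = 1 := by
  have h : (om ^ 2) ^ 3 = (om ^ 3) ^ 2 := by ring
  rw [h, om_cube, one_pow]

theorem om2_ne : om ^ 2 ≠ 0 := pow_ne_zero 2 om_ne_zero

theorem GT0_sw {N i : ℕ} {y : ℕ → ℂ} (h : GT 0 N y) (h1 : 1 ≤ i) (h2 : i + 1 < N) :
    GT 0 N (sw i y) := h.swap (by omega) h2 (by omega) (by omega)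

/-- exchange of the arguments number `j`, `j + 1` when `y (j + 1)` is fused with `y 0` -/
theorem Ms.node {e : Finset ℕ} {N : ℕ} {h : (ℕ → ℂ) → Vec} {σ : (ℕ → ℂ) → ℂ}
    (hE : Exch (fun y => NZ N y) 0 N h)
    (hσ : ∀ i y, 1 ≤ i → i + 1 < N → NZ N y → σ (PX.sw i y) = σ y)
    (h1 : ∀ y, GT 0 N y → y 1 = om * y 0 → Ms e N (σ y) (h y)) :
    ∀ j, 1 ≤ j → j < N → ∀ y, GT 0 N y → y j = om * y 0 → Ms e N (σ y) (h y) := by
  intro j hj
  induction j, hj using Nat.le_induction with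
  | base => exact fun _ => h1
  | succ j hj ih =>
    intro hjN y hy he
    have hz : GT 0 N (PX.sw j y) := GT0_sw hy hj hjN
    have hz0 : PX.sw j y 0 = y 0 := sw_of_ne _ _ (by omega) (by omega)
    have hzj : PX.sw j y j = om * PX.sw j y 0 := by rw [sw_left, hz0, he]
    have h2 := ih (by omega) (PX.sw j y) hz hzj
    have hne : om * PX.sw j y j ≠ PX.sw j y (j + 1) := by
      rw [sw_left, sw_right, he]
      intro h3
      apply (hy.2.2 j (j + 1) (by omega) (by omega) (by omega) hjN (by omega)).1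
      rw [← h3, he]
      linear_combination ((y 0) ^ 3 * (om ^ 3)) * om_cube
    have h4 := Ms.sw hE hjN hz.1 hne h2
    rw [sw_sw, hσ j y hj hjN hy.1] at h4
    exact h4

/-- the nodes `c * y j` and their inverses -/
theorem nodes_two {N : ℕ} {y : ℕ → ℂ} (hy : GT 0 N y) {c : ℂ} (hc : c ^ 3 = 1) {a b : ℕ} {f : ℂ → ℂ}
    (hf : Pl a b f) (h1 : ∀ j, 1 ≤ j → j < N → f (c * y j) = 0)
    (h2 : ∀ j, 1 ≤ j → j < N → f (c * y j)⁻¹ = 0) (hb : b < 2 * (N - 1)) : ∀ t, t ≠ 0 → f t = 0 := by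
  have hc0 : c ≠ 0 := by
    intro h
    rw [h] at hc
    norm_num at hc
  have hcube : ∀ j, (c * y j) ^ 3 = y j ^ 3 := by
    intro j
    rw [mul_pow, hc, one_mul]
  have hinj1 : Set.InjOn (fun j => c * y j) ((Ico 1 N : Finset ℕ) : Set ℕ) := by
    intro a ha b hb hab
    rw [Finset.mem_coe, Finset.mem_Ico] at ha hb
    by_contra hne
    have h3 : c * y a = c * y b := hab
    apply (hy.2.2 a b (by omega) ha.2 (by omega) hb.2 hne).1
    rw [← hcube a, ← hcube b, h3]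
  have hinj2 : Set.InjOn (fun j => (c * y j)⁻¹) ((Ico 1 N : Finset ℕ) : Set ℕ) := by
    intro a ha b hb hab
    exact hinj1 ha hb (inv_injective hab)
  have hdisj : Disjoint ((Ico 1 N).image fun j => c * y j)
      ((Ico 1 N).image fun j => (c * y j)⁻¹) := by
    rw [Finset.disjoint_left]
    intro x hx hx'
    rw [Finset.mem_image] at hx hx'
    obtain ⟨a, ha, rfl⟩ := hx
    obtain ⟨b, hb, hab⟩ := hx'
    rw [Finset.mem_Ico] at ha hb
    have hyb : c * y b ≠ 0 := mul_ne_zero hc0 (hy.1 b hb.2)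
    have h3 : (c * y a) * (c * y b) = 1 := by
      rw [← hab, inv_mul_cancel₀ hyb]
    have h4 : y a ^ 3 * y b ^ 3 = 1 := by
      rw [← hcube a, ← hcube b, ← mul_pow, h3, one_pow]
    rcases eq_or_ne a b with h5 | h5
    · subst h5
      apply hy.2.1 a (by omega) ha.2
      rw [← h4]
      ring
    · exact (hy.2.2 a b (by omega) ha.2 (by omega) hb.2 h5).2 h4
  refine hf.eq_zero (((Ico 1 N).image fun j => c * y j) ∪ ((Ico 1 N).image fun j => (c * y j)⁻¹)) ?_ ?_
  · intro x hx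
    rw [Finset.mem_union, Finset.mem_image, Finset.mem_image] at hx
    rcases hx with ⟨j, hj, rfl⟩ | ⟨j, hj, rfl⟩
    · rw [Finset.mem_Ico] at hj
      exact ⟨mul_ne_zero hc0 (hy.1 j hj.2), h1 j hj.1 hj.2⟩
    · rw [Finset.mem_Ico] at hj
      exact ⟨inv_ne_zero (mul_ne_zero hc0 (hy.1 j hj.2)), h2 j hj.1 hj.2⟩
  · rw [Finset.card_union_of_disjoint hdisj, Finset.card_image_of_injOn hinj1,
      Finset.card_image_of_injOn hinj2, Nat.card_Ico]
    omega

/-- the nodes `c * y j` -/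
theorem nodes_one {N : ℕ} {y : ℕ → ℂ} (hy : GT 0 N y) {c : ℂ} (hc : c ^ 3 = 1) {a b : ℕ} {f : ℂ → ℂ}
    (hf : Pl a b f) (h1 : ∀ j, 1 ≤ j → j < N → f (c * y j) = 0)
    (hb : b < N - 1) : ∀ t, t ≠ 0 → f t = 0 := by
  have hc0 : c ≠ 0 := by
    intro h
    rw [h] at hc
    norm_num at hc
  have hcube : ∀ j, (c * y j) ^ 3 = y j ^ 3 := by
    intro j
    rw [mul_pow, hc, one_mul]
  have hinj1 : Set.InjOn (fun j => c * y j) ((Ico 1 N : Finset ℕ) : Set ℕ) := by
    intro a ha b hb hab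
    rw [Finset.mem_coe, Finset.mem_Ico] at ha hb
    by_contra hne
    have h3 : c * y a = c * y b := hab
    apply (hy.2.2 a b (by omega) ha.2 (by omega) hb.2 hne).1
    rw [← hcube a, ← hcube b, h3]
  refine hf.eq_zero ((Ico 1 N).image fun j => c * y j) ?_ ?_
  · intro x hx
    rw [Finset.mem_image] at hx
    obtain ⟨j, hj, rfl⟩ := hx
    rw [Finset.mem_Ico] at hj
    exact ⟨mul_ne_zero hc0 (hy.1 j hj.2), h1 j hj.1 hj.2⟩
  · rw [Finset.card_image_of_injOn hinj1, Nat.card_Ico]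
    exact hb

/-- a generic point is generic without its first coordinate -/
theorem GT0_of_gen {N : ℕ} {y : ℕ → ℂ} (h : Gen N y) : GT 0 N y :=
  ⟨h.1, fun i _ hi => h.2.1 i hi, fun i j _ hi _ hj hij => h.2.2 i j hi hj hij⟩

/-- removal of the pair `0`, `1` -/
theorem gen_dl {N : ℕ} {y : ℕ → ℂ} (h : GT 0 (N + 2) y) : Gen N (dl 0 y) := by
  refine ⟨nz_dl h.1 0, fun i hi => ?_, fun i j hi hj hij => ?_⟩
  · exact h.2.1 (i + 2) (by omega) (by omega)
  · exact h.2.2 (i + 2) (j + 2) (by omega) (by omega) (by omega) (by omega) (by omega)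

end CW
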