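import Pool.Agent.Lib.MP_216314_pr.CV.Wd
import Pool.Agent.Lib.MP_216314_pr.CF.Zer
import Pool.Agent.Lib.MP_216314_pr.X.GenB

/-!
# Polynomial dependence of full contractions, exchange of arguments, counting of nodes
-/

set_option autoImplicit false

noncomputable section

namespace CW

open Finset PX CF

/-- `t ^ a * f t` is a polynomial of degree at most `b` -/
def Pl (a b : ℕ) (f : ℂ → ℂ) : Prop :=
  ∃ p : Polynomial ℂ, p.natDegree ≤ b ∧ ∀ t : ℂ, t ≠ 0 → t ^ a * f t = p.eval t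

theorem Pl.congr {a b : ℕ} {f g : ℂ → ℂ} (h : Pl a b f) (hfg : ∀ t, t ≠ 0 → f t = g t) : Pl a b g := by
  obtain ⟨p, hp, hpe⟩ := h
  exact ⟨p, hp, fun t ht => by rw [← hfg t ht, hpe t ht]⟩

theorem Pl.zero (a b : ℕ) : Pl a b (fun _ => 0) :=
  ⟨0, by simp, fun t _ => by simp⟩

theorem Pl.const (c : ℂ) : Pl 0 0 (fun _ => c) :=
  ⟨Polynomial.C c, (Polynomial.natDegree_C c).le, fun t _ => by
    rw [Polynomial.eval_C, pow_zero, one_mul]⟩

theorem Pl.add {a b : ℕ} {f g : ℂ → ℂ} (h : Pl a b f) (h' : Pl a b g) : Pl a b (fun t => f t + g t) := by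
  obtain ⟨p, hp, hpe⟩ := h
  obtain ⟨q, hq, hqe⟩ := h'
  refine ⟨p + q, (Polynomial.natDegree_add_le _ _).trans (max_le hp hq), fun t ht => ?_⟩
  rw [Polynomial.eval_add, ← hpe t ht, ← hqe t ht]
  ring

theorem Pl.mul {a b a' b' : ℕ} {f g : ℂ → ℂ} (h : Pl a b f) (h' : Pl a' b' g) :
    Pl (a + a') (b + b') (fun t => f t * g t) := by
  obtain ⟨p, hp, hpe⟩ := h
  obtain ⟨q, hq, hqe⟩ := h'
  refine ⟨p * q, Polynomial.natDegree_mul_le.trans (by omega), fun t ht => ?_⟩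
  rw [Polynomial.eval_mul, ← hpe t ht, ← hqe t ht, pow_add]
  ring

theorem Pl.cmul {a b : ℕ} {f : ℂ → ℂ} (h : Pl a b f) (c : ℂ) : Pl a b (fun t => c * f t) := by
  have h1 := (Pl.const c).mul h
  rw [zero_add, zero_add] at h1
  exact h1

theorem Pl.sub {a b : ℕ} {f g : ℂ → ℂ} (h : Pl a b f) (h' : Pl a b g) : Pl a b (fun t => f t - g t) :=
  (h.add (h'.cmul (-1))).congr fun t _ => by ring

/-- multiplication of numerator and denominator by `t ^ k` -/
theorem Pl.shift {a b : ℕ} {f : ℂ → ℂ} (h : Pl a b f) (k : ℕ) : Pl (a + k) (b + k) f := by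
  obtain ⟨p, hp, hpe⟩ := h
  refine ⟨Polynomial.X ^ k * p, ?_, fun t ht => ?_⟩
  · refine Polynomial.natDegree_mul_le.trans ?_
    rw [Polynomial.natDegree_X_pow]
    omega
  · rw [Polynomial.eval_mul, Polynomial.eval_pow, Polynomial.eval_X, ← hpe t ht, pow_add]
    ring

theorem Pl.weak {a b c : ℕ} {f : ℂ → ℂ} (h : Pl a b f) (hbc : b ≤ c) : Pl a c f := by
  obtain ⟨p, hp, hpe⟩ := h
  exact ⟨p, hp.trans hbc, hpe⟩

theorem Pl.sum {ι : Type*} {a b : ℕ} (s : Finset ι) {f : ι → ℂ → ℂ} (h : ∀ i ∈ s, Pl a b (f i)) :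
    Pl a b (fun t => ∑ i ∈ s, f i t) := by
  classical
  induction s using Finset.induction_on with
  | empty =>
    simp only [Finset.sum_empty]
    exact Pl.zero a b
  | insert i s hi ih =>
    simp only [Finset.sum_insert hi]
    exact (h i (Finset.mem_insert_self _ _)).add (ih fun j hj => h j (Finset.mem_insert_of_mem hj))

theorem Pl.of_mir {d : ℕ} {f : ℂ → ℂ} (h : Mir d f) : Pl d (2 * d) f := h

/-- a function of this form vanishes if it has too many zeros -/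
theorem Pl.eq_zero {a b : ℕ} {f : ℂ → ℂ} (h : Pl a b f) (s : Finset ℂ) (hs : ∀ x ∈ s, x ≠ 0 ∧ f x = 0)
    (hb : b < s.card) : ∀ t, t ≠ 0 → f t = 0 := by
  obtain ⟨p, hp, hpe⟩ := h
  have hp0 : p = 0 := zero_of_card hp s (fun x hx => by
    rw [← hpe x (hs x hx).1, (hs x hx).2, mul_zero]) hb
  intro t ht
  have h1 := hpe t ht
  rw [hp0, Polynomial.eval_zero] at h1
  exact (mul_eq_zero.mp h1).resolve_left (pow_ne_zero _ ht)

theorem Wd.pl {e : Finset ℕ} {N : ℕ} {f : Vec →ₗ[ℂ] ℂ} (hf : Wd e N f) {a b : ℕ} :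
    ∀ {F : ℂ → Vec}, (∀ s, Pl a b (fun t => F t s)) → Pl a b (fun t => f (F t)) := by
  induction hf with
  | zero => exact fun hF => hF ∅
  | one => exact fun hF => hF e
  | step i hi hf ih =>
    intro F hF
    refine ih (F := fun t => Con i (F t)) fun s => ?_
    refine (((hF (insert i (mk i s))).sub ((hF (insert (i + 1) (mk i s))).cmul (om ^ 2))).cmul
      (-om)).congr fun t _ => ?_
    rw [Con_apply]

theorem Wd.lau {e : Finset ℕ} {N : ℕ} {f : Vec →ₗ[ℂ] ℂ} (hf : Wd e N f) {L : ℕ} :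
    ∀ {F : (ℕ → ℂ) → Vec}, (∀ s, Lau L (fun y => F y s)) → Lau L (fun y => f (F y)) := by
  induction hf with
  | zero => exact fun hF => hF ∅
  | one => exact fun hF => hF e
  | step i hi hf ih =>
    intro F hF
    refine ih (F := fun y => Con i (F y)) fun s => ?_
    refine (((Lau.const L (-om)).mul ((hF (insert i (mk i s))).sub
      ((Lau.const L (om ^ 2)).mul (hF (insert (i + 1) (mk i s))))))).congr fun y _ => ?_
    rw [Con_apply]

/-- exchange of two arguments -/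
theorem Ms.exch {e : Finset ℕ} {N : ℕ} {μ : ℂ} {v v' : Vec} {x y : ℂ} {i : ℕ} (hi : i + 1 < N)
    (hne : om * x ≠ y)
    (h : ∀ s, (om * x - y) * v' s = (om * y - x) * v s + om ^ 2 * (y - x) * PX.ee i v s)
    (hv : Ms e N μ v) : Ms e N μ v' := by
  intro f hf
  have h1 : (om * x - y) • v' = (om * y - x) • v + (om ^ 2 * (y - x)) • PX.ee i v := by
    funext s
    simp only [Pi.add_apply, Pi.smul_apply, smul_eq_mul]
    exact h s
  have h2 := congrArg f h1
  rw [map_add, map_smul, map_smul, map_smul, smul_eq_mul, smul_eq_mul, smul_eq_mul, hv f hf,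
    hv.ee hi f hf] at h2
  refine mul_left_cancel₀ (sub_ne_zero.2 hne) ?_
  rw [h2]
  linear_combination (y - x) * μ * om_eq - (y - x) * μ * om_eq + μ * (y - x) * om_eq

/-- the exchange in a family of vectors -/
theorem Ms.sw {e : Finset ℕ} {N : ℕ} {μ : ℂ} {h : (ℕ → ℂ) → Vec} (hE : Exch (fun y => NZ N y) 0 N h)
    {i : ℕ} (hi : i + 1 < N) {y : ℕ → ℂ} (hy : NZ N y) (hne : om * y i ≠ y (i + 1))
    (hv : Ms e N μ (h y)) : Ms e N μ (h (PX.sw i y)) :=
  Ms.exch hi hne (hE i (Nat.zero_le _) hi y hy) hv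

end CW
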