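import Pool.Agent.Lib.MP_216314_pr.CZ.Yc
import Pool.Agent.Lib.MP_216314_pr.X.Def

/-!
# The Schur functions `s_{Y'}`: fusion and degree
-/

set_option autoImplicit false

noncomputable section

namespace CW

open Polynomial CZ PX

theorem yb'_add_two (j : ℕ) : yb' (j + 2) = X ^ 3 * yb' j := by
  unfold yb' ye'
  rw [← pow_add]
  congr 1
  omega

/-- the matrix of the change of the columns -/
def ypT (N : ℕ) (κ : ℂ) : Matrix (Fin N) (Fin N) ℂ :=
  Matrix.of fun i j => if i = j then 1 else if (i : ℕ) + 2 = j then -κ else 0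

theorem ypT_det (N : ℕ) (κ : ℂ) : (ypT N κ).det = 1 := by
  rw [Matrix.det_of_isUpperTriangular]
  · refine Finset.prod_eq_one fun i _ => ?_
    unfold ypT
    rw [Matrix.of_apply, if_pos rfl]
  · intro i j hij
    unfold ypT
    have h : (j : ℕ) < i := hij
    rw [Matrix.of_apply, if_neg (fun e => by rw [e] at h; omega), if_neg (by omega)]

theorem yb'_ueq (N : ℕ) (κ : ℂ) :
    Q4.UEq (N + 2) yb' (Q4.pre 1 (X ^ 2) (fun j => (X ^ 3 - C κ) * yb' j)) := by
  refine ⟨ypT (N + 2) κ, ypT_det _ _, fun j => ?_⟩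
  have key : ∀ j : Fin (N + 2), ∑ i : Fin (N + 2), C (ypT (N + 2) κ i j) * yb' i =
      yb' j + (if 2 ≤ (j : ℕ) then C (-κ) * yb' ((j : ℕ) - 2) else 0) := by
    intro j
    by_cases h : 2 ≤ (j : ℕ)
    · rw [if_pos h]
      have hlt : (j : ℕ) - 2 < N + 2 := by have := j.2; omega
      have hne : (⟨(j : ℕ) - 2, hlt⟩ : Fin (N + 2)) ≠ j := by
        intro e
        have : (j : ℕ) - 2 = j := congrArg Fin.val e
        omega
      rw [← Finset.add_sum_erase _ _ (Finset.mem_univ j),
        ← Finset.add_sum_erase _ _ (Finset.mem_erase.2 ⟨hne, Finset.mem_univ _⟩), Finset.sum_eq_zero]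
      · unfold ypT
        rw [Matrix.of_apply, Matrix.of_apply, if_pos rfl, if_neg hne, if_pos (by show (j : ℕ) - 2 + 2 = j; omega),
          C_1, one_mul, add_zero]
      · intro i hi
        rw [Finset.mem_erase, Finset.mem_erase] at hi
        unfold ypT
        rw [Matrix.of_apply, if_neg hi.2.1, if_neg, C_0, zero_mul]
        intro e
        apply hi.1
        apply Fin.ext
        show (i : ℕ) = (j : ℕ) - 2
        omega
    · rw [if_neg h, ← Finset.add_sum_erase _ _ (Finset.mem_univ j), Finset.sum_eq_zero]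
      · unfold ypT
        rw [Matrix.of_apply, if_pos rfl, C_1, one_mul]
      · intro i hi
        rw [Finset.mem_erase] at hi
        unfold ypT
        rw [Matrix.of_apply, if_neg hi.1, if_neg (by omega), C_0, zero_mul]
  rw [key j]
  unfold Q4.pre
  by_cases h0 : (j : ℕ) = 0
  · rw [if_pos h0, if_neg (by omega), h0, yb'_zero, add_zero]
  · rw [if_neg h0]
    by_cases h1 : (j : ℕ) = 1
    · rw [if_pos h1, if_neg (by omega), h1, add_zero]
      unfold yb' ye'
      norm_num
    · rw [if_neg h1, if_pos (by omega)]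
      have e : (j : ℕ) = ((j : ℕ) - 2) + 2 := by omega
      have e2 := yb'_add_two ((j : ℕ) - 2)
      rw [← e] at e2
      rw [e2, C_neg]
      ring

/-- fusion -/
theorem yb'_fus {a : ℂ} (ha : a ≠ 0) (R : Multiset ℂ) :
    MS yb' (a ::ₘ (om * a) ::ₘ R) = -om ^ 2 * a * (R.map (fun r => r - om ^ 2 * a)).prod * MS yb' R := by
  have h := MS_rec (g := yb') (h := yb') (u := 1) (v := X ^ 2) (a := a) (b := om * a) (c := om ^ 2 * a) (R := R) (by
    have h1 := yb'_ueq (Multiset.card R) (a ^ 3)
    have e : (X ^ 3 - C (a ^ 3) : ℂ[X]) = (X - C a) * (X - C (om * a)) * (X - C (om ^ 2 * a)) := by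
      have e1 : (C om : ℂ[X]) ^ 2 + C om + 1 = 0 := by
        rw [← C_pow, ← C_add, ← C_1, ← C_add, om_eq, C_0]
      have e2 : (C om : ℂ[X]) ^ 3 = 1 := by rw [← C_pow, om_cube, C_1]
      rw [C_pow, C_mul, C_mul, C_pow]
      linear_combination (X ^ 2 * C a - X * (C a) ^ 2 * (C om)) * e1 + (C a) ^ 3 * e2
    rw [e] at h1
    exact h1)
  rw [eval_one, eval_pow, eval_X, eval_pow, eval_X] at h
  have hne : om * a - a ≠ 0 := by
    intro h2
    have h3 : (om - 1) * a = 0 := by linear_combination h2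
    rcases mul_eq_zero.1 h3 with h4 | h4
    · exact om_ne_one (sub_eq_zero.1 h4)
    · exact ha h4
  refine mul_left_cancel₀ hne ?_
  rw [h, eval_one]
  linear_combination ((R.map (fun r => r - om ^ 2 * a)).prod * MS yb' R * a ^ 2 * (om - 1)) * om_eq

theorem yb'_two (a b : ℂ) : MS yb' (a ::ₘ b ::ₘ 0) = a + b := by
  rcases eq_or_ne a b with h | h
  · subst h
    obtain ⟨p, hp, he⟩ := MS_poly yb' (d := 2) (a ::ₘ 0) (by
      intro j hj
      rw [yb'_natDegree]
      unfold ye'
      rw [Multiset.card_cons, Multiset.card_zero] at hj ⊢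
      omega)
    have h2 : p = X + C a := by
      apply Polynomial.eq_of_infinite_eval_eq
      refine Set.Infinite.mono (s := {z : ℂ | z ≠ a}) ?_ ?_
      · intro z hz
        have hz' : z ≠ a := hz
        show p.eval z = (X + C a).eval z
        rw [← he z]
        show MS yb' (z ::ₘ a ::ₘ 0) = _
        have h3 := MS_two yb' z a
        have h4 : (a - z) ≠ 0 := sub_ne_zero.2 (Ne.symm hz')
        refine mul_left_cancel₀ h4 ?_
        rw [h3, eval_add, eval_X, eval_C]
        unfold yb' ye'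
        norm_num
        ring
      · exact (Set.finite_singleton a).infinite_compl
    have h5 := he a
    rw [h2, eval_add, eval_X, eval_C] at h5
    exact h5
  · have h3 := MS_two yb' a b
    have h4 : (b - a) ≠ 0 := sub_ne_zero.2 (Ne.symm h)
    refine mul_left_cancel₀ h4 ?_
    rw [h3]
    unfold yb' ye'
    norm_num
    ring

/-- polynomial in every variable -/
theorem yb'_pol (n : ℕ) (R : Multiset ℂ) (hR : Multiset.card R + 1 = 2 * n) :
    ∃ p : ℂ[X], p.natDegree ≤ n ∧ ∀ x, MS yb' (x ::ₘ R) = p.eval x := by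
  obtain ⟨p, hp, he⟩ := MS_poly yb' (d := n) R (by
    intro j hj
    rw [yb'_natDegree]
    unfold ye'
    omega)
  exact ⟨p, hp, he⟩

end CW
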