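import Pool.Agent.Lib.MP_216314_pr.CV.SumG
import Pool.Agent.Lib.MP_216314_pr.CV.Yp
import Pool.Agent.Lib.MP_216314_pr.CV.Fus

/-!
# The full contractions of the vector of the cylinder are the Schur functions `s_{Y'}`
-/

set_option autoImplicit false

noncomputable section

namespace CW

open Finset PX CF CZ CV

/-- the Schur function of the variables `y k`, `k < 2 n` -/
def Yv (n : ℕ) (y : ℕ → ℂ) : ℂ := MS yb' ((range (2 * n)).val.map y)

/-- the constant -/
def kc (n : ℕ) : ℂ := (-om) ^ (n * (n - 1) / 2)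

theorem kc_succ (n : ℕ) : kc (n + 1) = kc n * (-om) ^ n := by
  unfold kc
  rw [← pow_add]
  congr 1
  rw [Nat.add_sub_cancel]
  obtain ⟨m, hm⟩ : ∃ m, n * (n - 1) = 2 * m := by
    rcases n with _ | n
    · exact ⟨0, rfl⟩
    · rw [Nat.add_sub_cancel, mul_comm]
      exact (even_iff_two_dvd.1 (Nat.even_mul_succ_self n))
  have h1 : (n + 1) * n = n * (n - 1) + 2 * n := by
    rcases n with _ | n
    · rfl
    · rw [Nat.add_sub_cancel]
      ring
  rw [h1, hm]
  omega

theorem Yv_cons (n : ℕ) (y : ℕ → ℂ) :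
    Yv (n + 1) y = MS yb' (y 0 ::ₘ (range (2 * n + 1)).val.map fun k => y (k + 1)) := by
  unfold Yv
  show MS yb' ((range (2 * n + 1 + 1)).val.map y) = _
  rw [map_range_succ]

theorem Yv_cons2 (n : ℕ) (y : ℕ → ℂ) :
    Yv (n + 1) y = MS yb' (y 0 ::ₘ y 1 ::ₘ (range (2 * n)).val.map fun k => y (k + 2)) := by
  rw [Yv_cons, map_range_succ]

theorem Yv_upd (n : ℕ) (y : ℕ → ℂ) (t : ℂ) :
    Yv (n + 1) (Function.update y 0 t) = MS yb' (t ::ₘ (range (2 * n + 1)).val.map fun k => y (k + 1)) := by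
  rw [Yv_cons, Function.update_self]
  have h : ((range (2 * n + 1)).val.map fun k => Function.update y 0 t (k + 1)) =
      (range (2 * n + 1)).val.map fun k => y (k + 1) := by
    refine Multiset.map_congr rfl fun k _ => ?_
    rw [Function.update_of_ne (by omega)]
  rw [h]

theorem Yv_sw {n i : ℕ} (hi : i + 1 < 2 * n) (y : ℕ → ℂ) : Yv n (sw i y) = Yv n y := by
  unfold Yv
  exact congrArg (MS yb') (map_range_sw hi (fun z => z) y)

theorem Yv_pl (n : ℕ) (y : ℕ → ℂ) : Pl 0 (n + 1) (fun t => Yv (n + 1) (Function.update y 0 t)) := by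
  obtain ⟨p, hp, he⟩ := yb'_pol (n + 1) ((range (2 * n + 1)).val.map fun k => y (k + 1)) (by
    rw [Multiset.card_map]
    have : Multiset.card (range (2 * n + 1)).val = 2 * n + 1 := Finset.card_range _
    omega)
  refine ⟨p, hp, fun t _ => ?_⟩
  show t ^ 0 * Yv (n + 1) (Function.update y 0 t) = _
  rw [pow_zero, one_mul, Yv_upd, he]

theorem Yv_fus (n : ℕ) {y : ℕ → ℂ} (h0 : y 0 ≠ 0) (h : y 1 = om * y 0) :
    kc (n + 1) * Yv (n + 1) y = (-om ^ 2 * y 0 * KH n (y 0) (dl 0 y)) * (kc n * Yv n (dl 0 y)) := by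
  rw [Yv_cons2, h, yb'_fus h0, Multiset.map_map]
  have e2 : (Multiset.map ((fun r => r - om ^ 2 * y 0) ∘ fun k => y (k + 2)) (range (2 * n)).val).prod =
      ∏ k ∈ range (2 * n), (y (k + 2) - om ^ 2 * y 0) := rfl
  have e3 : ∏ k ∈ range (2 * n), (y (k + 2) - om ^ 2 * y 0) = ∏ k ∈ range (2 * n), (om ^ 2 * y 0 - y (k + 2)) := by
    have h3 : ∏ k ∈ range (2 * n), (y (k + 2) - om ^ 2 * y 0) =
        ∏ k ∈ range (2 * n), (-1 * (om ^ 2 * y 0 - y (k + 2))) :=
      Finset.prod_congr rfl fun k _ => by ring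
    rw [h3, Finset.prod_mul_distrib, Finset.prod_const, Finset.card_range, pow_mul]
    norm_num
  have e4 : Yv n (dl 0 y) = MS yb' ((range (2 * n)).val.map fun k => y (k + 2)) := rfl
  have e5 : ∏ k ∈ range (2 * n), (om ^ 2 * y 0 - dl 0 y k) = ∏ k ∈ range (2 * n), (om ^ 2 * y 0 - y (k + 2)) := rfl
  rw [e2, e3, e4]
  unfold KH
  rw [e5, kc_succ]
  ring

theorem Ht_two {y : ℕ → ℂ} (hne : y 0 ≠ y 1) : Ht 1 y {0} = -om ^ 2 * y 0 ∧ Ht 1 y {1} = y 1 := by
  have hH0 : ∀ z : ℕ → ℂ, H 1 z {0} = 1 := by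
    intro z
    have h := H_range 1 z
    have e : range 1 = {0} := rfl
    rw [e] at h
    rw [h]
    unfold AA
    simp
  have hH1 : H 1 y {1} = -om ^ 2 := by
    have h := H_exch 1 Set.univ 0 (Nat.le_refl 0) (by norm_num) y (Set.mem_univ _) {0}
    rw [hH0, hH0, ee_apply_left 0 _ {0} (by simp) (by simp), hH0] at h
    have e : sg 0 ({0} : Finset ℕ) = {1} := by decide
    rw [e, Nat.zero_add] at h
    have h2 : y 1 - y 0 ≠ 0 := sub_ne_zero.2 (Ne.symm hne)
    have h3 : om ^ 2 * (y 1 - y 0) ≠ 0 := mul_ne_zero om2_ne h2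
    refine mul_left_cancel₀ h3 ?_
    linear_combination -h + (y 1 - y 0) * om_cube + (y 1 - y 0) * om * om_cube
  have m0 : ({0} : Finset ℕ) ∈ cfn (2 * 1) 1 := by
    rw [mem_cfn]
    exact ⟨by decide, by decide⟩
  have m1 : ({1} : Finset ℕ) ∈ cfn (2 * 1) 1 := by
    rw [mem_cfn]
    exact ⟨by decide, by decide⟩
  have d0 : range (2 * 1) \ ({0} : Finset ℕ) = {1} := by decide
  have d1 : range (2 * 1) \ ({1} : Finset ℕ) = {0} := by decide
  constructor
  · unfold Ht
    rw [if_pos m0, d0, hH1, Finset.prod_singleton]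
    ring
  · unfold Ht
    rw [if_pos m1, d1, hH0, Finset.prod_singleton, mul_one]

/-- sum rule: all the full contractions of the vector of the cylinder are equal -/
theorem Ht_Ms (n : ℕ) : ∀ y : ℕ → ℂ, Gen (2 * n) y → Ms ∅ (2 * n) (kc n * Yv n y) (Ht n y) := by
  induction n with
  | zero =>
    intro y _ f hf
    rw [Wd.zero_eq hf, ev_apply]
    have h1 : Yv 0 y = 1 := MS_zero yb'
    have h2 : kc 0 = 1 := by unfold kc; norm_num
    rw [h1, h2]
    unfold Ht
    have m0 : (∅ : Finset ℕ) ∈ cfn (2 * 0) 0 := by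
      rw [mem_cfn]
      exact ⟨by decide, by decide⟩
    rw [if_pos m0, Finset.prod_empty]
    have e : range (2 * 0) \ ∅ = range 0 := by decide
    rw [e, H_range]
    unfold AA
    simp
  | succ n ih =>
    rcases n with _ | n
    · intro y hy f hf
      obtain ⟨g, i, hi, hg, rfl⟩ := Wd.succ_eq (N := 0) hf
      obtain rfl : i = 0 := by omega
      rw [Wd.zero_eq hg, LinearMap.comp_apply, ev_apply, Con_apply]
      have hne : y 0 ≠ y 1 := by
        intro h
        exact (hy.2.2 0 1 (by norm_num) (by norm_num) (by norm_num)).1 (by rw [h])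
      obtain ⟨h1, h2⟩ := Ht_two hne
      have e0 : insert 0 (mk 0 (∅ : Finset ℕ)) = {0} := by decide
      have e1 : insert (0 + 1) (mk 0 (∅ : Finset ℕ)) = {1} := by decide
      rw [e0, e1]
      show -om * (Ht 1 y {0} - om ^ 2 * Ht 1 y {1}) = _
      rw [h1, h2]
      have h3 : kc (0 + 1) = 1 := by unfold kc; norm_num
      have h4 : Yv (0 + 1) y = y 0 + y 1 := by
        rw [Yv_cons2]
        exact yb'_two _ _
      rw [h3, h4]
      linear_combination (y 0 + y 1) * om_cube
    · have base : ∀ y, GT 0 (2 * (n + 2)) y → y 1 = om * y 0 →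
          Ms ∅ (2 * (n + 2)) (kc (n + 2) * Yv (n + 2) y) (Ht (n + 2) y) := by
        intro y hy he f hf
        have hy0 : y 0 ≠ 0 := hy.1 0 (by omega)
        have h1 := Ht_fus (n + 1) 0 (Nat.zero_le _) hy0 (nz_dl (L := 2 * (n + 1)) hy.1 0)
        rw [ip_dl 0 y he] at h1
        have h1' : Ht (n + 2) y = (-om ^ 2 * y 0 * KH (n + 1) (y 0) (dl 0 y)) • Ins 0 (Ht (n + 1) (dl 0 y)) := h1
        rw [h1', map_smul, smul_eq_mul]
        have h3 : kc (n + 2) * Yv (n + 2) y = _ := Yv_fus (n + 1) hy0 he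
        rw [h3]
        have h2 := ih (dl 0 y) (gen_dl (N := 2 * (n + 1)) hy) _ (Wd.ins (N := 2 * (n + 1)) hf 0 (Nat.zero_le _))
        rw [LinearMap.comp_apply] at h2
        rw [h2]
      have node := Ms.node (e := ∅) (N := 2 * (n + 2)) (σ := fun y => kc (n + 2) * Yv (n + 2) y)
        (Ht_exch (n + 2) {y | NZ (2 * (n + 2)) y})
        (fun i y _ h2 _ => by rw [Yv_sw h2]) base
      intro y hy f hf
      have hy0 := GT0_of_gen hy
      have hP' : Pl 0 (n + 2)
          (fun t => f (Ht (n + 2) (Function.update y 0 t)) - kc (n + 2) * Yv (n + 2) (Function.update y 0 t)) := by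
        have a1 : Pl 0 (n + 2) (fun t => f (Ht (n + 2) (Function.update y 0 t))) :=
          hf.pl fun s => by
            obtain ⟨q, hq, he⟩ := Ht_deg (n + 2) 0 (by omega) y s
            refine ⟨q, hq, fun t _ => ?_⟩
            show t ^ 0 * Ht (n + 2) (Function.update y 0 t) s = _
            rw [pow_zero, one_mul, he]
        exact a1.sub (Pl.cmul (Yv_pl (n + 1) y) _)
      have hv : ∀ j, 1 ≤ j → j < 2 * (n + 2) → f (Ht (n + 2) (Function.update y 0 (om ^ 2 * y j))) -
          kc (n + 2) * Yv (n + 2) (Function.update y 0 (om ^ 2 * y j)) = 0 := by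
        intro j h1 h2
        have hz : GT 0 (2 * (n + 2)) (Function.update y 0 (om ^ 2 * y j)) :=
          hy0.upd (mul_ne_zero om2_ne (hy.1 j h2))
        have h3 := node j h1 h2 _ hz (by
          rw [Function.update_of_ne (by omega), Function.update_self]
          linear_combination (-(y j)) * om_cube) f hf
        rw [h3, sub_self]
      have hfin := nodes_one hy0 om_sq_cube hP' hv (by omega) (y 0) (hy.1 0 (by omega))
      rw [Function.update_eq_self] at hfin
      exact sub_eq_zero.1 hfin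

end CW
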