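import Pool.Agent.Lib.MP_216314_pr.CV.Nd
import Pool.Agent.Lib.MP_216314_pr.X.RefE
import Pool.Agent.Lib.MP_216314_pr.X.ExchB
import Pool.Agent.Lib.MP_216314_pr.X.FusC

/-!
# The full contractions of the open strip vector are the symplectic characters
-/

set_option autoImplicit false

noncomputable section

namespace CW

open Finset PX CF

/-- the character of the variables `XX (y k)`, `k < N` -/
def Sv (S : Multiset ℂ → ℂ) (N : ℕ) (y : ℕ → ℂ) : ℂ := S ((range N).val.map fun i => XX (y i))

/-- the sign of the odd strip -/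
def sgn (N : ℕ) : ℂ := (-1) ^ (N / 2 * (N % 2))

theorem map_range_sw {α : Type*} {N i : ℕ} (hi : i + 1 < N) (g : ℂ → α) (y : ℕ → ℂ) :
    ((range N).val.map fun k => g (sw i y k)) = (range N).val.map fun k => g (y k) := by
  have h3 : ((range N).map (Equiv.swap i (i + 1)).toEmbedding) = range N := by
    ext x
    rw [Finset.mem_map]
    constructor
    · rintro ⟨n, hn, rfl⟩
      exact mem_range.2 (swap_lt (by omega) hi (mem_range.1 hn))
    · intro hx
      exact ⟨Equiv.swap i (i + 1) x, mem_range.2 (swap_lt (by omega) hi (mem_range.1 hx)),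
        Equiv.swap_apply_self _ _ _⟩
  have h4 : ((range N).map (Equiv.swap i (i + 1)).toEmbedding).val = (range N).val := by rw [h3]
  rw [Finset.map_val] at h4
  have h5 : ((range N).val.map fun k => g (sw i y k)) =
      ((range N).val.map (Equiv.swap i (i + 1)).toEmbedding).map fun k => g (y k) := by
    rw [Multiset.map_map]
    rfl
  rw [h5, h4]

theorem Sv_sw {S : Multiset ℂ → ℂ} {N i : ℕ} (hi : i + 1 < N) (y : ℕ → ℂ) : Sv S N (sw i y) = Sv S N y := by
  unfold Sv
  rw [map_range_sw hi XX y]

/-- the first element of the multiset of the variables -/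
theorem map_range_succ {α : Type*} (N : ℕ) (g : ℕ → α) :
    (range (N + 1)).val.map g = g 0 ::ₘ (range N).val.map fun k => g (k + 1) := by
  induction N with
  | zero =>
    show Multiset.map g (Multiset.range 1) = _
    simp
  | succ N ih =>
    have h1 : ∀ M : ℕ, (range (M + 1)).val = M ::ₘ (range M).val := by
      intro M
      show Multiset.range (M + 1) = M ::ₘ Multiset.range M
      exact Multiset.range_succ M
    rw [h1 (N + 1), Multiset.map_cons, ih, h1 N, Multiset.map_cons, Multiset.cons_swap]

theorem Sv_cons (S : Multiset ℂ → ℂ) (N : ℕ) (y : ℕ → ℂ) :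
    Sv S (N + 1) y = S (XX (y 0) ::ₘ (range N).val.map fun k => XX (y (k + 1))) := by
  unfold Sv
  rw [map_range_succ]

theorem Sv_upd (S : Multiset ℂ → ℂ) (N : ℕ) (y : ℕ → ℂ) (t : ℂ) :
    Sv S (N + 1) (Function.update y 0 t) = S (XX t ::ₘ (range N).val.map fun k => XX (y (k + 1))) := by
  rw [Sv_cons, Function.update_self]
  have h : ((range N).val.map fun k => XX (Function.update y 0 t (k + 1))) =
      (range N).val.map fun k => XX (y (k + 1)) := by
    refine Multiset.map_congr rfl fun k _ => ?_
    rw [Function.update_of_ne (by omega)]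
  rw [h]

theorem Sv_mir {S : Multiset ℂ → ℂ} (hS : SC S) (N : ℕ) (y : ℕ → ℂ) :
    Mir (N / 2) (fun t => Sv S (N + 1) (Function.update y 0 t)) := by
  have h := Mir.char hS ((range N).val.map fun k => XX (y (k + 1))) (d := N / 2) (by
    rw [Multiset.card_map]
    exact (congrArg (· / 2) (Finset.card_range N)).le)
  exact h.congr fun t _ => (Sv_upd S N y t).symm

/-- fusion of the first two variables -/
theorem Sv_fus {S : Multiset ℂ → ℂ} (hS : SC S) (N : ℕ) {y : ℕ → ℂ} (h0 : y 0 ≠ 0) (h : y 1 = om * y 0) :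
    Sv S (N + 2) y = (-1) ^ N * Kf N (y 0) (dl 0 y) * Sv S N (dl 0 y) := by
  have e1 : Sv S (N + 2) y = S (XX (y 0) ::ₘ XX (y 1) ::ₘ (range N).val.map fun k => XX (y (k + 2))) := by
    rw [Sv_cons, map_range_succ]
  rw [e1, h]
  have h1 := roots_sum h0
  have h2 := roots_pair h0
  rw [hS.fus (XX (y 0)) (XX (om * y 0)) (XX (om ^ 2 * y 0)) _ h1 (by linear_combination h2)]
  rw [Multiset.map_map]
  have e2 : (Multiset.map ((fun r => r - XX (om ^ 2 * y 0)) ∘ fun k => XX (y (k + 2))) (range N).val).prod =
      ∏ k ∈ range N, (XX (y (k + 2)) - XX (om ^ 2 * y 0)) := rfl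
  have e3 : (-1 : ℂ) ^ N * Kf N (y 0) (dl 0 y) = ∏ k ∈ range N, (XX (y (k + 2)) - XX (om ^ 2 * y 0)) := by
    unfold Kf
    have h3 : (-1 : ℂ) ^ N = ∏ _k ∈ range N, (-1 : ℂ) := by
      rw [Finset.prod_const, Finset.card_range]
    rw [h3, ← Finset.prod_mul_distrib]
    refine Finset.prod_congr rfl fun k _ => ?_
    show -1 * (XX (om ^ 2 * y 0) - XX (y (k + 2))) = _
    ring
  rw [e2, ← e3]
  rfl

theorem sgn_succ (N : ℕ) : sgn (N + 2) * (-1) ^ N = sgn N := by
  unfold sgn
  rcases Nat.even_or_odd' N with ⟨m, rfl | rfl⟩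
  · have h1 : (2 * m + 2) / 2 * ((2 * m + 2) % 2) = 0 := by
      have : (2 * m + 2) % 2 = 0 := by omega
      rw [this, mul_zero]
    have h2 : 2 * m / 2 * (2 * m % 2) = 0 := by
      have : 2 * m % 2 = 0 := by omega
      rw [this, mul_zero]
    rw [h1, h2, pow_zero, one_mul, pow_mul]
    norm_num
  · have h1 : (2 * m + 1 + 2) / 2 * ((2 * m + 1 + 2) % 2) = m + 1 := by
      have e1 : (2 * m + 1 + 2) % 2 = 1 := by omega
      have e2 : (2 * m + 1 + 2) / 2 = m + 1 := by omega
      rw [e1, e2, mul_one]
    have h2 : (2 * m + 1) / 2 * ((2 * m + 1) % 2) = m := by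
      have e1 : (2 * m + 1) % 2 = 1 := by omega
      have e2 : (2 * m + 1) / 2 = m := by omega
      rw [e1, e2, mul_one]
    rw [h1, h2, pow_succ, pow_succ, pow_mul]
    norm_num

/-- sum rule: all the full contractions of the open strip vector are equal -/
theorem gv_Ms {S : Multiset ℂ → ℂ} (hS : SC S) (N : ℕ) : ∀ y : ℕ → ℂ, Gen N y →
    Ms ∅ N (sgn N * Sv S N y) (gv N y) := by
  induction N using Nat.strong_induction_on with
  | _ N ih =>
    rcases N with _ | _ | N
    · intro y _ f hf
      rw [hf.zero_eq, ev_apply, gv_zero]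
      have h1 : Sv S 0 y = 1 := hS.zero
      rw [h1]
      unfold sgn
      norm_num
    · intro y _ f hf
      rw [hf.one_eq, ev_apply, gv_one]
      have h1 : Sv S 1 y = 1 := by
        rw [Sv_cons]
        exact hS.one _
      rw [h1]
      unfold sgn
      norm_num
    · have base : ∀ y, GT 0 (N + 2) y → y 1 = om * y 0 → Ms ∅ (N + 2) (sgn (N + 2) * Sv S (N + 2) y)
          (gv (N + 2) y) := by
        intro y hy he f hf
        have hy0 : y 0 ≠ 0 := hy.1 0 (by omega)
        have h1 := fusion N 0 (Nat.zero_le N) hy0 (nz_dl hy.1 0)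
        rw [ip_dl 0 y he] at h1
        rw [h1, map_smul, smul_eq_mul, Sv_fus hS N hy0 he]
        have h2 := ih N (by omega) (dl 0 y) (gen_dl hy) _ (hf.ins 0 (Nat.zero_le N))
        rw [LinearMap.comp_apply] at h2
        rw [h2, ← sgn_succ N]
        ring
      have node := Ms.node (e := ∅) (σ := fun y => sgn (N + 2) * Sv S (N + 2) y)
        (gv_exch (N + 2) {y | NZ (N + 2) y})
        (fun i y _ h2 _ => by rw [Sv_sw h2]) base
      intro y hy f hf
      have hy0 := GT0_of_gen hy
      have hP' : Pl ((N + 1) / 2) (2 * ((N + 1) / 2))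
          (fun t => f (gv (N + 2) (Function.update y 0 t)) -
            sgn (N + 2) * Sv S (N + 2) (Function.update y 0 t)) := by
        have a1 : Pl ((N + 1) / 2) (2 * ((N + 1) / 2))
            (fun t => f (gv (N + 2) (Function.update y 0 t))) :=
          hf.pl fun s => gv_deg (N + 2) 0 (by omega) s y hy.1
        exact a1.sub (Pl.cmul (Sv_mir hS (N + 1) y) _)
      have hv : ∀ j, 1 ≤ j → j < N + 2 → f (gv (N + 2) (Function.update y 0 (om ^ 2 * y j))) -
          sgn (N + 2) * Sv S (N + 2) (Function.update y 0 (om ^ 2 * y j)) = 0 := by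
        intro j h1 h2
        have hz : GT 0 (N + 2) (Function.update y 0 (om ^ 2 * y j)) :=
          hy0.upd (mul_ne_zero om2_ne (hy.1 j h2))
        have h3 := node j h1 h2 _ hz (by
          rw [Function.update_of_ne (by omega), Function.update_self]
          linear_combination (-(y j)) * om_cube) f hf
        rw [h3, sub_self]
      have hfin := nodes_two hy0 om_sq_cube hP' hv (fun j h1 h2 => by
        have h3 := hv j h1 h2
        have hne : om ^ 2 * y j ≠ 0 := mul_ne_zero om2_ne (hy.1 j h2)
        have hz : GT 0 (N + 2) (Function.update y 0 (om ^ 2 * y j)) := hy0.upd hne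
        have e1 : Function.update y 0 (om ^ 2 * y j)⁻¹ = iv 0 (Function.update y 0 (om ^ 2 * y j)) := by
          unfold iv
          rw [Function.update_self, Function.update_idem]
        rw [e1, refl_left (by omega) hz.1]
        have e2 : Sv S (N + 2) (iv 0 (Function.update y 0 (om ^ 2 * y j))) =
            Sv S (N + 2) (Function.update y 0 (om ^ 2 * y j)) := by
          rw [← e1, Sv_upd, Sv_upd, XX_inv]
        rw [e2]
        exact h3) (by omega) (y 0) (hy.1 0 (by omega))
      rw [Function.update_eq_self] at hfin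
      exact sub_eq_zero.1 hfin

end CW
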