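import Pool.Agent.Lib.MP_216314_pr.CV.SumG

/-!
# Systems of functionals and the sum rule

A system of functionals which is closed under composition with insertions and Temperley-Lieb generators takes on the
vector of the open strip only one value.
-/

set_option autoImplicit false

noncomputable section

namespace CW

open Finset PX CF

/-- the functional is a finite combination of evaluations -/
def Fs (f : Vec →ₗ[ℂ] ℂ) : Prop := ∃ (A : Finset (Finset ℕ)) (c : Finset ℕ → ℂ), ∀ v, f v = ∑ s ∈ A, c s * v s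

theorem Fs.ev (s : Finset ℕ) : Fs (ev s) :=
  ⟨{s}, fun _ => 1, fun v => by rw [Finset.sum_singleton, one_mul, ev_apply]⟩

theorem Fs.zero : Fs 0 := ⟨∅, fun _ => 0, fun v => by rw [Finset.sum_empty, LinearMap.zero_apply]⟩

theorem Fs.smul {f : Vec →ₗ[ℂ] ℂ} (hf : Fs f) (x : ℂ) : Fs (x • f) := by
  obtain ⟨A, c, h⟩ := hf
  refine ⟨A, fun s => x * c s, fun v => ?_⟩
  rw [LinearMap.smul_apply, smul_eq_mul, h, Finset.mul_sum]
  exact Finset.sum_congr rfl fun s _ => by ring

theorem Fs.add {f g : Vec →ₗ[ℂ] ℂ} (hf : Fs f) (hg : Fs g) : Fs (f + g) := by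
  obtain ⟨A, c, h⟩ := hf
  obtain ⟨B, d, h'⟩ := hg
  refine ⟨A ∪ B, fun s => (if s ∈ A then c s else 0) + (if s ∈ B then d s else 0), fun v => ?_⟩
  rw [LinearMap.add_apply, h, h']
  have h1 : ∑ s ∈ A, c s * v s = ∑ s ∈ A ∪ B, (if s ∈ A then c s else 0) * v s := by
    rw [← Finset.sum_subset (Finset.subset_union_left (s₁ := A) (s₂ := B))]
    · exact Finset.sum_congr rfl fun s hs => by rw [if_pos hs]
    · intro s _ hs
      rw [if_neg hs, zero_mul]
  have h2 : ∑ s ∈ B, d s * v s = ∑ s ∈ A ∪ B, (if s ∈ B then d s else 0) * v s := by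
    rw [← Finset.sum_subset (Finset.subset_union_right (s₁ := A) (s₂ := B))]
    · exact Finset.sum_congr rfl fun s hs => by rw [if_pos hs]
    · intro s _ hs
      rw [if_neg hs, zero_mul]
  rw [h1, h2, ← Finset.sum_add_distrib]
  exact Finset.sum_congr rfl fun s _ => by ring

theorem Fs.sum {ι : Type*} (A : Finset ι) {f : ι → Vec →ₗ[ℂ] ℂ} (h : ∀ i ∈ A, Fs (f i)) : Fs (∑ i ∈ A, f i) := by
  classical
  induction A using Finset.induction_on with
  | empty =>
    rw [Finset.sum_empty]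
    exact Fs.zero
  | insert i s hi ih =>
    rw [Finset.sum_insert hi]
    exact (h i (Finset.mem_insert_self _ _)).add (ih fun j hj => h j (Finset.mem_insert_of_mem hj))

theorem Fs.congr {f g : Vec →ₗ[ℂ] ℂ} (hf : Fs f) (h : ∀ v, f v = g v) : Fs g := by
  obtain ⟨A, c, h'⟩ := hf
  exact ⟨A, c, fun v => by rw [← h, h']⟩

theorem Fs.comp {f : Vec →ₗ[ℂ] ℂ} (hf : Fs f) {T : Vec →ₗ[ℂ] Vec} (hT : ∀ s, Fs ((CW.ev s).comp T)) :
    Fs (f.comp T) := by
  obtain ⟨A, c, h⟩ := hf
  refine (Fs.sum A (f := fun s => c s • (CW.ev s).comp T) fun s _ => (hT s).smul (c s)).congr fun v => ?_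
  rw [LinearMap.sum_apply, LinearMap.comp_apply, h]
  exact Finset.sum_congr rfl fun s _ => rfl

theorem Fs.con (i : ℕ) (s : Finset ℕ) : Fs ((CW.ev s).comp (Con i)) := by
  refine (((Fs.ev (insert i (mk i s))).add ((Fs.ev (insert (i + 1) (mk i s))).smul (-(om ^ 2)))).smul
    (-om)).congr fun v => ?_
  rw [LinearMap.comp_apply, ev_apply, Con_apply, LinearMap.smul_apply, LinearMap.add_apply, LinearMap.smul_apply,
    ev_apply, ev_apply, smul_eq_mul, smul_eq_mul]
  ring

theorem Wd.fs {e : Finset ℕ} {N : ℕ} {f : Vec →ₗ[ℂ] ℂ} (hf : Wd e N f) : Fs f := by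
  induction hf with
  | zero => exact Fs.ev ∅
  | one => exact Fs.ev e
  | step i hi hf ih => exact ih.comp fun s => Fs.con i s

theorem Fs.pl {f : Vec →ₗ[ℂ] ℂ} (hf : Fs f) {a b : ℕ} {F : ℂ → Vec} (hF : ∀ s, Pl a b (fun t => F t s)) :
    Pl a b (fun t => f (F t)) := by
  obtain ⟨A, c, h⟩ := hf
  exact (Pl.sum A (f := fun s t => c s * F t s) fun s _ => (hF s).cmul (c s)).congr fun t _ => (h _).symm

/-- a system of functionals closed under composition with insertions and Temperley-Lieb generators -/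
structure Cl (P : ℕ → (Vec →ₗ[ℂ] ℂ) → Prop) : Prop where
  ins : ∀ {N : ℕ} {f : Vec →ₗ[ℂ] ℂ}, P (N + 2) f → ∀ i, i ≤ N → P N (f.comp (Ins i))
  ee : ∀ {N : ℕ} {f : Vec →ₗ[ℂ] ℂ}, P N f → ∀ i, i + 1 < N → P N (f.comp (ee i))
  fs : ∀ {N : ℕ} {f : Vec →ₗ[ℂ] ℂ}, P N f → Fs f

theorem Wd.cl (e : Finset ℕ) : Cl (Wd e) :=
  ⟨fun h i hi => h.ins i hi, fun h i hi => h.ee i hi, fun h => h.fs⟩

/-- all functionals of the system have the value `μ` -/
def Mq (P : ℕ → (Vec →ₗ[ℂ] ℂ) → Prop) (N : ℕ) (μ : ℂ) (v : Vec) : Prop := ∀ f, P N f → f v = μ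

/-- exchange of two arguments -/
theorem Mq.exch {P : ℕ → (Vec →ₗ[ℂ] ℂ) → Prop} (hP : Cl P) {N : ℕ} {μ : ℂ} {v v' : Vec} {x y : ℂ} {i : ℕ}
    (hi : i + 1 < N) (hne : om * x ≠ y)
    (h : ∀ s, (om * x - y) * v' s = (om * y - x) * v s + om ^ 2 * (y - x) * PX.ee i v s)
    (hv : Mq P N μ v) : Mq P N μ v' := by
  intro f hf
  have h1 : (om * x - y) • v' = (om * y - x) • v + (om ^ 2 * (y - x)) • PX.ee i v := by
    funext s
    simp only [Pi.add_apply, Pi.smul_apply, smul_eq_mul]
    exact h s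
  have h2 := congrArg f h1
  have h3 : f (PX.ee i v) = μ := hv _ (hP.ee hf i hi)
  rw [map_add, map_smul, map_smul, map_smul, smul_eq_mul, smul_eq_mul, smul_eq_mul, hv f hf, h3] at h2
  refine mul_left_cancel₀ (sub_ne_zero.2 hne) ?_
  rw [h2]
  linear_combination (y - x) * μ * om_eq - (y - x) * μ * om_eq + μ * (y - x) * om_eq

/-- exchange of the arguments number `j`, `j + 1` when `y (j + 1)` is fused with `y 0` -/
theorem Mq.node {P : ℕ → (Vec →ₗ[ℂ] ℂ) → Prop} (hP : Cl P) {N : ℕ} {h : (ℕ → ℂ) → Vec} {σ : (ℕ → ℂ) → ℂ}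
    (hE : Exch (fun y => NZ N y) 0 N h)
    (hσ : ∀ i y, 1 ≤ i → i + 1 < N → NZ N y → σ (PX.sw i y) = σ y)
    (h1 : ∀ y, GT 0 N y → y 1 = om * y 0 → Mq P N (σ y) (h y)) :
    ∀ j, 1 ≤ j → j < N → ∀ y, GT 0 N y → y j = om * y 0 → Mq P N (σ y) (h y) := by
  intro j hj
  induction j, hj using Nat.le_induction with
  | base => exact fun _ => h1
  | succ j hj ih =>
    intro hjN y hy he
    have hz : GT 0 N (PX.sw j y) := GT0_sw hy hj hjN
    have hz0 : PX.sw j y 0 = y 0 := sw_of_ne _ _ (by omega) (by omega)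
    have hzj : PX.sw j y j = om * PX.sw j y 0 := by rw [sw_left, hz0, he]
    have h2 := ih (by omega) (PX.sw j y) hz hzj
    have hne : om * PX.sw j y j ≠ PX.sw j y (j + 1) := by
      rw [sw_left, sw_right, he]
      intro h3
      apply (hy.2.2 j (j + 1) (by omega) (by omega) (by omega) hjN (by omega)).1
      rw [← h3, he]
      linear_combination ((y 0) ^ 3 * (om ^ 3)) * om_cube
    have h4 := Mq.exch hP hjN hne (hE j (Nat.zero_le _) hjN (PX.sw j y) hz.1) h2
    rw [sw_sw, hσ j y hj hjN hy.1] at h4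
    exact h4

/-- sum rule: all the functionals of a closed system have the same value on the open strip vector -/
theorem gv_cl {S : Multiset ℂ → ℂ} (hS : SC S) {P : ℕ → (Vec →ₗ[ℂ] ℂ) → Prop} (hP : Cl P) (ν : ℂ)
    (h0 : ∀ y f, P 0 f → f (gv 0 y) = ν) (h1 : ∀ y f, P 1 f → f (gv 1 y) = ν) (N : ℕ) : ∀ y : ℕ → ℂ, Gen N y →
    Mq P N (sgn N * Sv S N y * ν) (gv N y) := by
  induction N using Nat.strong_induction_on with
  | _ N ih =>
    rcases N with _ | _ | N
    · intro y _ f hf
      rw [h0 y f hf]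
      have h1 : Sv S 0 y = 1 := hS.zero
      rw [h1]
      unfold sgn
      norm_num
    · intro y _ f hf
      rw [h1 y f hf]
      have h1 : Sv S 1 y = 1 := by
        rw [Sv_cons]
        exact hS.one _
      rw [h1]
      unfold sgn
      norm_num
    · have base : ∀ y, GT 0 (N + 2) y → y 1 = om * y 0 → Mq P (N + 2) (sgn (N + 2) * Sv S (N + 2) y * ν)
          (gv (N + 2) y) := by
        intro y hy he f hf
        have hy0 : y 0 ≠ 0 := hy.1 0 (by omega)
        have h1 := fusion N 0 (Nat.zero_le N) hy0 (nz_dl hy.1 0)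
        rw [ip_dl 0 y he] at h1
        rw [h1, map_smul, smul_eq_mul, Sv_fus hS N hy0 he]
        have h2 := ih N (by omega) (dl 0 y) (gen_dl hy) _ (hP.ins hf 0 (Nat.zero_le N))
        rw [LinearMap.comp_apply] at h2
        rw [h2, ← sgn_succ N]
        ring
      have node := Mq.node hP (σ := fun y => sgn (N + 2) * Sv S (N + 2) y * ν)
        (gv_exch (N + 2) {y | NZ (N + 2) y})
        (fun i y _ h2 _ => by rw [Sv_sw h2]) base
      intro y hy f hf
      have hy0 := GT0_of_gen hy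
      have hP' : Pl ((N + 1) / 2) (2 * ((N + 1) / 2))
          (fun t => f (gv (N + 2) (Function.update y 0 t)) -
            (sgn (N + 2) * ν) * Sv S (N + 2) (Function.update y 0 t)) := by
        have a1 : Pl ((N + 1) / 2) (2 * ((N + 1) / 2))
            (fun t => f (gv (N + 2) (Function.update y 0 t))) :=
          (hP.fs hf).pl fun s => gv_deg (N + 2) 0 (by omega) s y hy.1
        exact a1.sub (Pl.cmul (Sv_mir hS (N + 1) y) _)
      have hv : ∀ j, 1 ≤ j → j < N + 2 → f (gv (N + 2) (Function.update y 0 (om ^ 2 * y j))) -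
          (sgn (N + 2) * ν) * Sv S (N + 2) (Function.update y 0 (om ^ 2 * y j)) = 0 := by
        intro j h1 h2
        have hz : GT 0 (N + 2) (Function.update y 0 (om ^ 2 * y j)) :=
          hy0.upd (mul_ne_zero om2_ne (hy.1 j h2))
        have h3 := node j h1 h2 _ hz (by
          rw [Function.update_of_ne (by omega), Function.update_self]
          linear_combination (-(y j)) * om_cube) f hf
        rw [h3]
        ring
      have hfin := nodes_two hy0 om_sq_cube hP' hv (fun j h1 h2 => by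
        have h3 := hv j h1 h2
        have hne : om ^ 2 * y j ≠ 0 := mul_ne_zero om2_ne (hy.1 j h2)
        have hz : GT 0 (N + 2) (Function.update y 0 (om ^ 2 * y j)) := hy0.upd hne
        have e1 : Function.update y 0 (om ^ 2 * y j)⁻¹ = iv 0 (Function.update y 0 (om ^ 2 * y j)) := by
          unfold iv
          rw [Function.update_self, Function.update_idem]
        rw [e1, refl_left (by omega) hz.1]
        have e2 : Sv S (N + 2) (iv 0 (Function.update y 0 (om ^ 2 * y j))) =
            Sv S (N + 2) (Function.update y 0 (om ^ 2 * y j)) := by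
          rw [← e1, Sv_upd, Sv_upd, XX_inv]
        rw [e2]
        exact h3) (by omega) (y 0) (hy.1 0 (by omega))
      rw [Function.update_eq_self] at hfin
      rw [sub_eq_zero.1 hfin]
      ring

end CW
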