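import Pool.Agent.Lib.MP_216314_pr.CV.Sys
import Pool.Agent.Lib.MP_216314_pr.CF.SpA

/-!
# Tensor products of spin vectors
-/

set_option autoImplicit false

noncomputable section

namespace CW

open Finset PX CF

/-- the part of the configuration to the right of `k`, moved to the left by `k` -/
def dn (k : ℕ) (s : Finset ℕ) : Finset ℕ := s.preimage (fun x => x + k) (add_left_injective k).injOn

theorem mem_dn {k x : ℕ} {s : Finset ℕ} : x ∈ dn k s ↔ x + k ∈ s := by
  unfold dn
  exact Finset.mem_preimage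

/-- tensor product: `v` on the first `k` sites, `w` on the other ones -/
def tn (k : ℕ) (w : Vec) : Vec →ₗ[ℂ] Vec where
  toFun v := fun s => v (s ∩ range k) * w (dn k s)
  map_add' v v' := by
    funext s
    simp only [Pi.add_apply]
    ring
  map_smul' c v := by
    funext s
    simp only [Pi.smul_apply, smul_eq_mul, RingHom.id_apply]
    ring

theorem tn_apply (k : ℕ) (w v : Vec) (s : Finset ℕ) : tn k w v s = v (s ∩ range k) * w (dn k s) := rfl

theorem tn_ev (k : ℕ) (w : Vec) (s : Finset ℕ) : Fs ((ev s).comp (tn k w)) := by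
  refine ((Fs.ev (s ∩ range k)).smul (w (dn k s))).congr fun v => ?_
  rw [LinearMap.smul_apply, LinearMap.comp_apply, ev_apply, ev_apply, tn_apply, smul_eq_mul, mul_comm]

theorem up_lt {i k x : ℕ} (hi : i ≤ k) : up i x < k + 2 ↔ x < k := by
  unfold up
  split_ifs <;> omega

theorem tn_Ins {k i : ℕ} (hi : i ≤ k) (w v : Vec) : tn (k + 2) w (Ins i v) = Ins i (tn k w v) := by
  funext s
  rw [tn_apply, Ins_apply, Ins_apply, tn_apply]
  have h1 : cc (i ∈ s ∩ range (k + 2)) (i + 1 ∈ s ∩ range (k + 2)) = cc (i ∈ s) (i + 1 ∈ s) := by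
    have e1 : i ∈ s ∩ range (k + 2) ↔ i ∈ s := by
      rw [Finset.mem_inter, Finset.mem_range]
      exact ⟨fun h => h.1, fun h => ⟨h, by omega⟩⟩
    have e2 : i + 1 ∈ s ∩ range (k + 2) ↔ i + 1 ∈ s := by
      rw [Finset.mem_inter, Finset.mem_range]
      exact ⟨fun h => h.1, fun h => ⟨h, by omega⟩⟩
    simp only [e1, e2]
  have h2 : rm i (s ∩ range (k + 2)) = rm i s ∩ range k := by
    ext x
    rw [mem_rm, Finset.mem_inter, Finset.mem_inter, mem_rm, Finset.mem_range, Finset.mem_range, up_lt hi]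
  have h3 : dn (k + 2) s = dn k (rm i s) := by
    ext x
    rw [mem_dn, mem_dn, mem_rm]
    have : up i (x + k) = x + (k + 2) := by
      unfold up
      rw [if_neg (by omega)]
      omega
    rw [this]
  rw [h1, h2, h3]
  ring

theorem tn_ee {k i : ℕ} (hi : i + 1 < k) (w v : Vec) : tn k w (ee i v) = ee i (tn k w v) := by
  funext s
  rw [tn_apply, PairA_ee, PairA_ee, tn_apply, tn_apply]
  have e1 : i ∈ s ∩ range k ↔ i ∈ s := by
    rw [Finset.mem_inter, Finset.mem_range]
    exact ⟨fun h => h.1, fun h => ⟨h, by omega⟩⟩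
  have e2 : i + 1 ∈ s ∩ range k ↔ i + 1 ∈ s := by
    rw [Finset.mem_inter, Finset.mem_range]
    exact ⟨fun h => h.1, fun h => ⟨h, by omega⟩⟩
  have e3 : sg i (s ∩ range k) = sg i s ∩ range k := by
    ext x
    rw [PX.mem_sg, Finset.mem_inter, Finset.mem_inter, PX.mem_sg, Finset.mem_range, Finset.mem_range]
    have : Equiv.swap i (i + 1) x < k ↔ x < k := by
      rw [Equiv.swap_apply_def]
      split_ifs <;> omega
    rw [this]
  have e4 : dn k (sg i s) = dn k s := by
    ext x
    rw [mem_dn, mem_dn, PX.mem_sg, Equiv.swap_apply_of_ne_of_ne (by omega) (by omega)]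
  rw [e3, e4]
  simp only [e1, e2]
  ring

/-- the system of the full contractions of tensor products with a fixed second factor -/
def Pt (ε m : ℕ) (w : Vec) (k : ℕ) (F : Vec →ₗ[ℂ] ℂ) : Prop :=
  k % 2 = ε ∧ ∃ f, Wd ∅ (k + m) f ∧ F = f.comp (tn k w)

theorem Pt.cl (ε m : ℕ) (w : Vec) : Cl (Pt ε m w) := by
  constructor
  · rintro N _ ⟨hN, f, hf, rfl⟩ i hi
    refine ⟨by omega, f.comp (Ins i), ?_, ?_⟩
    · have h : N + 2 + m = N + m + 2 := by omega
      rw [h] at hf
      exact hf.ins i (by omega)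
    · ext v
      show f (tn (N + 2) w (Ins i v)) = f (Ins i (tn N w v))
      rw [tn_Ins hi]
  · rintro N _ ⟨hN, f, hf, rfl⟩ i hi
    refine ⟨hN, f.comp (ee i), hf.ee i (by omega), ?_⟩
    ext v
    show f (tn N w (ee i v)) = f (ee i (tn N w v))
    rw [tn_ee hi]
  · rintro N _ ⟨hN, f, hf, rfl⟩
    exact hf.fs.comp fun s => tn_ev N w s

/-- an even strip times a vector of mass `ν` -/
theorem tn_even {S : Multiset ℂ → ℂ} (hS : SC S) {k m : ℕ} (hk : Even k) {w : Vec} {ν : ℂ} (hw : Ms ∅ m ν w)
    {y : ℕ → ℂ} (hy : Gen k y) : Ms ∅ (k + m) (Sv S k y * ν) (tn k w (gv k y)) := by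
  intro f hf
  have h := gv_cl hS (Pt.cl 0 m w) ν (fun z F hF => by
    obtain ⟨-, g, hg, rfl⟩ := hF
    rw [Nat.zero_add] at hg
    rw [LinearMap.comp_apply, ← hw g hg]
    congr 1
    funext s
    rw [tn_apply, Finset.range_zero, Finset.inter_empty, gv_zero, one_mul]
    congr 1
    ext x
    rw [mem_dn, Nat.add_zero]) (fun z F hF => by
    obtain ⟨h1, -⟩ := hF
    omega) k y hy (f.comp (tn k w)) ⟨Nat.even_iff.1 hk, f, hf, rfl⟩
  rw [LinearMap.comp_apply] at h
  rw [h]
  have h1 : sgn k = 1 := by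
    unfold sgn
    rw [Nat.even_iff.1 hk, mul_zero, pow_zero]
  rw [h1, one_mul]

/-! ### One site to the left -/

/-- a down spin to the left of `w` -/
def lD (w : Vec) : Vec := fun s => if 0 ∈ s then 0 else w (dn 1 s)

/-- the first spin of `w` is up -/
def lU (w : Vec) : Vec := fun s => w (insert 0 (su 1 s))

theorem lU_Con (i : ℕ) (w : Vec) : Con i (lU w) = lU (Con (i + 1) w) := by
  funext s
  unfold lU
  rw [Con_apply, Con_apply]
  have e1 : insert 0 (su 1 (insert i (mk i s))) = insert (i + 1) (mk (i + 1) (insert 0 (su 1 s))) := by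
    ext x
    simp only [Finset.mem_insert, mem_su', PX.mem_mk]
    rcases x with _ | x
    · simp
    · simp only [Nat.add_sub_cancel]
      constructor
      · rintro (h | ⟨-, h | h | h⟩)
        · omega
        · exact Or.inl (by omega)
        · refine Or.inr (Or.inl ⟨by omega, Or.inr ⟨by omega, h.2⟩⟩)
        · refine Or.inr (Or.inr ⟨by omega, Or.inr ⟨by omega, ?_⟩⟩)
          have : x + 1 - 2 - 1 = x - 2 := by omega
          rw [this]
          exact h.2
      · rintro (h | h | h)
        · exact Or.inr ⟨by omega, Or.inl (by omega)⟩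
        · rcases h with ⟨h1, h2 | h2⟩
          · omega
          · exact Or.inr ⟨by omega, Or.inr (Or.inl ⟨by omega, h2.2⟩)⟩
        · rcases h with ⟨h1, h2 | h2⟩
          · omega
          · refine Or.inr ⟨by omega, Or.inr (Or.inr ⟨by omega, ?_⟩)⟩
            have : x + 1 - 2 - 1 = x - 2 := by omega
            rw [← this]
            exact h2.2
  have e2 : insert 0 (su 1 (insert (i + 1) (mk i s))) = insert (i + 1 + 1) (mk (i + 1) (insert 0 (su 1 s))) := by
    ext x
    simp only [Finset.mem_insert, mem_su', PX.mem_mk]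
    rcases x with _ | x
    · simp
    · simp only [Nat.add_sub_cancel]
      constructor
      · rintro (h | ⟨-, h | h | h⟩)
        · omega
        · exact Or.inl (by omega)
        · refine Or.inr (Or.inl ⟨by omega, Or.inr ⟨by omega, h.2⟩⟩)
        · refine Or.inr (Or.inr ⟨by omega, Or.inr ⟨by omega, ?_⟩⟩)
          have : x + 1 - 2 - 1 = x - 2 := by omega
          rw [this]
          exact h.2
      · rintro (h | h | h)
        · exact Or.inr ⟨by omega, Or.inl (by omega)⟩
        · rcases h with ⟨h1, h2 | h2⟩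
          · omega
          · exact Or.inr ⟨by omega, Or.inr (Or.inl ⟨by omega, h2.2⟩)⟩
        · rcases h with ⟨h1, h2 | h2⟩
          · omega
          · refine Or.inr ⟨by omega, Or.inr (Or.inr ⟨by omega, ?_⟩)⟩
            have : x + 1 - 2 - 1 = x - 2 := by omega
            rw [← this]
            exact h2.2
  rw [e1, e2]

theorem lU_Wd {N : ℕ} {f : Vec →ₗ[ℂ] ℂ} (hf : Wd ∅ N f) (hN : Even N) :
    ∃ g, Wd {0} (N + 1) g ∧ ∀ w, f (lU w) = g w := by
  induction hf with
  | zero =>
    refine ⟨_, Wd.one, fun w => ?_⟩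
    rw [ev_apply, ev_apply]
    unfold lU
    rw [su_empty]
    rfl
  | one => exact absurd hN (by decide)
  | step i hi hf ih =>
    rename_i M f'
    have hM : Even M := by
      rw [Nat.even_iff] at hN ⊢
      omega
    obtain ⟨g, hg, h⟩ := ih hM
    refine ⟨g.comp (Con (i + 1)), Wd.step (i + 1) (by omega) hg, fun w => ?_⟩
    rw [LinearMap.comp_apply, LinearMap.comp_apply, lU_Con, h]

theorem lD_Con_zero (w : Vec) : Con 0 (lD w) = lU w := by
  funext s
  unfold lU lD
  rw [Con_apply, if_pos (Finset.mem_insert_self _ _)]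
  have h1 : (0 : ℕ) ∉ insert (0 + 1) (mk 0 s) := by
    simp [PX.mem_mk]
  rw [if_neg h1]
  have h2 : dn 1 (insert (0 + 1) (mk 0 s)) = insert 0 (su 1 s) := by
    ext x
    rw [mem_dn, Finset.mem_insert, Finset.mem_insert, PX.mem_mk, mem_su']
    constructor
    · rintro (h | h | h)
      · exact Or.inl (by omega)
      · omega
      · refine Or.inr ⟨by omega, ?_⟩
        have : x + 1 - 2 = x - 1 := by omega
        rw [← this]
        exact h.2
    · rintro (h | h)
      · exact Or.inl (by omega)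
      · refine Or.inr (Or.inr ⟨by omega, ?_⟩)
        have : x + 1 - 2 = x - 1 := by omega
        rw [this]
        exact h.2
  rw [h2]
  linear_combination (w (insert 0 (su 1 s))) * om_cube

theorem lD_Con (j : ℕ) (w : Vec) : Con (j + 1) (lD w) = lD (Con j w) := by
  funext s
  unfold lD
  rw [Con_apply, Con_apply]
  by_cases h : 0 ∈ s
  · have h1 : (0 : ℕ) ∈ insert (j + 1) (mk (j + 1) s) := by
      rw [Finset.mem_insert, PX.mem_mk]
      exact Or.inr (Or.inl ⟨by omega, h⟩)
    have h2 : (0 : ℕ) ∈ insert (j + 1 + 1) (mk (j + 1) s) := by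
      rw [Finset.mem_insert, PX.mem_mk]
      exact Or.inr (Or.inl ⟨by omega, h⟩)
    rw [if_pos h1, if_pos h2, if_pos h]
    ring
  · have h1 : (0 : ℕ) ∉ insert (j + 1) (mk (j + 1) s) := by
      rw [Finset.mem_insert, PX.mem_mk]
      rintro (h1 | h1 | h1)
      · omega
      · exact h h1.2
      · omega
    have h2 : (0 : ℕ) ∉ insert (j + 1 + 1) (mk (j + 1) s) := by
      rw [Finset.mem_insert, PX.mem_mk]
      rintro (h1 | h1 | h1)
      · omega
      · exact h h1.2
      · omega
    rw [if_neg h1, if_neg h2, if_neg h]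
    have e1 : dn 1 (insert (j + 1) (mk (j + 1) s)) = insert j (mk j (dn 1 s)) := by
      ext x
      rw [mem_dn, Finset.mem_insert, Finset.mem_insert, PX.mem_mk, PX.mem_mk, mem_dn, mem_dn]
      constructor
      · rintro (h3 | h3 | h3)
        · exact Or.inl (by omega)
        · exact Or.inr (Or.inl ⟨by omega, h3.2⟩)
        · refine Or.inr (Or.inr ⟨by omega, ?_⟩)
          have : x - 2 + 1 = x + 1 - 2 := by omega
          rw [this]
          exact h3.2
      · rintro (h3 | h3 | h3)
        · exact Or.inl (by omega)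
        · exact Or.inr (Or.inl ⟨by omega, h3.2⟩)
        · refine Or.inr (Or.inr ⟨by omega, ?_⟩)
          have : x - 2 + 1 = x + 1 - 2 := by omega
          rw [← this]
          exact h3.2
    have e2 : dn 1 (insert (j + 1 + 1) (mk (j + 1) s)) = insert (j + 1) (mk j (dn 1 s)) := by
      ext x
      rw [mem_dn, Finset.mem_insert, Finset.mem_insert, PX.mem_mk, PX.mem_mk, mem_dn, mem_dn]
      constructor
      · rintro (h3 | h3 | h3)
        · exact Or.inl (by omega)
        · exact Or.inr (Or.inl ⟨by omega, h3.2⟩)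
        · refine Or.inr (Or.inr ⟨by omega, ?_⟩)
          have : x - 2 + 1 = x + 1 - 2 := by omega
          rw [this]
          exact h3.2
      · rintro (h3 | h3 | h3)
        · exact Or.inl (by omega)
        · exact Or.inr (Or.inl ⟨by omega, h3.2⟩)
        · refine Or.inr (Or.inr ⟨by omega, ?_⟩)
          have : x - 2 + 1 = x + 1 - 2 := by omega
          rw [← this]
          exact h3.2
    rw [e1, e2]

/-- the down spin on the left is contracted with an up spin of `w` -/
theorem lD_Wd (N : ℕ) : ∀ f : Vec →ₗ[ℂ] ℂ, Odd N → Wd ∅ (N + 1) f →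
    ∃ g, Wd {0} N g ∧ ∀ w, f (lD w) = g w := by
  induction N using Nat.strong_induction_on with
  | _ N ih =>
    intro f hN hf
    obtain ⟨M, rfl⟩ : ∃ M, N = M + 1 := ⟨N - 1, by have := hN.pos; omega⟩
    have hM : Even M := by
      rw [Nat.odd_iff] at hN
      rw [Nat.even_iff]
      omega
    obtain ⟨f', i, hi, hf', rfl⟩ := hf.succ_eq
    rcases i with _ | j
    · obtain ⟨g, hg, h⟩ := lU_Wd hf' hM
      refine ⟨g, hg, fun w => ?_⟩
      rw [LinearMap.comp_apply, lD_Con_zero, h]
    · obtain ⟨K, rfl⟩ : ∃ K, M = K + 2 := ⟨M - 2, by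
        rw [Nat.even_iff] at hM
        omega⟩
      obtain ⟨g, hg, h⟩ := ih (K + 1) (by omega) f' (by
        rw [Nat.even_iff] at hM
        rw [Nat.odd_iff]
        omega) hf'
      refine ⟨g.comp (Con j), Wd.step j (by omega) hg, fun w => ?_⟩
      rw [LinearMap.comp_apply, lD_Con, h, LinearMap.comp_apply]

/-- an odd strip times a vector with an odd number of sites and the mass `ν` -/
theorem tn_odd {S : Multiset ℂ → ℂ} (hS : SC S) {k m : ℕ} (hk : Odd k) (hm : Odd m) {w : Vec} {ν : ℂ}
    (hw : Ms {0} m ν w) {y : ℕ → ℂ} (hy : Gen k y) :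
    Ms ∅ (k + m) (sgn k * Sv S k y * ν) (tn k w (gv k y)) := by
  intro f hf
  have h := gv_cl hS (Pt.cl 1 m w) ν (fun z F hF => by
    obtain ⟨h1, -⟩ := hF
    omega) (fun z F hF => by
    obtain ⟨-, f', hf', rfl⟩ := hF
    rw [Nat.add_comm] at hf'
    obtain ⟨g, hg, h⟩ := lD_Wd m f' hm hf'
    rw [LinearMap.comp_apply, ← hw g hg, ← h]
    congr 1
    funext s
    rw [tn_apply]
    unfold lD
    by_cases h0 : 0 ∈ s
    · rw [if_pos h0]
      have h2 : gv 1 z (s ∩ range 1) = 0 := by
        unfold gv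
        rw [if_neg]
        rw [mem_cfn]
        rintro ⟨-, h3⟩
        have h4 : 0 ∈ s ∩ range 1 := by
          rw [Finset.mem_inter, Finset.mem_range]
          exact ⟨h0, by omega⟩
        have h5 : s ∩ range 1 = ∅ := Finset.card_eq_zero.1 h3
        rw [h5] at h4
        exact absurd h4 (Finset.notMem_empty _)
      rw [h2, zero_mul]
    · rw [if_neg h0]
      have h2 : s ∩ range 1 = ∅ := by
        rw [Finset.eq_empty_iff_forall_notMem]
        intro x hx
        rw [Finset.mem_inter, Finset.mem_range] at hx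
        obtain rfl : x = 0 := by omega
        exact h0 hx.1
      rw [h2, gv_one, one_mul]) k y hy (f.comp (tn k w)) ⟨Nat.odd_iff.1 hk, f, hf, rfl⟩
  rw [LinearMap.comp_apply] at h
  exact h

end CW
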