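import Pool.Agent.Lib.MP_216314_pr.CV.Inst
import Pool.Agent.Lib.MP_216314_pr.CZ.Fq

/-!
# The value of the pairing at the homogeneous point
-/

set_option autoImplicit false

noncomputable section

namespace CW

open Filter Topology

/-- THEOREM: the value of the pairing of the upper strip with the lower left strip and the cylinder -/
theorem V_one {k : ℕ} (hk : Even k) (n : ℕ) :
    CV.V (k + 1) (n + 1) (fun _ => 1) = CZ.ka (k + 1) (n + 1) * (CZ.SS (Multiset.replicate (k + 1) 2) *
      CZ.SS (Multiset.replicate (k + 1 + 2 * (n + 1)) 2) * CZ.MS CZ.yb' (Multiset.replicate (2 * (n + 1)) 1)) *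
      ((1 + CZ.EE k n) / 2 + PX.om * ((1 - CZ.EE k n) / 2)) :=
  CZ.V_hom vfacts (fun c n _ h => CV.V_tendsto c n h fun _ => one_ne_zero) hk

end CW
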