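import Pool.Agent.Lib.MP_216314_pr.X.SpinB
import Pool.Agent.Lib.MP_216314_pr.X.SpinC

/-!
# Full contractions of spin vectors

`Wd e N f`: the functional `f` contracts neighbouring sites until no site or one site is left; on one site it is the
evaluation at the configuration `e`.
-/

set_option autoImplicit false

noncomputable section

namespace CW

open Finset PX

/-- evaluation at a configuration -/
def ev (s : Finset ℕ) : Vec →ₗ[ℂ] ℂ where
  toFun v := v s
  map_add' _ _ := rfl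
  map_smul' _ _ := rfl

theorem ev_apply (s : Finset ℕ) (v : Vec) : ev s v = v s := rfl

/-- full contractions of vectors with `N` sites -/
inductive Wd (e : Finset ℕ) : ℕ → (Vec →ₗ[ℂ] ℂ) → Prop
  | zero : Wd e 0 (ev ∅)
  | one : Wd e 1 (ev e)
  | step {N : ℕ} {f : Vec →ₗ[ℂ] ℂ} (i : ℕ) (hi : i ≤ N) (hf : Wd e N f) : Wd e (N + 2) (f.comp (Con i))

theorem Wd.zero_eq {e : Finset ℕ} {f : Vec →ₗ[ℂ] ℂ} (h : Wd e 0 f) : f = ev ∅ := by
  cases h
  rfl

theorem Wd.one_eq {e : Finset ℕ} {f : Vec →ₗ[ℂ] ℂ} (h : Wd e 1 f) : f = ev e := by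
  cases h
  rfl

theorem Wd.succ_eq {e : Finset ℕ} {N : ℕ} {f : Vec →ₗ[ℂ] ℂ} (h : Wd e (N + 2) f) :
    ∃ (g : Vec →ₗ[ℂ] ℂ) (i : ℕ), i ≤ N ∧ Wd e N g ∧ f = g.comp (Con i) := by
  cases h with
  | step i hi hf => exact ⟨_, i, hi, hf, rfl⟩

/-- composition with an insertion -/
theorem Wd.ins {e : Finset ℕ} {N : ℕ} : ∀ {f : Vec →ₗ[ℂ] ℂ}, Wd e (N + 2) f → ∀ i, i ≤ N →
    Wd e N (f.comp (Ins i)) := by
  induction N using Nat.strong_induction_on with
  | _ N ih =>
    intro f hf i hi
    obtain ⟨g, j, hj, hg, rfl⟩ := hf.succ_eq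
    rcases Nat.lt_or_ge i j with h1 | h1
    · rcases Nat.eq_or_lt_of_le (Nat.succ_le_of_lt h1) with h2 | h2
      · have e1 : (g.comp (Con j)).comp (Ins i) = g := by
          ext v
          simp only [LinearMap.comp_apply]
          rw [← h2, Con_succ_Ins]
        rw [e1]
        exact hg
      · obtain ⟨c, rfl⟩ : ∃ c, j = c + 2 := ⟨j - 2, by omega⟩
        obtain ⟨M, rfl⟩ : ∃ M, N = M + 2 := ⟨N - 2, by omega⟩
        have e1 : (g.comp (Con (c + 2))).comp (Ins i) = (g.comp (Ins i)).comp (Con c) := by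
          ext v
          simp only [LinearMap.comp_apply]
          rw [Con_Ins_far (by omega)]
        rw [e1]
        exact Wd.step c (by omega) (ih M (by omega) hg i (by omega))
    · rcases Nat.eq_or_lt_of_le h1 with h2 | h2
      · have e1 : (g.comp (Con j)).comp (Ins i) = g := by
          ext v
          simp only [LinearMap.comp_apply]
          rw [← h2, Con_Ins_self]
        rw [e1]
        exact hg
      · rcases Nat.eq_or_lt_of_le (Nat.succ_le_of_lt h2) with h3 | h3
        · have e1 : (g.comp (Con j)).comp (Ins i) = g := by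
            ext v
            simp only [LinearMap.comp_apply]
            rw [← h3, Nat.succ_eq_add_one, Con_Ins_succ]
          rw [e1]
          exact hg
        · obtain ⟨c, rfl⟩ : ∃ c, i = c + 2 := ⟨i - 2, by omega⟩
          obtain ⟨M, rfl⟩ : ∃ M, N = M + 2 := ⟨N - 2, by omega⟩
          have e1 : (g.comp (Con j)).comp (Ins (c + 2)) = (g.comp (Ins c)).comp (Con j) := by
            ext v
            simp only [LinearMap.comp_apply]
            rw [Con_Ins_far' (by omega)]
          rw [e1]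
          exact Wd.step j (by omega) (ih M (by omega) hg c (by omega))

/-- composition with a Temperley-Lieb generator -/
theorem Wd.ee {e : Finset ℕ} {N : ℕ} {f : Vec →ₗ[ℂ] ℂ} (hf : Wd e N f) (i : ℕ) (hi : i + 1 < N) :
    Wd e N (f.comp (ee i)) := by
  obtain ⟨M, rfl⟩ : ∃ M, N = M + 2 := ⟨N - 2, by omega⟩
  have h := Wd.step i (by omega) (hf.ins i (by omega))
  have e1 : (f.comp (Ins i)).comp (Con i) = f.comp (PX.ee i) := by
    ext v
    rfl
  rwa [e1] at h

/-- all full contractions of `v` have the value `μ` -/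
def Ms (e : Finset ℕ) (N : ℕ) (μ : ℂ) (v : Vec) : Prop := ∀ f, Wd e N f → f v = μ

theorem Ms.con {e : Finset ℕ} {N : ℕ} {μ : ℂ} {v : Vec} (h : Ms e (N + 2) μ v) {i : ℕ} (hi : i ≤ N) :
    Ms e N μ (Con i v) := fun _ hf => h _ (Wd.step i hi hf)

theorem Ms.ins {e : Finset ℕ} {N : ℕ} {μ : ℂ} {v : Vec} (h : Ms e N μ v) {i : ℕ} (hi : i ≤ N) :
    Ms e (N + 2) μ (Ins i v) := fun _ hf => h _ (hf.ins i hi)

theorem Ms.ee {e : Finset ℕ} {N : ℕ} {μ : ℂ} {v : Vec} (h : Ms e N μ v) {i : ℕ} (hi : i + 1 < N) :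
    Ms e N μ (PX.ee i v) := fun _ hf => h _ (hf.ee i hi)

theorem Ms.smul {e : Finset ℕ} {N : ℕ} {μ : ℂ} {v : Vec} (h : Ms e N μ v) (c : ℂ) :
    Ms e N (c * μ) (c • v) := fun f hf => by rw [map_smul, h f hf, smul_eq_mul]

/-- a functional of this form exists -/
theorem exists_Wd (e : Finset ℕ) (N : ℕ) : ∃ f, Wd e N f := by
  induction N using Nat.strong_induction_on with
  | _ N ih =>
    rcases N with _ | _ | N
    · exact ⟨_, Wd.zero⟩
    · exact ⟨_, Wd.one⟩
    · obtain ⟨f, hf⟩ := ih N (by omega)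
      exact ⟨_, Wd.step 0 (Nat.zero_le _) hf⟩

end CW
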